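import Mathlib

/-!
# Rings with one place at infinity (project AB2, abstract part)

`k` is a finite field, `R` a Dedekind domain over `k` with a degree function and leading
coefficients (one place at infinity, of degree one).
-/

set_option autoImplicit false
set_option linter.unusedSectionVars false

namespace Pool.Agent.AB

/-- the ring `R` over the field `k` has one place at infinity, of degree one: `d` is the degree
(pole order) and `lc` the leading coefficient -/
structure OneInf (k R : Type) [Field k] [CommRing R] [Algebra k R] where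
  /-- the degree -/
  d : R → ℕ
  /-- the leading coefficient -/
  lc : R → k
  lc_zero : lc 0 = 0
  lc_ne : ∀ a : R, a ≠ 0 → lc a ≠ 0
  lc_mul : ∀ a b : R, lc (a * b) = lc a * lc b
  lc_alg : ∀ c : k, lc (algebraMap k R c) = c
  d_alg : ∀ c : k, d (algebraMap k R c) = 0
  d_mul : ∀ a b : R, a ≠ 0 → b ≠ 0 → d (a * b) = d a + d b
  add_of_lt : ∀ a b : R, a ≠ 0 → b ≠ 0 → d a < d b → d (a + b) = d b ∧ lc (a + b) = lc b
  sub_lt : ∀ a b : R, a ≠ 0 → b ≠ 0 → a ≠ b → d a = d b → lc a = lc b → d (a - b) < d a
  growth : ∃ c : ℕ, ∀ n : ℕ,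
    Nat.card k ^ n ≤ Nat.card k ^ c * Nat.card {a : R // a = 0 ∨ d a ≤ n}

/-- the norm to `k` of the class of `u` in `R / I`: the determinant of the multiplication -/
noncomputable def Nk (k : Type) {R : Type} [Field k] [CommRing R] [Algebra k R] (u : R)
    (I : Ideal R) : k :=
  LinearMap.det (LinearMap.mulLeft k (Ideal.Quotient.mk I u))

/-- the power residue symbol of order `l` -/
noncomputable def Sy (k : Type) {R : Type} [Field k] [CommRing R] [Algebra k R] (l : ℕ) (u : R)
    (I : Ideal R) : k :=
  Nk k u I ^ ((Nat.card k - 1) / l)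

/-- `u` generates the `l`-th power of the ideal `J` and its leading coefficient is an `l`-th
power -/
def Rad {k R : Type} [Field k] [CommRing R] [Algebra k R] (X : OneInf k R) (l : ℕ) (u : R)
    (J : Ideal R) : Prop :=
  u ≠ 0 ∧ J ^ l = Ideal.span {u} ∧ ∃ c : k, X.lc u = c ^ l

end Pool.Agent.AB
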