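import Pool.Agent.Lib.MP_5de024_nt.Bc2
import Pool.Agent.Lib.MP_5de024_nt.Val

/-!
# The base change `x = x' ^ l` and constants (piece Bc3)
-/

set_option autoImplicit false
set_option linter.unusedSectionVars false

namespace Pool.Agent.AB

variable (p : ℕ) [Fact p.Prime] (K : Type) [Field K] [Algebra (Fx p) K] [Algebra (Rx p) K]
  [IsScalarTower (Rx p) (Fx p) K]

/-- `bc_all` with the description of the elements of `K'` -/
private theorem bc3_all [FiniteDimensional (Fx p) K] [IsGalois (Fx p) K] (hNI : NI p K) (m : ℕ)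
    (hm0 : 0 < m) (ζ : K) (hζ : IsPrimitiveRoot ζ m) :
    ∃ (K' : Type) (_ : Field K') (_ : Algebra (Fx p) K') (_ : Algebra (Rx p) K')
      (_ : IsScalarTower (Rx p) (Fx p) K') (ι : K →+* K') (β : Gl p K ≃* Gl p K'),
      FiniteDimensional (Fx p) K' ∧ IsGalois (Fx p) K' ∧ NI p K' ∧
      ι (xk p K) = xk p K' ^ m ∧
      (∀ s : K, IsIntegral (Rx p) s → IsIntegral (Rx p) (ι s)) ∧
      (∀ (σ : Gl p K) (s : K), β σ (ι s) = ι (σ s)) ∧
      (∀ (u : K) (z : K'), ι u = z ^ m → ∃ (j : ℤ) (w : K), u = xk p K ^ j * w ^ m) ∧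
      (∀ z : K', ∃ c : Fin m → K, z = ∑ i, ι (c i) * xk p K' ^ (i : ℕ)) ∧
      (∀ c : Fin m → K, ∑ i, ι (c i) * xk p K' ^ (i : ℕ) = 0 → ∀ i, c i = 0) := by
  obtain ⟨K', _, _, _, _, ι, h1, h2, h3, h4, h5, h6, h7⟩ :=
    bc_field p K m hm0 (irr_base p K hNI m hm0)
  have hspan := bc_span ι h2 h4 (Module.finBasis (Fx p) K)
  have hfd : FiniteDimensional (Fx p) K' :=
    ⟨⟨(Set.finite_range fun j => ι ((Module.finBasis (Fx p) K) j)).toFinset, by
      rw [Set.Finite.coe_toFinset]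
      exact hspan⟩⟩
  have hle : Module.finrank (Fx p) K' ≤ Module.finrank (Fx p) K := by
    have h8 := finrank_range_le_card (R := Fx p)
      (fun j => ι ((Module.finBasis (Fx p) K) j))
    rw [Set.finrank, hspan, finrank_top, Fintype.card_fin] at h8
    exact h8
  choose τ hτ using h6
  let β0 : Gl p K →* Gl p K' :=
    { toFun := τ
      map_one' := bc_ext ι h4 _ _ fun s => by
        rw [hτ]
        rfl
      map_mul' := fun a b => bc_ext ι h4 _ _ fun s => by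
        rw [hτ]
        change ι (a (b s)) = τ a (τ b (ι s))
        rw [hτ, hτ] }
  have hβ0 : Function.Injective β0 := by
    intro a b hab
    apply AlgEquiv.ext
    intro s
    apply ι.injective
    rw [← hτ, ← hτ]
    exact congrArg (fun t : Gl p K' => t (ι s)) hab
  have hc1 : Nat.card (Gl p K) = Module.finrank (Fx p) K := IsGalois.card_aut_eq_finrank (Fx p) K
  have hc2 : Nat.card (Gl p K') ≤ Module.finrank (Fx p) K' := by
    have h8 := AlgEquiv.card_le (F := Fx p) (K := K')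
    simpa [Nat.card_eq_fintype_card] using h8
  have hfin : Finite (Gl p K') := inferInstance
  have hc3 : Nat.card (Gl p K) ≤ Nat.card (Gl p K') := Nat.card_le_card_of_injective _ hβ0
  have hbij : Function.Bijective β0 :=
    (Nat.bijective_iff_injective_and_card _).2 ⟨hβ0, by omega⟩
  have hc4 : Nat.card (Gl p K') = Module.finrank (Fx p) K' := by omega
  have hgal : IsGalois (Fx p) K' := IsGalois.of_card_aut_eq_finrank (Fx p) K' hc4
  refine ⟨K', inferInstance, inferInstance, inferInstance, inferInstance, ι,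
    MulEquiv.ofBijective β0 hbij, hfd, hgal, ?_, h1, h3, hτ,
    fun u z => bc_kummer hm0 ζ hζ ι h1 h4 h5 h7 u z, h4, h5⟩
  -- inertia
  obtain ⟨n, a, b, hab, hab0⟩ := gs_of_ni p K hNI
  intro σ' hσ' P hP
  obtain ⟨σ, rfl⟩ := hbij.2 σ'
  have hσ : σ ≠ 1 := fun h => hσ' (by rw [h, map_one])
  by_contra hcon
  push Not at hcon
  let A : Fin n → Oc p K' := fun i => ⟨ι (a i : K), h3 _ (a i).2⟩
  let B : Fin n → Oc p K' := fun i => ⟨ι (b i : K), h3 _ (b i).2⟩
  have hsum : ∑ i, A i * (B i - act p K' (β0 σ) (B i)) = 1 := by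
    apply Subtype.ext
    have e1 : ∑ i, (a i : K) * ((b i : K) - σ (b i : K)) = 1 := by
      have f1 : ∑ i, (a i : K) * (b i : K) = 1 := by
        have := congrArg (fun s : Oc p K => (s : K)) hab
        simpa using this
      have f2 : ∑ i, (a i : K) * σ (b i : K) = 0 := by
        have := congrArg (fun s : Oc p K => (s : K)) (hab0 σ hσ)
        simpa using this
      simp only [mul_sub, Finset.sum_sub_distrib]
      rw [f1, f2, sub_zero]
    have e2 := congrArg ι e1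
    rw [map_sum, map_one] at e2
    have e3 : ((∑ i, A i * (B i - act p K' (β0 σ) (B i)) : Oc p K') : K') =
        ∑ i, ι (a i : K) * (ι (b i : K) - τ σ (ι (b i : K))) := by
      rw [AddSubmonoidClass.coe_finsetSum]
      rfl
    rw [e3]
    change _ = (1 : K')
    rw [← e2]
    refine Finset.sum_congr rfl fun i _ => ?_
    rw [hτ, map_mul, map_sub]
  apply hP.ne_top
  rw [Ideal.eq_top_iff_one, ← hsum]
  refine Ideal.sum_mem _ fun i _ => Ideal.mul_mem_left _ _ ?_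
  rw [← neg_sub]
  exact P.neg_mem (hcon (B i))

/-- constants of the base change -/
private theorem bc3_const [FiniteDimensional (Fx p) K] [IsGalois (Fx p) K] (hNI : NI p K) (l : ℕ)
    (hl : l.Prime) (hlp : l ≠ p) {K' : Type} [Field K'] [Algebra (Fx p) K'] [Algebra (Rx p) K']
    (ι : K →+* K') (h1 : ι (xk p K) = xk p K' ^ l)
    (h4 : ∀ z : K', ∃ c : Fin l → K, z = ∑ i, ι (c i) * xk p K' ^ (i : ℕ))
    (h5 : ∀ c : Fin l → K, ∑ i, ι (c i) * xk p K' ^ (i : ℕ) = 0 → ∀ i, c i = 0)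
    (z : K') (n : ℕ) (hn : 0 < n) (hz : z ^ p ^ n = z) : ∃ s : K, z = ι s := by
  have hp : p.Prime := Fact.out
  have hCh : CharP K' p := charP_of p K'
  have hEx : ExpChar K' p := ExpChar.prime hp
  have hfl : Fact l.Prime := ⟨hl⟩
  -- the exponent
  obtain ⟨N, hN⟩ : ∃ N, N = n * (l - 1) := ⟨_, rfl⟩
  have hN0 : 0 < N := by
    rw [hN]
    exact Nat.mul_pos hn (Nat.sub_pos_of_lt hl.one_lt)
  have hzN : z ^ p ^ N = z := by
    rw [hN]
    generalize l - 1 = k
    induction k with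
    | zero => rw [mul_zero, pow_zero, pow_one]
    | succ k ih => rw [mul_add, mul_one, pow_add, pow_mul, ih, hz]
  have hq1 : 1 < p ^ N := Nat.one_lt_pow hN0.ne' hp.one_lt
  obtain ⟨t, ht⟩ : ∃ t : ℕ, p ^ N = l * t + 1 := by
    have h6 : ((p ^ N : ℕ) : ZMod l) = ((1 : ℕ) : ZMod l) := by
      have h7 : (p : ZMod l) ≠ 0 := by
        intro h8
        rw [ZMod.natCast_eq_zero_iff] at h8
        exact hlp ((Nat.prime_dvd_prime_iff_eq hl hp).1 h8)
      rw [hN, Nat.cast_pow, mul_comm, pow_mul, ZMod.pow_card_sub_one_eq_one h7, one_pow,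
        Nat.cast_one]
    rw [ZMod.natCast_eq_natCast_iff] at h6
    obtain ⟨t, ht⟩ := (Nat.modEq_iff_dvd' hq1.le).1 h6.symm
    exact ⟨t, by omega⟩
  have ht0 : 0 < t := by
    rcases Nat.eq_zero_or_pos t with h6 | h6
    · rw [h6] at ht
      omega
    · exact h6
  -- the coefficients
  obtain ⟨c, hc⟩ := h4 z
  have hpow : ∀ i : Fin l, (ι (c i) * xk p K' ^ (i : ℕ)) ^ p ^ N =
      ι (c i ^ p ^ N * xk p K ^ ((i : ℕ) * t)) * xk p K' ^ (i : ℕ) := by
    intro i
    rw [mul_pow, ← pow_mul, map_mul, map_pow, map_pow, h1, ← pow_mul, mul_assoc, ← pow_add]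
    congr 2
    rw [ht]
    ring
  have hsum : ∑ i, ι (c i ^ p ^ N * xk p K ^ ((i : ℕ) * t) - c i) * xk p K' ^ (i : ℕ) = 0 := by
    have h6 : z ^ p ^ N = ∑ i, ι (c i ^ p ^ N * xk p K ^ ((i : ℕ) * t)) * xk p K' ^ (i : ℕ) := by
      conv_lhs => rw [hc]
      rw [sum_pow_char_pow]
      exact Finset.sum_congr rfl fun i _ => hpow i
    rw [hzN] at h6
    have h7 : ∀ i : Fin l, ι (c i ^ p ^ N * xk p K ^ ((i : ℕ) * t) - c i) * xk p K' ^ (i : ℕ) =
        ι (c i ^ p ^ N * xk p K ^ ((i : ℕ) * t)) * xk p K' ^ (i : ℕ) -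
          ι (c i) * xk p K' ^ (i : ℕ) := fun i => by rw [map_sub, sub_mul]
    rw [Finset.sum_congr rfl fun i _ => h7 i, Finset.sum_sub_distrib, ← h6, ← hc, sub_self]
  have hzero : ∀ i : Fin l, (i : ℕ) ≠ 0 → c i = 0 := by
    intro i hi
    by_contra hci
    have h6 := sub_eq_zero.1 (h5 _ hsum i)
    obtain ⟨P, hPm, hx⟩ := exists_place p K
    have hP := hPm.isPrime
    obtain ⟨v, hv⟩ := exists_vl p K hNI P hP hx (c i) hci
    have h7 : c i ^ ((l * t : ℕ) : ℤ) * xk p K ^ (((i : ℕ) * t : ℕ) : ℤ) = xk p K ^ (0 : ℤ) := by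
      rw [zpow_natCast, zpow_natCast, zpow_zero]
      apply mul_right_cancel₀ hci
      rw [one_mul]
      conv_rhs => rw [← h6, ht]
      ring
    have h8 := vl_mul p K P hP _ _ _ _ (vl_zpow p K P hP _ _ ((l * t : ℕ) : ℤ) hv)
      (vl_xk p K P hP (((i : ℕ) * t : ℕ) : ℤ))
    rw [h7] at h8
    have h9 := vl_unique p K P hP hx _ _ _ h8 (vl_xk p K P hP 0)
    push_cast at h9
    have h10 : (t : ℤ) * ((l : ℤ) * v + (i : ℕ)) = 0 := by linear_combination h9
    have ht0' : (t : ℤ) ≠ 0 := by exact_mod_cast ht0.ne'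
    have h11 : (l : ℤ) * v + (i : ℕ) = 0 := (mul_eq_zero.1 h10).resolve_left ht0'
    have h12 : (l : ℤ) ∣ ((i : ℕ) : ℤ) := ⟨-v, by linear_combination h11⟩
    have h13 : l ∣ (i : ℕ) := by exact_mod_cast h12
    exact hi (Nat.eq_zero_of_dvd_of_lt h13 i.2)
  refine ⟨c ⟨0, hl.pos⟩, ?_⟩
  rw [hc, Finset.sum_eq_single (⟨0, hl.pos⟩ : Fin l)]
  · rw [pow_zero, mul_one]
  · intro i _ hi
    rw [hzero i (fun h => hi (Fin.ext h)), map_zero, zero_mul]
  · intro h
    exact absurd (Finset.mem_univ _) h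

/-- `bc_all` for a prime `l`, with the statement that the constants do not grow -/
theorem bc_const [FiniteDimensional (Fx p) K] [IsGalois (Fx p) K] (hNI : NI p K) (l : ℕ)
    (hl : l.Prime) (hlp : l ≠ p) (ζ : K) (hζ : IsPrimitiveRoot ζ l) :
    ∃ (K' : Type) (_ : Field K') (_ : Algebra (Fx p) K') (_ : Algebra (Rx p) K')
      (_ : IsScalarTower (Rx p) (Fx p) K') (ι : K →+* K') (β : Gl p K ≃* Gl p K'),
      FiniteDimensional (Fx p) K' ∧ IsGalois (Fx p) K' ∧ NI p K' ∧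
      ι (xk p K) = xk p K' ^ l ∧
      (∀ s : K, IsIntegral (Rx p) s → IsIntegral (Rx p) (ι s)) ∧
      (∀ (σ : Gl p K) (s : K), β σ (ι s) = ι (σ s)) ∧
      (∀ (u : K) (z : K'), ι u = z ^ l → ∃ (j : ℤ) (w : K), u = xk p K ^ j * w ^ l) ∧
      (∀ z : K', (∃ n : ℕ, 0 < n ∧ z ^ p ^ n = z) → ∃ s : K, z = ι s) := by
  obtain ⟨K', _, _, _, _, ι, β, g1, g2, g3, g4, g5, g6, g7, g8, g9⟩ :=
    bc3_all p K hNI l hl.pos ζ hζ
  refine ⟨K', inferInstance, inferInstance, inferInstance, inferInstance, ι, β, g1, g2, g3, g4,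
    g5, g6, g7, ?_⟩
  rintro z ⟨n, hn, hz⟩
  exact bc3_const p K hNI l hl hlp ι g4 g8 g9 z n hn hz

end Pool.Agent.AB
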