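import Mathlib

/-!
# Moving ideals in their class (piece Mov)
-/

set_option autoImplicit false
set_option linter.unusedSectionVars false

namespace Pool.Agent.AB

open nonZeroDivisors

/-- every ideal class contains an ideal prime to a given one -/
theorem exists_coprime_rep (R : Type) [CommRing R] [IsDedekindDomain R] (c : ClassGroup R)
    (T : Ideal R) (hT : T ≠ ⊥) :
    ∃ I : (Ideal R)⁰, ClassGroup.mk0 I = c ∧ (I : Ideal R) ⊔ T = ⊤ := by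
  by_cases hT1 : T = ⊤
  · obtain ⟨I, hI⟩ := ClassGroup.mk0_surjective c
    exact ⟨I, hI, by rw [hT1, sup_top_eq]⟩
  obtain ⟨J, hJ⟩ := ClassGroup.mk0_surjective c⁻¹
  have hJ0 : (J : Ideal R) ≠ 0 := mem_nonZeroDivisors_iff_ne_zero.1 J.2
  have hT0 : T ≠ 0 := hT
  obtain ⟨a, ha⟩ := IsDedekindDomain.exists_sup_span_eq
    (Ideal.mul_le_left : (J : Ideal R) * T ≤ J) (mul_ne_zero hJ0 hT0)
  have h1 : Ideal.span {a} ≤ (J : Ideal R) := ha ▸ le_sup_right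
  obtain ⟨I, hI⟩ := Ideal.dvd_iff_le.2 h1
  have h2 : T ⊔ I = ⊤ := by
    rw [hI, ← Ideal.mul_sup] at ha
    have h3 : (J : Ideal R) * (T ⊔ I) = J * 1 := by rw [ha, mul_one]
    rw [← Ideal.one_eq_top]
    exact mul_left_cancel₀ hJ0 h3
  have hI0 : I ≠ 0 := by
    rintro rfl
    rw [Ideal.zero_eq_bot, sup_bot_eq] at h2
    exact hT1 h2
  refine ⟨⟨I, mem_nonZeroDivisors_iff_ne_zero.2 hI0⟩, ?_, by rw [sup_comm]; exact h2⟩
  have ha0 : a ≠ 0 := by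
    rintro rfl
    rw [Ideal.span_singleton_zero] at hI
    exact mul_ne_zero hJ0 hI0 hI.symm
  have h4 : ClassGroup.mk0 (⟨I, mem_nonZeroDivisors_iff_ne_zero.2 hI0⟩ : (Ideal R)⁰) =
      (ClassGroup.mk0 J)⁻¹ :=
    ClassGroup.mk0_eq_mk0_inv_iff.2 ⟨a, ha0, by rw [hI, mul_comm]⟩
  rw [h4, hJ, inv_inv]

/-- ideals prime to `T` in the same class differ by quotients of elements prime to `T` -/
theorem coprime_equiv (R : Type) [CommRing R] [IsDedekindDomain R] (I J : (Ideal R)⁰)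
    (T : Ideal R) (hT : T ≠ ⊥) (hI : (I : Ideal R) ⊔ T = ⊤) (hJ : (J : Ideal R) ⊔ T = ⊤)
    (h : ClassGroup.mk0 I = ClassGroup.mk0 J) :
    ∃ a b : R, a ≠ 0 ∧ b ≠ 0 ∧ Ideal.span {a} ⊔ T = ⊤ ∧ Ideal.span {b} ⊔ T = ⊤ ∧
      Ideal.span {a} * (I : Ideal R) = Ideal.span {b} * (J : Ideal R) := by
  obtain ⟨I', hI', hI'T⟩ := exists_coprime_rep R (ClassGroup.mk0 I)⁻¹ T hT
  have h1 : ClassGroup.mk0 I = (ClassGroup.mk0 I')⁻¹ := by rw [hI', inv_inv]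
  have h2 : ClassGroup.mk0 J = (ClassGroup.mk0 I')⁻¹ := by rw [hI', inv_inv, h]
  obtain ⟨a, ha0, ha⟩ := ClassGroup.mk0_eq_mk0_inv_iff.1 h1
  obtain ⟨b, hb0, hb⟩ := ClassGroup.mk0_eq_mk0_inv_iff.1 h2
  refine ⟨b, a, hb0, ha0, ?_, ?_, ?_⟩
  · rw [← hb, ← Ideal.isCoprime_iff_sup_eq]
    exact IsCoprime.mul_left (Ideal.isCoprime_iff_sup_eq.2 hJ) (Ideal.isCoprime_iff_sup_eq.2 hI'T)
  · rw [← ha, ← Ideal.isCoprime_iff_sup_eq]
    exact IsCoprime.mul_left (Ideal.isCoprime_iff_sup_eq.2 hI) (Ideal.isCoprime_iff_sup_eq.2 hI'T)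
  · rw [← ha, ← hb]
    ring

end Pool.Agent.AB
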