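import Pool.Agent.Lib.MP_5de024_nt.C.Rec
import Pool.Agent.Lib.MP_5de024_nt.C.Mov

/-!
# The character of the class group defined by a radical (piece Beta)
-/

set_option autoImplicit false
set_option linter.unusedSectionVars false

namespace Pool.Agent.AB

open nonZeroDivisors

variable {k R : Type} [Field k] [Finite k] [CommRing R] [IsDedekindDomain R] [Algebra k R]

private theorem beta_sy_mul (X : OneInf k R) (l : ℕ) (u : R) (I J : (Ideal R)⁰) :
    Sy k l u ((I : Ideal R) * (J : Ideal R)) = Sy k l u (I : Ideal R) * Sy k l u (J : Ideal R) := by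
  have hI : (I : Ideal R) ≠ ⊥ := mem_nonZeroDivisors_iff_ne_zero.1 I.2
  have hJ : (J : Ideal R) ≠ ⊥ := mem_nonZeroDivisors_iff_ne_zero.1 J.2
  rw [Sy, Sy, Sy, nk_ideal_mul u _ _ hI hJ fun I hI => finite_quot X I hI, mul_pow]

private theorem beta_ne (X : OneInf k R) (u : R) (I : (Ideal R)⁰)
    (h : (I : Ideal R) ⊔ Ideal.span {u} = ⊤) : Nk k u (I : Ideal R) ≠ 0 := by
  have hI : (I : Ideal R) ≠ ⊥ := mem_nonZeroDivisors_iff_ne_zero.1 I.2
  have _ := finite_quot X (I : Ideal R) hI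
  exact nk_ne_zero u _ h

private theorem beta_congr (X : OneInf k R) (l : ℕ) (hl : 0 < l) (hlk : l ∣ Nat.card k - 1) (u : R)
    (J0 : Ideal R) (h : Rad X l u J0) (I J : (Ideal R)⁰)
    (hI : (I : Ideal R) ⊔ Ideal.span {u} = ⊤) (hJ : (J : Ideal R) ⊔ Ideal.span {u} = ⊤)
    (hc : ClassGroup.mk0 I = ClassGroup.mk0 J) :
    Sy k l u (I : Ideal R) = Sy k l u (J : Ideal R) := by
  have hT : Ideal.span {u} ≠ ⊥ := by
    rw [Ne, Ideal.span_singleton_eq_bot]
    exact h.1
  obtain ⟨a, b, ha, hb, haT, hbT, hab⟩ := coprime_equiv R I J _ hT hI hJ hc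
  have ha' : Ideal.span {a} ∈ (Ideal R)⁰ := mem_nonZeroDivisors_iff_ne_zero.2 (by
    rw [Ideal.zero_eq_bot, Ne, Ideal.span_singleton_eq_bot]
    exact ha)
  have hb' : Ideal.span {b} ∈ (Ideal R)⁰ := mem_nonZeroDivisors_iff_ne_zero.2 (by
    rw [Ideal.zero_eq_bot, Ne, Ideal.span_singleton_eq_bot]
    exact hb)
  have h1 := beta_sy_mul X l u ⟨_, ha'⟩ I
  have h2 := beta_sy_mul X l u ⟨_, hb'⟩ J
  have h3 := sy_principal X l hl hlk u J0 h a ha haT
  have h4 := sy_principal X l hl hlk u J0 h b hb hbT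
  simp only at h1 h2
  rw [h3, one_mul] at h1
  rw [h4, one_mul] at h2
  rw [← h1, ← h2, hab]

/-- the character of a radical -/
theorem beta_exists (X : OneInf k R) (l : ℕ) (hl : 0 < l) (hlk : l ∣ Nat.card k - 1) (u : R)
    (J : Ideal R) (h : Rad X l u J) :
    ∃ β : ClassGroup R →* kˣ, (∀ c, β c ^ l = 1) ∧ ∀ I : (Ideal R)⁰,
      (I : Ideal R) ⊔ Ideal.span {u} = ⊤ →
        ((β (ClassGroup.mk0 I) : kˣ) : k) = Sy k l u (I : Ideal R) := by
  have hT : Ideal.span {u} ≠ ⊥ := by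
    rw [Ne, Ideal.span_singleton_eq_bot]
    exact h.1
  choose rep hrep hrepT using fun c : ClassGroup R => exists_coprime_rep R c _ hT
  have hne : ∀ c, Sy k l u (rep c : Ideal R) ≠ 0 := fun c => by
    rw [Sy]
    exact pow_ne_zero _ (beta_ne X u _ (hrepT c))
  let f : ClassGroup R → kˣ := fun c => Units.mk0 _ (hne c)
  have hf : ∀ c, ((f c : kˣ) : k) = Sy k l u (rep c : Ideal R) := fun c => rfl
  have hmul : ∀ c c', f (c * c') = f c * f c' := by
    intro c c'
    refine Units.ext ?_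
    rw [Units.val_mul, hf, hf, hf, ← beta_sy_mul X, ← Submonoid.coe_mul]
    refine beta_congr X l hl hlk u J h _ _ (hrepT _) ?_ ?_
    · rw [Submonoid.coe_mul, ← Ideal.isCoprime_iff_sup_eq]
      exact IsCoprime.mul_left (Ideal.isCoprime_iff_sup_eq.2 (hrepT c))
        (Ideal.isCoprime_iff_sup_eq.2 (hrepT c'))
    · rw [hrep, map_mul, hrep, hrep]
  refine ⟨MonoidHom.mk' f hmul, fun c => ?_, fun I hI => ?_⟩
  · refine Units.ext ?_
    rw [MonoidHom.mk'_apply, Units.val_pow_eq_pow_val, hf, Units.val_one, Sy, ← pow_mul,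
      Nat.div_mul_cancel hlk]
    have _ := Fintype.ofFinite k
    rw [Nat.card_eq_fintype_card]
    exact FiniteField.pow_card_sub_one_eq_one _ (beta_ne X u _ (hrepT c))
  · rw [MonoidHom.mk'_apply, hf]
    exact beta_congr X l hl hlk u J h _ _ (hrepT _) hI (hrep _)

/-- a character is determined by its values on the ideals prime to a given one -/
theorem char_ext (T : Ideal R) (hT : T ≠ ⊥) (β β' : ClassGroup R →* kˣ)
    (h : ∀ I : (Ideal R)⁰, (I : Ideal R) ⊔ T = ⊤ →
      β (ClassGroup.mk0 I) = β' (ClassGroup.mk0 I)) : β = β' := by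
  refine MonoidHom.ext fun c => ?_
  obtain ⟨I, rfl, hI⟩ := exists_coprime_rep R c T hT
  exact h I hI

end Pool.Agent.AB
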