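import Pool.Agent.Lib.MP_5de024_nt.C.KDefs

/-!
# The Galois group acts on the class group (piece Cact)
-/

set_option autoImplicit false
set_option linter.unusedSectionVars false

namespace Pool.Agent.AB

open nonZeroDivisors

/-- the map induced on the class group by an injective endomorphism of a Dedekind domain -/
theorem cact_fun {R : Type} [CommRing R] [IsDedekindDomain R] (f : R →+* R)
    (hf : Function.Injective f) :
    ∃ F : ClassGroup R → ClassGroup R, ∀ I I' : (Ideal R)⁰,
      (I' : Ideal R) = (I : Ideal R).map f → F (ClassGroup.mk0 I) = ClassGroup.mk0 I' := by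
  have hne : ∀ I : (Ideal R)⁰, (I : Ideal R).map f ∈ (Ideal R)⁰ := fun I =>
    mem_nonZeroDivisors_iff_ne_zero.mpr
      ((Ideal.map_eq_bot_iff_of_injective hf).not.mpr (mem_nonZeroDivisors_iff_ne_zero.mp I.2))
  have hwd : ∀ I J I' J' : (Ideal R)⁰, ClassGroup.mk0 I = ClassGroup.mk0 J →
      (I' : Ideal R) = (I : Ideal R).map f → (J' : Ideal R) = (J : Ideal R).map f →
      ClassGroup.mk0 I' = ClassGroup.mk0 J' := by
    intro I J I' J' h hI hJ
    obtain ⟨x, y, hx, hy, he⟩ := ClassGroup.mk0_eq_mk0_iff.1 h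
    refine ClassGroup.mk0_eq_mk0_iff.2 ⟨f x, f y, (map_ne_zero_iff f hf).2 hx,
      (map_ne_zero_iff f hf).2 hy, ?_⟩
    have h1 := congrArg (Ideal.map f) he
    rw [Ideal.map_mul, Ideal.map_mul, Ideal.map_span, Ideal.map_span, Set.image_singleton,
      Set.image_singleton] at h1
    rw [hI, hJ]
    exact h1
  choose g hg using fun c : ClassGroup R => ClassGroup.mk0_surjective c
  refine ⟨fun c => ClassGroup.mk0 ⟨(g c : Ideal R).map f, hne (g c)⟩, fun I I' hI => ?_⟩
  exact hwd (g (ClassGroup.mk0 I)) I _ I' (hg _) rfl hI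

theorem exists_cact (p : ℕ) [Fact p.Prime] (K : Type) [Field K] [Algebra (Fx p) K]
    [Algebra (Rx p) K] [IsScalarTower (Rx p) (Fx p) K] [FiniteDimensional (Fx p) K]
    [IsGalois (Fx p) K] [IsDedekindDomain (Oc p K)] :
    ∃ s : Gl p K →* MulAut (ClassGroup (Oc p K)),
      ∀ (σ : Gl p K) (I I' : (Ideal (Oc p K))⁰),
        (I' : Ideal (Oc p K)) =
          (I : Ideal (Oc p K)).map (act p K σ : Oc p K →+* Oc p K) →
        s σ (ClassGroup.mk0 I) = ClassGroup.mk0 I' := by
  have hinj : ∀ σ : Gl p K, Function.Injective (act p K σ : Oc p K →+* Oc p K) := fun σ =>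
    (act p K σ).injective
  choose F hF using fun σ : Gl p K => cact_fun (act p K σ : Oc p K →+* Oc p K) (hinj σ)
  have hne : ∀ (σ : Gl p K) (I : (Ideal (Oc p K))⁰),
      (I : Ideal (Oc p K)).map (act p K σ : Oc p K →+* Oc p K) ∈ (Ideal (Oc p K))⁰ := fun σ I =>
    mem_nonZeroDivisors_iff_ne_zero.mpr
      ((Ideal.map_eq_bot_iff_of_injective (hinj σ)).not.mpr
        (mem_nonZeroDivisors_iff_ne_zero.mp I.2))
  have hF' : ∀ σ (I : (Ideal (Oc p K))⁰), F σ (ClassGroup.mk0 I) =
      ClassGroup.mk0 ⟨(I : Ideal (Oc p K)).map (act p K σ : Oc p K →+* Oc p K), hne σ I⟩ :=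
    fun σ I => hF σ I _ rfl
  have hone : ∀ c, F 1 c = c := by
    intro c
    obtain ⟨I, rfl⟩ := ClassGroup.mk0_surjective c
    refine hF 1 I I ?_
    have h1 : (act p K 1 : Oc p K →+* Oc p K) = RingHom.id _ := RingHom.ext fun s => act_one p K s
    rw [h1, Ideal.map_id]
  have hmul : ∀ σ τ c, F (σ * τ) c = F σ (F τ c) := by
    intro σ τ c
    obtain ⟨I, rfl⟩ := ClassGroup.mk0_surjective c
    rw [hF' τ, hF' σ]
    refine hF (σ * τ) I _ ?_
    have h1 : (act p K (σ * τ) : Oc p K →+* Oc p K) =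
        (act p K σ : Oc p K →+* Oc p K).comp (act p K τ : Oc p K →+* Oc p K) :=
      RingHom.ext fun s => act_mul p K σ τ s
    rw [h1, ← Ideal.map_map]
  have hhom : ∀ σ c d, F σ (c * d) = F σ c * F σ d := by
    intro σ c d
    obtain ⟨I, rfl⟩ := ClassGroup.mk0_surjective c
    obtain ⟨J, rfl⟩ := ClassGroup.mk0_surjective d
    rw [← map_mul, hF' σ I, hF' σ J, ← map_mul]
    refine hF σ (I * J) _ ?_
    exact (Ideal.map_mul _ _ _).symm
  refine ⟨{ toFun := fun σ =>
              { toFun := F σ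
                invFun := F σ⁻¹
                left_inv := fun c => ?_
                right_inv := fun c => ?_
                map_mul' := hhom σ }
            map_one' := ?_
            map_mul' := ?_ }, fun σ I I' h => hF σ I I' h⟩
  · rw [← hmul, inv_mul_cancel, hone]
  · rw [← hmul, mul_inv_cancel, hone]
  · exact MulEquiv.ext hone
  · exact fun σ τ => MulEquiv.ext (hmul σ τ)

end Pool.Agent.AB
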