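import Mathlib

/-!
# Duality for characters (piece ChD)
-/

set_option autoImplicit false
set_option linter.unusedSectionVars false

namespace Pool.Agent.AB

/-- characters of a finite abelian group of exponent `l` with values in a field containing a
primitive `l`-th root of unity: duality -/
theorem char_dual (K : Type) [Field K] (V : Type) [CommGroup V] [Finite V] (l : ℕ)
    (hl : l.Prime) (ζ : K) (hζ : IsPrimitiveRoot ζ l) (hexp : ∀ n : V, n ^ l = 1) :
    Finite (V →* Kˣ) ∧
    (∀ W : Subgroup V, (∀ χ : V →* Kˣ, (∀ n ∈ W, χ n = 1) → χ = 1) → W = ⊤) ∧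
    (∀ f : (V →* Kˣ) → Kˣ, (∀ χ χ', f (χ * χ') = f χ * f χ') → (∀ χ, f χ ^ l = 1) →
      ∃ n : V, ∀ χ, f χ = χ n) ∧
    (∀ n n' : V, (∀ χ : V →* Kˣ, χ n = χ n') → n = n') := by
  have hl0 : NeZero l := ⟨hl.ne_zero⟩
  have h1 : HasEnoughRootsOfUnity K l := ⟨⟨ζ, hζ⟩, rootsOfUnity.isCyclic K l⟩
  have h2 : HasEnoughRootsOfUnity K (Monoid.exponent V) :=
    HasEnoughRootsOfUnity.of_dvd K (Monoid.exponent_dvd_of_forall_pow_eq_one hexp)
  refine ⟨inferInstance, fun W hW => ?_, fun f hf _ => ?_, fun n n' h => ?_⟩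
  · rw [eq_top_iff]
    intro x _
    rw [← CommGroup.forall_monoidHom_apply_eq_one_iff (M := K)]
    intro φ hφ
    rw [hW φ hφ]
    rfl
  · let η : (V →* Kˣ) →* Kˣ :=
      { toFun := f
        map_one' := by
          have h3 : f 1 = f 1 * f 1 := (congrArg f (one_mul (1 : V →* Kˣ))).symm.trans (hf 1 1)
          exact (mul_eq_left.1 h3.symm)
        map_mul' := hf }
    exact ⟨CommGroup.monoidHomMonoidHomEquiv V K η, fun χ =>
      (CommGroup.apply_monoidHomMonoidHomEquiv K χ η).symm⟩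
  · exact (CommGroup.forall_apply_eq_apply_iff V).1 h

end Pool.Agent.AB
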