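import Pool.Agent.Lib.MP_5de024_nt.C.Abs

/-!
# Primes which split in a Kummer extension (piece Spl)
-/

set_option autoImplicit false
set_option linter.unusedSectionVars false

namespace Pool.Agent.AB

/-- `1 - ζ` divides `l` -/
theorem spl_unit {R : Type} [CommRing R] [IsDomain R] (l : ℕ) (hl : 1 < l) (ζ : R)
    (hζ : IsPrimitiveRoot ζ l) (hunit : IsUnit (l : R)) : IsUnit (ζ - 1) := by
  have h1 : ∑ i ∈ Finset.range l, ζ ^ i = 0 := by
    have h2 := mul_geom_sum ζ l
    rw [hζ.pow_eq_one, sub_self] at h2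
    exact (mul_eq_zero.1 h2).resolve_left (sub_ne_zero.2 (hζ.ne_one hl))
  have h2 : (ζ - 1) ∣ (l : R) := by
    have h3 : (l : R) = -∑ i ∈ Finset.range l, (ζ ^ i - 1) := by
      rw [Finset.sum_sub_distrib, h1, Finset.sum_const, Finset.card_range, nsmul_eq_mul, mul_one]
      ring
    rw [h3]
    refine dvd_neg.2 (Finset.dvd_sum fun i _ => ?_)
    exact sub_one_dvd_pow_sub_one ζ i
  exact isUnit_of_dvd_unit h2 hunit

/-- the elements of `B`, multiplied by `u * l`, are polynomials in `y` -/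
theorem spl_expand {R B : Type} [CommRing R] [CommRing B] [IsDomain B] [Algebra R B] (l : ℕ)
    (hl : 0 < l) (ζ : R) (hζ : IsPrimitiveRoot (algebraMap R B ζ) l) (u : R) (y : B)
    (hy : y ^ l = algebraMap R B u) (d : B ≃ₐ[R] B) (hdy : d y = algebraMap R B ζ * y)
    (hdl : ∀ x, (d ^ l) x = x) (hfix : ∀ x, d x = x → ∃ r, algebraMap R B r = x) (b : B) :
    ∃ c : ℕ → R, algebraMap R B u * l * b =
      ∑ i ∈ Finset.range l, algebraMap R B (c i) * y ^ (l - i) := by
  obtain ⟨z, hz⟩ : ∃ z, z = algebraMap R B ζ := ⟨_, rfl⟩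
  rw [← hz] at hζ hdy
  have hdz : ∀ i : ℕ, d (z ^ i) = z ^ i := by
    intro i
    rw [map_pow, hz, AlgEquiv.commutes]
  obtain ⟨E, hE⟩ : ∃ E : ℕ → B, ∀ i, E i = ∑ j ∈ Finset.range l, z ^ (i * j) * (d ^ j) b :=
    ⟨_, fun _ => rfl⟩
  have hdE : ∀ i, z ^ i * d (E i) = E i := by
    intro i
    have h1 : z ^ i * d (E i) = ∑ j ∈ Finset.range l, z ^ (i * (j + 1)) * (d ^ (j + 1)) b := by
      rw [hE, map_sum, Finset.mul_sum]
      refine Finset.sum_congr rfl fun j _ => ?_
      rw [map_mul, hdz, mul_add, mul_one, pow_add, pow_succ' d, AlgEquiv.mul_apply]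
      ring
    have h2 := Finset.sum_range_succ' (fun j => z ^ (i * j) * (d ^ j) b) l
    have h3 := Finset.sum_range_succ (fun j => z ^ (i * j) * (d ^ j) b) l
    rw [h1, hE]
    rw [h2] at h3
    have h4 : z ^ (i * l) * (d ^ l) b = z ^ (i * 0) * (d ^ 0) b := by
      rw [mul_comm i l, pow_mul, hζ.pow_eq_one, one_pow, hdl, mul_zero, pow_zero, pow_zero,
        AlgEquiv.one_apply]
    rw [h4] at h3
    exact add_right_cancel h3
  have hc : ∀ i, ∃ r, algebraMap R B r = E i * y ^ i := by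
    intro i
    apply hfix
    rw [map_mul, map_pow, hdy, mul_pow]
    calc d (E i) * (z ^ i * y ^ i) = z ^ i * d (E i) * y ^ i := by ring
      _ = E i * y ^ i := by rw [hdE]
  choose c hc using hc
  refine ⟨c, ?_⟩
  have h1 : ∑ i ∈ Finset.range l, algebraMap R B (c i) * y ^ (l - i) =
      (∑ i ∈ Finset.range l, E i) * algebraMap R B u := by
    rw [Finset.sum_mul]
    refine Finset.sum_congr rfl fun i hi => ?_
    rw [hc, mul_assoc, ← pow_add, Nat.add_sub_cancel' (Finset.mem_range.1 hi).le, hy]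
  have h2 : ∑ i ∈ Finset.range l, E i = l * b := by
    simp only [hE]
    rw [Finset.sum_comm]
    have h3 : ∀ j ∈ Finset.range l, ∑ i ∈ Finset.range l, z ^ (i * j) * (d ^ j) b =
        if j = 0 then (l : B) * b else 0 := by
      intro j hj
      rw [← Finset.sum_mul]
      split_ifs with h0
      · subst h0
        simp
      · have h4 : ∑ i ∈ Finset.range l, z ^ (i * j) = 0 := by
          have h5 := mul_geom_sum (z ^ j) l
          rw [← pow_mul, mul_comm j l, pow_mul, hζ.pow_eq_one, one_pow, sub_self] at h5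
          have h6 := (mul_eq_zero.1 h5).resolve_left
            (sub_ne_zero.2 (hζ.pow_ne_one_of_pos_of_lt h0 (Finset.mem_range.1 hj)))
          rw [← h6]
          refine Finset.sum_congr rfl fun i _ => ?_
          rw [← pow_mul, mul_comm]
        rw [h4, zero_mul]
    rw [Finset.sum_congr rfl h3, Finset.sum_ite_eq' (Finset.range l) 0]
    rw [if_pos (Finset.mem_range.2 hl)]
  rw [h1, h2]
  ring

/-- the residue field does not change -/
theorem spl_surj {R B : Type} [CommRing R] [CommRing B] [IsDomain B] [Algebra R B] (l : ℕ)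
    (hl : 0 < l) (ζ : R) (hζ : IsPrimitiveRoot (algebraMap R B ζ) l) (hunit : IsUnit (l : R))
    (u : R) (y : B)
    (hy : y ^ l = algebraMap R B u) (d : B ≃ₐ[R] B) (hdy : d y = algebraMap R B ζ * y)
    (hdl : ∀ x, (d ^ l) x = x) (hfix : ∀ x, d x = x → ∃ r, algebraMap R B r = x)
    (Q : Ideal B) (P : Ideal R) (hP : P.IsMaximal) (hQP : Q.comap (algebraMap R B) = P)
    (huP : u ∉ P) (r0 : R) (hr0 : y - algebraMap R B r0 ∈ Q) (b : B) :
    ∃ r : R, b - algebraMap R B r ∈ Q := by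
  obtain ⟨c, hc⟩ := spl_expand l hl ζ hζ u y hy d hdy hdl hfix b
  have hmk : Ideal.Quotient.mk Q y = Ideal.Quotient.mk Q (algebraMap R B r0) :=
    Ideal.Quotient.eq.2 hr0
  have h1 : algebraMap R B u * l * b - algebraMap R B (∑ i ∈ Finset.range l, c i * r0 ^ (l - i)) ∈ Q := by
    rw [← Ideal.Quotient.eq, hc, map_sum, map_sum, map_sum]
    refine Finset.sum_congr rfl fun i _ => ?_
    rw [map_mul, map_pow, hmk, map_mul (algebraMap R B), map_pow (algebraMap R B), map_mul, map_pow]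
  have hluP : u * (l : R) ∉ P := by
    intro h
    rcases hP.isPrime.mem_or_mem h with h | h
    · exact huP h
    · exact hP.ne_top (Ideal.eq_top_of_isUnit_mem _ h hunit)
  obtain ⟨t, ht⟩ := (hP.exists_inv hluP)
  obtain ⟨i, hi, hti⟩ := ht
  refine ⟨t * ∑ i ∈ Finset.range l, c i * r0 ^ (l - i), ?_⟩
  have hi' : algebraMap R B i ∈ Q := by
    rw [← hQP] at hi
    exact hi
  have h2 : b - algebraMap R B (t * ∑ i ∈ Finset.range l, c i * r0 ^ (l - i)) =
      b * algebraMap R B i + algebraMap R B t * (algebraMap R B u * l * b -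
        algebraMap R B (∑ i ∈ Finset.range l, c i * r0 ^ (l - i))) := by
    have h3 : algebraMap R B (t * (u * (l : R)) + i) = 1 := by rw [hti, map_one]
    rw [map_add, map_mul, map_mul, map_natCast] at h3
    rw [map_mul]
    linear_combination (-b) * h3
  rw [h2]
  exact Q.add_mem (Q.mul_mem_left _ hi') (Q.mul_mem_left _ h1)

/-- the residue class of `y` comes from `R` -/
theorem spl_root {R B : Type} [CommRing R] [CommRing B] [IsDomain B] [Algebra R B] (l : ℕ)
    (hl : 0 < l) (ζ : R) (hζ : IsPrimitiveRoot (algebraMap R B ζ) l) (u : R) (y : B)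
    (hy : y ^ l = algebraMap R B u) (Q : Ideal B) (hQ : Q.IsPrime) (w : R)
    (hw : algebraMap R B (u - w ^ l) ∈ Q) : ∃ r0 : R, y - algebraMap R B r0 ∈ Q := by
  classical
  have : NeZero l := ⟨hl.ne'⟩
  have h1 := hζ.pow_sub_pow_eq_prod_sub_mul y (algebraMap R B w) hl
  rw [hy, ← map_pow, ← map_sub] at h1
  rw [h1] at hw
  obtain ⟨μ, hμ, h2⟩ := hQ.prod_mem_iff.1 hw
  obtain ⟨j, -, hj⟩ := hζ.eq_pow_of_pow_eq_one ((Polynomial.mem_nthRootsFinset hl _).1 hμ)
  refine ⟨ζ ^ j * w, ?_⟩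
  rwa [map_mul, map_pow, hj]

/-- the cardinality of the residue field -/
theorem spl_card {R B : Type} [CommRing R] [CommRing B] [Algebra R B] (Q : Ideal B) (P : Ideal R)
    (hQP : Q.comap (algebraMap R B) = P) (h : ∀ b : B, ∃ r : R, b - algebraMap R B r ∈ Q) :
    Nat.card (B ⧸ Q) = Nat.card (R ⧸ P) := by
  symm
  refine Nat.card_congr (Equiv.ofBijective (Ideal.quotientMap Q (algebraMap R B) hQP.ge) ⟨?_, ?_⟩)
  · exact Ideal.quotientMap_injective' hQP.le
  · intro x
    obtain ⟨b, rfl⟩ := Ideal.Quotient.mk_surjective x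
    obtain ⟨r, hr⟩ := h b
    refine ⟨Ideal.Quotient.mk P r, ?_⟩
    rw [Ideal.quotientMap_mk]
    exact (Ideal.Quotient.eq.2 hr).symm

/-- the ring theoretic core -/
theorem spl_core {R B : Type} [CommRing R] [IsDomain R] [CommRing B] [IsDomain B] [Algebra R B]
    [Algebra.IsIntegral R B] (hinj : Function.Injective (algebraMap R B)) (l : ℕ)
    (hl : 1 < l) (ζ : R) (hζ : IsPrimitiveRoot ζ l) (hunit : IsUnit (l : R))
    (u : R) (y : B)
    (hy : y ^ l = algebraMap R B u) (d : B ≃ₐ[R] B) (hdy : d y = algebraMap R B ζ * y)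
    (hdl : ∀ x, (d ^ l) x = x) (hfix : ∀ x, d x = x → ∃ r, algebraMap R B r = x)
    (P : Ideal R) (hP : P.IsMaximal) (huP : u ∉ P) (w : R) (hw : u - w ^ l ∈ P) :
    ∃ Q1 Q2 : Ideal B, Q1.IsMaximal ∧ Q2.IsMaximal ∧ Q1 ≠ Q2 ∧
      Q1.comap (algebraMap R B) = P ∧ Q2.comap (algebraMap R B) = P ∧
      Nat.card (B ⧸ Q1) = Nat.card (R ⧸ P) ∧ Nat.card (B ⧸ Q2) = Nat.card (R ⧸ P) := by
  have hl0 : 0 < l := by omega
  have hζB : IsPrimitiveRoot (algebraMap R B ζ) l := hζ.map_of_injective hinj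
  obtain ⟨Q, hQ, hQP⟩ := Ideal.exists_ideal_over_maximal_of_isIntegral (S := B) P (by
    rw [(RingHom.injective_iff_ker_eq_bot _).1 hinj]
    exact bot_le)
  have key : ∀ Q : Ideal B, Q.IsMaximal → Q.comap (algebraMap R B) = P →
      Nat.card (B ⧸ Q) = Nat.card (R ⧸ P) := by
    intro Q hQ hQP
    have hwQ : algebraMap R B (u - w ^ l) ∈ Q := by
      rw [← hQP] at hw
      exact hw
    obtain ⟨r0, hr0⟩ := spl_root l hl0 ζ hζB u y hy Q hQ.isPrime w hwQ
    exact spl_card Q P hQP fun b => spl_surj l hl0 ζ hζB hunit u y hy d hdy hdl hfix Q P hP hQP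
      huP r0 hr0 b
  have hQ2 : (Q.comap d).IsMaximal := Ideal.comap_isMaximal_of_equiv d
  have hQ2P : (Q.comap d).comap (algebraMap R B) = P := by
    rw [← hQP]
    ext x
    rw [Ideal.mem_comap, Ideal.mem_comap, Ideal.mem_comap, AlgEquiv.commutes]
  refine ⟨Q, Q.comap d, hQ, hQ2, ?_, hQP, hQ2P, key _ hQ hQP, key _ hQ2 hQ2P⟩
  intro heq
  have hwQ : algebraMap R B (u - w ^ l) ∈ Q := by
    rw [← hQP] at hw
    exact hw
  obtain ⟨r0, hr0⟩ := spl_root l hl0 ζ hζB u y hy Q hQ.isPrime w hwQ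
  have h1 : d (y - algebraMap R B r0) ∈ Q := by
    have h2 := hr0
    rw [heq] at h2
    exact h2
  rw [map_sub, AlgEquiv.commutes, hdy] at h1
  have h2 : algebraMap R B (ζ - 1) * y ∈ Q := by
    have h3 := Q.sub_mem h1 hr0
    have h4 : algebraMap R B ζ * y - algebraMap R B r0 - (y - algebraMap R B r0) =
        algebraMap R B (ζ - 1) * y := by
      rw [map_sub, map_one]
      ring
    rwa [h4] at h3
  have h3 : IsUnit (algebraMap R B (ζ - 1)) := (spl_unit l hl ζ hζ hunit).map _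
  have h4 : y ∈ Q := (hQ.isPrime.mem_or_mem h2).resolve_left fun h =>
    hQ.ne_top (Ideal.eq_top_of_isUnit_mem _ h h3)
  apply huP
  rw [← hQP, Ideal.mem_comap, ← hy]
  exact Q.pow_mem_of_mem h4 l hl0

/-- Let `L / K` be Galois with `δ y = ζ y`, `y ^ l = u`, `L = K(y)`, and let `P` be a maximal
ideal of `R`, not containing `u`, modulo which `u` is an `l`-th power:
every prime of the integral closure `B` over `P` is moved by `δ` and has the residue field of
`P` -/
theorem spl_main (R K L B : Type) [CommRing R] [IsDedekindDomain R] [Field K] [Algebra R K]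
    [IsFractionRing R K] [Field L] [Algebra K L] [Algebra R L] [IsScalarTower R K L]
    [CommRing B] [Algebra R B] [Algebra B L] [IsScalarTower R B L] [IsIntegralClosure B R L]
    [FiniteDimensional K L] [IsGalois K L] (l : ℕ) (hl : l.Prime)
    (ζ : R) (hζ : IsPrimitiveRoot ζ l) (hunit : IsUnit (l : R)) (u : R) (hu : u ≠ 0) (y : L)
    (hy : y ^ l = algebraMap R L u) (hgen : Algebra.adjoin K {y} = ⊤)
    (hnot : ∀ z : K, z ^ l ≠ algebraMap R K u) (P : Ideal R) (hP : P.IsMaximal) (huP : u ∉ P)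
    (w : R) (hw : u - w ^ l ∈ P) :
    ∃ Q1 Q2 : Ideal B, Q1.IsMaximal ∧ Q2.IsMaximal ∧ Q1 ≠ Q2 ∧
      Q1.comap (algebraMap R B) = P ∧ Q2.comap (algebraMap R B) = P ∧
      Nat.card (B ⧸ Q1) = Nat.card (R ⧸ P) ∧ Nat.card (B ⧸ Q2) = Nat.card (R ⧸ P) := by
  have : NeZero l := ⟨hl.ne_zero⟩
  have hBL : Function.Injective (algebraMap B L) := IsIntegralClosure.algebraMap_injective B R L
  have hRK : Function.Injective (algebraMap R K) := IsFractionRing.injective R K
  have hKL : Function.Injective (algebraMap K L) := (algebraMap K L).injective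
  have hRL : Function.Injective (algebraMap R L) := by
    rw [IsScalarTower.algebraMap_eq R K L]
    exact hKL.comp hRK
  have hRB : Function.Injective (algebraMap R B) := by
    have h1 : Function.Injective ((algebraMap B L).comp (algebraMap R B)) := by
      rw [← IsScalarTower.algebraMap_eq R B L]
      exact hRL
    exact Function.Injective.of_comp h1
  have hBdom : IsDomain B := hBL.isDomain (algebraMap B L)
  have hint : Algebra.IsIntegral R B := IsIntegralClosure.isIntegral_algebra R L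
  have hζL : IsPrimitiveRoot (algebraMap R L ζ) l := hζ.map_of_injective hRL
  have hy0 : y ≠ 0 := by
    rintro rfl
    rw [zero_pow hl.ne_zero] at hy
    exact hu (hRL (hy.symm.trans (map_zero _).symm))
  -- automorphisms multiply `y` by a power of `ζ`
  have hRσ : ∀ (σ : L ≃ₐ[K] L) (r : R), σ (algebraMap R L r) = algebraMap R L r := by
    intro σ r
    rw [IsScalarTower.algebraMap_apply R K L, AlgEquiv.commutes]
  have haut : ∀ σ : L ≃ₐ[K] L, ∃ j < l, σ y = algebraMap R L (ζ ^ j) * y := by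
    intro σ
    have h1 : (σ y / y) ^ l = 1 := by
      rw [div_pow, ← map_pow, hy, hRσ, ← hy, div_self (pow_ne_zero _ hy0)]
    obtain ⟨j, hj, hj'⟩ := hζL.eq_pow_of_pow_eq_one h1
    refine ⟨j, hj, ?_⟩
    rw [map_pow, hj', div_mul_cancel₀ _ hy0]
  obtain ⟨σ, hσ⟩ : ∃ σ : L ≃ₐ[K] L, σ y ≠ y := by
    by_contra hcon
    push Not at hcon
    obtain ⟨z, hz⟩ := (IsGalois.mem_range_algebraMap_iff_fixed y).2 hcon
    apply hnot z
    apply hKL
    rw [map_pow, hz, hy, IsScalarTower.algebraMap_apply R K L]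
  obtain ⟨j, hjl, hj⟩ := haut σ
  have hj0 : j ≠ 0 := by
    rintro rfl
    rw [pow_zero, map_one, one_mul] at hj
    exact hσ hj
  have hcop : j.Coprime l := by
    refine (Nat.Coprime.symm ((Nat.Prime.coprime_iff_not_dvd hl).2 fun h => ?_))
    exact absurd (Nat.le_of_dvd (Nat.pos_of_ne_zero hj0) h) (by omega)
  have hζ1 : IsPrimitiveRoot (ζ ^ j) l := hζ.pow_of_coprime j hcop
  obtain ⟨ξ, hξ⟩ : ∃ ξ : R, ξ = ζ ^ j := ⟨_, rfl⟩
  rw [← hξ] at hj hζ1
  have hξL : IsPrimitiveRoot (algebraMap R L ξ) l := hζ1.map_of_injective hRL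
  have hpow : ∀ i : ℕ, (σ ^ i) y = algebraMap R L (ξ ^ i) * y := by
    intro i
    induction i with
    | zero => rw [pow_zero, pow_zero, map_one, one_mul, AlgEquiv.one_apply]
    | succ i ih =>
      rw [pow_succ', AlgEquiv.mul_apply, ih, map_mul, hRσ, hj, ← mul_assoc, ← map_mul, ← pow_succ]
  have hext : ∀ τ τ' : L ≃ₐ[K] L, τ y = τ' y → ∀ x, τ x = τ' x := by
    intro τ τ' h x
    have h1 : (τ : L →ₐ[K] L) = (τ' : L →ₐ[K] L) := by
      refine AlgHom.ext_of_adjoin_eq_top hgen ?_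
      intro t ht
      rw [Set.mem_singleton_iff.1 ht]
      exact h
    exact DFunLike.congr_fun h1 x
  have hσl : σ ^ l = 1 := by
    refine AlgEquiv.ext fun x => hext _ _ ?_ x
    rw [hpow, hζ1.pow_eq_one, map_one, one_mul, AlgEquiv.one_apply]
  -- the elements of `B`
  have hyint : IsIntegral R y := IsIntegral.of_pow hl.pos (by
    rw [hy]
    exact isIntegral_algebraMap)
  obtain ⟨yB, hyB⟩ := (IsIntegralClosure.isIntegral_iff (A := B)).1 hyint
  have hBe : ∀ r : R, algebraMap B L (algebraMap R B r) = algebraMap R L r := fun r =>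
    (IsScalarTower.algebraMap_apply R B L r).symm
  refine spl_core hRB l hl.one_lt ξ hζ1 hunit u yB ?_ (galRestrict R K L B σ) ?_ ?_ ?_ P hP huP w hw
  · apply hBL
    rw [map_pow, hyB, hy, hBe]
  · apply hBL
    rw [algebraMap_galRestrict_apply, hyB, hj, map_mul, hBe, hyB]
  · intro x
    rw [← map_pow, hσl, map_one, AlgEquiv.one_apply]
  · intro x hx
    have h1 : σ (algebraMap B L x) = algebraMap B L x := by
      rw [← algebraMap_galRestrict_apply R, hx]
    have h2 : ∀ i : ℕ, (σ ^ i) (algebraMap B L x) = algebraMap B L x := by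
      intro i
      induction i with
      | zero => rw [pow_zero, AlgEquiv.one_apply]
      | succ i ih => rw [pow_succ', AlgEquiv.mul_apply, ih, h1]
    have h3 : ∀ τ : L ≃ₐ[K] L, τ (algebraMap B L x) = algebraMap B L x := by
      intro τ
      obtain ⟨i, -, hi⟩ := haut τ
      have h4 : ∃ i', ξ ^ i' = ζ ^ i := by
        have h5 : (ζ ^ i) ^ l = 1 := by rw [← pow_mul, mul_comm, pow_mul, hζ.pow_eq_one, one_pow]
        obtain ⟨i', -, hi'⟩ := hζ1.eq_pow_of_pow_eq_one h5
        exact ⟨i', hi'⟩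
      obtain ⟨i', hi'⟩ := h4
      rw [hext τ (σ ^ i') (by rw [hi, hpow, hi']) _, h2]
    obtain ⟨a, ha⟩ := (IsGalois.mem_range_algebraMap_iff_fixed (algebraMap B L x)).2 h3
    have h4 : IsIntegral R a := by
      rw [← isIntegral_algebraMap_iff hKL, ha]
      exact IsIntegralClosure.isIntegral_iff.2 ⟨x, rfl⟩
    obtain ⟨r, hr⟩ := IsIntegrallyClosed.isIntegral_iff.1 h4
    refine ⟨r, hBL ?_⟩
    rw [hBe, ← ha, ← hr, IsScalarTower.algebraMap_apply R K L]

/-- Let `L / K` be Galois with `δ y = ζ y`, `y ^ l = u`, `L = K(y)`, and let `P` be a maximal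
ideal of `R` with finite residue field, not containing `u`, modulo which `u` is an `l`-th power:
every prime of the integral closure `B` over `P` is moved by `δ` and has the residue field of
`P` -/
theorem split_prime (R K L B : Type) [CommRing R] [IsDedekindDomain R] [Field K] [Algebra R K]
    [IsFractionRing R K] [Field L] [Algebra K L] [Algebra R L] [IsScalarTower R K L]
    [CommRing B] [Algebra R B] [Algebra B L] [IsScalarTower R B L] [IsIntegralClosure B R L]
    [FiniteDimensional K L] [IsGalois K L] (l : ℕ) (hl : l.Prime)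
    (ζ : R) (hζ : IsPrimitiveRoot ζ l) (hunit : IsUnit (l : R)) (u : R) (hu : u ≠ 0) (y : L)
    (hy : y ^ l = algebraMap R L u) (hgen : Algebra.adjoin K {y} = ⊤)
    (hnot : ∀ z : K, z ^ l ≠ algebraMap R K u) (P : Ideal R) (hP : P.IsMaximal) (huP : u ∉ P)
    (_hfin : Finite (R ⧸ P)) (w : R) (hw : u - w ^ l ∈ P) :
    ∃ Q1 Q2 : Ideal B, Q1.IsMaximal ∧ Q2.IsMaximal ∧ Q1 ≠ Q2 ∧
      Q1.comap (algebraMap R B) = P ∧ Q2.comap (algebraMap R B) = P ∧
      Nat.card (B ⧸ Q1) = Nat.card (R ⧸ P) ∧ Nat.card (B ⧸ Q2) = Nat.card (R ⧸ P) :=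
  spl_main R K L B l hl ζ hζ hunit u hu y hy hgen hnot P hP huP w hw

end Pool.Agent.AB
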