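import Pool.Agent.Lib.MP_5de024_nt.C.NdA
import Pool.Agent.Lib.MP_5de024_nt.C.Spl

/-!
# Non-degeneracy: an element which is an `l`-th power modulo all primes is an `l`-th power
(piece Nd)
-/

set_option autoImplicit false
set_option linter.unusedSectionVars false

namespace Pool.Agent.AB

/-- the contradiction, in a Kummer extension -/
theorem nd_aux (k R : Type) [Field k] [Finite k] [CommRing R] [IsDedekindDomain R]
    [Algebra k R] (X : OneInf k R) [Algebra (Polynomial k) R] [IsScalarTower k (Polynomial k) R]
    [Module.Finite (Polynomial k) R]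
    (hinj : Function.Injective (algebraMap (Polynomial k) R)) (l : ℕ) (hl : l.Prime)
    (ζ : k) (hζ : IsPrimitiveRoot ζ l) (u : R) (hu : u ≠ 0) (K L : Type) [Field K] [Algebra R K]
    [IsFractionRing R K] [Field L] [Algebra K L] [Algebra R L] [IsScalarTower R K L]
    [FiniteDimensional K L] [IsGalois K L] (y : L)
    (hy : y ^ l = algebraMap R L u) (hgen : Algebra.adjoin K {y} = ⊤)
    (hnot : ∀ z : K, z ^ l ≠ algebraMap R K u)
    (hcon : ∀ P : Ideal R, P.IsMaximal → u ∉ P → ∃ w : R, u - w ^ l ∈ P) : False := by
  have hNZ : NeZero l := ⟨hl.ne_zero⟩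
  have hsep : Algebra.IsSeparable K L := IsGalois.to_isSeparable
  obtain ⟨B, hB⟩ : ∃ B : Subalgebra R L, B = integralClosure R L := ⟨_, rfl⟩
  have hIC : IsIntegralClosure B R L := by
    rw [hB]
    infer_instance
  have hDed : IsDedekindDomain B := by
    rw [hB]
    exact integralClosure.isDedekindDomain R K L
  have hfin : Module.Finite R B := IsIntegralClosure.finite R K L B
  have hRL : Function.Injective (algebraMap R L) := by
    rw [IsScalarTower.algebraMap_eq R K L]
    exact (algebraMap K L).injective.comp (IsFractionRing.injective R K)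
  have hRB : Function.Injective (algebraMap R B) := by
    intro a b hab
    apply hRL
    rw [IsScalarTower.algebraMap_apply R B L, IsScalarTower.algebraMap_apply R B L, hab]
  let hAlg : Algebra (Polynomial k) B :=
    ((algebraMap R B).comp (algebraMap (Polynomial k) R)).toAlgebra
  have hST : IsScalarTower (Polynomial k) R B := IsScalarTower.of_algebraMap_eq' rfl
  have hfin2 : Module.Finite (Polynomial k) B := Module.Finite.trans R B
  have hinj2 : Function.Injective (algebraMap (Polynomial k) B) := by
    rw [IsScalarTower.algebraMap_eq (Polynomial k) R B]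
    exact hRB.comp hinj
  have hkR : Function.Injective (algebraMap k R) := (algebraMap k R).injective
  have hζR : IsPrimitiveRoot (algebraMap k R ζ) l := hζ.map_of_injective hkR
  have hlk : (l : k) ≠ 0 := (hζ.neZero' ).out
  have hunit : IsUnit (l : R) := by
    have h1 := (isUnit_iff_ne_zero.2 hlk).map (algebraMap k R)
    rwa [map_natCast] at h1
  refine no_double k R B X hinj2 (Ideal.span {u}) ?_ ?_
  · rw [Ne, Ideal.span_singleton_eq_bot]
    exact hu
  · intro P hP hPu
    have huP : u ∉ P := by
      intro h
      apply hP.ne_top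
      rw [← hPu, eq_comm, sup_eq_left, Ideal.span_singleton_le_iff_mem]
      exact h
    obtain ⟨w, hw⟩ := hcon P hP huP
    exact spl_main R K L B l hl (algebraMap k R ζ) hζR hunit u hu y hy hgen hnot P hP huP w hw

/-- non-degeneracy -/
theorem nondeg (k R : Type) [Field k] [Finite k] [CommRing R] [IsDedekindDomain R]
    [Algebra k R] (X : OneInf k R) [Algebra (Polynomial k) R] [IsScalarTower k (Polynomial k) R]
    [Module.Finite (Polynomial k) R]
    (hinj : Function.Injective (algebraMap (Polynomial k) R)) (l : ℕ) (hl : l.Prime)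
    (ζ : k) (hζ : IsPrimitiveRoot ζ l) (u : R) (hu : u ≠ 0)
    (hnot : ∀ a b : R, b ≠ 0 → b ^ l * u ≠ a ^ l) :
    ∃ P : Ideal R, P.IsMaximal ∧ u ∉ P ∧ ∀ w : R, u - w ^ l ∉ P := by
  by_contra hcon
  push Not at hcon
  have hNZ : NeZero l := ⟨hl.ne_zero⟩
  have hnotK : ∀ z : FractionRing R, z ^ l ≠ algebraMap R (FractionRing R) u := by
    intro z hz
    obtain ⟨a, b, hb, rfl⟩ := IsFractionRing.div_surjective (A := R) z
    have hb0 : b ≠ 0 := nonZeroDivisors.ne_zero hb
    have hb1 : algebraMap R (FractionRing R) b ≠ 0 := by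
      intro h
      exact hb0 ((IsFractionRing.injective R (FractionRing R)) (h.trans (map_zero _).symm))
    apply hnot a b hb0
    apply IsFractionRing.injective R (FractionRing R)
    rw [map_mul, map_pow, map_pow, ← hz, div_pow, mul_div_cancel₀ _ (pow_ne_zero _ hb1)]
  have hirr : Irreducible (Polynomial.X ^ l - Polynomial.C (algebraMap R (FractionRing R) u)) :=
    X_pow_sub_C_irreducible_of_prime hl hnotK
  have hkR : Function.Injective (algebraMap k R) := (algebraMap k R).injective
  have hζK : IsPrimitiveRoot (algebraMap R (FractionRing R) (algebraMap k R ζ)) l :=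
    (hζ.map_of_injective hkR).map_of_injective (IsFractionRing.injective R (FractionRing R))
  have hne : (primitiveRoots l (FractionRing R)).Nonempty :=
    ⟨_, (mem_primitiveRoots hl.pos).2 hζK⟩
  have hF : Fact (Irreducible (Polynomial.X ^ l -
    Polynomial.C (algebraMap R (FractionRing R) u))) := ⟨hirr⟩
  have hspl := isSplittingField_AdjoinRoot_X_pow_sub_C hne hirr
  have hgal := isGalois_of_isSplittingField_X_pow_sub_C hne hirr
    (AdjoinRoot (Polynomial.X ^ l - Polynomial.C (algebraMap R (FractionRing R) u)))
  have hfd : FiniteDimensional (FractionRing R)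
      (AdjoinRoot (Polynomial.X ^ l - Polynomial.C (algebraMap R (FractionRing R) u))) :=
    Polynomial.IsSplittingField.finiteDimensional _
      (Polynomial.X ^ l - Polynomial.C (algebraMap R (FractionRing R) u))
  refine nd_aux k R X hinj l hl ζ hζ u hu (FractionRing R)
    (AdjoinRoot (Polynomial.X ^ l - Polynomial.C (algebraMap R (FractionRing R) u)))
    (AdjoinRoot.root _) ?_ ?_ hnotK hcon
  · rw [root_X_pow_sub_C_pow, IsScalarTower.algebraMap_apply R (FractionRing R)
      (AdjoinRoot (Polynomial.X ^ l - Polynomial.C (algebraMap R (FractionRing R) u)))]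
    rfl
  · exact AdjoinRoot.adjoinRoot_eq_top

end Pool.Agent.AB
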