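import Pool.Agent.Lib.MP_5de024_nt.C.Beta
import Pool.Agent.Lib.MP_5de024_nt.C.Nd

/-!
# Duality: class field theory modulo `l` (piece Dual)
-/

set_option autoImplicit false
set_option linter.unusedSectionVars false

namespace Pool.Agent.AB

open nonZeroDivisors

variable {k R : Type} [Field k] [Finite k] [CommRing R] [IsDedekindDomain R] [Algebra k R]

/-- `k` has enough roots of unity of order `l` -/
theorem dual_roots (k : Type) [Field k] [Finite k] (l : ℕ) (hl : l.Prime)
    (hlk : l ∣ Nat.card k - 1) : HasEnoughRootsOfUnity k l := by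
  have : NeZero l := ⟨hl.ne_zero⟩
  have hcard : Nat.card kˣ = Nat.card k - 1 := Nat.card_units k
  obtain ⟨g, hg⟩ := IsCyclic.exists_ofOrder_eq_natCard (α := kˣ)
  have hpos : 0 < Nat.card kˣ := Nat.card_pos
  obtain ⟨m, hm⟩ := hlk
  have hg' : IsPrimitiveRoot g (Nat.card kˣ) := hg ▸ IsPrimitiveRoot.orderOf g
  have h1 : IsPrimitiveRoot (g ^ m) l :=
    hg'.pow hpos (by rw [hcard, hm, mul_comm])
  exact
    { prim := ⟨((g ^ m : kˣ) : k), IsPrimitiveRoot.coe_units_iff.mpr h1⟩
      cyc := rootsOfUnity.isCyclic k l }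

/-- a maximal ideal is nonzero -/
theorem dual_ne_bot [Algebra (Polynomial k) R] [Module.Finite (Polynomial k) R]
    (hinj : Function.Injective (algebraMap (Polynomial k) R)) (P : Ideal R)
    (hP : P.IsMaximal) : P ≠ ⊥ := by
  rintro rfl
  have hF : IsField R := Ring.isField_iff_maximal_bot.mpr hP
  have h2 : IsField (Polynomial k) := isField_of_isIntegral_of_isField hinj hF
  exact Polynomial.not_isField k h2

theorem dual_lc_pow (X : OneInf k R) (a : R) (n : ℕ) : X.lc (a ^ n) = X.lc a ^ n := by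
  induction n with
  | zero => rw [pow_zero, pow_zero, ← map_one (algebraMap k R), X.lc_alg]
  | succ n ih => rw [pow_succ, pow_succ, X.lc_mul, ih]

/-- a maximal ideal not containing `u` is prime to `u` -/
theorem dual_coprime (P : Ideal R) (hP : P.IsMaximal) (u : R) (hu : u ∉ P) :
    P ⊔ Ideal.span {u} = ⊤ := by
  refine hP.1.2 _ (lt_of_le_of_ne le_sup_left ?_)
  intro h
  exact hu (h ▸ (le_sup_right : Ideal.span {u} ≤ P ⊔ Ideal.span {u})
    (Ideal.mem_span_singleton_self u))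

/-- a radical with trivial symbols is an `l`-th power -/
theorem rad_trivial (X : OneInf k R) [Algebra (Polynomial k) R]
    [IsScalarTower k (Polynomial k) R] [Module.Finite (Polynomial k) R]
    (hinj : Function.Injective (algebraMap (Polynomial k) R)) (l : ℕ) (hl : l.Prime)
    (hlk : l ∣ Nat.card k - 1) (u : R) (J : Ideal R) (h : Rad X l u J)
    (h1 : ∀ P : Ideal R, P.IsMaximal → u ∉ P → Sy k l u P = 1) : ∃ w : R, u = w ^ l := by
  have := dual_roots k l hl hlk
  obtain ⟨ζ, hζ⟩ := HasEnoughRootsOfUnity.exists_primitiveRoot k l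
  by_contra hno
  have hnot : ∀ a b : R, b ≠ 0 → b ^ l * u ≠ a ^ l := by
    intro a b hb hab
    have hdv : b ^ l ∣ a ^ l := ⟨u, hab.symm⟩
    rw [IsIntegrallyClosed.pow_dvd_pow_iff hl.ne_zero] at hdv
    obtain ⟨w, rfl⟩ := hdv
    rw [mul_pow] at hab
    exact hno ⟨w, mul_left_cancel₀ (pow_ne_zero l hb) hab⟩
  obtain ⟨P, hP, huP, hPw⟩ := nondeg k R X hinj l hl ζ hζ u h.1 hnot
  have : Finite (R ⧸ P) := finite_quot X P (dual_ne_bot hinj P hP)
  obtain ⟨w, hw⟩ := (sy_max l hl hlk u P hP huP).mp (h1 P hP huP)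
  exact hPw w hw

/-- radicals with the same symbols differ by an `l`-th power -/
theorem rad_unique (X : OneInf k R) [Algebra (Polynomial k) R]
    [IsScalarTower k (Polynomial k) R] [Module.Finite (Polynomial k) R]
    (hinj : Function.Injective (algebraMap (Polynomial k) R)) (l : ℕ) (hl : l.Prime)
    (hlk : l ∣ Nat.card k - 1) (u u' : R) (J J' : Ideal R) (h : Rad X l u J)
    (h' : Rad X l u' J')
    (h1 : ∀ P : Ideal R, P.IsMaximal → u ∉ P → u' ∉ P → Sy k l u P = Sy k l u' P) :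
    ∃ a b : R, a ≠ 0 ∧ b ≠ 0 ∧ a ^ l * u = b ^ l * u' := by
  obtain ⟨hu, hJ, c, hc⟩ := h
  obtain ⟨hu', hJ', c', hc'⟩ := h'
  have hl1 : l = (l - 1) + 1 := (Nat.sub_add_cancel hl.one_le).symm
  have hrad : Rad X l (u * u' ^ (l - 1)) (J * J' ^ (l - 1)) := by
    refine ⟨mul_ne_zero hu (pow_ne_zero _ hu'), ?_, c * c' ^ (l - 1), ?_⟩
    · rw [mul_pow, hJ, ← pow_mul, mul_comm (l - 1) l, pow_mul, hJ', Ideal.span_singleton_pow,
        Ideal.span_singleton_mul_span_singleton]
    · rw [X.lc_mul, dual_lc_pow, hc, hc', mul_pow, ← pow_mul, ← pow_mul, mul_comm l (l - 1)]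
  obtain ⟨w, hw⟩ := rad_trivial X hinj l hl hlk _ _ hrad (by
    intro P hP huP
    have : Finite (R ⧸ P) := finite_quot X P (dual_ne_bot hinj P hP)
    have h3 : u ∉ P := fun hh => huP (P.mul_mem_right _ hh)
    have h4 : u' ∉ P := fun hh =>
      huP (P.mul_mem_left _ (P.pow_mem_of_mem hh _ (by have := hl.two_le; omega)))
    have hpow : ∀ n : ℕ, Nk k (u' ^ n) P = Nk k u' P ^ n := by
      intro n
      induction n with
      | zero => rw [pow_zero, pow_zero, nk_one]
      | succ n ih => rw [pow_succ, pow_succ, nk_mul, ih]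
    have h5 : Sy k l (u * u' ^ (l - 1)) P = Sy k l u P * Sy k l u' P ^ (l - 1) := by
      unfold Sy
      rw [nk_mul, hpow, mul_pow, ← pow_mul, ← pow_mul, mul_comm (l - 1)]
    rw [h5, h1 P hP h3 h4, ← pow_succ', ← hl1]
    unfold Sy
    rw [← pow_mul, Nat.div_mul_cancel hlk]
    have h6 : Nk k u' P ≠ 0 := nk_ne_zero u' P (dual_coprime P hP u' h4)
    have h7 : (Units.mk0 _ h6 : kˣ) ^ (Nat.card k - 1) = 1 := by
      rw [← Nat.card_units]
      exact pow_card_eq_one'
    have h8 := congrArg (fun z : kˣ => (z : k)) h7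
    exact h8)
  have hw0 : w ≠ 0 := by
    rintro rfl
    rw [zero_pow hl.ne_zero] at hw
    exact (mul_ne_zero hu (pow_ne_zero _ hu')) hw
  refine ⟨u', w, hu', hw0, ?_⟩
  calc u' ^ l * u = u' ^ ((l - 1) + 1) * u := by rw [← hl1]
    _ = (u * u' ^ (l - 1)) * u' := by rw [pow_succ]; ring
    _ = w ^ l * u' := by rw [hw]

/-- `l`-th roots of ideals are unique -/
theorem dual_root_unique (l : ℕ) (hl : l ≠ 0) (I J : Ideal R) (h : I ^ l = J ^ l) : I = J := by
  have h1 : I ∣ J := (UniqueFactorizationMonoid.pow_dvd_pow_iff_dvd hl).mp (dvd_of_eq h)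
  have h2 : J ∣ I := (UniqueFactorizationMonoid.pow_dvd_pow_iff_dvd hl).mp (dvd_of_eq h.symm)
  exact dvd_antisymm h1 h2

/-- the number of characters of order dividing `l` is at most the number of classes of order
dividing `l` -/
theorem dual_card (C : Type) [CommGroup C] [Finite C] (l : ℕ) (hl : l.Prime)
    (hlk : l ∣ Nat.card k - 1) :
    Finite {β : C →* kˣ // ∀ c, β c ^ l = 1} ∧
      Nat.card {β : C →* kˣ // ∀ c, β c ^ l = 1} ≤ Nat.card {c : C // c ^ l = 1} := by
  have hE := dual_roots k l hl hlk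
  have : NeZero l := ⟨hl.ne_zero⟩
  set N : Subgroup C := (powMonoidHom l : C →* C).range with hN
  have hexp : Monoid.exponent (C ⧸ N) ∣ l := by
    refine Monoid.exponent_dvd_of_forall_pow_eq_one ?_
    intro x
    obtain ⟨c, rfl⟩ := QuotientGroup.mk_surjective x
    rw [← QuotientGroup.mk_pow, QuotientGroup.eq_one_iff]
    exact ⟨c, rfl⟩
  have : HasEnoughRootsOfUnity k (Monoid.exponent (C ⧸ N)) :=
    HasEnoughRootsOfUnity.of_dvd k hexp
  have : Finite ((C ⧸ N) →* kˣ) := by
    have : Finite ((C ⧸ N) → kˣ) := inferInstance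
    exact Finite.of_injective (fun f : (C ⧸ N) →* kˣ => (f : (C ⧸ N) → kˣ))
      DFunLike.coe_injective
  have hcard : Nat.card ((C ⧸ N) →* kˣ) = Nat.card (C ⧸ N) :=
    CommGroup.card_monoidHom_of_hasEnoughRootsOfUnity (C ⧸ N) k
  let F : {β : C →* kˣ // ∀ c, β c ^ l = 1} → ((C ⧸ N) →* kˣ) := fun β =>
    QuotientGroup.lift N β.1 (by
      rintro x ⟨c, rfl⟩
      show β.1 (c ^ l) = 1
      rw [map_pow]
      exact β.2 c)
  have hF : Function.Injective F := by
    intro β β' hbb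
    apply Subtype.ext
    ext c
    have := congrArg (fun f : (C ⧸ N) →* kˣ => f (QuotientGroup.mk c)) hbb
    have h2 : β.1 c = β'.1 c := this
    rw [h2]
  refine ⟨Finite.of_injective F hF, ?_⟩
  refine (Nat.card_le_card_of_injective F hF).trans ?_
  rw [hcard]
  have h1 : Nat.card C = Nat.card (C ⧸ N) * Nat.card N := N.card_eq_card_quotient_mul_card_subgroup
  have h2 : Nat.card C = Nat.card (C ⧸ (powMonoidHom l : C →* C).ker) *
      Nat.card (powMonoidHom l : C →* C).ker :=
    Subgroup.card_eq_card_quotient_mul_card_subgroup _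
  have h3 : Nat.card (C ⧸ (powMonoidHom l : C →* C).ker) = Nat.card N :=
    Nat.card_congr (QuotientGroup.quotientKerEquivRange (powMonoidHom l : C →* C)).toEquiv
  have h4 : Nat.card (powMonoidHom l : C →* C).ker = Nat.card {c : C // c ^ l = 1} :=
    Nat.card_congr (Equiv.subtypeEquivRight (fun c => by
      rw [MonoidHom.mem_ker]; rfl))
  have hNpos : 0 < Nat.card N := Nat.card_pos
  rw [h3, h4, h1, mul_comm] at h2
  exact (Nat.eq_of_mul_eq_mul_left hNpos h2).le

/-- the data of a radical for a class of order dividing `l` -/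
theorem dual_data (X : OneInf k R) (l : ℕ) (c : ClassGroup R) (hc : c ^ l = 1) :
    ∃ (u : R) (J : (Ideal R)⁰), ClassGroup.mk0 J = c ∧ Rad X l u (J : Ideal R) := by
  obtain ⟨J, hJ⟩ := ClassGroup.mk0_surjective c
  have h1 : ClassGroup.mk0 (J ^ l) = 1 := by rw [map_pow, hJ, hc]
  rw [ClassGroup.mk0_eq_one_iff] at h1
  obtain ⟨⟨u0, hu0⟩⟩ := h1
  have hJl : (J : Ideal R) ^ l = Ideal.span {u0} := by
    rw [← Ideal.submodule_span_eq, ← hu0]
    rfl
  have hJ0 : (J : Ideal R) ≠ ⊥ := nonZeroDivisors.coe_ne_zero J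
  have hu00 : u0 ≠ 0 := by
    rintro rfl
    have : (J : Ideal R) ^ l = ⊥ := by rw [hJl, Ideal.span_singleton_eq_bot]
    exact (pow_ne_zero l hJ0) this
  have hlc := X.lc_ne u0 hu00
  have hunit : IsUnit (algebraMap k R (X.lc u0)⁻¹) :=
    (IsUnit.mk0 _ (inv_ne_zero hlc)).map (algebraMap k R)
  refine ⟨u0 * algebraMap k R (X.lc u0)⁻¹, J, hJ, ?_, ?_, 1, ?_⟩
  · exact mul_ne_zero hu00 hunit.ne_zero
  · rw [hJl]
    exact (Ideal.span_singleton_mul_right_unit hunit u0).symm
  · rw [X.lc_mul, X.lc_alg, one_pow, mul_inv_cancel₀ hlc]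

/-- every character of order `l` of the class group comes from a radical -/
theorem rad_exists (X : OneInf k R) [Algebra (Polynomial k) R]
    [IsScalarTower k (Polynomial k) R] [Module.Finite (Polynomial k) R]
    (hinj : Function.Injective (algebraMap (Polynomial k) R)) [Finite (ClassGroup R)] (l : ℕ)
    (hl : l.Prime) (hlk : l ∣ Nat.card k - 1) (β : ClassGroup R →* kˣ)
    (hβ : ∀ c, β c ^ l = 1) :
    ∃ (u : R) (J : Ideal R), Rad X l u J ∧ ∀ I : (Ideal R)⁰,
      (I : Ideal R) ⊔ Ideal.span {u} = ⊤ →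
        ((β (ClassGroup.mk0 I) : kˣ) : k) = Sy k l u (I : Ideal R) := by
  have hd : ∀ c : {c : ClassGroup R // c ^ l = 1}, ∃ (u : R) (J : (Ideal R)⁰),
      ClassGroup.mk0 J = c.1 ∧ Rad X l u (J : Ideal R) := fun c => dual_data X l c.1 c.2
  choose U J hJ hR using hd
  have hb : ∀ c : {c : ClassGroup R // c ^ l = 1}, ∃ β : ClassGroup R →* kˣ,
      (∀ c, β c ^ l = 1) ∧ ∀ I : (Ideal R)⁰,
      (I : Ideal R) ⊔ Ideal.span {U c} = ⊤ →
        ((β (ClassGroup.mk0 I) : kˣ) : k) = Sy k l (U c) (I : Ideal R) := fun c =>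
    beta_exists X l hl.pos hlk (U c) (J c) (hR c)
  choose B hB1 hB2 using hb
  obtain ⟨hfin, hle⟩ := dual_card (k := k) (ClassGroup R) l hl hlk
  let F : {c : ClassGroup R // c ^ l = 1} → {β : ClassGroup R →* kˣ // ∀ c, β c ^ l = 1} :=
    fun c => ⟨B c, hB1 c⟩
  have hF : Function.Injective F := by
    intro c c' hcc
    have hBB : B c = B c' := congrArg Subtype.val hcc
    obtain ⟨a, b, ha, hb, hab⟩ := rad_unique X hinj l hl hlk (U c) (U c') (J c) (J c') (hR c)
      (hR c') (by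
        intro P hP h1 h2
        have hP0 := dual_ne_bot hinj P hP
        have h3 := hB2 c ⟨P, mem_nonZeroDivisors_of_ne_zero hP0⟩ (dual_coprime P hP _ h1)
        have h4 := hB2 c' ⟨P, mem_nonZeroDivisors_of_ne_zero hP0⟩ (dual_coprime P hP _ h2)
        rw [hBB] at h3
        exact h3.symm.trans h4)
    have h5 : (Ideal.span {a} * (J c : Ideal R)) ^ l = (Ideal.span {b} * (J c' : Ideal R)) ^ l := by
      rw [mul_pow, mul_pow, (hR c).2.1, (hR c').2.1, Ideal.span_singleton_pow,
        Ideal.span_singleton_pow, Ideal.span_singleton_mul_span_singleton,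
        Ideal.span_singleton_mul_span_singleton, hab]
    have h6 := dual_root_unique l hl.ne_zero _ _ h5
    have h7 : ClassGroup.mk0 (J c) = ClassGroup.mk0 (J c') := by
      rw [ClassGroup.mk0_eq_mk0_iff]
      exact ⟨a, b, ha, hb, h6⟩
    rw [hJ, hJ] at h7
    exact Subtype.ext h7
  have hbij : Function.Bijective F := by
    have hle2 := Nat.card_le_card_of_injective F hF
    exact (Nat.bijective_iff_injective_and_card F).mpr ⟨hF, le_antisymm hle2 hle⟩
  obtain ⟨c, hc⟩ := hbij.2 ⟨β, hβ⟩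
  have hc' : B c = β := congrArg Subtype.val hc
  refine ⟨U c, J c, hR c, ?_⟩
  intro I hI
  rw [← hc']
  exact hB2 c I hI

end Pool.Agent.AB
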