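import Pool.Agent.Lib.MP_5de024_nt.C.Abs

/-!
# Equivariance of the symbol (piece Equi)
-/

set_option autoImplicit false
set_option linter.unusedSectionVars false

namespace Pool.Agent.AB

/-- finiteness and semilinear isomorphisms -/
private theorem equi_fin {k M M' : Type} [Field k] [AddCommGroup M] [Module k M]
    [AddCommGroup M'] [Module k M'] (s : k ≃+* k) (e : M ≃+ M')
    (he : ∀ (c : k) (x : M), e (c • x) = s c • e x) (h : Module.Finite k M) :
    Module.Finite k M' := by
  let f : M →ₛₗ[(s : k →+* k)] M' :=
    { toFun := e
      map_add' := map_add e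
      map_smul' := he }
  haveI : RingHomSurjective (s : k →+* k) := ⟨s.surjective⟩
  exact Module.Finite.of_surjective f e.surjective

/-- determinants and semilinear isomorphisms -/
private theorem equi_det {k M M' : Type} [Field k] [AddCommGroup M] [Module k M]
    [AddCommGroup M'] [Module k M'] (s : k ≃+* k) (e : M ≃+ M')
    (he : ∀ (c : k) (x : M), e (c • x) = s c • e x)
    (f : M →ₗ[k] M) (g : M' →ₗ[k] M') (hfg : ∀ x, g (e x) = e (f x)) :
    LinearMap.det g = s (LinearMap.det f) := by
  have he' : ∀ (c : k) (y : M'), e.symm (c • y) = s.symm c • e.symm y := by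
    intro c y
    apply e.injective
    rw [he, e.apply_symm_apply, e.apply_symm_apply, s.apply_symm_apply]
  by_cases hM : Module.Finite k M
  · let b := Module.finBasis k M
    let E : M' ≃ₗ[k] (Fin (Module.finrank k M) → k) :=
      { toFun := fun y i => s (b.equivFun (e.symm y) i)
        invFun := fun v => e (b.equivFun.symm fun i => s.symm (v i))
        map_add' := fun x y => by
          funext i
          simp
        map_smul' := fun c y => by
          funext i
          rw [he', map_smul]
          simp
        left_inv := fun y => by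
          simp
        right_inv := fun v => by
          funext i
          show s (b.equivFun (e.symm (e (b.equivFun.symm fun i => s.symm (v i)))) i) = v i
          rw [e.symm_apply_apply, LinearEquiv.apply_symm_apply, s.apply_symm_apply] }
    let b' := Module.Basis.ofEquivFun E
    have h1 : ∀ j, b' j = e (b j) := by
      intro j
      apply E.injective
      funext i
      have h2 : E (b' j) i = if j = i then 1 else 0 := by
        have h3 := Module.Basis.equivFun_self b' j i
        rwa [Module.Basis.equivFun_ofEquivFun] at h3
      rw [h2]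
      show _ = s (b.equivFun (e.symm (e (b j))) i)
      rw [e.symm_apply_apply, Module.Basis.equivFun_self]
      split_ifs <;> simp
    rw [← LinearMap.det_toMatrix b', ← LinearMap.det_toMatrix b, RingEquiv.map_det]
    congr 1
    ext i j
    rw [LinearMap.toMatrix_apply, h1, hfg]
    show s (b.equivFun (e.symm (e (f (b j)))) i) = _
    rw [e.symm_apply_apply]
    simp [LinearMap.toMatrix_apply]
  · have hM' : ¬ Module.Finite k M' := fun h => hM (equi_fin s.symm e.symm he' h)
    rw [LinearMap.det_eq_one_of_not_module_finite hM,
      LinearMap.det_eq_one_of_not_module_finite hM', map_one]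

variable {k R : Type} [Field k] [CommRing R] [Algebra k R]

/-- transport of the norm by a semilinear automorphism -/
theorem nk_equi (σ : R ≃+* R) (s : k ≃+* k)
    (h : ∀ c : k, σ (algebraMap k R c) = algebraMap k R (s c)) (u : R) (I : Ideal R) :
    Nk k (σ u) (I.map (σ : R →+* R)) = s (Nk k u I) := by
  refine equi_det s (Ideal.quotientEquiv I (I.map (σ : R →+* R)) σ rfl).toAddEquiv ?_ _ _ ?_
  · intro c x
    obtain ⟨x, rfl⟩ := Ideal.Quotient.mk_surjective x
    have h1 : c • (Ideal.Quotient.mk I x) = Ideal.Quotient.mk I (algebraMap k R c * x) := by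
      rw [Algebra.smul_def, map_mul]
      rfl
    rw [h1]
    show Ideal.Quotient.mk _ (σ (algebraMap k R c * x)) = s c • Ideal.Quotient.mk _ (σ x)
    rw [map_mul, h, Algebra.smul_def, map_mul]
    rfl
  · intro x
    obtain ⟨x, rfl⟩ := Ideal.Quotient.mk_surjective x
    show Ideal.Quotient.mk _ (σ u) * Ideal.Quotient.mk _ (σ x) =
      Ideal.Quotient.mk _ (σ (u * x))
    rw [map_mul, map_mul]

theorem sy_equi (σ : R ≃+* R) (s : k ≃+* k)
    (h : ∀ c : k, σ (algebraMap k R c) = algebraMap k R (s c)) (l : ℕ) (u : R) (I : Ideal R) :
    Sy k l (σ u) (I.map (σ : R →+* R)) = s (Sy k l u I) := by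
  rw [Sy, Sy, nk_equi σ s h, map_pow]

end Pool.Agent.AB
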