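import Pool.Agent.Lib.MP_5de024_nt.Eta

/-!
# The unit `η` outside `x = 0`, with constants (piece Eta2)
-/

set_option autoImplicit false
set_option linter.unusedSectionVars false

namespace Pool.Agent.AB

variable (p : ℕ) [Fact p.Prime] (K : Type) [Field K] [Algebra (Fx p) K] [Algebra (Rx p) K]
  [IsScalarTower (Rx p) (Fx p) K]

/-- units of the ring of integers are units outside `x = 0` -/
theorem inU_unit {c : Oc p K} (hc : IsUnit c) : InU p K (c : K) := by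
  obtain ⟨d, hd⟩ := hc.exists_right_inv
  refine ⟨0, c, d, ?_, ?_⟩
  · rw [pow_zero]
    exact mul_one _
  · rw [hd, mul_zero, pow_zero]

/-- the values of a unit of the ring of integers -/
theorem Vx_unit {p : ℕ} [Fact p.Prime] {K : Type} [Field K] [Algebra (Fx p) K]
    [Algebra (Rx p) K] [IsScalarTower (Rx p) (Fx p) K] [FiniteDimensional (Fx p) K]
    [IsGalois (Fx p) K] {q : Ideal (Oc p K)} {γ : Gl p K} (hq : Pl p K q γ)
    {c : Oc p K} (hc : IsUnit c) : Vx p K q γ (c : K) = 0 := by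
  funext d
  change vq p K q ((Quotient.out d)⁻¹ (c : K)) = 0
  rw [← act_coe]
  refine vq_eq hq (vl_unit p K q hq.1.isPrime (act p K (Quotient.out d)⁻¹ c) ?_)
  intro h
  exact hq.1.ne_top (Ideal.eq_top_of_isUnit_mem _ h (hc.map (act p K (Quotient.out d)⁻¹)))

/-- `exists_eta` with an additional unit factor in the relations -/
theorem exists_eta2 [FiniteDimensional (Fx p) K] [IsGalois (Fx p) K] (hNI : NI p K)
    (q : Ideal (Oc p K)) (γ : Gl p K) (hq : Pl p K q γ) (m : ℕ) (hm0 : 0 < m)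
    (hm : (Nat.card (Gl p K)).Coprime m) :
    ∃ η : K, η ≠ 0 ∧
      (∃ (n : ℕ) (a b : Oc p K), η * (xo p K ^ n : Oc p K) = a ∧ a * b = xo p K ^ (2 * n)) ∧
      ∀ (e : Gl p K → ℤ) (j : ℤ) (c : Oc p K) (w : K), IsUnit c →
        (∏ h : Gl p K, (h η) ^ e h) = xk p K ^ j * (c : K) * w ^ m →
        ∃ c1 : ℤ, ∀ h0 : Gl p K,
          (∑ i ∈ Finset.range (orderOf γ), e (h0 * γ ^ i)) ≡ c1 [ZMOD m] := by
  classical
  obtain ⟨n, hn, hnX⟩ := n_mem_lam hNI hq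
  obtain ⟨θ, hθ1, hθ2, hθ3⟩ := lattice (Gl p K) ((Gl p K ⧸ Subgroup.zpowers γ) → ℤ)
    (rhoX (Gl p K) (Subgroup.zpowers γ)) (lam hNI hq) (fun g x => lam_gl hNI hq g x) n hn hnX
    m hm0 hm
  obtain ⟨η, hU, hV⟩ := hθ2 (del (γ := γ))
  refine ⟨η, inU_ne p K hU, hU, ?_⟩
  intro e j c w hc hw
  have hη := inU_ne p K hU
  have hhη : ∀ h : Gl p K, h η ≠ 0 := fun h h' => hη ((map_eq_zero h).mp h')
  have hx := xk_ne_zero p K
  have hP : InU p K (∏ h : Gl p K, (h η) ^ e h) :=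
    inU_prod p K _ _ (fun h _ => inU_zpow p K (inU_gl p K h hU) _)
  have hcU : InU p K (c : K) := inU_unit p K hc
  have hc0 : (c : K) ≠ 0 := inU_ne p K hcU
  have hwm : w ^ m = (c : K)⁻¹ * (xk p K ^ (-j) * ∏ h : Gl p K, (h η) ^ e h) := by
    have hz : xk p K ^ (-j) * xk p K ^ j = 1 := by
      rw [← zpow_add₀ hx, neg_add_cancel, zpow_zero]
    calc w ^ m = 1 * ((c : K)⁻¹ * (c : K)) * w ^ m := by rw [inv_mul_cancel₀ hc0]; ring
      _ = (c : K)⁻¹ * (xk p K ^ (-j) * (xk p K ^ j * (c : K) * w ^ m)) := by rw [← hz]; ring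
      _ = _ := by rw [← hw]
  have hwU : InU p K w := inU_root p K hm0 (by
    rw [hwm]
    exact inU_mul p K (inU_inv p K hcU) (inU_mul p K (inU_zpow p K (inU_xk p K) _) hP))
  have hw0 := inU_ne p K hwU
  obtain ⟨N, hN⟩ : ∃ N : (Gl p K ⧸ Subgroup.zpowers γ) → ℤ, N = fun _ => 1 := ⟨_, rfl⟩
  have hNlam : N ∈ lam hNI hq := by
    rw [hN]
    exact one_mem_lam hNI hq
  obtain ⟨S, hS⟩ : ∃ S : (Gl p K ⧸ Subgroup.zpowers γ) → ℤ, S = ∑ h : Gl p K, e h •
      rhoX (Gl p K) (Subgroup.zpowers γ) h (del (γ := γ)) := ⟨_, rfl⟩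
  have hE : θ S = j • N + m • Vx p K q γ w := by
    have h1 := congrArg (Vx p K q γ) hw
    rw [Vx_prod hNI hq _ _ (fun h => zpow_ne_zero _ (hhη h)),
      Vx_mul hNI hq (mul_ne_zero (zpow_ne_zero _ hx) hc0) (pow_ne_zero _ hw0),
      Vx_mul hNI hq (zpow_ne_zero _ hx) hc0, Vx_unit hq hc, add_zero, Vx_pow hNI hq hw0,
      Vx_xk hNI hq] at h1
    have h2 : (fun _ : Gl p K ⧸ Subgroup.zpowers γ => j) = j • N := by
      rw [hN]
      funext c
      rw [Pi.smul_apply, smul_eq_mul, mul_one]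
    rw [← h2, ← h1, hS, map_sum]
    refine Finset.sum_congr rfl (fun h _ => ?_)
    rw [map_zsmul, hθ1, ← hV, Vx_zpow hNI hq (hhη h), Vx_gl hNI hq hη]
  obtain ⟨a, ha⟩ : ∃ a : ℤ, a = θ N ((1 : Gl p K) : Gl p K ⧸ Subgroup.zpowers γ) := ⟨_, rfl⟩
  have hθN : θ N = a • N := by
    funext c
    rw [inv_const _ _ (θ N) (fun g => by rw [← hθ1]; congr 1; rw [hN]; rfl) c, ← ha, hN,
      Pi.smul_apply, smul_eq_mul, mul_one]
  have hcop : IsCoprime a (m : ℤ) := by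
    rw [Int.isCoprime_iff_gcd_eq_one]
    by_contra hne
    obtain ⟨l, hl, hld⟩ := Nat.exists_prime_and_dvd hne
    have hla : (l : ℤ) ∣ a := (Int.natCast_dvd_natCast.mpr hld).trans (Int.gcd_dvd_left _ _)
    have hlm : l ∣ m := Int.natCast_dvd_natCast.mp
      ((Int.natCast_dvd_natCast.mpr hld).trans (Int.gcd_dvd_right _ _))
    obtain ⟨a', rfl⟩ := hla
    obtain ⟨m', rfl⟩ := hlm
    have hm' : 0 < m' := Nat.pos_of_mul_pos_left hm0
    obtain ⟨z, hz⟩ := hθ3 (m' • N) (a' • N) (AddSubgroup.zsmul_mem _ hNlam _) (by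
      rw [map_nsmul, hθN]
      funext c
      simp only [Pi.smul_apply, nsmul_eq_mul, smul_eq_mul]
      push_cast
      ring)
    have h3 := congrFun hz ((1 : Gl p K) : Gl p K ⧸ Subgroup.zpowers γ)
    rw [hN] at h3
    simp only [Pi.smul_apply, nsmul_eq_mul, mul_one] at h3
    push_cast at h3
    have h4 : (l : ℤ) * z ((1 : Gl p K) : Gl p K ⧸ Subgroup.zpowers γ) = 1 := by
      have h5 : (m' : ℤ) ≠ 0 := by exact_mod_cast hm'.ne'
      apply mul_left_cancel₀ h5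
      rw [mul_one]
      linarith
    have h6 : (l : ℤ) ∣ 1 := ⟨_, h4.symm⟩
    have h7 : l ∣ 1 := by exact_mod_cast h6
    exact hl.one_lt.ne' (Nat.dvd_one.mp h7)
  obtain ⟨u, v, huv⟩ := hcop
  obtain ⟨z, hz⟩ := hθ3 (S - (j * u) • N) ((j * v) • N + Vx p K q γ w)
    (AddSubgroup.add_mem _ (AddSubgroup.zsmul_mem _ hNlam _) ⟨w, hwU, rfl⟩) (by
      rw [map_sub, map_zsmul, hE, hθN]
      funext c
      rw [hN]
      simp only [Pi.sub_apply, Pi.add_apply, Pi.smul_apply, Pi.mul_apply, Pi.natCast_apply,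
        nsmul_eq_mul, smul_eq_mul, mul_one]
      linear_combination (-j) * huv)
  refine ⟨j * u, fun h0 => ?_⟩
  have h8 := congrFun hz (h0 : Gl p K ⧸ Subgroup.zpowers γ)
  rw [hN, hS] at h8
  simp only [Pi.sub_apply, Pi.smul_apply, nsmul_eq_mul, smul_eq_mul, mul_one,
    Finset.sum_apply] at h8
  have h9 : (∑ h : Gl p K, e h *
      rhoX (Gl p K) (Subgroup.zpowers γ) h (del (γ := γ)) (h0 : Gl p K ⧸ Subgroup.zpowers γ)) =
      ∑ i ∈ Finset.range (orderOf γ), e (h0 * γ ^ i) := by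
    rw [← coset_sum]
    refine Finset.sum_congr rfl (fun h _ => ?_)
    rw [rhoX_del]
    by_cases hh : (h0 : Gl p K ⧸ Subgroup.zpowers γ) = (h : Gl p K ⧸ Subgroup.zpowers γ)
    · rw [if_pos hh, if_pos hh.symm, mul_one]
    · rw [if_neg hh, if_neg (fun h' => hh h'.symm), mul_zero]
  rw [h9] at h8
  rw [Int.modEq_iff_dvd]
  exact ⟨-z (h0 : Gl p K ⧸ Subgroup.zpowers γ), by linear_combination -h8⟩

end Pool.Agent.AB
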