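import Pool.Agent.Lib.MP_5de024_nt.As1

/-!
# Constants of `K` (helper file of piece Geo)

`IsCst p c`: `c` is a constant, that is `c ^ p ^ n = c` for some `n > 0`. Constants are closed
under the field operations and under Artin - Schreier roots; a constant fixed by the Galois
group lies in `F_p`; there are only finitely many constants in `K`.
-/

set_option autoImplicit false
set_option linter.unusedSectionVars false

namespace Pool.Agent.AB

/-- `c` is a constant -/
def IsCst (p : ℕ) {K : Type} [Field K] (c : K) : Prop := ∃ n : ℕ, 0 < n ∧ c ^ p ^ n = c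

section abstract_field

variable {p : ℕ} {K : Type} [Field K]

theorem cst_iter {c : K} {n : ℕ} (h : c ^ p ^ n = c) (m : ℕ) : c ^ p ^ (n * m) = c := by
  induction m with
  | zero => rw [Nat.mul_zero, pow_zero, pow_one]
  | succ m ih => rw [Nat.mul_succ, pow_add, pow_mul, ih, h]

theorem IsCst.common {c d : K} (hc : IsCst p c) (hd : IsCst p d) :
    ∃ n : ℕ, 0 < n ∧ c ^ p ^ n = c ∧ d ^ p ^ n = d := by
  obtain ⟨n, hn, h1⟩ := hc
  obtain ⟨m, hm, h2⟩ := hd
  refine ⟨n * m, Nat.mul_pos hn hm, cst_iter h1 m, ?_⟩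
  rw [Nat.mul_comm]
  exact cst_iter h2 n

theorem IsCst.one : IsCst p (1 : K) := ⟨1, one_pos, one_pow _⟩

theorem IsCst.mul {c d : K} (hc : IsCst p c) (hd : IsCst p d) : IsCst p (c * d) := by
  obtain ⟨n, hn, h1, h2⟩ := hc.common hd
  exact ⟨n, hn, by rw [mul_pow, h1, h2]⟩

theorem IsCst.inv {c : K} (hc : IsCst p c) : IsCst p c⁻¹ := by
  obtain ⟨n, hn, h1⟩ := hc
  exact ⟨n, hn, by rw [inv_pow, h1]⟩

theorem IsCst.div {c d : K} (hc : IsCst p c) (hd : IsCst p d) : IsCst p (c / d) := by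
  rw [div_eq_mul_inv]
  exact hc.mul hd.inv

theorem IsCst.pow {c : K} (hc : IsCst p c) (k : ℕ) : IsCst p (c ^ k) := by
  obtain ⟨n, hn, h1⟩ := hc
  exact ⟨n, hn, by rw [← pow_mul, mul_comm, pow_mul, h1]⟩

theorem IsCst.map {L : Type} [Field L] (f : K →+* L) {c : K} (hc : IsCst p c) :
    IsCst p (f c) := by
  obtain ⟨n, hn, h1⟩ := hc
  exact ⟨n, hn, by rw [← map_pow, h1]⟩

theorem isCst_map_iff {L : Type} [Field L] (f : K →+* L) {c : K} :
    IsCst p (f c) ↔ IsCst p c := by
  refine ⟨?_, fun h => h.map f⟩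
  rintro ⟨n, hn, h1⟩
  exact ⟨n, hn, f.injective (by rw [map_pow, h1])⟩

variable [Fact p.Prime]

theorem IsCst.zero : IsCst p (0 : K) :=
  ⟨1, one_pos, zero_pow (by rw [pow_one]; exact (Fact.out : p.Prime).ne_zero)⟩

variable [CharP K p]

theorem IsCst.add {c d : K} (hc : IsCst p c) (hd : IsCst p d) : IsCst p (c + d) := by
  obtain ⟨n, hn, h1, h2⟩ := hc.common hd
  exact ⟨n, hn, by rw [add_pow_char_pow, h1, h2]⟩

theorem IsCst.sub {c d : K} (hc : IsCst p c) (hd : IsCst p d) : IsCst p (c - d) := by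
  obtain ⟨n, hn, h1, h2⟩ := hc.common hd
  exact ⟨n, hn, by rw [sub_pow_char_pow, h1, h2]⟩

theorem IsCst.neg {c : K} (hc : IsCst p c) : IsCst p (-c) := by
  rw [← zero_sub]
  exact IsCst.zero.sub hc

/-- Artin - Schreier roots of constants are constants -/
theorem IsCst.of_as {v e : K} (h : v ^ p - v = e) (he : IsCst p e) : IsCst p v := by
  obtain ⟨n, hn, h1⟩ := he
  obtain ⟨D, hDdef⟩ : ∃ D : K, D = v ^ p ^ n - v := ⟨_, rfl⟩
  have h2 : v ^ p = v + e := by linear_combination h
  have hD : D ^ p = D := by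
    have h3 : D ^ p = (v ^ p) ^ p ^ n - v ^ p := by
      rw [hDdef, sub_pow_char, ← pow_mul, ← pow_mul, mul_comm]
    rw [h3, h2, add_pow_char_pow, h1, hDdef]
    ring
  have hk1 : ∀ (x : K), x ^ p = x → ∀ m : ℕ, x ^ p ^ m = x := by
    intro x hx m
    have h4 := cst_iter (p := p) (c := x) (n := 1) (by rw [pow_one]; exact hx) m
    rwa [Nat.one_mul] at h4
  have hk : ∀ k : ℕ, v ^ p ^ (n * k) = v + k * D := by
    intro k
    induction k with
    | zero => rw [Nat.mul_zero, pow_zero, pow_one, Nat.cast_zero, zero_mul, add_zero]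
    | succ k ih =>
      rw [Nat.mul_succ, pow_add, pow_mul, ih, add_pow_char_pow, mul_pow, hk1 D hD n]
      have h5 : ((k : K)) ^ p = (k : K) := by
        have h6 : ((k : ZMod p)) ^ p = (k : ZMod p) := ZMod.pow_card _
        have h7 := congrArg (ZMod.castHom (dvd_refl p) K) h6
        rw [map_pow, map_natCast] at h7
        exact h7
      rw [hk1 _ h5 n]
      push_cast
      have h8 : v ^ p ^ n = v + D := by rw [hDdef]; ring
      rw [h8]
      ring
  refine ⟨n * p, Nat.mul_pos hn (Fact.out : p.Prime).pos, ?_⟩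
  rw [hk, CharP.cast_eq_zero, zero_mul, add_zero]

end abstract_field

variable (p : ℕ) [Fact p.Prime] (K : Type) [Field K] [Algebra (Fx p) K] [Algebra (Rx p) K]
  [IsScalarTower (Rx p) (Fx p) K]

/-- a constant fixed by the Galois group lies in `F_p` -/
theorem cst_fixed [FiniteDimensional (Fx p) K] [IsGalois (Fx p) K] {b : K} (hb : IsCst p b)
    (hfix : ∀ σ : Gl p K, σ b = b) : ∃ i : ZMod p, b = cst p K i := by
  obtain ⟨n, hn, h1⟩ := hb
  have hpn : 1 < p ^ n := Nat.one_lt_pow hn.ne' (Fact.out : p.Prime).one_lt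
  have hint : IsIntegral (Rx p) b := by
    refine ⟨Polynomial.X ^ p ^ n - Polynomial.X, ?_, ?_⟩
    · refine Polynomial.monic_X_pow_sub ?_
      rw [Polynomial.degree_X]
      exact_mod_cast hpn
    · rw [Polynomial.eval₂_sub, Polynomial.eval₂_X_pow, Polynomial.eval₂_X, h1, sub_self]
  obtain ⟨s, hs⟩ : ∃ s : Oc p K, (s : K) = b := ⟨⟨b, hint⟩, rfl⟩
  obtain ⟨r, hr⟩ := fixed_oc p K s (fun σ => Subtype.ext (by rw [act_coe, hs, hfix σ]))
  have h2 : r ^ p ^ n = r := by
    apply Gs_inj p K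
    rw [map_pow, ← hr]
    apply Subtype.ext
    rw [SubmonoidClass.coe_pow, hs, h1]
  have h3 : r.natDegree = 0 := by
    have h4 := congrArg Polynomial.natDegree h2
    rw [Polynomial.natDegree_pow] at h4
    by_contra h5
    have h6 : 0 < r.natDegree := Nat.pos_of_ne_zero h5
    have h7 : 1 * r.natDegree < p ^ n * r.natDegree := Nat.mul_lt_mul_of_pos_right hpn h6
    omega
  refine ⟨r.coeff 0, ?_⟩
  rw [← hs, hr]
  conv_lhs => rw [Polynomial.eq_C_of_natDegree_eq_zero h3]
  rfl

/-- there are only finitely many constants -/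
theorem cst_finite [FiniteDimensional (Fx p) K] [IsGalois (Fx p) K] :
    {c : K | IsCst p c}.Finite := by
  classical
  have : CharP K p := charP_of p K
  obtain ⟨g, hg⟩ : ∃ g : ℕ, g = Fintype.card (Gl p K) := ⟨_, rfl⟩
  obtain ⟨Pf, hPf⟩ : ∃ Pf : (Fin (g + 1) → ZMod p) → Polynomial K, Pf = fun f =>
      ∑ i : Fin (g + 1), Polynomial.monomial (i : ℕ) (cst p K (f i)) := ⟨_, rfl⟩
  have hfin : ∀ f, {c : K | Pf f ≠ 0 ∧ (Pf f).eval c = 0}.Finite := by
    intro f
    refine ((Pf f).roots.toFinset.finite_toSet).subset ?_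
    rintro c ⟨h1, h2⟩
    rw [Finset.mem_coe, Multiset.mem_toFinset, Polynomial.mem_roots h1]
    exact h2
  refine (Set.finite_iUnion hfin).subset ?_
  rintro c ⟨n, hn, h1⟩
  obtain ⟨Q, hQ⟩ : ∃ Q : Polynomial K,
      Q = ∏ σ : Gl p K, (Polynomial.X - Polynomial.C (σ c)) := ⟨_, rfl⟩
  have hmon : Q.Monic := by
    rw [hQ]
    exact Polynomial.monic_prod_of_monic _ _ fun σ _ => Polynomial.monic_X_sub_C _
  have hdeg : Q.natDegree = g := by
    rw [hQ, Polynomial.natDegree_prod_of_monic _ _ fun σ _ => Polynomial.monic_X_sub_C _, hg]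
    simp
  have hfix : ∀ τ : Gl p K, Q.map (τ : K →+* K) = Q := by
    intro τ
    rw [hQ, Polynomial.map_prod]
    have h2 : ∀ σ : Gl p K, (Polynomial.X - Polynomial.C (σ c)).map (τ : K →+* K) =
        Polynomial.X - Polynomial.C ((τ * σ) c) := by
      intro σ
      rw [Polynomial.map_sub, Polynomial.map_X, Polynomial.map_C]
      rfl
    rw [Finset.prod_congr rfl fun σ _ => h2 σ]
    exact Fintype.prod_equiv (Equiv.mulLeft τ) _ _ fun σ => rfl
  have hfro : Q.map (iterateFrobenius K p n) = Q := by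
    rw [hQ, Polynomial.map_prod]
    refine Finset.prod_congr rfl fun σ _ => ?_
    rw [Polynomial.map_sub, Polynomial.map_X, Polynomial.map_C, iterateFrobenius_def, ← map_pow,
      h1]
  have hcoef : ∀ i, ∃ a : ZMod p, Q.coeff i = cst p K a := by
    intro i
    refine cst_fixed p K ⟨n, hn, ?_⟩ ?_
    · have h2 := congrArg (fun q : Polynomial K => q.coeff i) hfro
      rw [Polynomial.coeff_map] at h2
      exact h2
    · intro τ
      have h2 := congrArg (fun q : Polynomial K => q.coeff i) (hfix τ)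
      rw [Polynomial.coeff_map] at h2
      exact h2
  choose a ha using hcoef
  have hPQ : Pf (fun i => a i) = Q := by
    have h2 := Q.as_sum_range' (g + 1) (by omega)
    rw [hPf, h2, Finset.sum_range]
    exact Finset.sum_congr rfl fun i _ => by rw [ha]
  refine Set.mem_iUnion.2 ⟨fun i => a i, ?_, ?_⟩
  · rw [hPQ]
    exact hmon.ne_zero
  · rw [hPQ, hQ, Polynomial.eval_prod]
    refine Finset.prod_eq_zero (Finset.mem_univ 1) ?_
    rw [Polynomial.eval_sub, Polynomial.eval_X, Polynomial.eval_C, AlgEquiv.one_apply, sub_self]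

end Pool.Agent.AB
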