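import Pool.Agent.Lib.MP_5de024_nt.Defs
import Pool.Agent.Lib.MP_5de024_nt.C.Abs

/-!
# Definitions for project AB2, concrete part

`PCg` is `PC` with the field of constants `F_p(ζ)`; `KD2` the data after the base change;
`InfData` the place at infinity; `RNI` realisation by a quotient of a Galois group without
inertia.
-/

set_option autoImplicit false
set_option linter.unusedSectionVars false

namespace Pool.Agent.AB

/-- the constants of `K` are fixed by the stabiliser of `ζ`, that is, they lie in `F_p(ζ)` -/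
def Geo (p : ℕ) [Fact p.Prime] (K : Type) [Field K] [Algebra (Fx p) K] (ζ : K) : Prop :=
  ∀ z : K, (∃ n : ℕ, 0 < n ∧ z ^ p ^ n = z) → ∀ σ : Gl p K, σ ζ = ζ → σ z = z

/-- geometric `p`-covers with prescribed Frobenius: `PC` with constants `F_p(ζ)` -/
def PCg (p : ℕ) [Fact p.Prime] (m : ℕ) (G : Type) [Group G] (g0 : G) : Prop :=
  ∃ (K : Type) (_ : Field K) (_ : Algebra (Fx p) K) (_ : Algebra (Rx p) K)
    (_ : IsScalarTower (Rx p) (Fx p) K) (ζ : K) (π : Gl p K →* G) (q : Ideal (Oc p K))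
    (γ : Gl p K),
    FiniteDimensional (Fx p) K ∧ IsGalois (Fx p) K ∧ NI p K ∧ IsPrimitiveRoot ζ m ∧
    Pl p K q γ ∧ π γ = g0 ∧ (∀ σ : Gl p K, π σ = 1 → σ ζ = ζ → σ = 1) ∧
    (∀ g : G, ∃ σ : Gl p K, π σ = g ∧ σ ζ = ζ) ∧
    (∀ σ : Gl p K, ∃ i : ℕ, σ ζ = ζ ^ p ^ i) ∧ Geo p K ζ

/-- the data after the base change: the conjugates of `η` have divisors divisible by `l`, and
they are independent modulo constants and `l`-th powers up to the relations of the permutation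
module of the cosets of `γ` -/
def KD2 (p : ℕ) [Fact p.Prime] (l : ℕ) (G : Type) [Group G] : Prop :=
  ∃ (K : Type) (_ : Field K) (_ : Algebra (Fx p) K) (_ : Algebra (Rx p) K)
    (_ : IsScalarTower (Rx p) (Fx p) K) (ζ η : K) (π : Gl p K →* G) (γ : Gl p K),
    FiniteDimensional (Fx p) K ∧ IsGalois (Fx p) K ∧ NI p K ∧ IsPrimitiveRoot ζ l ∧
    π γ = 1 ∧ (∀ σ : Gl p K, π σ = 1 → σ ζ = ζ → σ = 1) ∧
    (∀ g : G, ∃ σ : Gl p K, π σ = g ∧ σ ζ = ζ) ∧
    (∀ σ : Gl p K, ∃ i : ℕ, σ ζ = ζ ^ p ^ i) ∧ Geo p K ζ ∧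
    (Nat.card (Gl p K)).Coprime l ∧ η ≠ 0 ∧
    (∀ (h : Gl p K) (P : Ideal (Oc p K)), P.IsPrime →
      ∃ (k : ℤ) (a b : Oc p K), a ∉ P ∧ b ∉ P ∧
        h η * (b : K) = xk p K ^ ((l : ℤ) * k) * (a : K)) ∧
    (∀ (e : Gl p K → ℤ) (c z : K), (∃ n : ℕ, 0 < n ∧ c ^ p ^ n = c) → c ≠ 0 →
      (∏ᶠ h : Gl p K, (h η) ^ e h) = c * z ^ l →
      ∃ c1 : ℤ, ∀ h0 : Gl p K,
        (∑ i ∈ Finset.range (orderOf γ), e (h0 * γ ^ i)) ≡ c1 [ZMOD l])

/-- the place at infinity of `K`: the ring of integers over the field `k` of constants, with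
the semilinear action of the Galois group -/
structure InfData (p : ℕ) [Fact p.Prime] (K : Type) [Field K] [Algebra (Fx p) K]
    [Algebra (Rx p) K] [IsScalarTower (Rx p) (Fx p) K] (ζ : K) (k : Type) [Field k]
    [Algebra k (Oc p K)] where
  /-- degrees and leading coefficients -/
  X : OneInf k (Oc p K)
  /-- the root of unity in `k` -/
  z : k
  hz : ((algebraMap k (Oc p K) z : Oc p K) : K) = ζ
  /-- the action on the constants -/
  sg : Gl p K → (k ≃+* k)
  hsg : ∀ (σ : Gl p K) (c : k),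
    act p K σ (algebraMap k (Oc p K) c) = algebraMap k (Oc p K) (sg σ c)
  hd : ∀ (σ : Gl p K) (a : Oc p K), X.d (act p K σ a) = X.d a
  hlc : ∀ σ : Gl p K, ∃ θ : k, ∀ a : Oc p K,
    X.lc (act p K σ a) = sg σ (X.lc a) * θ ^ X.d a

/-- `E` is a quotient of the Galois group of an extension without inertia -/
def RNI (p : ℕ) [Fact p.Prime] (E : Type) [Group E] : Prop :=
  ∃ (L : Type) (_ : Field L) (_ : Algebra (Fx p) L) (_ : Algebra (Rx p) L)
    (_ : IsScalarTower (Rx p) (Fx p) L) (Φ : Gl p L →* E),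
    FiniteDimensional (Fx p) L ∧ IsGalois (Fx p) L ∧ NI p L ∧ Function.Surjective Φ

/-- `RNI` for isomorphic groups -/
theorem rni_congr (p : ℕ) [Fact p.Prime] (E E' : Type) [Group E] [Group E'] (e : E ≃* E')
    (h : RNI p E) : RNI p E' := by
  obtain ⟨L, _, _, _, _, Φ, h1, h2, h3, h4⟩ := h
  exact ⟨L, inferInstance, inferInstance, inferInstance, inferInstance,
    e.toMonoidHom.comp Φ, h1, h2, h3, e.surjective.comp h4⟩

end Pool.Agent.AB
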