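import Pool.Agent.Lib.MP_5de024_nt.Cyc
import Pool.Agent.Lib.MP_5de024_nt.PcAll
import Pool.Agent.Lib.MP_5de024_nt.C.KDefs
import Pool.Agent.Lib.MP_5de024_nt.C.GeoA

/-!
# Geometric `p`-covers (piece Geo)
-/

set_option autoImplicit false
set_option linter.unusedSectionVars false

namespace Pool.Agent.AB

/-- degrees: `X ^ (p i + 1) - X ^ (p j + 1) + c` is not of the form `g ^ p - g` -/
theorem as_ne2 (p : ℕ) [Fact p.Prime] (g : Rx p) (i j : ℕ) (c : ZMod p) (hij : i ≠ j)
    (h : g ^ p - g = Polynomial.X ^ (p * i + 1) - Polynomial.X ^ (p * j + 1) +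
      Polynomial.C c) : False := by
  have hp : 0 < p := (Fact.out : p.Prime).pos
  rcases Nat.lt_or_gt_of_ne hij with h0 | h0
  · refine as_deg p g j ?_
    have h1 : p * i + 1 < p * j + 1 := Nat.add_lt_add_right (Nat.mul_lt_mul_of_pos_left h0 hp) 1
    rw [h, Polynomial.natDegree_add_C, Polynomial.natDegree_sub_eq_right_of_natDegree_lt,
      Polynomial.natDegree_X_pow]
    rw [Polynomial.natDegree_X_pow, Polynomial.natDegree_X_pow]
    exact h1
  · refine as_deg p g i ?_
    have h1 : p * j + 1 < p * i + 1 := Nat.add_lt_add_right (Nat.mul_lt_mul_of_pos_left h0 hp) 1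
    rw [h, Polynomial.natDegree_add_C, Polynomial.natDegree_sub_eq_left_of_natDegree_lt,
      Polynomial.natDegree_X_pow]
    rw [Polynomial.natDegree_X_pow, Polynomial.natDegree_X_pow]
    exact h1

/-- generic constants: `a + h(x)` is not of the form `y ^ p - y` plus a constant -/
theorem as_gen2 (p : ℕ) [Fact p.Prime] (K : Type) [Field K] [Algebra (Fx p) K]
    [Algebra (Rx p) K] [IsScalarTower (Rx p) (Fx p) K] [FiniteDimensional (Fx p) K]
    [IsGalois (Fx p) K] (ζ : K) (N : ℕ) (hζ : ζ ^ N = 1) (hN : 0 < N) (hgeo : Geo p K ζ)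
    (a : Oc p K) (c0 : ZMod p) :
    ∃ h : Rx p, h.eval 0 = c0 ∧ ∀ (y c : K), (∃ n : ℕ, 0 < n ∧ c ^ p ^ n = c) →
      y ^ p - y ≠ (a : K) + algebraMap (Rx p) K h + c := by
  have hCh : CharP K p := charP_of p K
  have hEx : ExpChar K p := ExpChar.prime Fact.out
  by_contra hcon
  push Not at hcon
  have hex : ∀ j : ℕ, ∃ y c : K, IsCst p c ∧ y ^ p - y = (a : K) +
      algebraMap (Rx p) K (Polynomial.C c0 + Polynomial.X ^ (p * j + 1)) + c := fun j => by
    obtain ⟨y, c, h1, h2⟩ := hcon (Polynomial.C c0 + Polynomial.X ^ (p * j + 1)) (by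
      rw [Polynomial.eval_add, Polynomial.eval_C, Polynomial.eval_pow, Polynomial.eval_X,
        zero_pow (Nat.succ_ne_zero _), add_zero])
    exact ⟨y, c, h1, h2⟩
  choose w c hc hw using hex
  have : Finite {c : K // IsCst p c} := (cst_finite p K).to_subtype
  have hχ : ∀ (j : ℕ) (σ : Gl p K), IsCst p (σ (w j - w 0) - (w j - w 0)) := by
    intro j σ
    have h1 : (w j - w 0) ^ p - (w j - w 0) =
        algebraMap (Rx p) K (Polynomial.X ^ (p * j + 1) - Polynomial.X ^ (p * 0 + 1)) +
          (c j - c 0) := by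
      rw [sub_pow_expChar, map_sub]
      have h2 := hw j
      have h3 := hw 0
      rw [map_add] at h2 h3
      linear_combination h2 - h3
    have h2 : σ ((w j - w 0) ^ p - (w j - w 0)) = (w j - w 0) ^ p - (w j - w 0) +
        (σ (c j - c 0) - (c j - c 0)) := by
      rw [h1, map_add, IsScalarTower.algebraMap_apply (Rx p) (Fx p) K, σ.commutes]
      ring
    refine IsCst.of_as (e := σ (c j - c 0) - (c j - c 0)) ?_ ?_
    · rw [map_sub, map_pow] at h2
      rw [sub_pow_expChar]
      linear_combination h2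
    · exact (((hc j).sub (hc 0)).map (σ : K →+* K)).sub ((hc j).sub (hc 0))
  obtain ⟨i, j, hij, hχij⟩ := Finite.exists_ne_map_eq_of_infinite
    (fun (j : ℕ) (σ : Gl p K) => (⟨σ (w j - w 0) - (w j - w 0), hχ j σ⟩ : {c : K // IsCst p c}))
  have hfix : ∀ σ : Gl p K, σ (w i - w j) = w i - w j := by
    intro σ
    have h3 : σ (w i - w 0) - (w i - w 0) = σ (w j - w 0) - (w j - w 0) :=
      congrArg Subtype.val (congrFun hχij σ)
    rw [map_sub, map_sub] at h3
    rw [map_sub]
    linear_combination h3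
  have heq : (w i - w j) ^ p - (w i - w j) =
      algebraMap (Rx p) K (Polynomial.X ^ (p * i + 1) - Polynomial.X ^ (p * j + 1)) +
        (c i - c j) := by
    rw [sub_pow_expChar, map_sub]
    have h2 := hw i
    have h3 := hw j
    rw [map_add] at h2 h3
    linear_combination h2 - h3
  have hcc : IsCst p (c i - c j) := (hc i).sub (hc j)
  obtain ⟨e, he⟩ : ∃ e : ZMod p, c i - c j = cst p K e := by
    refine cst_fixed p K hcc fun σ => ?_
    have h4 := congrArg σ heq
    rw [map_sub, map_pow, hfix, heq, map_add,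
      IsScalarTower.algebraMap_apply (Rx p) (Fx p) K, σ.commutes] at h4
    exact (add_left_cancel h4).symm
  have hrange : w i - w j ∈ Set.range (algebraMap (Fx p) K) :=
    (IsGalois.mem_range_algebraMap_iff_fixed _).2 hfix
  obtain ⟨f, hf⟩ := hrange
  have hce : cst p K e = algebraMap (Rx p) K (Polynomial.C e) := rfl
  have hfeq : f ^ p - f =
      algebraMap (Rx p) (Fx p) (Polynomial.X ^ (p * i + 1) - Polynomial.X ^ (p * j + 1) +
        Polynomial.C e) := by
    apply (algebraMap (Fx p) K).injective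
    rw [map_sub, map_pow, hf, ← IsScalarTower.algebraMap_apply (Rx p) (Fx p) K, heq, he, hce,
      ← map_add]
  have hint : IsIntegral (Rx p) f := by
    refine ⟨Polynomial.X ^ p - (Polynomial.X + Polynomial.C
      (Polynomial.X ^ (p * i + 1) - Polynomial.X ^ (p * j + 1) + Polynomial.C e)), ?_, ?_⟩
    · refine Polynomial.monic_X_pow_sub ?_
      rw [Polynomial.degree_X_add_C]
      exact_mod_cast (Fact.out : p.Prime).one_lt
    · rw [Polynomial.eval₂_sub, Polynomial.eval₂_X_pow, Polynomial.eval₂_add, Polynomial.eval₂_X,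
        Polynomial.eval₂_C, ← hfeq]
      ring
  obtain ⟨g, hg⟩ := IsIntegrallyClosed.algebraMap_eq_of_integral hint
  refine as_ne2 p g i j e hij ?_
  apply IsFractionRing.injective (Rx p) (Fx p)
  rw [map_sub, map_pow, hg, hfeq]

/-- elements fixed by all automorphisms over the image of `ι` -/
theorem fix_range (p : ℕ) [Fact p.Prime] (K M : Type) [Field K] [Algebra (Fx p) K]
    [Field M] [Algebra (Fx p) M] [FiniteDimensional (Fx p) M] [IsGalois (Fx p) M]
    (ι : K →ₐ[Fx p] M) {z : M} (hz : ∀ τ : Gl p M, (∀ s : K, τ (ι s) = ι s) → τ z = z) :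
    ∃ s : K, z = ι s := by
  have h1 : z ∈ IntermediateField.fixedField
      (IntermediateField.fixingSubgroup ι.fieldRange) := by
    rw [IntermediateField.mem_fixedField_iff]
    intro τ hτ
    rw [IntermediateField.mem_fixingSubgroup_iff] at hτ
    exact hz τ fun s => hτ _ ⟨s, rfl⟩
  rw [IsGalois.fixedField_fixingSubgroup] at h1
  obtain ⟨s, hs⟩ := h1
  exact ⟨s, hs.symm⟩

/-- restriction of automorphisms -/
theorem exists_restr (p : ℕ) [Fact p.Prime] (K M : Type) [Field K] [Algebra (Fx p) K]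
    [IsGalois (Fx p) K] [Field M] [Algebra (Fx p) M]
    (ι : K →ₐ[Fx p] M) (σ : Gl p M) : ∃ σ' : Gl p K, ∀ s : K, ι (σ' s) = σ (ι s) := by
  let _ : Algebra K M := ι.toRingHom.toAlgebra
  have : IsScalarTower (Fx p) K M := IsScalarTower.of_algebraMap_eq fun r => (ι.commutes r).symm
  exact ⟨AlgEquiv.restrictNormal σ K, fun s => AlgEquiv.restrictNormal_commutes σ K s⟩

/-- the Artin - Schreier extension `M` of `as_ext` has no new constants -/
theorem as_geo (p : ℕ) [Fact p.Prime] (K : Type) [Field K] [Algebra (Fx p) K]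
    [Algebra (Rx p) K] [IsScalarTower (Rx p) (Fx p) K] [FiniteDimensional (Fx p) K]
    [IsGalois (Fx p) K] (ζ : K) (hgeo : Geo p K ζ) (a : K)
    (ha : ∀ (y c : K), (∃ n : ℕ, 0 < n ∧ c ^ p ^ n = c) → y ^ p - y ≠ a + c)
    (M : Type) [Field M] [Algebra (Fx p) M] [FiniteDimensional (Fx p) M] [IsGalois (Fx p) M]
    (ι : K →ₐ[Fx p] M) (y : M) (hy : y ^ p - y = ι a)
    (hgen : ∀ τ : Gl p M, (∀ s : K, τ (ι s) = ι s) → τ y = y → τ = 1) :
    Geo p M (ι ζ) := by
  have hCK : CharP K p := charP_of p K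
  have hCM : CharP M p := charP_of_injective_ringHom ι.toRingHom.injective p
  have hEx : ExpChar M p := ExpChar.prime Fact.out
  let _ : Algebra (Rx p) M := ((algebraMap (Fx p) M).comp (algebraMap (Rx p) (Fx p))).toAlgebra
  have : IsScalarTower (Rx p) (Fx p) M := IsScalarTower.of_algebraMap_eq fun r => rfl
  have hp0 : 0 < p := (Fact.out : p.Prime).pos
  -- the Kummer type character
  have hch : ∀ τ : Gl p M, (∀ s : K, τ (ι s) = ι s) → ∃ i : ZMod p, τ y = y + cst p M i := by
    intro τ hτ
    obtain ⟨i, hi⟩ := cst_of_pow p M (τ y - y) (by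
      have h1 := congrArg τ hy
      rw [hτ, map_sub, map_pow, ← hy] at h1
      rw [sub_pow_expChar]
      linear_combination h1)
    exact ⟨i, by rw [← hi]; ring⟩
  have hcst : ∀ (τ : Gl p M) (i : ZMod p), τ (cst p M i) = cst p M i := fun τ i => by
    have h1 : cst p M i = algebraMap (Fx p) M (algebraMap (Rx p) (Fx p) (Polynomial.C i)) := rfl
    rw [h1]
    exact τ.commutes _
  -- the main claim
  have hmain : ∀ z : M, IsCst p z → ∀ τ : Gl p M, (∀ s : K, τ (ι s) = ι s) → τ z = z := by
    by_contra hcon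
    push Not at hcon
    obtain ⟨z, hz, t, ht, htz⟩ := hcon
    obtain ⟨i, hi⟩ := hch t ht
    have hi0 : i ≠ 0 := by
      rintro rfl
      rw [map_zero, add_zero] at hi
      exact htz (by rw [hgen t ht hi, AlgEquiv.one_apply])
    -- powers of `t`
    have hpow : ∀ k : ℕ, (∀ s : K, (t ^ k) (ι s) = ι s) ∧ (t ^ k) y = y + k * cst p M i := by
      intro k
      induction k with
      | zero => simp
      | succ k ih =>
        refine ⟨fun s => ?_, ?_⟩
        · rw [pow_succ', AlgEquiv.mul_apply, ih.1, ht]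
        · rw [pow_succ', AlgEquiv.mul_apply, ih.2, map_add, map_mul, map_natCast, hcst, hi]
          push_cast
          ring
    obtain ⟨δ, hδdef⟩ : ∃ δ : Gl p M, δ = t ^ (i⁻¹).val := ⟨_, rfl⟩
    have hδK : ∀ s : K, δ (ι s) = ι s := by
      rw [hδdef]
      exact (hpow _).1
    have hδy : δ y = y + 1 := by
      rw [hδdef, (hpow _).2]
      congr 1
      have h1 : (((i⁻¹).val : ℕ) : M) = cst p M (i⁻¹) := by
        rw [← map_natCast (cst p M), ZMod.natCast_zmod_val]
      rw [h1, ← map_mul, inv_mul_cancel₀ hi0, map_one]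
    have hgenδ : ∀ τ : Gl p M, (∀ s : K, τ (ι s) = ι s) → ∃ k : ℕ, τ = δ ^ k := by
      intro τ hτ
      obtain ⟨j, hj⟩ := hch τ hτ
      refine ⟨j.val, ?_⟩
      have h1 : ∀ k : ℕ, (∀ s : K, (δ ^ k) (ι s) = ι s) ∧ (δ ^ k) y = y + k := by
        intro k
        induction k with
        | zero => simp
        | succ k ih =>
          refine ⟨fun s => ?_, ?_⟩
          · rw [pow_succ', AlgEquiv.mul_apply, ih.1, hδK]
          · rw [pow_succ', AlgEquiv.mul_apply, ih.2, map_add, map_natCast, hδy]
            push_cast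
            ring
      have h2 : ((δ ^ j.val)⁻¹ * τ) = 1 := by
        apply hgen
        · intro s
          rw [AlgEquiv.mul_apply, hτ]
          have h3 := (h1 j.val).1 s
          calc (δ ^ j.val)⁻¹ (ι s) = (δ ^ j.val)⁻¹ ((δ ^ j.val) (ι s)) := by rw [h3]
            _ = ι s := by rw [← AlgEquiv.mul_apply, inv_mul_cancel, AlgEquiv.one_apply]
        · rw [AlgEquiv.mul_apply, hj]
          have h3 := (h1 j.val).2
          have h4 : ((j.val : ℕ) : M) = cst p M j := by
            rw [← map_natCast (cst p M), ZMod.natCast_zmod_val]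
          rw [h4] at h3
          calc (δ ^ j.val)⁻¹ (y + cst p M j) = (δ ^ j.val)⁻¹ ((δ ^ j.val) y) := by rw [h3]
            _ = y := by rw [← AlgEquiv.mul_apply, inv_mul_cancel, AlgEquiv.one_apply]
      exact (eq_of_inv_mul_eq_one h2).symm
    have hδz : δ z ≠ z := by
      intro h1
      obtain ⟨k, hk⟩ := hgenδ t ht
      apply htz
      rw [hk]
      clear hk
      induction k with
      | zero => rw [pow_zero, AlgEquiv.one_apply]
      | succ k ih => rw [pow_succ', AlgEquiv.mul_apply, ih, h1]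
    have hδp : δ ^ p = 1 := by
      have h1 : ∀ k : ℕ, (∀ s : K, (δ ^ k) (ι s) = ι s) ∧ (δ ^ k) y = y + k := by
        intro k
        induction k with
        | zero => simp
        | succ k ih =>
          refine ⟨fun s => ?_, ?_⟩
          · rw [pow_succ', AlgEquiv.mul_apply, ih.1, hδK]
          · rw [pow_succ', AlgEquiv.mul_apply, ih.2, map_add, map_natCast, hδy]
            push_cast
            ring
      apply hgen _ (h1 p).1
      rw [(h1 p).2, CharP.cast_eq_zero, add_zero]
    -- the nilpotent operator `δ - 1`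
    obtain ⟨D, hD⟩ : ∃ D : M →+ M, ∀ u, D u = δ u - u :=
      ⟨(δ : M →+* M).toAddMonoidHom - AddMonoidHom.id M, fun u => rfl⟩
    have hDp : ∀ u : M, (D^[p]) u = 0 := by
      intro u
      have hinj : Function.Injective (Module.toAddMonoidEnd M M) := by
        intro a b hab
        have h1 : a * 1 = b * 1 := DFunLike.congr_fun hab (1 : M)
        rwa [mul_one, mul_one] at h1
      have : CharP (AddMonoid.End M) p := charP_of_injective_ringHom hinj p
      obtain ⟨E, hE⟩ : ∃ E : AddMonoid.End M, ∀ u, E u = δ u :=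
        ⟨(δ : M →+* M).toAddMonoidHom, fun u => rfl⟩
      have h1 : ∀ (k : ℕ) (u : M), (E ^ k) u = (δ ^ k) u := by
        intro k
        induction k with
        | zero => intro u; rfl
        | succ k ih =>
          intro u
          rw [pow_succ', pow_succ', AlgEquiv.mul_apply, ← ih, ← hE]
          rfl
      have h2 : ∀ (k : ℕ) (u : M), ((E - 1) ^ k) u = (D^[k]) u := by
        intro k
        induction k with
        | zero => intro u; rfl
        | succ k ih =>
          intro u
          rw [pow_succ', Function.iterate_succ_apply', ← ih, hD, ← hE]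
          rfl
      rw [← h2, sub_pow_char_of_commute _ (Commute.one_right E), one_pow]
      have h3 : (E ^ p - 1) u = (E ^ p) u - u := rfl
      rw [h3, h1, hδp, AlgEquiv.one_apply, sub_self]
    have hDc : ∀ k : ℕ, IsCst p ((D^[k]) z) := by
      intro k
      induction k with
      | zero => exact hz
      | succ k ih =>
        rw [Function.iterate_succ_apply', hD]
        exact (ih.map (δ : M →+* M)).sub ih
    have hD1 : (D^[1]) z ≠ 0 := by
      rw [Function.iterate_one, hD]
      exact sub_ne_zero.2 hδz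
    obtain ⟨k, hk1, hk2⟩ : ∃ k : ℕ, (D^[k + 1]) z ≠ 0 ∧ (D^[k + 2]) z = 0 := by
      by_contra hcon
      push Not at hcon
      have h1 : ∀ k : ℕ, (D^[k + 1]) z ≠ 0 := by
        intro k
        induction k with
        | zero => exact hD1
        | succ k ih => exact hcon k ih
      obtain ⟨q, hq⟩ := Nat.exists_eq_succ_of_ne_zero hp0.ne'
      exact h1 q (by rw [← Nat.succ_eq_add_one, ← hq]; exact hDp z)
    obtain ⟨u, hu⟩ : ∃ u : M, u = (D^[k]) z := ⟨_, rfl⟩
    obtain ⟨v, hv⟩ : ∃ v : M, v = (D^[k + 1]) z := ⟨_, rfl⟩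
    have hDu : δ u = u + v := by
      have h1 : v = δ u - u := by rw [hv, Function.iterate_succ_apply', ← hu, hD]
      rw [h1]
      ring
    have hDv : δ v = v := by
      have h1 : δ v - v = 0 := by
        rw [← hD, hv, ← Function.iterate_succ_apply' D, hk2]
      exact sub_eq_zero.1 h1
    have hv0 : v ≠ 0 := by rw [hv]; exact hk1
    obtain ⟨z1, hz1⟩ : ∃ z1 : M, z1 = u / v := ⟨_, rfl⟩
    have hz1c : IsCst p z1 := by
      rw [hz1, hu, hv]
      exact (hDc k).div (hDc (k + 1))
    have hz1δ : δ z1 = z1 + 1 := by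
      rw [hz1, map_div₀, hDu, hDv]
      field_simp
    -- descend
    have hfixδ : ∀ x : M, δ x = x → ∃ s : K, x = ι s := by
      intro x hx
      refine fix_range p K M ι fun τ hτ => ?_
      obtain ⟨k, rfl⟩ := hgenδ τ hτ
      clear hτ
      induction k with
      | zero => rw [pow_zero, AlgEquiv.one_apply]
      | succ k ih => rw [pow_succ', AlgEquiv.mul_apply, ih, hx]
    obtain ⟨w, hw⟩ := hfixδ (y - z1) (by rw [map_sub, hδy, hz1δ]; ring)
    obtain ⟨c, hc⟩ := hfixδ (z1 ^ p - z1) (by
      rw [map_sub, map_pow, hz1δ, add_pow_expChar, one_pow]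
      ring)
    have hcc : IsCst p c := by
      rw [← isCst_map_iff (ι : K →+* M)]
      change IsCst p (ι c)
      rw [← hc]
      exact (hz1c.pow p).sub hz1c
    refine ha w (-c) (hcc.neg) ?_
    apply ι.toRingHom.injective
    change ι (w ^ p - w) = ι (a + -c)
    rw [map_sub, map_pow, map_add, map_neg, ← hw, ← hc, ← hy, sub_pow_expChar]
    ring
  intro z hz σ hσ
  obtain ⟨s, hs⟩ := fix_range p K M ι (hmain z hz)
  obtain ⟨σ', hσ'⟩ := exists_restr p K M ι σ
  have h1 : σ' ζ = ζ := ι.toRingHom.injective (by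
    change ι (σ' ζ) = ι ζ
    rw [hσ', hσ])
  have h2 : IsCst p s := by
    rw [← isCst_map_iff (ι : K →+* M)]
    change IsCst p (ι s)
    rw [← hs]
    exact hz
  rw [hs, ← hσ', hgeo s h2 σ' h1]

end Pool.Agent.AB
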