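import Pool.Agent.Lib.MP_5de024_nt.Grp

/-!
# The group theory (piece Grp2)
-/

set_option autoImplicit false
set_option linter.unusedSectionVars false

namespace Pool.Agent.AB

/-- a group generated by its elements of `p`-power order with an abelian normal subgroup of
exponent `l ≠ p` and index a power of `p` is a semidirect product -/
theorem split_data2 (p : ℕ) [Fact p.Prime] (E : Type) [Group E] [Finite E]
    (hE : Subgroup.closure {g : E | ∃ n : ℕ, g ^ (p ^ n) = 1} = ⊤) (N : Subgroup E)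
    [N.Normal] (hab : ∀ a ∈ N, ∀ b ∈ N, a * b = b * a) (l : ℕ) (hl : l.Prime) (hlp : l ≠ p)
    (hexp : ∀ a ∈ N, a ^ l = 1) (hEN : IsPGroup p (E ⧸ N)) (v : E)
    (hv : Subgroup.normalClosure {v} = N) :
    ∃ (V G : Type) (_ : CommGroup V) (_ : Finite V) (_ : Group G) (_ : Finite G)
      (φ : G →* MulAut V) (w : V),
      Nonempty (V ⋊[φ] G ≃* E) ∧ IsPGroup p G ∧ (∀ n : V, n ^ l = 1) ∧
      Subgroup.closure (Set.range fun g : G => φ g w) = ⊤ ∧
      ∀ n : V, (∀ g, φ g n = n) → n = 1 := by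
  classical
  have hp : p.Prime := Fact.out
  have hlp' : p.Coprime l := (Nat.coprime_primes hp hl).2 (Ne.symm hlp)
  have hall : ∀ n : N, n ^ l = 1 := fun n => Subtype.ext (hexp n n.2)
  have hcop : (Nat.card N).Coprime p := card_coprime_of_pow N l p hall hlp'
  -- the complement
  have hidx : N.index = Nat.card (E ⧸ N) := rfl
  obtain ⟨j, hj⟩ := (IsPGroup.iff_card (p := p) (G := E ⧸ N)).1 hEN
  obtain ⟨H, hH⟩ := Subgroup.exists_right_complement'_of_coprime (N := N) (by
    rw [hidx, hj]
    exact Nat.Coprime.pow_right j hcop)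
  have hdec : ∀ x : E, ∃ n ∈ N, ∃ b ∈ H, x = n * b := by
    intro x
    obtain ⟨⟨n, b⟩, hnb⟩ := hH.2 x
    exact ⟨n, n.2, b, b.2, hnb.symm⟩
  have hvN : v ∈ N := by
    rw [← hv]
    exact Subgroup.subset_normalClosure (Set.mem_singleton v)
  have hnorm : ∀ x : E, ∀ n ∈ N, x * n * x⁻¹ ∈ N := fun x n hn =>
    (inferInstance : N.Normal).conj_mem n hn x
  -- N acts trivially on itself
  have hconj : ∀ n ∈ N, ∀ a ∈ N, n * a * n⁻¹ = a := by
    intro n hn a ha
    rw [hab n hn a ha, mul_inv_cancel_right]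
  have hconj2 : ∀ n ∈ N, ∀ b : E, ∀ a ∈ N, (n * b) * a * (n * b)⁻¹ = b * a * b⁻¹ := by
    intro n hn b a ha
    have h1 := hconj n hn (b * a * b⁻¹) (hnorm b a ha)
    rw [← h1]
    group
  let iA : CommGroup N :=
    { (inferInstance : Group N) with
      mul_comm := fun a b => Subtype.ext (hab a a.2 b b.2) }
  set φ : H →* MulAut N := (MulAut.conjNormal (H := N)).comp H.subtype with hφ
  have hφa : ∀ (b : H) (a : N), ((φ b a : N) : E) = b * a * (b : E)⁻¹ := by
    intro b a
    rw [hφ, MonoidHom.comp_apply]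
    exact MulAut.conjNormal_apply _ _
  -- the isomorphism
  set F : N ⋊[φ] H →* E := SemidirectProduct.lift N.subtype H.subtype (by
    intro b
    ext a
    change ((φ b a : N) : E) = b * a * (b : E)⁻¹
    exact hφa b a) with hF
  have hFa : ∀ x : N ⋊[φ] H, F x = x.left * x.right := fun x => rfl
  have hFbij : Function.Bijective F := by
    constructor
    · intro x y hxy
      rw [hFa, hFa] at hxy
      have h1 := hH.1 (a₁ := (x.left, x.right)) (a₂ := (y.left, y.right)) hxy
      rw [Prod.mk.injEq] at h1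
      exact SemidirectProduct.ext h1.1 h1.2
    · intro x
      obtain ⟨n, hn, b, hb, hx⟩ := hdec x
      exact ⟨⟨⟨n, hn⟩, ⟨b, hb⟩⟩, hx.symm⟩
  set w : N := ⟨v, hvN⟩ with hw
  have hclo : Subgroup.closure (Set.range fun b : H => φ b w) = ⊤ := by
    rw [eq_top_iff]
    intro n _
    have h1 : N ≤ (Subgroup.closure (Set.range fun b : H => φ b w)).map N.subtype := by
      conv_lhs => rw [← hv]
      rw [Subgroup.normalClosure, Subgroup.closure_le]
      intro x hx
      rw [Group.mem_conjugatesOfSet_iff] at hx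
      obtain ⟨a, ha, hax⟩ := hx
      rw [Set.mem_singleton_iff] at ha
      subst ha
      obtain ⟨c, hc⟩ := isConj_iff.1 hax
      obtain ⟨n', hn', b, hb, hcd⟩ := hdec c
      refine ⟨φ ⟨b, hb⟩ w, Subgroup.subset_closure ⟨⟨b, hb⟩, rfl⟩, ?_⟩
      rw [Subgroup.subtype_apply, hφa]
      change b * a * b⁻¹ = x
      rw [← hc, hcd]
      exact (hconj2 n' hn' b a hvN).symm
    obtain ⟨y, hy, hyn⟩ := h1 n.2
    have h2 : y = n := Subtype.ext hyn
    rwa [← h2]
  have hPH : IsPGroup p H := by
    refine IsPGroup.of_injective hEN ((QuotientGroup.mk' N).comp H.subtype) ?_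
    rw [injective_iff_map_eq_one]
    intro b hb
    have h1 : (b : E) ∈ N ⊓ H := by
      refine ⟨?_, b.2⟩
      rw [MonoidHom.comp_apply] at hb
      exact (QuotientGroup.eq_one_iff _).1 hb
    rw [hH.disjoint.eq_bot, Subgroup.mem_bot] at h1
    exact Subtype.ext h1
  refine ⟨N, H, iA, inferInstance, inferInstance, inferInstance, φ, w,
    ⟨MulEquiv.ofBijective F hFbij⟩, hPH, hall, hclo, ?_⟩
  intro n hn
  haveI := Fintype.ofFinite H
  -- the norm
  let ν : N →* N :=
    { toFun := fun a => ∏ g : H, φ g a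
      map_one' := Finset.prod_eq_one fun g _ => map_one _
      map_mul' := fun a b => by
        rw [← Finset.prod_mul_distrib]
        exact Finset.prod_congr rfl fun g _ => map_mul _ _ _ }
  have hνa : ∀ a, ν a = ∏ g : H, φ g a := fun _ => rfl
  have hν : ∀ (b : H) (a : N), ν (φ b a) = ν a := by
    intro b a
    rw [hνa, hνa]
    refine Fintype.prod_equiv (Equiv.mulRight b) _ _ fun g => ?_
    show φ g (φ b a) = φ (g * b) a
    rw [map_mul, MulAut.mul_apply]
  set X : N ⋊[φ] H →* N := SemidirectProduct.lift ν 1 (by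
    intro b
    refine MonoidHom.ext fun a => ?_
    change ν (φ b a) = 1 * ν a * 1⁻¹
    rw [hν, one_mul, inv_one, mul_one]) with hX
  set f := MulEquiv.ofBijective F hFbij with hf
  have hY : (X.comp f.symm.toMonoidHom) = 1 := by
    refine MonoidHom.eq_of_eqOn_dense hE ?_
    rintro x ⟨n, hx⟩
    set y := (X.comp f.symm.toMonoidHom) x with hy
    have h1 : y ^ l = 1 := hall y
    have h2 : y ^ p ^ n = 1 := by
      rw [hy, ← map_pow, hx, map_one]
    have h3 : Nat.Coprime l (p ^ n) := Nat.Coprime.pow_right n hlp'.symm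
    have h4 := pow_gcd_eq_one.2 ⟨h1, h2⟩
    rwa [h3, pow_one] at h4
  have h5 := DFunLike.congr_fun hY (f (SemidirectProduct.inl n))
  have h6 : (X.comp f.symm.toMonoidHom) (f (SemidirectProduct.inl n)) = ν n := by
    change X (f.symm (f (SemidirectProduct.inl n))) = ν n
    rw [MulEquiv.symm_apply_apply, hX, SemidirectProduct.lift_inl]
  rw [h6, hνa] at h5
  have h7 : n ^ (Fintype.card H) = 1 := by
    have h8 : (∏ g : H, φ g n) = n ^ (Fintype.card H) := by
      rw [Finset.prod_congr rfl fun g _ => hn g, Finset.prod_const, Finset.card_univ]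
    rw [← h8]
    exact h5
  obtain ⟨i, hi⟩ := (IsPGroup.iff_card (p := p) (G := H)).1 hPH
  rw [← Nat.card_eq_fintype_card, hi] at h7
  have h3 : Nat.Coprime l (p ^ i) := Nat.Coprime.pow_right i hlp'.symm
  have h4 := pow_gcd_eq_one.2 ⟨hall n, h7⟩
  rwa [h3, pow_one] at h4

end Pool.Agent.AB
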