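import Pool.Agent.Lib.MP_5de024_nt.C.KDefs

/-!
# The `l`-th root of the ideal of `η` (piece IdR)
-/

set_option autoImplicit false
set_option linter.unusedSectionVars false

namespace Pool.Agent.AB

section generic

variable {A : Type} [CommRing A] [IsDedekindDomain A]

open UniqueFactorizationMonoid

private theorem idR_bot {l : ℕ} (hl : 0 < l) {u : A} (hu : u ≠ 0) {J : Ideal A}
    (hJ : J ^ l = Ideal.span {u}) : J ≠ ⊥ := by
  rintro rfl
  have h1 : (⊥ : Ideal A) ^ l = ⊥ := by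
    rw [← Ideal.zero_eq_bot, zero_pow hl.ne']
  rw [h1] at hJ
  exact hu (Ideal.span_singleton_eq_bot.1 hJ.symm)

private theorem idR_loc {l : ℕ} (hl : 0 < l) {u : A} (hu : u ≠ 0) {J : Ideal A}
    (hJ : J ^ l = Ideal.span {u}) (P : Ideal A) (hP : P.IsPrime) :
    ∃ w a b : A, a ∉ P ∧ b ∉ P ∧ u * b = w ^ l * a := by
  have hJ0 := idR_bot hl hu hJ
  have h1 : ¬ J ≤ J * P := by
    intro h
    have h2 : J * P = J * ⊤ := by
      rw [Ideal.mul_top]
      exact le_antisymm Ideal.mul_le_left h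
    exact hP.ne_top (mul_left_cancel₀ hJ0 h2)
  obtain ⟨w, hwJ, hwP⟩ := SetLike.not_le_iff_exists.1 h1
  obtain ⟨I, hI⟩ := Ideal.dvd_iff_le.2 ((Ideal.span_singleton_le_iff_mem J).2 hwJ)
  have h2 : ¬ I ≤ P := by
    intro h
    exact hwP (Ideal.mul_mono_right h (hI ▸ Ideal.mem_span_singleton_self w))
  obtain ⟨i, hiI, hiP⟩ := SetLike.not_le_iff_exists.1 h2
  have h3 : Ideal.span {w ^ l} = Ideal.span {u} * I ^ l := by
    rw [← Ideal.span_singleton_pow, hI, mul_pow, hJ]
  have h4 : u * i ^ l ∈ Ideal.span {w ^ l} := by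
    rw [h3]
    exact Ideal.mul_mem_mul (Ideal.mem_span_singleton_self u) (Ideal.pow_mem_pow hiI l)
  obtain ⟨a, ha⟩ := Ideal.mem_span_singleton'.1 h4
  have hb : i ^ l ∉ P := fun h => hiP (hP.mem_of_pow_mem l h)
  refine ⟨w, a, i ^ l, fun haP => hb ?_, hb, by rw [← ha, mul_comm]⟩
  have h5 : Ideal.span {u} * (I ^ l * Ideal.span {a}) = Ideal.span {u} * Ideal.span {i ^ l} := by
    rw [← mul_assoc, ← h3, Ideal.span_singleton_mul_span_singleton,
      Ideal.span_singleton_mul_span_singleton, ← ha, mul_comm]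
  have h6 : I ^ l * Ideal.span {a} = Ideal.span {i ^ l} :=
    mul_left_cancel₀ (by rwa [Ne, Ideal.zero_eq_bot, Ideal.span_singleton_eq_bot]) h5
  have h7 : i ^ l ∈ I ^ l * Ideal.span {a} := h6 ▸ Ideal.mem_span_singleton_self _
  exact (Ideal.span_singleton_le_iff_mem P).2 haP (Ideal.mul_le_right h7)

private theorem idR_root {l : ℕ} {x t : A} (hx : x ≠ 0) (ht : t ≠ 0)
    (h : ∀ P : Ideal A, P.IsPrime → ∃ (j : ℕ) (a b : A), a ∉ P ∧ b ∉ P ∧
      t * b = x ^ (l * j) * a) : ∃ J : Ideal A, J ^ l = Ideal.span {t} := by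
  classical
  have ht0 : (Ideal.span {t} : Ideal A) ≠ 0 := by
    rwa [Ne, Ideal.zero_eq_bot, Ideal.span_singleton_eq_bot]
  have hx0 : (Ideal.span {x} : Ideal A) ≠ 0 := by
    rwa [Ne, Ideal.zero_eq_bot, Ideal.span_singleton_eq_bot]
  have hcnt : ∀ (P : Ideal A) (a : A), a ∉ P →
      Multiset.count P (normalizedFactors (Ideal.span {a} : Ideal A)) = 0 := by
    intro P a ha
    rw [Multiset.count_eq_zero]
    intro hm
    exact ha ((Ideal.dvd_span_singleton).1 (dvd_of_mem_normalizedFactors hm))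
  have h0 : ∀ (P : Ideal A) (a : A), a ∉ P → (Ideal.span {a} : Ideal A) ≠ 0 := by
    intro P a ha
    rw [Ne, Ideal.zero_eq_bot, Ideal.span_singleton_eq_bot]
    rintro rfl
    exact ha P.zero_mem
  obtain ⟨s, hs⟩ := Multiset.exists_smul_of_dvd_count
    (normalizedFactors (Ideal.span {t} : Ideal A)) (k := l) (fun P hPm => by
    have hP : P.IsPrime := Ideal.isPrime_of_prime (prime_of_normalized_factor P hPm)
    obtain ⟨j, a, b, ha, hb, hab⟩ := h P hP
    have e1 : Ideal.span {t} * Ideal.span {b} = Ideal.span {x} ^ (l * j) * Ideal.span {a} := by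
      rw [Ideal.span_singleton_mul_span_singleton, hab, Ideal.span_singleton_pow,
        Ideal.span_singleton_mul_span_singleton]
    have e2 := congrArg (fun I => Multiset.count P (normalizedFactors I)) e1
    beta_reduce at e2
    rw [normalizedFactors_mul ht0 (h0 P b hb), normalizedFactors_mul (pow_ne_zero _ hx0)
      (h0 P a ha), Multiset.count_add, Multiset.count_add, hcnt P a ha, hcnt P b hb, add_zero,
      add_zero, normalizedFactors_pow, Multiset.count_nsmul, mul_assoc] at e2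
    exact ⟨_, e2⟩)
  refine ⟨s.prod, ?_⟩
  rw [← Ideal.prod_normalizedFactors_eq_self ht0, hs, Multiset.prod_nsmul]

private theorem idR_fin {x : A} (hx : x ≠ 0) :
    {P : Ideal A | P.IsPrime ∧ x ∈ P}.Finite := by
  have h1 := Ideal.finite_factors (R := A) (I := Ideal.span {x})
    (by rwa [Ne, Ideal.zero_eq_bot, Ideal.span_singleton_eq_bot])
  refine (h1.image fun v => v.asIdeal).subset ?_
  rintro P ⟨hP, hxP⟩
  exact ⟨⟨P, hP, fun h => hx (by rwa [h] at hxP)⟩, Ideal.dvd_span_singleton.2 hxP, rfl⟩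

end generic

variable (p : ℕ) [Fact p.Prime] (K : Type) [Field K] [Algebra (Fx p) K] [Algebra (Rx p) K]
  [IsScalarTower (Rx p) (Fx p) K]

/-- `η x^{l N}` is integral and generates the `l`-th power of an ideal -/
theorem ideal_root [FiniteDimensional (Fx p) K] [IsGalois (Fx p) K] (l : ℕ) (hl : 0 < l)
    (η : K) (hη : η ≠ 0)
    (hloc : ∀ (P : Ideal (Oc p K)), P.IsPrime → ∃ (k : ℤ) (a b : Oc p K), a ∉ P ∧ b ∉ P ∧
      η * (b : K) = xk p K ^ ((l : ℤ) * k) * (a : K)) :
    ∃ (N : ℕ) (t : Oc p K) (J : Ideal (Oc p K)), (t : K) = η * xk p K ^ (l * N) ∧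
      J ≠ ⊥ ∧ J ^ l = Ideal.span {t} := by
  have _ : IsDedekindDomain (Oc p K) := integralClosure.isDedekindDomain (Rx p) (Fx p) K
  have hxk := xk_ne_zero p K
  have hxo : xo p K ≠ 0 := by
    intro h
    apply hxk
    rw [← xo_coe, h, ZeroMemClass.coe_zero]
  choose! k a b ha hb hab using hloc
  obtain ⟨N, hN⟩ : ∃ N : ℕ, ∀ P : Ideal (Oc p K), P.IsPrime → xo p K ∈ P → 0 ≤ k P + N := by
    have h1 := idR_fin hxo
    obtain ⟨N, hN⟩ := (h1.image fun P => (-(k P)).toNat).bddAbove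
    refine ⟨N, fun P hP hx => ?_⟩
    have h2 : (-(k P)).toNat ≤ N := hN ⟨P, ⟨hP, hx⟩, rfl⟩
    omega
  have key : ∀ P : Ideal (Oc p K), P.IsPrime → ∃ (j : ℕ) (a b : Oc p K), a ∉ P ∧ b ∉ P ∧
      η * xk p K ^ (l * N) * (b : K) = xk p K ^ (l * j) * (a : K) := by
    intro P hP
    have h1 : η * xk p K ^ (l * N) * (b P : K) =
        xk p K ^ ((l : ℤ) * (k P + N)) * (a P : K) := by
      rw [mul_right_comm, hab P hP, mul_right_comm, mul_add, zpow_add₀ hxk, ← zpow_natCast,
        Nat.cast_mul]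
    by_cases hk : 0 ≤ k P + N
    · obtain ⟨j, hj⟩ := Int.eq_ofNat_of_zero_le hk
      refine ⟨j, a P, b P, ha P hP, hb P hP, ?_⟩
      rw [h1, hj, ← Nat.cast_mul, zpow_natCast]
    · have hx : xo p K ∉ P := fun hx => hk (hN P hP hx)
      obtain ⟨j, hj⟩ := Int.eq_ofNat_of_zero_le (show 0 ≤ -(k P + N) by omega)
      refine ⟨0, a P, b P * xo p K ^ (l * j), ha P hP, fun h => ?_, ?_⟩
      · rcases hP.mem_or_mem h with h | h
        · exact hb P hP h
        · exact hx (hP.mem_of_pow_mem _ h)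
      · have h2 : k P + N = -(j : ℤ) := by omega
        rw [MulMemClass.coe_mul, ← mul_assoc, h1, SubmonoidClass.coe_pow, xo_coe, h2,
          mul_right_comm, ← zpow_natCast, ← zpow_add₀ hxk, Nat.cast_mul, mul_neg,
          neg_add_cancel, zpow_zero, mul_zero, pow_zero]
  have hint : ∃ t : Oc p K, (t : K) = η * xk p K ^ (l * N) := by
    let D : Ideal (Oc p K) :=
      { carrier := {d | (d : K) * (η * xk p K ^ (l * N)) ∈ Oc p K}
        add_mem' := by
          intro c d hc hd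
          show ((c + d : Oc p K) : K) * (η * xk p K ^ (l * N)) ∈ Oc p K
          rw [AddMemClass.coe_add, add_mul]
          exact add_mem hc hd
        zero_mem' := by
          show ((0 : Oc p K) : K) * (η * xk p K ^ (l * N)) ∈ Oc p K
          rw [ZeroMemClass.coe_zero, zero_mul]
          exact zero_mem _
        smul_mem' := by
          intro c d hd
          show ((c * d : Oc p K) : K) * (η * xk p K ^ (l * N)) ∈ Oc p K
          rw [MulMemClass.coe_mul, mul_assoc]
          exact mul_mem c.2 hd }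
    have hD : D = ⊤ := by
      by_contra hne
      obtain ⟨P, hP, hDP⟩ := Ideal.exists_le_maximal D hne
      obtain ⟨j, a', b', ha', hb', h⟩ := key P hP.isPrime
      refine hb' (hDP ?_)
      show (b' : K) * (η * xk p K ^ (l * N)) ∈ Oc p K
      rw [mul_comm, h, ← xo_coe, ← SubmonoidClass.coe_pow, ← MulMemClass.coe_mul]
      exact Subtype.property _
    have h1 : (1 : Oc p K) ∈ D := by
      rw [hD]
      exact Submodule.mem_top
    have h2 : ((1 : Oc p K) : K) * (η * xk p K ^ (l * N)) ∈ Oc p K := h1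
    rw [OneMemClass.coe_one, one_mul] at h2
    exact ⟨⟨_, h2⟩, rfl⟩
  obtain ⟨t, ht⟩ := hint
  have ht0 : t ≠ 0 := by
    rintro rfl
    rw [ZeroMemClass.coe_zero] at ht
    exact mul_ne_zero hη (pow_ne_zero _ hxk) ht.symm
  obtain ⟨J, hJ⟩ := idR_root (l := l) hxo ht0 (fun P hP => by
    obtain ⟨j, a', b', ha', hb', h⟩ := key P hP
    refine ⟨j, a', b', ha', hb', Subtype.ext ?_⟩
    rw [MulMemClass.coe_mul, MulMemClass.coe_mul, SubmonoidClass.coe_pow, xo_coe, ht]
    exact h)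
  exact ⟨N, t, J, ht, idR_bot hl ht0 hJ, hJ⟩

/-- an element whose ideal is an `l`-th power is locally an `l`-th power times a unit -/
theorem local_root [FiniteDimensional (Fx p) K] [IsGalois (Fx p) K] (l : ℕ) (hl : 0 < l)
    (u : Oc p K) (hu : u ≠ 0) (J : Ideal (Oc p K)) (hJ : J ^ l = Ideal.span {u})
    (P : Ideal (Oc p K)) (hP : P.IsPrime) :
    ∃ (w : K) (a b : Oc p K), a ∉ P ∧ b ∉ P ∧ (u : K) * b = w ^ l * a := by
  have _ : IsDedekindDomain (Oc p K) := integralClosure.isDedekindDomain (Rx p) (Fx p) K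
  obtain ⟨w, a, b, ha, hb, h⟩ := idR_loc hl hu hJ P hP
  refine ⟨w, a, b, ha, hb, ?_⟩
  have h1 := congrArg (fun z : Oc p K => (z : K)) h
  simpa using h1

end Pool.Agent.AB
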