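import Pool.Agent.Lib.MP_5de024_nt.C.Abs

/-!
# Units, indices and the number of ideals from below (piece Idx)
-/

set_option autoImplicit false
set_option linter.unusedSectionVars false

namespace Pool.Agent.AB

variable {k R : Type} [Field k] [Finite k] [CommRing R] [IsDomain R] [Algebra k R]

open Module

theorem Idx_alg_ne (c : k) (hc : c ≠ 0) : algebraMap k R c ≠ 0 := by
  intro h
  exact hc ((algebraMap k R).injective (h.trans (map_zero _).symm))

theorem Idx_d_zero (X : OneInf k R) : X.d 0 = 0 := by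
  have h := X.d_alg 0
  rwa [map_zero] at h

theorem Idx_d_one (X : OneInf k R) : X.d 1 = 0 := by
  have h := X.d_alg 1
  rwa [map_one] at h

theorem Idx_lc_one (X : OneInf k R) : X.lc 1 = 1 := by
  have h := X.lc_alg 1
  rwa [map_one] at h

theorem Idx_d_smul (X : OneInf k R) (c : k) (hc : c ≠ 0) (a : R) :
    X.d (algebraMap k R c * a) = X.d a := by
  by_cases ha : a = 0
  · rw [ha, mul_zero]
  · rw [X.d_mul _ _ (Idx_alg_ne c hc) ha, X.d_alg, zero_add]

theorem Idx_lc_smul (X : OneInf k R) (c : k) (a : R) :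
    X.lc (algebraMap k R c * a) = c * X.lc a := by
  rw [X.lc_mul, X.lc_alg]

theorem Idx_d_neg (X : OneInf k R) (a : R) : X.d (-a) = X.d a := by
  have h : -a = algebraMap k R (-1) * a := by rw [map_neg, map_one, neg_one_mul]
  rw [h, Idx_d_smul X _ (neg_ne_zero.2 one_ne_zero)]

theorem Idx_d_add (X : OneInf k R) (a b : R) (n : ℕ) (ha : X.d a ≤ n) (hb : X.d b ≤ n) :
    X.d (a + b) ≤ n := by
  by_cases h0 : a = 0
  · rw [h0, zero_add]; exact hb
  by_cases h1 : a + b = 0
  · rw [h1, Idx_d_zero]; exact Nat.zero_le _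
  by_contra h
  rw [not_le] at h
  have h2 := (X.add_of_lt (-a) (a + b) (neg_ne_zero.2 h0) h1 (by rw [Idx_d_neg]; omega)).1
  rw [neg_add_cancel_left] at h2
  omega

/-- an element of degree zero is a constant -/
theorem Idx_deg_zero (X : OneInf k R) (a : R) (ha : X.d a = 0) : a = algebraMap k R (X.lc a) := by
  by_cases h0 : a = 0
  · rw [h0, X.lc_zero, map_zero]
  by_contra h
  have h1 := X.sub_lt a (algebraMap k R (X.lc a)) h0 (Idx_alg_ne _ (X.lc_ne a h0)) h
    (by rw [X.d_alg, ha]) (by rw [X.lc_alg])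
  omega

/-- the elements of degree at most `n` -/
def IdxV (X : OneInf k R) (n : ℕ) : Submodule k R where
  carrier := {a | X.d a ≤ n}
  add_mem' := fun {a b} ha hb => Idx_d_add X a b n ha hb
  zero_mem' := by
    change X.d 0 ≤ n
    rw [Idx_d_zero]; exact Nat.zero_le _
  smul_mem' := fun c a ha => by
    change X.d (c • a) ≤ n
    rw [Algebra.smul_def]
    by_cases hc : c = 0
    · rw [hc, map_zero, zero_mul, Idx_d_zero]; exact Nat.zero_le _
    · rw [Idx_d_smul X c hc]; exact ha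

theorem IdxV_mem (X : OneInf k R) (n : ℕ) (a : R) : a ∈ IdxV X n ↔ X.d a ≤ n := Iff.rfl

theorem IdxV_mono (X : OneInf k R) {m n : ℕ} (h : m ≤ n) : IdxV X m ≤ IdxV X n :=
  fun a ha => le_trans ((IdxV_mem X m a).1 ha) h

theorem IdxV_card (X : OneInf k R) (n : ℕ) :
    Nat.card {a : R // a = 0 ∨ X.d a ≤ n} = Nat.card (IdxV X n) := by
  refine Nat.card_congr (Equiv.subtypeEquivRight fun a => ?_)
  constructor
  · rintro (h | h)
    · rw [h]; exact Submodule.zero_mem _
    · exact h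
  · exact fun h => Or.inr h

theorem IdxV_finite (X : OneInf k R) (n : ℕ) : Finite (IdxV X n) := by
  obtain ⟨c, hc⟩ := X.growth
  have h1 := hc n
  rw [IdxV_card] at h1
  have h2 : 0 < Nat.card k ^ n := Nat.pow_pos Nat.card_pos
  refine Nat.finite_of_card_ne_zero fun h => ?_
  rw [h, mul_zero] at h1
  omega

theorem IdxV_growth (X : OneInf k R) :
    ∃ c : ℕ, ∀ n, Nat.card k ^ n ≤ Nat.card k ^ c * Nat.card (IdxV X n) ∧
      n ≤ c + finrank k (IdxV X n) := by
  obtain ⟨c, hc⟩ := X.growth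
  refine ⟨c, fun n => ?_⟩
  have h1 := hc n
  rw [IdxV_card] at h1
  refine ⟨h1, ?_⟩
  have := IdxV_finite X n
  have : Module.Finite k (IdxV X n) := Module.Finite.of_finite
  rw [Module.natCard_eq_pow_finrank (K := k) (V := IdxV X n), ← pow_add] at h1
  exact (Nat.pow_le_pow_iff_right (Finite.one_lt_card (α := k))).1 h1

/-- adding an element of degree `n + 1` -/
theorem IdxV_succ_le (X : OneInf k R) (n : ℕ) (w : R) (hw : X.d w = n + 1) :
    IdxV X (n + 1) ≤ IdxV X n ⊔ Submodule.span k {w} := by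
  intro a ha
  rw [IdxV_mem] at ha
  by_cases h1 : X.d a ≤ n
  · exact Submodule.mem_sup_left h1
  have h2 : X.d a = n + 1 := by omega
  have hw0 : w ≠ 0 := by
    intro h; rw [h, Idx_d_zero] at hw; omega
  have ha0 : a ≠ 0 := by
    intro h; rw [h, Idx_d_zero] at h2; omega
  have hlw := X.lc_ne w hw0
  have hla := X.lc_ne a ha0
  set c : k := X.lc a / X.lc w with hc
  have hc0 : c ≠ 0 := div_ne_zero hla hlw
  have h3 : algebraMap k R c * w ≠ 0 := mul_ne_zero (Idx_alg_ne c hc0) hw0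
  have h4 : X.lc (algebraMap k R c * w) = X.lc a := by
    rw [Idx_lc_smul, hc, div_mul_cancel₀ _ hlw]
  have h5 : X.d (algebraMap k R c * w) = n + 1 := by rw [Idx_d_smul X c hc0, hw]
  have h6 : algebraMap k R c * w ∈ Submodule.span k {w} := by
    rw [← Algebra.smul_def]
    exact Submodule.smul_mem _ _ (Submodule.subset_span rfl)
  by_cases h7 : a = algebraMap k R c * w
  · rw [h7]; exact Submodule.mem_sup_right h6
  · have h8 := X.sub_lt a (algebraMap k R c * w) ha0 h3 h7 (by rw [h5, h2]) h4.symm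
    have h9 : a = (a - algebraMap k R c * w) + algebraMap k R c * w := by ring
    rw [h9]
    exact Submodule.add_mem_sup (show X.d _ ≤ n by omega) h6

theorem IdxV_finrank_succ (X : OneInf k R) (n : ℕ) :
    finrank k (IdxV X (n + 1)) ≤ finrank k (IdxV X n) + 1 := by
  have := IdxV_finite X n
  have : Module.Finite k (IdxV X n) := Module.Finite.of_finite
  have := IdxV_finite X (n + 1)
  have : Module.Finite k (IdxV X (n + 1)) := Module.Finite.of_finite
  by_cases h : ∃ w, X.d w = n + 1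
  · obtain ⟨w, hw⟩ := h
    have hw0 : w ≠ 0 := by
      intro h; rw [h, Idx_d_zero] at hw; omega
    refine (Submodule.finrank_mono (IdxV_succ_le X n w hw)).trans ?_
    refine (Submodule.finrank_add_le_finrank_add_finrank _ _).trans ?_
    rw [finrank_span_singleton hw0]
  · have h1 : IdxV X (n + 1) ≤ IdxV X n := by
      intro a ha
      rw [IdxV_mem] at ha ⊢
      by_contra h2
      exact h ⟨a, by omega⟩
    exact (Submodule.finrank_mono h1).trans (Nat.le_succ _)

/-- eventually every degree occurs -/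
theorem Idx_ev (X : OneInf k R) :
    ∃ n1, ∀ n ≥ n1, finrank k (IdxV X (n + 1)) = finrank k (IdxV X n) + 1 := by
  obtain ⟨c, hc⟩ := IdxV_growth X
  set g : ℕ → ℕ := fun n => finrank k (IdxV X n) + c - n with hg
  have hanti : Antitone g := antitone_nat_of_succ_le fun n => by
    have h1 := IdxV_finrank_succ X n
    have h2 := (hc n).2
    simp only [hg]
    omega
  obtain ⟨n1, hn1⟩ := Nat.sInf_mem (Set.range_nonempty g)
  refine ⟨n1, fun n hn => ?_⟩
  have h1 : g n1 ≤ g (n + 1) := by rw [hn1]; exact Nat.sInf_le ⟨n + 1, rfl⟩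
  have h2 : g n ≤ g n1 := hanti hn
  have h3 := IdxV_finrank_succ X n
  have h4 := (hc n).2
  have h5 := (hc (n + 1)).2
  simp only [hg] at h1 h2
  omega

theorem Idx_ev_add (X : OneInf k R) (n1 : ℕ)
    (h : ∀ n ≥ n1, finrank k (IdxV X (n + 1)) = finrank k (IdxV X n) + 1) (n : ℕ) (hn : n1 ≤ n)
    (N : ℕ) : finrank k (IdxV X (n + N)) = finrank k (IdxV X n) + N := by
  induction N with
  | zero => rfl
  | succ N ih => rw [← Nat.add_assoc, h (n + N) (by omega), ih, Nat.add_assoc]

/-- units are constants -/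
theorem unit_const (X : OneInf k R) (a : R) (ha : IsUnit a) :
    ∃ c : k, c ≠ 0 ∧ a = algebraMap k R c := by
  obtain ⟨b, hb⟩ := ha.exists_right_inv
  have ha0 : a ≠ 0 := ha.ne_zero
  have hb0 : b ≠ 0 := right_ne_zero_of_mul (hb.trans_ne one_ne_zero)
  have h1 := X.d_mul a b ha0 hb0
  rw [hb, Idx_d_one] at h1
  exact ⟨X.lc a, X.lc_ne a ha0, Idx_deg_zero X a (by omega)⟩

/-- the projection to the quotient by a principal ideal -/
noncomputable def IdxPi (k : Type) {R : Type} [Field k] [CommRing R] [Algebra k R] (a : R) :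
    R →ₗ[k] R ⧸ Ideal.span {a} :=
  (Ideal.Quotient.mkₐ k (Ideal.span {a})).toLinearMap

theorem IdxPi_apply (a x : R) : IdxPi k a x = Ideal.Quotient.mk (Ideal.span {a}) x := rfl

theorem IdxPi_finrank (X : OneInf k R) (a : R) (ha : a ≠ 0) (n : ℕ) :
    finrank k ((IdxV X (n + X.d a)).map (IdxPi k a)) + finrank k (IdxV X n)
      = finrank k (IdxV X (n + X.d a)) := by
  have := IdxV_finite X (n + X.d a)
  have : Module.Finite k (IdxV X (n + X.d a)) := Module.Finite.of_finite
  have h1 := LinearMap.finrank_range_add_finrank_ker ((IdxPi k a).domRestrict (IdxV X (n + X.d a)))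
  rw [LinearMap.range_domRestrict] at h1
  rw [← h1]
  congr 1
  have hinj : Function.Injective (LinearMap.mulLeft k a) := by
    intro x y hxy
    exact mul_left_cancel₀ ha hxy
  rw [← Submodule.finrank_map_subtype_eq,
    (Submodule.equivMapOfInjective (LinearMap.mulLeft k a) hinj (IdxV X n)).finrank_eq]
  have hmap : Submodule.map (LinearMap.mulLeft k a) (IdxV X n) =
      Submodule.map (IdxV X (n + X.d a)).subtype
        ((IdxPi k a).domRestrict (IdxV X (n + X.d a))).ker := ?_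
  · rw [hmap]
  ext y
  constructor
  · rintro ⟨x, hx, rfl⟩
    have hx' : X.d x ≤ n := hx
    have h2 : X.d (a * x) ≤ n + X.d a := by
      by_cases h0 : x = 0
      · rw [h0, mul_zero, Idx_d_zero]; exact Nat.zero_le _
      · rw [X.d_mul a x ha h0]; omega
    refine ⟨⟨a * x, h2⟩, ?_, rfl⟩
    change IdxPi k a (a * x) = 0
    rw [IdxPi_apply]
    exact Ideal.Quotient.eq_zero_iff_mem.2 (Ideal.mem_span_singleton.2 ⟨x, rfl⟩)
  · rintro ⟨⟨y, hy⟩, hy2, rfl⟩
    have hy3 : IdxPi k a y = 0 := hy2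
    rw [IdxPi_apply] at hy3
    obtain ⟨x, hx⟩ := Ideal.mem_span_singleton.1 (Ideal.Quotient.eq_zero_iff_mem.1 hy3)
    refine ⟨x, ?_, hx.symm⟩
    change X.d x ≤ n
    by_cases h0 : x = 0
    · rw [h0, Idx_d_zero]; exact Nat.zero_le _
    · have h3 : X.d y ≤ n + X.d a := hy
      rw [hx, X.d_mul a x ha h0] at h3
      omega

theorem Idx_finite_finrank (X : OneInf k R) (a : R) (ha : a ≠ 0) :
    Module.Finite k (R ⧸ Ideal.span {a}) ∧ finrank k (R ⧸ Ideal.span {a}) = X.d a := by
  obtain ⟨n1, hn1⟩ := Idx_ev X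
  have hfin : ∀ n, Module.Finite k (IdxV X n) := fun n => by
    have := IdxV_finite X n
    exact Module.Finite.of_finite
  have h1 : ∀ n, n1 ≤ n → finrank k ((IdxV X (n + X.d a)).map (IdxPi k a)) = X.d a := by
    intro n hn
    have h2 := IdxPi_finrank X a ha n
    have h3 := Idx_ev_add X n1 hn1 n hn (X.d a)
    omega
  have h4 : (IdxV X (n1 + X.d a)).map (IdxPi k a) = ⊤ := by
    rw [eq_top_iff]
    rintro x -
    obtain ⟨y, rfl⟩ := Ideal.Quotient.mk_surjective x
    have h5 : (IdxV X (n1 + X.d a)).map (IdxPi k a)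
        ≤ (IdxV X ((n1 + X.d y) + X.d a)).map (IdxPi k a) :=
      Submodule.map_mono (IdxV_mono X (by omega))
    have := hfin ((n1 + X.d y) + X.d a)
    have h6 := Submodule.eq_of_le_of_finrank_eq h5 (by
      rw [h1 n1 le_rfl, h1 (n1 + X.d y) (by omega)])
    rw [h6]
    exact ⟨y, show X.d y ≤ _ by omega, rfl⟩
  have := hfin (n1 + X.d a)
  have h7 : Module.Finite k ((IdxV X (n1 + X.d a)).map (IdxPi k a)) := inferInstance
  rw [h4] at h7
  have h8 : Module.Finite k (R ⧸ Ideal.span {a}) :=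
    Module.Finite.equiv (Submodule.topEquiv (R := k) (M := R ⧸ Ideal.span {a}))
  refine ⟨h8, ?_⟩
  have h9 := h1 n1 le_rfl
  rw [h4, finrank_top] at h9
  exact h9

/-- the index of a principal ideal -/
theorem card_quot (X : OneInf k R) (a : R) (ha : a ≠ 0) :
    Nat.card (R ⧸ Ideal.span {a}) = Nat.card k ^ X.d a := by
  obtain ⟨h1, h2⟩ := Idx_finite_finrank X a ha
  rw [Module.natCard_eq_pow_finrank (K := k), h2]

/-- quotients by nonzero ideals are finite -/
theorem finite_quot (X : OneInf k R) (I : Ideal R) (hI : I ≠ ⊥) : Finite (R ⧸ I) := by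
  obtain ⟨a, haI, ha⟩ := Submodule.exists_mem_ne_zero_of_ne_bot hI
  obtain ⟨h1, -⟩ := Idx_finite_finrank X a ha
  have h2 : Finite (R ⧸ Ideal.span {a}) := Module.finite_of_finite k
  have h3 : Ideal.span {a} ≤ I := (Ideal.span_singleton_le_iff_mem I).2 haI
  exact Finite.of_surjective _ (Ideal.Quotient.factor_surjective h3)

theorem Idx_exists_deg (X : OneInf k R) (n1 : ℕ)
    (h : ∀ n ≥ n1, finrank k (IdxV X (n + 1)) = finrank k (IdxV X n) + 1) (n : ℕ) (hn : n1 ≤ n)
    (γ : k) (hγ : γ ≠ 0) : ∃ w : R, X.d w = n + 1 ∧ X.lc w = γ := by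
  have h1 : ∃ w : R, X.d w = n + 1 := by
    by_contra h2
    have h3 : IdxV X (n + 1) ≤ IdxV X n := by
      intro a ha
      rw [IdxV_mem] at ha ⊢
      by_contra h4
      exact h2 ⟨a, by omega⟩
    have := IdxV_finite X n
    have : Module.Finite k (IdxV X n) := Module.Finite.of_finite
    have h5 := Submodule.finrank_mono h3
    have h6 := h n hn
    omega
  obtain ⟨w, hw⟩ := h1
  have hw0 : w ≠ 0 := by
    intro h; rw [h, Idx_d_zero] at hw; omega
  have hlw := X.lc_ne w hw0
  refine ⟨algebraMap k R (γ / X.lc w) * w, ?_, ?_⟩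
  · rw [Idx_d_smul X _ (div_ne_zero hγ hlw), hw]
  · rw [Idx_lc_smul, div_mul_cancel₀ _ hlw]

/-- the number of ideals prime to `T`, of index `q ^ n`, is at least a constant times `q ^ n`
for large `n` -/
theorem ideals_lower (X : OneInf k R) (T : Ideal R) (hT : T ≠ ⊥) :
    ∃ (c n0 : ℕ), ∀ n ≥ n0, ∃ s : Finset (Ideal R),
      (∀ I ∈ s, I ≠ ⊥ ∧ I ⊔ T = ⊤ ∧ Nat.card (R ⧸ I) = Nat.card k ^ n) ∧
      Nat.card k ^ n ≤ Nat.card k ^ c * s.card := by
  classical
  obtain ⟨t, htT, ht⟩ := Submodule.exists_mem_ne_zero_of_ne_bot hT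
  obtain ⟨n1, hn1⟩ := Idx_ev X
  obtain ⟨c, hc⟩ := IdxV_growth X
  refine ⟨c + X.d t + 1, X.d t + n1 + 1, fun n hn => ?_⟩
  obtain ⟨j, rfl⟩ : ∃ j, n = X.d t + (j + 1) := ⟨n - X.d t - 1, by omega⟩
  have hj : n1 ≤ j := by omega
  have hlt := X.lc_ne t ht
  obtain ⟨w, hw1, hw2⟩ := Idx_exists_deg X n1 hn1 j hj (X.lc t)⁻¹ (inv_ne_zero hlt)
  have hw0 : w ≠ 0 := by
    intro h; rw [h, Idx_d_zero] at hw1; omega
  have := IdxV_finite X j
  have := Fintype.ofFinite (IdxV X j)
  have h1 : ∀ v ∈ IdxV X j, X.d (v + w) = j + 1 ∧ X.lc (v + w) = (X.lc t)⁻¹ := by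
    intro v hv
    rw [IdxV_mem] at hv
    by_cases hv0 : v = 0
    · rw [hv0, zero_add]; exact ⟨hw1, hw2⟩
    · have h2 := X.add_of_lt v w hv0 hw0 (by omega)
      rw [h2.1, h2.2]; exact ⟨hw1, hw2⟩
  have h3 : ∀ v ∈ IdxV X j, X.d (1 + t * (v + w)) = X.d t + (j + 1) ∧
      X.lc (1 + t * (v + w)) = 1 := by
    intro v hv
    obtain ⟨h4, h5⟩ := h1 v hv
    have h6 : v + w ≠ 0 := by
      intro h; rw [h, Idx_d_zero] at h4; omega
    have h7 : X.d (t * (v + w)) = X.d t + (j + 1) := by rw [X.d_mul t _ ht h6, h4]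
    have h8 : X.lc (t * (v + w)) = 1 := by rw [X.lc_mul, h5, mul_inv_cancel₀ hlt]
    have h9 := X.add_of_lt 1 (t * (v + w)) one_ne_zero (mul_ne_zero ht h6)
      (by rw [Idx_d_one, h7]; omega)
    rw [h9.1, h9.2]
    exact ⟨h7, h8⟩
  have h10 : ∀ v ∈ IdxV X j, (1 + t * (v + w)) ≠ 0 := by
    intro v hv h
    have h11 := (h3 v hv).2
    rw [h, X.lc_zero] at h11
    exact zero_ne_one h11
  have hinj : Function.Injective fun v : IdxV X j => Ideal.span {1 + t * ((v : R) + w)} := by
    intro v v' hvv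
    have h11 : Associated (1 + t * ((v : R) + w)) (1 + t * ((v' : R) + w)) :=
      Ideal.span_singleton_eq_span_singleton.1 hvv
    obtain ⟨u, hu⟩ := h11
    obtain ⟨c', -, hc'⟩ := unit_const X (u : R) u.isUnit
    rw [hc'] at hu
    have h12 : X.lc ((1 + t * ((v : R) + w)) * algebraMap k R c') = c' := by
      rw [X.lc_mul, X.lc_alg, (h3 v v.2).2, one_mul]
    rw [hu, (h3 v' v'.2).2] at h12
    rw [← h12, map_one, mul_one] at hu
    have h13 : t * ((v : R) + w) = t * ((v' : R) + w) := add_left_cancel hu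
    exact Subtype.ext (add_right_cancel (mul_left_cancel₀ ht h13))
  refine ⟨Finset.univ.image fun v : IdxV X j => Ideal.span {1 + t * ((v : R) + w)}, ?_, ?_⟩
  · intro I hI
    obtain ⟨v, -, rfl⟩ := Finset.mem_image.1 hI
    refine ⟨?_, ?_, ?_⟩
    · intro h
      exact h10 v v.2 (Ideal.span_singleton_eq_bot.1 h)
    · rw [Ideal.eq_top_iff_one]
      have h14 : (1 : R) = (1 + t * ((v : R) + w)) + (-(t * ((v : R) + w))) := by ring
      have h15 : (1 + t * ((v : R) + w)) + (-(t * ((v : R) + w)))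
          ∈ Ideal.span {1 + t * ((v : R) + w)} ⊔ T :=
        Submodule.add_mem_sup (Ideal.subset_span rfl) (neg_mem (Ideal.mul_mem_right _ _ htT))
      rwa [← h14] at h15
    · rw [card_quot X _ (h10 v v.2), (h3 v v.2).1]
  · rw [Finset.card_image_of_injective _ hinj, Finset.card_univ, ← Nat.card_eq_fintype_card]
    have h15 := (hc j).1
    calc Nat.card k ^ (X.d t + (j + 1)) = Nat.card k ^ (X.d t + 1) * Nat.card k ^ j := by
          rw [← pow_add]; congr 1; omega
      _ ≤ Nat.card k ^ (X.d t + 1) * (Nat.card k ^ c * Nat.card (IdxV X j)) :=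
          Nat.mul_le_mul_left _ h15
      _ = Nat.card k ^ (c + X.d t + 1) * Nat.card (IdxV X j) := by
          rw [← mul_assoc, ← pow_add]; congr 2; omega

end Pool.Agent.AB
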