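import Pool.Agent.Lib.MP_5de024_nt.C.InfW

/-!
# The field of constants (piece InfC)
-/

set_option autoImplicit false
set_option linter.unusedSectionVars false

namespace Pool.Agent.AB

section wlemmas

variable {p : ℕ} [Fact p.Prime] {K : Type} [Field K] [Algebra (Fx p) K] [Algebra (Rx p) K]
  [IsScalarTower (Rx p) (Fx p) K]

theorem WInf.cone (W : WInf p K) : W.v 1 = 0 := by
  have h := W.v_mul 1 1 one_ne_zero one_ne_zero
  rw [mul_one] at h; omega

theorem WInf.cneg (W : WInf p K) (a : K) (ha : a ≠ 0) : W.v (-a) = W.v a := by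
  have h1 : W.v (-1) = 0 := by
    have h := W.v_mul (-1) (-1) (neg_ne_zero.mpr one_ne_zero) (neg_ne_zero.mpr one_ne_zero)
    rw [neg_mul_neg, mul_one, W.cone] at h; omega
  have h := W.v_mul (-1) a (neg_ne_zero.mpr one_ne_zero) ha
  rw [neg_one_mul, h1, zero_add] at h
  exact h

theorem WInf.cpow (W : WInf p K) (a : K) (ha : a ≠ 0) (n : ℕ) :
    W.v (a ^ n) = n * W.v a := by
  induction n with
  | zero => simp [W.cone]
  | succ n ih => rw [pow_succ, W.v_mul _ _ (pow_ne_zero n ha) ha, ih]; push_cast; ring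

theorem WInf.cconst (W : WInf p K) (c : K) (hc : ∃ n : ℕ, 0 < n ∧ c ^ p ^ n = c) (h0 : c ≠ 0) :
    W.v c = 0 := by
  obtain ⟨n, hn, h⟩ := hc
  have h1 := W.cpow c h0 (p ^ n)
  rw [h] at h1
  have hp : 1 < p ^ n := Nat.one_lt_pow hn.ne' (Fact.out : p.Prime).one_lt
  have h2 : ((p ^ n : ℕ) - 1 : ℤ) * W.v c = 0 := by linarith
  rcases mul_eq_zero.mp h2 with h3 | h3
  · exfalso
    have : (1 : ℤ) < (p ^ n : ℕ) := by exact_mod_cast hp
    linarith
  · exact h3

theorem WInf.caddlt (W : WInf p K) (a b : K) (ha : a ≠ 0) (hb : b ≠ 0) (h : W.v b < W.v a) :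
    a + b ≠ 0 ∧ W.v (a + b) = W.v a := by
  have h0 : a + b ≠ 0 := by
    intro h1
    have h2 : a = -b := eq_neg_of_add_eq_zero_left h1
    rw [h2, W.cneg b hb] at h
    exact lt_irrefl _ h
  refine ⟨h0, le_antisymm ?_ ?_⟩
  · have := W.v_add a b ha hb h0
    rwa [max_eq_left h.le] at this
  · have h3 := W.v_add (a + b) (-b) h0 (neg_ne_zero.mpr hb) (by rwa [add_neg_cancel_right])
    rw [add_neg_cancel_right, W.cneg b hb] at h3
    rcases le_max_iff.mp h3 with h4 | h4
    · exact h4
    · exact absurd h4 (not_le.mpr h)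

/-- a sum of terms of different degrees -/
theorem WInf.csum (W : WInf p K) {ι : Type} (S : Finset ι) (t : ι → K)
    (ht : ∀ i ∈ S, t i ≠ 0) (hinj : ∀ i ∈ S, ∀ j ∈ S, W.v (t i) = W.v (t j) → i = j)
    (hne : S.Nonempty) :
    ∑ i ∈ S, t i ≠ 0 ∧ ∃ j ∈ S, W.v (∑ i ∈ S, t i) = W.v (t j) ∧
      ∀ i ∈ S, W.v (t i) ≤ W.v (t j) := by
  classical
  induction S using Finset.induction_on_max_value (fun i => W.v (t i)) with
  | empty => exact absurd hne Finset.not_nonempty_empty
  | insert a s ha hmax ih =>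
    rcases s.eq_empty_or_nonempty with hs | hs
    · subst hs
      simp only [insert_empty_eq, Finset.sum_singleton, Finset.mem_singleton, ne_eq]
      refine ⟨ht a (by simp), a, rfl, rfl, ?_⟩
      rintro i rfl
      exact le_refl _
    · obtain ⟨h1, j, hj, h2, h3⟩ := ih (fun i hi => ht i (Finset.mem_insert_of_mem hi))
        (fun i hi j hj => hinj i (Finset.mem_insert_of_mem hi) j (Finset.mem_insert_of_mem hj)) hs
      have hlt : W.v (t j) < W.v (t a) := by
        refine lt_of_le_of_ne (hmax j hj) fun h => ha ?_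
        have := hinj j (Finset.mem_insert_of_mem hj) a (Finset.mem_insert_self a s) h
        rwa [← this]
      rw [Finset.sum_insert ha]
      have h4 := W.caddlt (t a) (∑ i ∈ s, t i) (ht a (Finset.mem_insert_self a s)) h1
        (by rwa [h2])
      refine ⟨h4.1, a, Finset.mem_insert_self a s, h4.2, ?_⟩
      intro i hi
      rcases Finset.mem_insert.mp hi with rfl | hi
      · exact le_refl _
      · exact hmax i hi

/-- the degree of a sum is at most the maximum -/
theorem WInf.csumle (W : WInf p K) {ι : Type} (S : Finset ι) (t : ι → K) (b : ℤ)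
    (hb : ∀ i ∈ S, t i ≠ 0 → W.v (t i) ≤ b) (h0 : ∑ i ∈ S, t i ≠ 0) :
    W.v (∑ i ∈ S, t i) ≤ b := by
  classical
  induction S using Finset.induction_on with
  | empty => simp at h0
  | insert a s ha ih =>
    rw [Finset.sum_insert ha] at h0 ⊢
    by_cases h1 : t a = 0
    · rw [h1, zero_add] at h0 ⊢
      exact ih (fun i hi => hb i (Finset.mem_insert_of_mem hi)) h0
    by_cases h2 : ∑ i ∈ s, t i = 0
    · rw [h2, add_zero]
      exact hb a (Finset.mem_insert_self a s) h1
    · refine le_trans (W.v_add _ _ h1 h2 h0) (max_le (hb a (Finset.mem_insert_self a s) h1) ?_)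
      exact ih (fun i hi => hb i (Finset.mem_insert_of_mem hi)) h2

end wlemmas

section consts

variable (p : ℕ) [Fact p.Prime] (K : Type) [Field K] [Algebra (Fx p) K] [Algebra (Rx p) K]
  [IsScalarTower (Rx p) (Fx p) K]

theorem infC_charP : CharP K p := by
  have h1 : CharP (Fx p) p :=
    charP_of_injective_algebraMap (IsFractionRing.injective (Rx p) (Fx p)) p
  exact charP_of_injective_algebraMap (algebraMap (Fx p) K).injective p

/-- being a constant -/
def InfCst (c : K) : Prop := ∃ n : ℕ, 0 < n ∧ c ^ p ^ n = c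

theorem infC_iter (c : K) (n : ℕ) (h : c ^ p ^ n = c) (k : ℕ) : c ^ p ^ (n * k) = c := by
  induction k with
  | zero => simp
  | succ k ih => rw [mul_add, mul_one, pow_add, pow_mul, ih, h]

theorem infC_common (c d : K) (hc : InfCst p K c) (hd : InfCst p K d) :
    ∃ n : ℕ, 0 < n ∧ c ^ p ^ n = c ∧ d ^ p ^ n = d := by
  obtain ⟨n, hn, h1⟩ := hc
  obtain ⟨m, hm, h2⟩ := hd
  exact ⟨n * m, Nat.mul_pos hn hm, infC_iter p K c n h1 m, by
    rw [mul_comm]; exact infC_iter p K d m h2 n⟩

/-- the field of constants -/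
def infCk : Subfield K where
  carrier := {c | InfCst p K c}
  mul_mem' := by
    intro a b ha hb
    obtain ⟨n, hn, h1, h2⟩ := infC_common p K a b ha hb
    exact ⟨n, hn, by rw [mul_pow, h1, h2]⟩
  one_mem' := ⟨1, one_pos, one_pow _⟩
  add_mem' := by
    intro a b ha hb
    have := infC_charP p K
    obtain ⟨n, hn, h1, h2⟩ := infC_common p K a b ha hb
    exact ⟨n, hn, by rw [add_pow_char_pow, h1, h2]⟩
  zero_mem' := ⟨1, one_pos, zero_pow (pow_ne_zero 1 (Fact.out : p.Prime).ne_zero)⟩
  neg_mem' := by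
    intro a ha
    have := infC_charP p K
    obtain ⟨n, hn, h1⟩ := ha
    refine ⟨n, hn, ?_⟩
    have h2 := sub_pow_char_pow (p := p) (n := n) (0 : K) a
    rw [zero_sub, zero_pow (pow_ne_zero n (Fact.out : p.Prime).ne_zero), zero_sub, h1] at h2
    exact h2
  inv_mem' := by
    intro a ha
    obtain ⟨n, hn, h1⟩ := ha
    exact ⟨n, hn, by rw [inv_pow, h1]⟩

theorem infC_cst_mem (a : ZMod p) : cst p K a ∈ infCk p K := by
  refine ⟨1, one_pos, ?_⟩
  rw [pow_one, ← map_pow, ZMod.pow_card]

theorem infC_aX : algebraMap (Rx p) K Polynomial.X = xk p K := xo_coe p K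

theorem infC_aC (a : ZMod p) : algebraMap (Rx p) K (Polynomial.C a) = cst p K a := rfl

/-- independent constants and the powers of a uniformiser at infinity -/
theorem infC_indep (W : WInf p K) (π : K) (hπ : π ≠ 0)
    (hv : W.v π = -1) {ι : Type} [Fintype ι] (c : ι → K) (hc : ∀ i, c i ∈ infCk p K)
    (hli : ∀ g : ι → ZMod p, ∑ i, cst p K (g i) * c i = 0 → ∀ i, g i = 0) :
    LinearIndependent (Fx p)
      (fun ij : ι × Fin (W.v (xk p K)).toNat => c ij.1 * π ^ (ij.2 : ℕ)) := by
  classical
  obtain ⟨e, he⟩ : ∃ e, e = (W.v (xk p K)).toNat := ⟨_, rfl⟩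
  rw [← he]
  rw [← LinearIndependent.iff_fractionRing (R := Rx p) (K := Fx p), Fintype.linearIndependent_iff]
  intro g hg
  have hx0 : xk p K ≠ 0 := xk_ne_zero p K
  have hex : W.v (xk p K) = (e : ℤ) := by rw [he, Int.toNat_of_nonneg W.v_x.le]
  have hepos : 0 < e := by have := W.v_x; omega
  set D := (Finset.univ.sup fun ij => (g ij).natDegree) + 1 with hD
  have hdeg : ∀ ij, (g ij).natDegree < D := fun ij =>
    Nat.lt_succ_of_le (Finset.le_sup (f := fun ij => (g ij).natDegree) (Finset.mem_univ ij))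
  let A : Fin e × ℕ → K := fun jd => ∑ i, cst p K ((g (i, jd.1)).coeff jd.2) * c i
  have hAm : ∀ jd, A jd ∈ infCk p K := by
    intro jd
    exact Subfield.sum_mem (infCk p K) fun i _ => (infCk p K).mul_mem (infC_cst_mem p K _) (hc i)
  have hsum : ∑ jd ∈ (Finset.univ : Finset (Fin e)) ×ˢ Finset.range D,
      A jd * (xk p K ^ jd.2 * π ^ (jd.1 : ℕ)) = 0 := by
    rw [← hg, Finset.sum_product, Fintype.sum_prod_type_right]
    refine Finset.sum_congr rfl fun j _ => ?_
    simp only [A, Finset.sum_mul]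
    rw [Finset.sum_comm]
    refine Finset.sum_congr rfl fun i _ => ?_
    rw [Algebra.smul_def]
    conv_rhs => rw [Polynomial.as_sum_range_C_mul_X_pow' _ (hdeg (i, j))]
    rw [map_sum, Finset.sum_mul]
    refine Finset.sum_congr rfl fun d _ => ?_
    rw [map_mul, map_pow, infC_aX, infC_aC]
    ring
  have hA0 : ∀ jd ∈ (Finset.univ : Finset (Fin e)) ×ˢ Finset.range D, A jd = 0 := by
    by_contra hcon
    push Not at hcon
    obtain ⟨jd0, hjd0, hne⟩ := hcon
    set S := ((Finset.univ : Finset (Fin e)) ×ˢ Finset.range D).filter (fun jd => A jd ≠ 0)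
      with hS
    have hval : ∀ jd ∈ S, W.v (A jd * (xk p K ^ jd.2 * π ^ (jd.1 : ℕ))) =
        (jd.2 : ℤ) * e - (jd.1 : ℕ) := by
      intro jd hjd
      have h1 : A jd ≠ 0 := (Finset.mem_filter.mp hjd).2
      rw [W.v_mul _ _ h1 (mul_ne_zero (pow_ne_zero _ hx0) (pow_ne_zero _ hπ)),
        W.v_mul _ _ (pow_ne_zero _ hx0) (pow_ne_zero _ hπ), W.cpow _ hx0, W.cpow _ hπ,
        W.cconst _ (hAm jd) h1, hex, hv]
      ring
    have := (W.csum S (fun jd => A jd * (xk p K ^ jd.2 * π ^ (jd.1 : ℕ))) ?_ ?_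
      ⟨jd0, Finset.mem_filter.mpr ⟨hjd0, hne⟩⟩).1
    · apply this
      rw [← hsum, hS, Finset.sum_filter]
      refine Finset.sum_congr rfl fun jd _ => ?_
      by_cases h : A jd = 0
      · simp [h]
      · simp [h]
    · intro jd hjd
      exact mul_ne_zero (Finset.mem_filter.mp hjd).2
        (mul_ne_zero (pow_ne_zero _ hx0) (pow_ne_zero _ hπ))
    · intro jd hjd jd' hjd' h
      rw [hval jd hjd, hval jd' hjd'] at h
      obtain ⟨⟨j, hj⟩, d⟩ := jd
      obtain ⟨⟨j', hj'⟩, d'⟩ := jd'
      simp only at h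
      have hd : d = d' := by
        rcases lt_trichotomy d d' with hlt | heq | hgt
        · exfalso
          have h1 : (d : ℤ) * e + e ≤ d' * e := by
            have : ((d : ℤ) + 1) * e ≤ d' * e :=
              mul_le_mul_of_nonneg_right (by exact_mod_cast hlt) (by positivity)
            linarith
          omega
        · exact heq
        · exfalso
          have h1 : (d' : ℤ) * e + e ≤ d * e := by
            have : ((d' : ℤ) + 1) * e ≤ d * e :=
              mul_le_mul_of_nonneg_right (by exact_mod_cast hgt) (by positivity)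
            linarith
          omega
      subst hd
      have hjj : j = j' := by omega
      subst hjj
      rfl
  rintro ⟨i, j⟩
  ext d
  rw [Polynomial.coeff_zero]
  by_cases hd : d < D
  · have h1 := hA0 (j, d) (by simp [hd])
    exact hli (fun i => (g (i, j)).coeff d) h1 i
  · exact Polynomial.coeff_eq_zero_of_natDegree_lt (lt_of_lt_of_le (hdeg (i, j)) (not_lt.mp hd))

/-- the constants of `K` form a field `k`; the inequality `e f ≤ [K : F_p(x)]` for the place at
infinity -/
theorem exists_const [FiniteDimensional (Fx p) K] [IsGalois (Fx p) K] (W : WInf p K) :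
    ∃ (k : Type) (_ : Field k) (_ : Finite k) (_ : Algebra k (Oc p K)),
      (∀ c : K, (∃ n : ℕ, 0 < n ∧ c ^ p ^ n = c) ↔
        ∃ c' : k, ((algebraMap k (Oc p K) c' : Oc p K) : K) = c) ∧
      Nat.card k ^ (W.v (xk p K)).toNat ≤ p ^ Module.finrank (Fx p) K := by
  classical
  obtain ⟨π, hπ, hv⟩ := W.v_unif
  set e := (W.v (xk p K)).toNat with he
  have hepos : 0 < e := by have := W.v_x; omega
  have hchar := infC_charP p K
  have hcharkc : CharP (infCk p K) p := inferInstance
  let algp : Algebra (ZMod p) (infCk p K) :=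
    ((cst p K).codRestrict (infCk p K) (infC_cst_mem p K)).toAlgebra
  -- dimension bound
  have hrank : Module.rank (ZMod p) (infCk p K) ≤ ((Module.finrank (Fx p) K / e : ℕ) : Cardinal) := by
    apply rank_le
    intro s hs
    rw [Nat.le_div_iff_mul_le hepos]
    have hli := infC_indep p K W π hπ hv (ι := s) (fun i => ((i : infCk p K) : K)) (fun i => (i : infCk p K).2)
      (by
        intro g hg
        have h1 := Fintype.linearIndependent_iff.mp hs g
        apply h1
        apply Subtype.ext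
        rw [AddSubmonoidClass.coe_finsetSum, ZeroMemClass.coe_zero, ← hg]
        refine Finset.sum_congr rfl fun i _ => ?_
        rw [Algebra.smul_def]
        rfl)
    have := hli.fintype_card_le_finrank
    simpa using this
  have hfinmod : Module.Finite (ZMod p) (infCk p K) := by
    refine Module.rank_lt_aleph0_iff.mp (lt_of_le_of_lt hrank ?_)
    exact Cardinal.natCast_lt_aleph0
  have hfin : Finite (infCk p K) := Module.finite_of_finite (ZMod p)
  have hint : ∀ c : infCk p K, (c : K) ∈ Oc p K := by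
    rintro ⟨c, n, hn, h⟩
    refine ⟨Polynomial.X ^ p ^ n - Polynomial.X, ?_, ?_⟩
    · apply Polynomial.monic_X_pow_sub
      rw [Polynomial.degree_X]
      exact_mod_cast Nat.one_lt_pow hn.ne' (Fact.out : p.Prime).one_lt
    · rw [Polynomial.eval₂_sub, Polynomial.eval₂_X_pow, Polynomial.eval₂_X, sub_eq_zero]
      exact h
  let : Algebra (infCk p K) (Oc p K) :=
    ((infCk p K).subtype.codRestrict (Oc p K) hint).toAlgebra
  refine ⟨infCk p K, inferInstance, hfin, inferInstance, ?_, ?_⟩
  · intro c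
    constructor
    · intro h
      exact ⟨⟨c, h⟩, rfl⟩
    · rintro ⟨c', rfl⟩
      exact c'.2
  · have h1 : Nat.card (infCk p K) = p ^ Module.finrank (ZMod p) (infCk p K) := by
      rw [Module.natCard_eq_pow_finrank (K := ZMod p), Nat.card_zmod]
    rw [h1, ← pow_mul]
    apply Nat.pow_le_pow_right (Fact.out : p.Prime).pos
    have h2 : Module.finrank (ZMod p) (infCk p K) ≤ Module.finrank (Fx p) K / e := by
      exact Module.finrank_le_of_rank_le hrank
    exact (Nat.le_div_iff_mul_le hepos).mp h2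

end consts

end Pool.Agent.AB
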