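import Pool.Agent.Lib.MP_5de024_nt.C.InfC

/-!
# The growth of the ring of integers (piece InfG)
-/

set_option autoImplicit false
set_option linter.unusedSectionVars false

namespace Pool.Agent.AB

variable (p : ℕ) [Fact p.Prime] (K : Type) [Field K] [Algebra (Fx p) K] [Algebra (Rx p) K]
  [IsScalarTower (Rx p) (Fx p) K]

/-- constants are integral -/
theorem infG_cst_mem (c : K) (hc : ∃ n : ℕ, 0 < n ∧ c ^ p ^ n = c) : c ∈ Oc p K := by
  obtain ⟨n, hn, h⟩ := hc
  refine ⟨Polynomial.X ^ p ^ n - Polynomial.X, ?_, ?_⟩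
  · apply Polynomial.monic_X_pow_sub
    rw [Polynomial.degree_X]
    exact_mod_cast Nat.one_lt_pow hn.ne' (Fact.out : p.Prime).one_lt
  · rw [Polynomial.eval₂_sub, Polynomial.eval₂_X_pow, Polynomial.eval₂_X, sub_eq_zero]
    exact h

/-- the integers of degree at most `n` -/
def infGS (W : WInf p K) (n : ℕ) : Set K := {a | a ∈ Oc p K ∧ (a = 0 ∨ W.v a ≤ n)}

theorem infG_finite [FiniteDimensional (Fx p) K] [IsGalois (Fx p) K] (W : WInf p K) (n : ℕ) :
    (infGS p K W n).Finite := by
  classical
  have hC : Set.Finite {c : K | ∃ n : ℕ, 0 < n ∧ c ^ p ^ n = c} := by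
    obtain ⟨k, _, hk, _, h1, -⟩ := exists_const p K W
    have : {c : K | ∃ n : ℕ, 0 < n ∧ c ^ p ^ n = c} ⊆
        Set.range (fun c' : k => ((algebraMap k (Oc p K) c' : Oc p K) : K)) := by
      intro c hc
      exact (h1 c).mp hc
    exact (Set.finite_range _).subset this
  have hcr : ∀ y : K, y = 0 ∨ W.v y ≤ 0 →
      ∃ c : K, (∃ n : ℕ, 0 < n ∧ c ^ p ^ n = c) ∧ (y = c ∨ W.v (y - c) < 0) := by
    rintro y hy
    by_cases h0 : y = 0
    · exact ⟨0, (infCk p K).zero_mem, Or.inl h0⟩
    · exact W.v_res y h0 (hy.resolve_left h0)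
  obtain ⟨π, hπ, hv⟩ := W.v_unif
  induction n with
  | zero =>
    refine hC.subset ?_
    rintro a ⟨ha, h⟩
    obtain ⟨c, hc, h1⟩ := hcr a (by simpa using h)
    rcases h1 with h1 | h1
    · rw [h1]; exact hc
    · have hac : a - c ∈ Oc p K := (Oc p K).sub_mem ha (infG_cst_mem p K c hc)
      by_cases h2 : a - c = 0
      · rw [sub_eq_zero.mp h2]; exact hc
      · have := W.v_int ⟨a - c, hac⟩ h2
        exact absurd h1 (not_lt.mpr this)
  | succ n ih =>
    have hπn : W.v (π ^ (n + 1)) = -(n + 1 : ℕ) := by rw [W.cpow π hπ, hv]; ring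
    have hπ0 : π ^ (n + 1) ≠ 0 := pow_ne_zero _ hπ
    have hy : ∀ a ∈ infGS p K W (n + 1), a * π ^ (n + 1) = 0 ∨ W.v (a * π ^ (n + 1)) ≤ 0 := by
      rintro a ⟨-, h⟩
      by_cases h0 : a = 0
      · left; rw [h0, zero_mul]
      · right
        rw [W.v_mul _ _ h0 hπ0, hπn]
        have := h.resolve_left h0
        linarith
    choose! r hr1 hr2 using fun a (ha : a ∈ infGS p K W (n + 1)) => hcr _ (hy a ha)
    refine Set.Finite.of_finite_fibers r ?_ ?_
    · refine hC.subset ?_
      rintro _ ⟨a, ha, rfl⟩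
      exact hr1 a ha
    · rintro _ ⟨b, hb, rfl⟩
      refine (ih.image (fun z => b + z)).subset ?_
      rintro a ⟨ha, hab⟩
      have hab' : r a = r b := hab
      refine ⟨a - b, ⟨(Oc p K).sub_mem ha.1 hb.1, ?_⟩, by ring⟩
      by_cases h0 : a - b = 0
      · exact Or.inl h0
      · right
        have h1 := hr2 a ha
        have h2 := hr2 b hb
        rw [hab'] at h1
        -- the difference
        have h3 : W.v ((a - b) * π ^ (n + 1)) < 0 := by
          have h4 : (a - b) * π ^ (n + 1) =
              (a * π ^ (n + 1) - r b) + -(b * π ^ (n + 1) - r b) := by ring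
          have h40 : (a - b) * π ^ (n + 1) ≠ 0 := mul_ne_zero h0 hπ0
          rw [h4] at h40 ⊢
          rcases h1 with h1 | h1
          · rw [h1, sub_self, zero_add] at h40 ⊢
            rcases h2 with h2 | h2
            · rw [h2, sub_self, neg_zero] at h40
              exact absurd rfl h40
            · rwa [W.cneg _ (neg_ne_zero.mp h40)]
          · by_cases h10 : a * π ^ (n + 1) - r b = 0
            · rw [h10, zero_add] at h40 ⊢
              rcases h2 with h2 | h2
              · rw [h2, sub_self, neg_zero] at h40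
                exact absurd rfl h40
              · rwa [W.cneg _ (neg_ne_zero.mp h40)]
            · rcases h2 with h2 | h2
              · rw [h2, sub_self, neg_zero, add_zero]
                exact h1
              · by_cases h20 : b * π ^ (n + 1) - r b = 0
                · rw [h20, neg_zero, add_zero]
                  exact h1
                · refine lt_of_le_of_lt (W.v_add _ _ h10 (neg_ne_zero.mpr h20) h40) ?_
                  rw [W.cneg _ h20]
                  exact max_lt h1 h2
        rw [W.v_mul _ _ h0 hπ0, hπn] at h3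
        push_cast at h3 ⊢
        omega

/-- the degree of a polynomial -/
theorem infG_poly (W : WInf p K) (f : Rx p) (hf : f ≠ 0) :
    algebraMap (Rx p) K f ≠ 0 ∧
      W.v (algebraMap (Rx p) K f) ≤ f.natDegree * W.v (xk p K) := by
  have hinj : algebraMap (Rx p) K f ≠ 0 := by
    rw [IsScalarTower.algebraMap_apply (Rx p) (Fx p) K, Ne, map_eq_zero]
    intro h
    exact hf (IsFractionRing.injective (Rx p) (Fx p) (by rw [h, map_zero]))
  refine ⟨hinj, ?_⟩
  have h1 : algebraMap (Rx p) K f =
      ∑ d ∈ Finset.range (f.natDegree + 1), cst p K (f.coeff d) * xk p K ^ d := by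
    conv_lhs => rw [Polynomial.as_sum_range_C_mul_X_pow f]
    rw [map_sum]
    refine Finset.sum_congr rfl fun d _ => ?_
    rw [map_mul, map_pow, infC_aX, infC_aC]
  have hx0 : xk p K ≠ 0 := xk_ne_zero p K
  rw [h1] at hinj ⊢
  refine W.csumle _ _ _ ?_ hinj
  intro d hd h0
  have hc0 : cst p K (f.coeff d) ≠ 0 := left_ne_zero_of_mul h0
  rw [W.v_mul _ _ hc0 (pow_ne_zero _ hx0), W.cconst _ (infC_cst_mem p K _) hc0, W.cpow _ hx0,
    zero_add]
  refine mul_le_mul_of_nonneg_right ?_ W.v_x.le
  have := Finset.mem_range.mp hd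
  exact_mod_cast Nat.lt_succ_iff.mp this

/-- the growth of the ring of integers -/
theorem inf_growth [FiniteDimensional (Fx p) K] [IsGalois (Fx p) K] (W : WInf p K) (q : ℕ)
    (hq : q ^ (W.v (xk p K)).toNat ≤ p ^ Module.finrank (Fx p) K) (hq1 : 1 < q) :
    ∃ c : ℕ, ∀ n : ℕ, q ^ n ≤
      q ^ c * Nat.card {a : Oc p K // a = 0 ∨ (W.v (a : K)).toNat ≤ n} := by
  classical
  set e := (W.v (xk p K)).toNat with he
  have hex : W.v (xk p K) = (e : ℤ) := by rw [he, Int.toNat_of_nonneg W.v_x.le]
  have hepos : 0 < e := by have := W.v_x; omega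
  set g := Module.finrank (Fx p) K with hg
  let b : Module.Basis (Fin g) (Fx p) K := Module.finBasis (Fx p) K
  obtain ⟨y, hy0, hy⟩ := exists_integral_multiples (Rx p) (Fx p) (Finset.univ.image b)
  let w : Fin g → Oc p K := fun i => ⟨y • b i, hy (b i) (Finset.mem_image_of_mem _ (Finset.mem_univ i))⟩
  have hli : ∀ f : Fin g → Rx p, ∑ i, f i • w i = 0 → ∀ i, f i = 0 := by
    intro f hf i
    have h1 : LinearIndependent (Rx p) b :=
      (LinearIndependent.iff_fractionRing (Rx p) (Fx p)).mpr b.linearIndependent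
    have h2 := Fintype.linearIndependent_iff.mp h1 (fun i => f i * y) (by
      have h3 := congrArg (fun z : Oc p K => (z : K)) hf
      simp only [AddSubmonoidClass.coe_finsetSum, ZeroMemClass.coe_zero] at h3
      rw [← h3]
      refine Finset.sum_congr rfl fun i _ => ?_
      rw [mul_smul]
      rfl) i
    exact (mul_eq_zero.mp h2).resolve_right hy0
  set B : ℕ := ∑ i, (W.v (w i : K)).toNat with hB
  have hwB : ∀ i, W.v (w i : K) ≤ B := by
    intro i
    have h1 : (W.v (w i : K)).toNat ≤ B :=
      Finset.single_le_sum (f := fun i => (W.v (w i : K)).toNat) (fun _ _ => Nat.zero_le _)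
        (Finset.mem_univ i)
    have h2 := Int.self_le_toNat (W.v (w i : K))
    have h3 : ((W.v (w i : K)).toNat : ℤ) ≤ B := by exact_mod_cast h1
    linarith
  have hfin : ∀ n : ℕ, Finite {a : Oc p K // a = 0 ∨ (W.v (a : K)).toNat ≤ n} := by
    intro n
    have h1 := (infG_finite p K W n).to_subtype
    refine Finite.of_injective (β := infGS p K W n)
      (fun a => ⟨((a : Oc p K) : K), (a : Oc p K).2, ?_⟩) ?_
    · rcases a.2 with h | h
      · left; rw [h]; rfl
      · right
        have := Int.self_le_toNat (W.v ((a : Oc p K) : K))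
        have h3 : ((W.v ((a : Oc p K) : K)).toNat : ℤ) ≤ n := by exact_mod_cast h
        linarith
    · intro a a' h
      apply Subtype.ext
      apply Subtype.ext
      exact congrArg (fun z : infGS p K W n => (z : K)) h
  refine ⟨B, fun n => ?_⟩
  have hcpos : 0 < Nat.card {a : Oc p K // a = 0 ∨ (W.v (a : K)).toNat ≤ n} := by
    have := hfin n
    have : Nonempty {a : Oc p K // a = 0 ∨ (W.v (a : K)).toNat ≤ n} := ⟨⟨0, Or.inl rfl⟩⟩
    exact Nat.card_pos
  rcases lt_or_ge n B with hnB | hnB
  · calc q ^ n ≤ q ^ B := Nat.pow_le_pow_right (by omega) hnB.le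
      _ = q ^ B * 1 := (mul_one _).symm
      _ ≤ _ := Nat.mul_le_mul_left _ hcpos
  · set t := (n - B) / e with ht
    have ht1 : n - B < e * (t + 1) := Nat.lt_mul_div_succ _ hepos
    have ht2 : e * t ≤ n - B := Nat.mul_div_le _ _
    let P := Fin g → Polynomial.degreeLT (ZMod p) (t + 1)
    have hcP : Nat.card P = p ^ (g * (t + 1)) := by
      have h1 : Nat.card (Polynomial.degreeLT (ZMod p) (t + 1)) = p ^ (t + 1) := by
        rw [Nat.card_congr (Polynomial.degreeLTEquiv (ZMod p) (t + 1)).toEquiv,
          Nat.card_fun, Nat.card_fin, Nat.card_zmod]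
      rw [Nat.card_fun, h1, ← pow_mul, mul_comm, Nat.card_fin]
    let Φ : P → Oc p K := fun f => ∑ i, ((f i : Rx p)) • w i
    have hΦinj : Function.Injective Φ := by
      intro f f' h
      have h1 : ∑ i, ((f i : Rx p) - (f' i : Rx p)) • w i = 0 := by
        have h2 : (∑ i, ((f i : Rx p)) • w i) - ∑ i, ((f' i : Rx p)) • w i = 0 := sub_eq_zero.mpr h
        rw [← h2, ← Finset.sum_sub_distrib]
        exact Finset.sum_congr rfl fun i _ => sub_smul _ _ _
      funext i
      exact Subtype.ext (sub_eq_zero.mp (hli _ h1 i))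
    have hΦv : ∀ f : P, Φ f = 0 ∨ (W.v ((Φ f : Oc p K) : K)).toNat ≤ n := by
      intro f
      by_cases h0 : Φ f = 0
      · exact Or.inl h0
      · right
        have h0' : ((Φ f : Oc p K) : K) ≠ 0 := fun h => h0 (Subtype.ext h)
        have hcoe : ((Φ f : Oc p K) : K) = ∑ i, algebraMap (Rx p) K (f i : Rx p) * (w i : K) := by
          simp only [Φ, AddSubmonoidClass.coe_finsetSum]
          refine Finset.sum_congr rfl fun i _ => ?_
          rw [← Algebra.smul_def]
          rfl
        rw [hcoe] at h0' ⊢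
        have hle : W.v (∑ i, algebraMap (Rx p) K (f i : Rx p) * (w i : K)) ≤ n := by
          refine W.csumle _ _ _ ?_ h0'
          intro i _ hi0
          have hf0 : algebraMap (Rx p) K (f i : Rx p) ≠ 0 := left_ne_zero_of_mul hi0
          have hw0 : (w i : K) ≠ 0 := right_ne_zero_of_mul hi0
          have hfi0 : (f i : Rx p) ≠ 0 := by
            intro h; rw [h, map_zero] at hf0; exact hf0 rfl
          rw [W.v_mul _ _ hf0 hw0]
          have h1 := (infG_poly p K W _ hfi0).2
          have h2 : (f i : Rx p).natDegree ≤ t := by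
            rw [← Nat.lt_succ_iff]
            exact (Polynomial.natDegree_lt_iff_degree_lt hfi0).mpr
              (Polynomial.mem_degreeLT.mp (f i).2)
          have h3 : ((f i : Rx p).natDegree : ℤ) * W.v (xk p K) ≤ t * e := by
            rw [hex]
            exact mul_le_mul_of_nonneg_right (by exact_mod_cast h2) (by positivity)
          have h4 : (e : ℤ) * t ≤ n - B := by
            have : ((e * t : ℕ) : ℤ) ≤ ((n - B : ℕ) : ℤ) := by exact_mod_cast ht2
            rw [Nat.cast_sub hnB] at this
            push_cast at this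
            exact this
          have h5 := hwB i
          linarith [mul_comm (e : ℤ) t]
        exact Int.toNat_le.mpr hle
    have hcard : Nat.card P ≤ Nat.card {a : Oc p K // a = 0 ∨ (W.v (a : K)).toNat ≤ n} := by
      have := hfin n
      exact Nat.card_le_card_of_injective (fun f : P => (⟨Φ f, hΦv f⟩ :
        {a : Oc p K // a = 0 ∨ (W.v (a : K)).toNat ≤ n})) (fun f f' h => hΦinj (by
          exact congrArg (fun z : {a : Oc p K // a = 0 ∨ (W.v (a : K)).toNat ≤ n} =>
            (z : Oc p K)) h))
    calc q ^ n = q ^ B * q ^ (n - B) := by rw [← pow_add]; congr 1; omega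
      _ ≤ q ^ B * q ^ (e * (t + 1)) :=
          Nat.mul_le_mul_left _ (Nat.pow_le_pow_right (by omega) ht1.le)
      _ ≤ q ^ B * p ^ (g * (t + 1)) := by
          refine Nat.mul_le_mul_left _ ?_
          rw [pow_mul, pow_mul]
          exact Nat.pow_le_pow_left hq _
      _ ≤ _ := by
          rw [← hcP]
          exact Nat.mul_le_mul_left _ hcard

end Pool.Agent.AB
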