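import Pool.Agent.Lib.MP_5de024_nt.C.TrI
import Pool.Agent.Lib.MP_5de024_nt.Rt
import Pool.Agent.Lib.MP_5de024_nt.Cyc

/-!
# The place at infinity and its residue field (piece InfR)
-/

set_option autoImplicit false
set_option linter.unusedSectionVars false

namespace Pool.Agent.AB

variable (p : ℕ) [Fact p.Prime] (K : Type) [Field K] [Algebra (Fx p) K] [Algebra (Rx p) K]
  [IsScalarTower (Rx p) (Fx p) K] (M : Type) [Field M] [Algebra (Fx p) M] [Algebra (Rx p) M]
  [IsScalarTower (Rx p) (Fx p) M]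

private theorem infr_smulComm : SMulCommClass (Gl p K) (Rx p) K :=
  ⟨fun σ r k => (σ.restrictScalars (Rx p)).toLinearEquiv.map_smul r k⟩

attribute [local instance] infr_smulComm

private theorem infr_smul (σ : Gl p K) (s : Oc p K) : σ • s = act p K σ s :=
  Subtype.ext rfl

private theorem infr_inv [FiniteDimensional (Fx p) K] [IsGalois (Fx p) K] :
    Algebra.IsInvariant (Rx p) (Oc p K) (Gl p K) := by
  refine ⟨fun b hb => ?_⟩
  obtain ⟨r, hr⟩ := fixed_oc p K b (fun σ => (infr_smul p K σ b).symm.trans (hb σ))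
  exact ⟨r, hr.symm⟩

private theorem infr_under (q : Ideal (Oc p K))
    (hq : q.IsPrime) (hx : xo p K ∈ q) : q.under (Rx p) = Ideal.span {(Polynomial.X : Rx p)} := by
  have h0 : (Ideal.span {(Polynomial.X : Rx p)}).IsMaximal :=
    PrincipalIdealRing.isMaximal_of_irreducible Polynomial.irreducible_X
  have h1 : Ideal.span {(Polynomial.X : Rx p)} ≤ q.under (Rx p) := by
    rw [Ideal.span_singleton_le_iff_mem]
    exact hx
  exact (h0.eq_of_le (Ideal.IsPrime.ne_top (Ideal.IsPrime.under (Rx p) q)) h1).symm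

/-- the Galois group is transitive on the places over `x = 0` -/
theorem infr_trans [FiniteDimensional (Fx p) K] [IsGalois (Fx p) K] (P P' : Ideal (Oc p K))
    (hP : P.IsPrime) (hx : xo p K ∈ P) (hP' : P'.IsPrime) (hx' : xo p K ∈ P') :
    ∃ g : Gl p K, ∀ s : Oc p K, s ∈ P' ↔ act p K g s ∈ P := by
  have h3 := infr_inv p K
  obtain ⟨g, hg⟩ := Algebra.IsInvariant.exists_smul_of_under_eq (Rx p) (Oc p K) (Gl p K) P P'
    (by rw [infr_under p K P hP hx, infr_under p K P' hP' hx'])
  refine ⟨g⁻¹, fun s => ?_⟩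
  rw [hg, Ideal.mem_pointwise_smul_iff_inv_smul_mem, infr_smul]

/-- there is only one place at infinity -/
theorem inf_unique [FiniteDimensional (Fx p) K] [IsGalois (Fx p) K] [FiniteDimensional (Fx p) M]
    [IsGalois (Fx p) M] (hNI : NI p K) (T : Tw p K M) (m : ℕ) (hm : m.Coprime p) (ζ : K)
    (hζ : IsPrimitiveRoot ζ m) (hgeo : Geo p K ζ)
    (hpg : ∀ σ : Gl p K, σ ζ = ζ → ∃ n : ℕ, σ ^ p ^ n = 1) (P P' : Ideal (Oc p M))
    (hP : P.IsMaximal) (hx : xo p M ∈ P) (hP' : P'.IsMaximal) (hx' : xo p M ∈ P') :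
    P = P' := by
  obtain ⟨g0, hg0⟩ := infr_trans p M P P' hP.isPrime hx hP'.isPrime hx'
  obtain ⟨τ, hτ1, hτ2⟩ := stab_mul p K M T m hm ζ hζ P hP hx (T.b.symm g0)
  have hb : g0 = T.b τ * T.b (τ⁻¹ * T.b.symm g0) := by
    rw [← map_mul, mul_inv_cancel_left, MulEquiv.apply_symm_apply]
  ext s
  rw [hg0 s, hb, act_mul, ← hτ1]
  have h1 := inert_inf p K M hNI T m hm ζ hζ hgeo hpg P hP hx _ hτ2 s
  constructor
  · intro h2
    have := P.add_mem h1 h2
    rwa [sub_add_cancel] at this
  · intro h2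
    have := P.sub_mem h2 h1
    rwa [sub_sub_cancel] at this

/-- powers of a primitive root of unity fixed by a power of Frobenius -/
theorem infr_pow {A : Type} [Field A] (m : ℕ) (hm : p.Coprime m) (ζ : A)
    (hζ : IsPrimitiveRoot ζ m) (hm0 : 0 < m) (i : ℕ) :
    ζ ^ p ^ i = ζ ↔ orderOf (ZMod.unitOfCoprime p hm) ∣ i := by
  have hζ0 : ζ ≠ 0 := hζ.ne_zero hm0.ne'
  have hp : 0 < p := (Fact.out : p.Prime).pos
  have hpi : 1 ≤ p ^ i := Nat.one_le_pow _ _ hp
  have h1 : ζ ^ p ^ i = ζ ↔ ζ ^ (p ^ i - 1) = 1 := by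
    have h2 : ζ ^ p ^ i = ζ ^ (p ^ i - 1) * ζ := by rw [← pow_succ, Nat.sub_add_cancel hpi]
    rw [h2]
    constructor
    · intro h3
      exact mul_right_cancel₀ hζ0 (h3.trans (one_mul ζ).symm)
    · intro h3
      rw [h3, one_mul]
  rw [h1, hζ.pow_eq_one_iff_dvd, orderOf_dvd_iff_pow_eq_one, ← ZMod.natCast_eq_zero_iff,
    Nat.cast_sub hpi, sub_eq_zero, Units.ext_iff]
  push_cast
  rfl

/-- a field of characteristic `p` generated by a primitive root of unity -/
theorem infr_gen {A : Type} [Field A] (i0 : ZMod p →+* A) (m : ℕ) (hm : p.Coprime m) (ζ : A)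
    (hζ : IsPrimitiveRoot ζ m) (hm0 : 0 < m)
    (hall : ∀ y : A, y ^ p ^ orderOf (ZMod.unitOfCoprime p hm) = y) (y : A) :
    ∃ g : Polynomial (ZMod p), y = g.eval₂ i0 ζ := by
  classical
  set f := orderOf (ZMod.unitOfCoprime p hm) with hf
  have : NeZero m := ⟨hm0.ne'⟩
  have hf0 : 0 < f := orderOf_pos _
  have hp1 : 1 < p := (Fact.out : p.Prime).one_lt
  have hq : 1 < p ^ f := Nat.one_lt_pow hf0.ne' hp1
  -- `A` is finite with at most `p ^ f` elements
  have hne : (Polynomial.X ^ p ^ f - Polynomial.X : Polynomial A) ≠ 0 := by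
    intro h0
    have h1 : (Polynomial.X ^ p ^ f : Polynomial A) = Polynomial.X := sub_eq_zero.mp h0
    have h2 := congrArg Polynomial.natDegree h1
    rw [Polynomial.natDegree_X_pow, Polynomial.natDegree_X] at h2
    omega
  have hmem : ∀ w : A, w ∈ (Polynomial.X ^ p ^ f - Polynomial.X : Polynomial A).roots.toFinset := by
    intro w
    rw [Multiset.mem_toFinset, Polynomial.mem_roots hne, Polynomial.IsRoot.def,
      Polynomial.eval_sub, Polynomial.eval_pow, Polynomial.eval_X, sub_eq_zero]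
    exact hall w
  have hA : Finite A := Finite.of_finite_univ
    (((Polynomial.X ^ p ^ f - Polynomial.X : Polynomial A).roots.toFinset.finite_toSet).subset
      (fun w _ => hmem w))
  have hcardA : Nat.card A ≤ p ^ f := by
    have : Fintype A := Fintype.ofFinite A
    rw [Nat.card_eq_fintype_card, ← Finset.card_univ]
    calc (Finset.univ : Finset A).card
        ≤ (Polynomial.X ^ p ^ f - Polynomial.X : Polynomial A).roots.toFinset.card :=
          Finset.card_le_card (fun w _ => hmem w)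
      _ ≤ Multiset.card (Polynomial.X ^ p ^ f - Polynomial.X : Polynomial A).roots :=
          Multiset.toFinset_card_le _
      _ ≤ (Polynomial.X ^ p ^ f - Polynomial.X : Polynomial A).natDegree :=
          Polynomial.card_roots' _
      _ = p ^ f := by
          rw [Polynomial.natDegree_sub_eq_left_of_natDegree_lt, Polynomial.natDegree_X_pow]
          rw [Polynomial.natDegree_X_pow, Polynomial.natDegree_X]
          exact hq
  -- the subfield generated by `ζ`
  let _ : Algebra (ZMod p) A := i0.toAlgebra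
  have hfinB : Finite (Algebra.adjoin (ZMod p) {ζ}) := inferInstance
  let B := Algebra.adjoin (ZMod p) {ζ}
  have hBf : Fintype B := Fintype.ofFinite B
  let _ : Field B := (Finite.isField_of_domain B).toField
  obtain ⟨j, hj⟩ : ∃ j : ℕ, Nat.card B = p ^ j :=
    ⟨Module.finrank (ZMod p) B, by
      rw [Module.natCard_eq_pow_finrank (K := ZMod p), Nat.card_zmod]⟩
  have hζB : (⟨ζ, Algebra.self_mem_adjoin_singleton (ZMod p) ζ⟩ : B) ^ p ^ j =
      ⟨ζ, Algebra.self_mem_adjoin_singleton (ZMod p) ζ⟩ := by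
    rw [← hj, Nat.card_eq_fintype_card]
    exact FiniteField.pow_card _
  have hζ2 : ζ ^ p ^ j = ζ := congrArg (fun b : B => (b : A)) hζB
  have hj0 : j ≠ 0 := by
    rintro rfl
    have : 1 < Nat.card B := Finite.one_lt_card
    rw [hj, pow_zero] at this
    exact lt_irrefl _ this
  have hfj : f ≤ j := Nat.le_of_dvd (Nat.pos_of_ne_zero hj0) ((infr_pow p m hm ζ hζ hm0 j).mp hζ2)
  have hcard : Nat.card A ≤ Nat.card B := by
    rw [hj]
    exact hcardA.trans (Nat.pow_le_pow_right hp1.le hfj)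
  have hinj : Function.Injective (fun b : B => (b : A)) := Subtype.val_injective
  have hbij : Function.Bijective (fun b : B => (b : A)) :=
    (Nat.bijective_iff_injective_and_card _).mpr
      ⟨hinj, le_antisymm (Nat.card_le_card_of_injective _ hinj) hcard⟩
  obtain ⟨⟨b, hb⟩, hby⟩ := hbij.2 y
  have hb2 : b ∈ Algebra.adjoin (ZMod p) {ζ} := hb
  rw [Algebra.adjoin_singleton_eq_range_aeval] at hb2
  obtain ⟨g, hg⟩ := hb2
  refine ⟨g, ?_⟩
  rw [← hby]
  show b = _
  rw [← hg]
  rfl

/-- every residue at infinity is the residue of a constant -/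
theorem inf_res [FiniteDimensional (Fx p) K] [IsGalois (Fx p) K] [FiniteDimensional (Fx p) M]
    [IsGalois (Fx p) M] (hNI : NI p K) (T : Tw p K M) (m : ℕ) (hm : m.Coprime p) (ζ : K)
    (hζ : IsPrimitiveRoot ζ m) (hgeo : Geo p K ζ)
    (hpg : ∀ σ : Gl p K, σ ζ = ζ → ∃ n : ℕ, σ ^ p ^ n = 1) (P : Ideal (Oc p M))
    (hP : P.IsMaximal) (hx : xo p M ∈ P) (s : Oc p M) :
    ∃ (c : K) (c' : Oc p M), (∃ n : ℕ, 0 < n ∧ c ^ p ^ n = c) ∧ (c' : M) = T.e c ∧
      s - c' ∈ P := by
  classical
  have hprime := hP.isPrime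
  have hcharK : CharP K p := charP_of p K
  have hcharM : CharP M p := charP_of p M
  have hm0 : 0 < m := by
    rcases Nat.eq_zero_or_pos m with h | h
    · rw [h, Nat.coprime_zero_left] at hm
      exact absurd hm (Fact.out : p.Prime).one_lt.ne'
    · exact h
  have : NeZero m := ⟨hm0.ne'⟩
  obtain ⟨δ, hδ⟩ := exists_frob p M P hP hx
  -- the root of unity in `M`
  have hζM : IsPrimitiveRoot (T.e ζ) m := hζ.map_of_injective (f := T.e) T.e.injective
  have hint : IsIntegral (Rx p) (T.e ζ) := by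
    refine IsIntegral.of_pow hm0 ?_
    rw [hζM.pow_eq_one]
    exact isIntegral_one
  obtain ⟨ζo, hζo⟩ : ∃ ζo : Oc p M, (ζo : M) = T.e ζ := ⟨⟨T.e ζ, hint⟩, rfl⟩
  have hζo1 : ζo ^ m = 1 := by
    apply Subtype.ext
    push_cast
    rw [hζo, hζM.pow_eq_one]
  have hmu := natCast_isUnit p m hm (Oc p M)
  -- distinct roots of unity stay distinct modulo `P`
  have hsep : ∀ ξ : Oc p M, ξ ^ m = 1 → 1 - ξ ∈ P → ξ = 1 := by
    intro ξ h1 h2
    by_contra h3
    exact hP.ne_top (Ideal.eq_top_of_isUnit_mem _ h2 (isUnit_one_sub m hmu ξ h1 h3))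
  have hζu : IsUnit ζo := IsUnit.of_pow_eq_one hζo1 hm0.ne'
  have hmemu : ∀ a b : Oc p M, IsUnit a → a * b ∈ P → b ∈ P := by
    intro a b ha hab
    rcases hprime.mem_or_mem hab with h | h
    · exact absurd (Ideal.eq_top_of_isUnit_mem _ h ha) hP.ne_top
    · exact h
  have hsep2 : ∀ a b : Oc p M, a ^ m = 1 → b ^ m = 1 → a - b ∈ P → a = b := by
    intro a b ha hb hab
    have hau : IsUnit a := IsUnit.of_pow_eq_one ha hm0.ne'
    have hb2 : (a ^ (m - 1) * b) ^ m = 1 := by
      rw [mul_pow, ← pow_mul, mul_comm (m - 1) m, pow_mul, ha, hb, one_pow, one_mul]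
    have h1 : 1 - a ^ (m - 1) * b ∈ P := by
      have h2 : 1 - a ^ (m - 1) * b = a ^ (m - 1) * (a - b) := by
        rw [mul_sub, ← pow_succ, Nat.sub_add_cancel hm0, ha]
      rw [h2]
      exact P.mul_mem_left _ hab
    have h3 := hsep _ hb2 h1
    calc a = a * 1 := (mul_one a).symm
      _ = a * (a ^ (m - 1) * b) := by rw [h3]
      _ = a ^ m * b := by rw [← mul_assoc, ← pow_succ', Nat.sub_add_cancel hm0]
      _ = b := by rw [ha, one_mul]
  have hδζ : act p M δ ζo = ζo ^ p := by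
    refine hsep2 _ _ ?_ ?_ (hδ.2.2 ζo)
    · rw [← map_pow, hζo1, map_one]
    · rw [← pow_mul, mul_comm, pow_mul, hζo1, one_pow]
  set f := orderOf (ZMod.unitOfCoprime p hm.symm) with hf
  have hf0 : 0 < f := orderOf_pos _
  have hζf : ζ ^ p ^ f = ζ := (infr_pow p m hm.symm ζ hζ hm0 f).mpr dvd_rfl
  -- powers of the Frobenius element
  have hδn : ∀ (n : ℕ) (s : Oc p M), act p M (δ ^ n) s - s ^ p ^ n ∈ P := by
    intro n
    induction n with
    | zero =>
      intro s
      rw [pow_zero, pow_zero, pow_one, act_one, sub_self]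
      exact P.zero_mem
    | succ n ih =>
      intro s
      have h1 : act p M (δ ^ (n + 1)) s = act p M (δ ^ n) (act p M δ s) := by
        rw [pow_succ, act_mul]
      have h2 := ih (act p M δ s)
      have h3 : (act p M δ s) ^ p ^ n - (s ^ p) ^ p ^ n ∈ P := by
        have := hδ.2.2 s
        exact Ideal.mem_of_dvd P (sub_dvd_pow_sub_pow _ _ _) this
      have h4 := P.add_mem h2 h3
      rw [sub_add_sub_cancel, ← pow_mul, ← pow_succ'] at h4
      rw [h1]
      exact h4
  have hδf : ∀ s : Oc p M, s ^ p ^ f - s ∈ P := by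
    intro s
    have h1 : (T.b.symm (δ ^ f)) ζ = ζ := by
      have h2 : act p M (δ ^ f) ζo = ζo := by
        have h3 : ∀ n : ℕ, act p M (δ ^ n) ζo = ζo ^ p ^ n := by
          intro n
          induction n with
          | zero => rw [pow_zero, pow_zero, pow_one, act_one]
          | succ n ih => rw [pow_succ, act_mul, hδζ, map_pow, ih, ← pow_mul, ← pow_succ]
        rw [h3]
        apply Subtype.ext
        push_cast
        rw [hζo, ← map_pow, hζf]
      have h4 : (δ ^ f) (T.e ζ) = T.e ζ := by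
        rw [← hζo]
        have := congrArg (fun t : Oc p M => (t : M)) h2
        exact this
      have h5 := T.hb (T.b.symm (δ ^ f)) ζ
      rw [MulEquiv.apply_symm_apply, h4] at h5
      exact (T.e.injective h5).symm
    have h6 := inert_inf p K M hNI T m hm ζ hζ hgeo hpg P hP hx _ h1 s
    rw [MulEquiv.apply_symm_apply] at h6
    have h7 := P.sub_mem h6 (hδn f s)
    have h8 : act p M (δ ^ f) s - s - (act p M (δ ^ f) s - s ^ p ^ f) = s ^ p ^ f - s := by ring
    rwa [h8] at h7
  -- the residue field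
  let _ : Field (Oc p M ⧸ P) := Ideal.Quotient.field P
  have hall : ∀ y : Oc p M ⧸ P, y ^ p ^ f = y := by
    intro y
    obtain ⟨s, rfl⟩ := Ideal.Quotient.mk_surjective y
    rw [← map_pow]
    exact Ideal.Quotient.eq.mpr (hδf s)
  have hζb : IsPrimitiveRoot (Ideal.Quotient.mk P ζo) m := by
    refine IsPrimitiveRoot.mk_of_lt _ hm0 ?_ ?_
    · rw [← map_pow, hζo1, map_one]
    · intro n hn0 hnm h1
      have h2 : 1 - ζo ^ n ∈ P := by
        rw [← Ideal.Quotient.eq, map_one, map_pow]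
        exact h1.symm
      have h3 := hsep _ (by rw [← pow_mul, mul_comm, pow_mul, hζo1, one_pow]) h2
      have h4 : (T.e ζ) ^ n = 1 := by
        rw [← hζo]
        have := congrArg (fun t : Oc p M => (t : M)) h3
        exact this
      exact absurd (Nat.le_of_dvd hn0 ((hζM.pow_eq_one_iff_dvd n).mp h4)) (not_le.mpr hnm)
  obtain ⟨g, hg⟩ := infr_gen p ((Ideal.Quotient.mk P).comp (cst p (Oc p M))) m hm.symm
    (Ideal.Quotient.mk P ζo) hζb hm0 hall (Ideal.Quotient.mk P s)
  refine ⟨g.eval₂ (cst p K) ζ, g.eval₂ (cst p (Oc p M)) ζo, ⟨f, hf0, ?_⟩, ?_, ?_⟩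
  · have : ExpChar K p := ExpChar.prime Fact.out
    have h1 : iterateFrobenius K p f (g.eval₂ (cst p K) ζ) = g.eval₂ (cst p K) ζ := by
      rw [Polynomial.hom_eval₂]
      have h2 : (iterateFrobenius K p f).comp (cst p K) = cst p K := Subsingleton.elim _ _
      rw [h2, iterateFrobenius_def, hζf]
    rwa [iterateFrobenius_def] at h1
  · have h1 : ((g.eval₂ (cst p (Oc p M)) ζo : Oc p M) : M) =
        algebraMap (Oc p M) M (g.eval₂ (cst p (Oc p M)) ζo) := rfl
    have h2 : T.e (g.eval₂ (cst p K) ζ) = (T.e : K →+* M) (g.eval₂ (cst p K) ζ) := rfl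
    rw [h1, h2, Polynomial.hom_eval₂, Polynomial.hom_eval₂]
    have h3 : (algebraMap (Oc p M) M).comp (cst p (Oc p M)) = (T.e : K →+* M).comp (cst p K) :=
      Subsingleton.elim _ _
    rw [h3]
    congr 1
  · rw [← Ideal.Quotient.eq, hg, Polynomial.hom_eval₂]

end Pool.Agent.AB
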