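import Pool.Agent.Lib.MP_5de024_nt.C.InfR
import Pool.Agent.Lib.MP_5de024_nt.Val

/-!
# The degree function at infinity (piece InfW)
-/

set_option autoImplicit false
set_option linter.unusedSectionVars false

namespace Pool.Agent.AB

/-- the degree (the pole order at the place at infinity) on `K` -/
structure WInf (p : ℕ) [Fact p.Prime] (K : Type) [Field K] [Algebra (Fx p) K]
    [Algebra (Rx p) K] [IsScalarTower (Rx p) (Fx p) K] where
  /-- the degree -/
  v : K → ℤ
  v_mul : ∀ a b : K, a ≠ 0 → b ≠ 0 → v (a * b) = v a + v b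
  v_add : ∀ a b : K, a ≠ 0 → b ≠ 0 → a + b ≠ 0 → v (a + b) ≤ max (v a) (v b)
  v_gl : ∀ (σ : Gl p K) (a : K), v (σ a) = v a
  v_int : ∀ a : Oc p K, (a : K) ≠ 0 → 0 ≤ v (a : K)
  v_res : ∀ y : K, y ≠ 0 → v y ≤ 0 →
    ∃ c : K, (∃ n : ℕ, 0 < n ∧ c ^ p ^ n = c) ∧ (y = c ∨ v (y - c) < 0)
  v_unif : ∃ π : K, π ≠ 0 ∧ v π = -1
  v_x : 0 < v (xk p K)

section aux

variable (p : ℕ) [Fact p.Prime] (M : Type) [Field M] [Algebra (Fx p) M] [Algebra (Rx p) M]
  [IsScalarTower (Rx p) (Fx p) M]

/-- an automorphism which preserves a prime preserves its valuation -/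
theorem infw_inv [IsDedekindDomain (Oc p M)] [IsFractionRing (Oc p M) M]
    (v0 : IsDedekindDomain.HeightOneSpectrum (Oc p M)) (τ : Gl p M)
    (h : ∀ s : Oc p M, act p M τ s ∈ v0.asIdeal ↔ s ∈ v0.asIdeal) (y : M) :
    v0.valuation M (τ y) = v0.valuation M y := by
  have hmap : v0.asIdeal.comap (act p M τ).toRingEquiv = v0.asIdeal := by
    ext s
    rw [Ideal.mem_comap]
    exact h s
  have hpow : ∀ (n : ℕ) (s : Oc p M), act p M τ s ∈ v0.asIdeal ^ n ↔ s ∈ v0.asIdeal ^ n := by
    intro n s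
    have h1 : (v0.asIdeal ^ n).comap (act p M τ).toRingEquiv = v0.asIdeal ^ n := by
      rw [← Ideal.map_symm, Ideal.map_pow, Ideal.map_symm, hmap]
    have h2 : s ∈ (v0.asIdeal ^ n).comap (act p M τ).toRingEquiv ↔ s ∈ v0.asIdeal ^ n := by
      rw [h1]
    exact h2
  have hint : ∀ s : Oc p M, v0.intValuation (act p M τ s) = v0.intValuation s := by
    intro s
    by_cases hs : s = 0
    · rw [hs, map_zero]
    · have hs' : act p M τ s ≠ 0 := fun h0 => hs ((act p M τ).map_eq_zero_iff.1 h0)
      apply le_antisymm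
      · rw [v0.intValuation_eq_exp_neg_multiplicity hs, v0.intValuation_le_pow_iff_mem, hpow,
          ← v0.intValuation_le_pow_iff_mem, v0.intValuation_eq_exp_neg_multiplicity hs]
      · rw [v0.intValuation_eq_exp_neg_multiplicity hs', v0.intValuation_le_pow_iff_mem, ← hpow,
          ← v0.intValuation_le_pow_iff_mem, v0.intValuation_eq_exp_neg_multiplicity hs']
  obtain ⟨a, b, -, hab⟩ := IsFractionRing.div_surjective (A := Oc p M) y
  have h3 : ∀ s : Oc p M, v0.valuation M (τ (algebraMap (Oc p M) M s)) =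
      v0.valuation M (algebraMap (Oc p M) M s) := by
    intro s
    have h4 : τ (algebraMap (Oc p M) M s) = algebraMap (Oc p M) M (act p M τ s) := rfl
    rw [h4, v0.valuation_of_algebraMap, v0.valuation_of_algebraMap, hint]
  rw [← hab, map_div₀, map_div₀, map_div₀, h3, h3]

open Polynomial in
/-- the valuation of a polynomial in `1 / x` -/
theorem infw_pol [IsDedekindDomain (Oc p M)] [IsFractionRing (Oc p M) M]
    (v0 : IsDedekindDomain.HeightOneSpectrum (Oc p M)) (hx : xo p M ∈ v0.asIdeal)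
    (c : ZMod p →+* M) (r : Rx p) (hr : r ≠ 0) :
    v0.valuation M (eval₂ c (xk p M)⁻¹ r) = (v0.valuation M (xk p M))⁻¹ ^ r.natDegree := by
  have hy := xk_ne_zero p M
  have hc : c = (algebraMap (Rx p) M).comp C := RingHom.ext_zmod _ _
  let _ : Invertible (xk p M)⁻¹ := invertibleOfNonzero (inv_ne_zero hy)
  have h1 := eval₂_reverse_mul_pow c (xk p M)⁻¹ r
  rw [invOf_eq_inv, inv_inv] at h1
  have hval : ∀ q : Rx p, eval₂ c (xk p M) q = algebraMap (Oc p M) M
      (algebraMap (Rx p) (Oc p M) q) := by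
    intro q
    have h2 : eval₂RingHom c (xk p M) = (algebraMap (Oc p M) M).comp
        (algebraMap (Rx p) (Oc p M)) := by
      apply Polynomial.ringHom_ext
      · intro a
        rw [coe_eval₂RingHom, eval₂_C, hc]
        rfl
      · rw [coe_eval₂RingHom, eval₂_X]
        exact (xo_coe p M).symm
    exact RingHom.congr_fun h2 q
  have h3 : v0.valuation M (eval₂ c (xk p M) (reverse r)) = 1 := by
    rw [hval, v0.valuation_eq_one_iff_notMem]
    intro h4
    rw [← divX_mul_X_add (reverse r), map_add, map_mul] at h4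
    have h5 : algebraMap (Rx p) (Oc p M) (C ((reverse r).coeff 0)) ∈ v0.asIdeal :=
      (Ideal.add_mem_iff_right _ (Ideal.mul_mem_left _ _ hx)).1 h4
    rw [coeff_zero_reverse] at h5
    have h6 : r.leadingCoeff ≠ 0 := leadingCoeff_ne_zero.2 hr
    have h7 : algebraMap (Rx p) (Oc p M) (C (r.leadingCoeff)⁻¹) *
        algebraMap (Rx p) (Oc p M) (C (r.leadingCoeff)) = 1 := by
      rw [← map_mul, ← map_mul, inv_mul_cancel₀ h6, map_one, map_one]
    have h8 := Ideal.mul_mem_left v0.asIdeal
      (algebraMap (Rx p) (Oc p M) (C (r.leadingCoeff)⁻¹)) h5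
    rw [h7] at h8
    exact v0.isPrime.ne_top ((Ideal.eq_top_iff_one _).2 h8)
  rw [← h1, map_mul, h3, one_mul, map_pow, map_inv₀]

end aux

/-- the degree function exists -/
theorem exists_winf (p : ℕ) [Fact p.Prime] (K : Type) [Field K] [Algebra (Fx p) K]
    [Algebra (Rx p) K] [IsScalarTower (Rx p) (Fx p) K] [FiniteDimensional (Fx p) K]
    [IsGalois (Fx p) K] (hNI : NI p K) (m : ℕ) (hm : m.Coprime p) (ζ : K)
    (hζ : IsPrimitiveRoot ζ m) (hgeo : Geo p K ζ)
    (hpg : ∀ σ : Gl p K, σ ζ = ζ → ∃ n : ℕ, σ ^ p ^ n = 1) : Nonempty (WInf p K) := by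
  classical
  obtain ⟨M, i1, i2, i3, i4, ⟨T⟩, i5, i6⟩ := tw_all p K
  have hded : IsDedekindDomain (Oc p M) := oc_dedekind p M
  have hfr : IsFractionRing (Oc p M) M :=
    integralClosure.isFractionRing_of_finite_extension (Fx p) M
  obtain ⟨P, hP, hx⟩ := exists_place p M
  have hxo0 : xo p M ≠ 0 := by
    intro h0
    apply xk_ne_zero p M
    rw [← xo_coe, h0]
    rfl
  have hP0 : P ≠ ⊥ := by
    intro h0
    rw [h0, Ideal.mem_bot] at hx
    exact hxo0 hx
  let v0 : IsDedekindDomain.HeightOneSpectrum (Oc p M) := ⟨P, hP.isPrime, hP0⟩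
  let W := v0.valuation M
  have hWne : ∀ y : M, y ≠ 0 → W y ≠ 0 := fun y hy => (Valuation.ne_zero_iff W).2 hy
  have hene : ∀ a : K, a ≠ 0 → T.e a ≠ 0 := fun a ha => (map_ne_zero T.e).2 ha
  -- the automorphisms preserve the place
  have hWinv : ∀ (τ : Gl p M) (y : M), W (τ y) = W y := by
    intro τ y
    refine infw_inv p M v0 τ (fun s => ?_) y
    have h1 : (P.comap (act p M τ).toRingEquiv).IsMaximal := by
      rw [← Ideal.map_symm]
      exact Ideal.map_isMaximal_of_equiv _
    have h2 : xo p M ∈ P.comap (act p M τ).toRingEquiv := by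
      rw [Ideal.mem_comap]
      have h3 : (act p M τ).toRingEquiv (xo p M) = xo p M := act_xo p M τ
      rw [h3]
      exact hx
    have h3 := inf_unique p K M hNI T m hm ζ hζ hgeo hpg P _ hP hx h1 h2
    have h4 : s ∈ P ↔ s ∈ P.comap (act p M τ).toRingEquiv := by rw [← h3]
    exact h4.symm
  have hWx : W (xk p M) < 1 := by
    have h1 := (v0.valuation_lt_one_iff_mem (K := M) (xo p M)).2 hx
    have h2 : algebraMap (Oc p M) M (xo p M) = xk p M := xo_coe p M
    rw [← h2]
    exact h1
  have hlx : WithZero.log (W (xk p M)) < 0 := by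
    rw [← WithZero.log_one, WithZero.log_lt_log (hWne _ (xk_ne_zero p M)) one_ne_zero]
    exact hWx
  refine ⟨⟨fun a => WithZero.log (W (T.e a)), ?_, ?_, ?_, ?_, ?_, ?_, ?_⟩⟩
  · intro a b ha hb
    show WithZero.log (W (T.e (a * b))) = _
    rw [map_mul, map_mul, WithZero.log_mul (hWne _ (hene a ha)) (hWne _ (hene b hb))]
  · intro a b ha hb hab
    show WithZero.log (W (T.e (a + b))) ≤ max (WithZero.log (W (T.e a))) (WithZero.log (W (T.e b)))
    have h1 := W.map_add (T.e a) (T.e b)
    rw [← map_add] at h1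
    rcases le_max_iff.1 h1 with h2 | h2
    · exact le_max_of_le_left ((WithZero.log_le_log (hWne _ (hene _ hab))
        (hWne _ (hene a ha))).2 h2)
    · exact le_max_of_le_right ((WithZero.log_le_log (hWne _ (hene _ hab))
        (hWne _ (hene b hb))).2 h2)
  · intro σ a
    show WithZero.log (W (T.e (σ a))) = WithZero.log (W (T.e a))
    rw [← T.hb, hWinv]
  · intro a ha
    show 0 ≤ WithZero.log (W (T.e (a : K)))
    -- the norm
    obtain ⟨r, hr⟩ := fixed_oc p K (∏ σ : Gl p K, act p K σ a) (fun τ => by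
      rw [map_prod]
      refine Fintype.prod_equiv (Equiv.mulLeft τ) _ _ fun σ => ?_
      rw [Equiv.coe_mulLeft, act_mul])
    have h1 : (∏ σ : Gl p K, σ (a : K)) = algebraMap (Rx p) K r := by
      have h2 := congrArg (fun z : Oc p K => (z : K)) hr
      rw [SubmonoidClass.coe_finsetProd] at h2
      exact h2
    have hr0 : r ≠ 0 := by
      rintro rfl
      rw [map_zero, Finset.prod_eq_zero_iff] at h1
      obtain ⟨σ, -, hσ⟩ := h1
      exact ha ((map_eq_zero σ).1 hσ)
    have h2 : W (T.e (∏ σ : Gl p K, σ (a : K))) = W (T.e (a : K)) ^ Fintype.card (Gl p K) := by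
      rw [map_prod, map_prod, Finset.prod_congr rfl (fun σ _ => by rw [← T.hb, hWinv]),
        Finset.prod_const, Finset.card_univ]
    have h3 : T.e (algebraMap (Rx p) K r) = Polynomial.eval₂
        ((T.e : K →+* M).comp ((algebraMap (Rx p) K).comp Polynomial.C)) (xk p M)⁻¹ r := by
      have h4 : (T.e : K →+* M).comp (algebraMap (Rx p) K) = Polynomial.eval₂RingHom
          ((T.e : K →+* M).comp ((algebraMap (Rx p) K).comp Polynomial.C)) (xk p M)⁻¹ := by
        apply Polynomial.ringHom_ext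
        · intro c
          rw [Polynomial.coe_eval₂RingHom, Polynomial.eval₂_C]
          rfl
        · rw [Polynomial.coe_eval₂RingHom, Polynomial.eval₂_X, ← T.hx]
          show T.e (algebraMap (Rx p) K Polynomial.X) = _
          rw [← xo_coe]
          rfl
      exact RingHom.congr_fun h4 r
    rw [h1, h3, infw_pol p M v0 hx _ r hr0] at h2
    have h5 := congrArg WithZero.log h2
    rw [WithZero.log_pow, WithZero.log_pow, WithZero.log_inv] at h5
    have h6 : (0 : ℤ) < Fintype.card (Gl p K) := by exact_mod_cast Fintype.card_pos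
    have h7 : (0 : ℤ) ≤ (Fintype.card (Gl p K) : ℤ) * WithZero.log (W (T.e (a : K))) := by
      rw [nsmul_eq_mul, nsmul_eq_mul] at h5
      rw [← h5]
      have h8 : WithZero.log (v0.valuation M (xk p M)) < 0 := hlx
      exact mul_nonneg (Int.natCast_nonneg _) (by omega)
    exact nonneg_of_mul_nonneg_right h7 h6
  · intro y hy hvy
    have h1 : W (T.e y) ≤ 1 := by
      rw [← WithZero.log_le_log (hWne _ (hene y hy)) one_ne_zero, WithZero.log_one]
      exact hvy
    obtain ⟨s, hs⟩ := v0.exists_valuation_sub_lt_of_integer h1 1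
    rw [Units.val_one] at hs
    obtain ⟨c, c', hc, hcc, hsc⟩ := inf_res p K M hNI T m hm ζ hζ hgeo hpg P hP hx s
    refine ⟨c, hc, ?_⟩
    by_cases hyc : y = c
    · exact Or.inl hyc
    · right
      show WithZero.log (W (T.e (y - c))) < 0
      rw [← WithZero.log_one, WithZero.log_lt_log (hWne _ (hene _ (sub_ne_zero.2 hyc))) one_ne_zero]
      have h2 : W (algebraMap (Oc p M) M (s - c')) < 1 :=
        (v0.valuation_lt_one_iff_mem (K := M) (s - c')).2 hsc
      have h3 : T.e (y - c) = algebraMap (Oc p M) M (s - c') -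
          (algebraMap (Oc p M) M s - T.e y) := by
        rw [map_sub, map_sub, ← hcc]
        have h4 : algebraMap (Oc p M) M c' = (c' : M) := rfl
        rw [h4]
        ring
      rw [h3]
      exact lt_of_le_of_lt (Valuation.map_sub W _ _) (max_lt h2 hs)
  · obtain ⟨π, hπ⟩ := v0.valuation_exists_uniformizer M
    refine ⟨T.e.symm π, ?_, ?_⟩
    · intro h0
      have h1 : π = 0 := by
        rw [← RingEquiv.apply_symm_apply T.e π, h0, map_zero]
      rw [h1, map_zero] at hπ
      exact WithZero.exp_ne_zero hπ.symm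
    · show WithZero.log (W (T.e (T.e.symm π))) = -1
      rw [RingEquiv.apply_symm_apply]
      show WithZero.log (v0.valuation M π) = -1
      rw [hπ, WithZero.log_exp]
  · show 0 < WithZero.log (W (T.e (xk p K)))
    rw [T.hx, map_inv₀, WithZero.log_inv]
    omega

end Pool.Agent.AB
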