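import Pool.Agent.Lib.MP_5de024_nt.C.InfW
import Pool.Agent.Lib.MP_5de024_nt.C.GeoA

/-!
# Residues at infinity (helper file of piece InfX)

For the degree `W.v` at infinity: `InM y` says that `y` lies in the maximal ideal (`y = 0` or
`W.v y < 0`), `InA y` that it lies in the valuation ring. Every element of the valuation ring is
congruent to exactly one constant.
-/

set_option autoImplicit false
set_option linter.unusedSectionVars false

namespace Pool.Agent.AB

namespace WInf

variable {p : ℕ} [Fact p.Prime] {K : Type} [Field K] [Algebra (Fx p) K] [Algebra (Rx p) K]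
  [IsScalarTower (Rx p) (Fx p) K] (W : WInf p K)

theorem v_one : W.v 1 = 0 := by
  have h := W.v_mul 1 1 one_ne_zero one_ne_zero
  rw [mul_one] at h
  omega

theorem v_pow {a : K} (ha : a ≠ 0) (n : ℕ) : W.v (a ^ n) = n * W.v a := by
  induction n with
  | zero => rw [pow_zero, W.v_one, Nat.cast_zero, zero_mul]
  | succ n ih =>
    rw [pow_succ, W.v_mul _ _ (pow_ne_zero n ha) ha, ih]
    push_cast
    ring

theorem v_neg {a : K} (ha : a ≠ 0) : W.v (-a) = W.v a := by
  have h1 : W.v ((-1 : K) ^ 2) = (2 : ℕ) * W.v (-1) := W.v_pow (neg_ne_zero.2 one_ne_zero) 2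
  have h2 : ((-1 : K)) ^ 2 = 1 := by ring
  rw [h2, W.v_one] at h1
  have h3 : W.v (-1 : K) = 0 := by
    push_cast at h1
    omega
  have h4 : -a = (-1) * a := by ring
  rw [h4, W.v_mul _ _ (neg_ne_zero.2 one_ne_zero) ha, h3, zero_add]

theorem v_inv {a : K} (ha : a ≠ 0) : W.v a⁻¹ = - W.v a := by
  have h := W.v_mul a a⁻¹ ha (inv_ne_zero ha)
  rw [mul_inv_cancel₀ ha, W.v_one] at h
  omega

theorem v_div {a b : K} (ha : a ≠ 0) (hb : b ≠ 0) : W.v (a / b) = W.v a - W.v b := by
  rw [div_eq_mul_inv, W.v_mul _ _ ha (inv_ne_zero hb), W.v_inv hb]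
  ring

theorem v_cst {c : K} (hc : IsCst p c) (h0 : c ≠ 0) : W.v c = 0 := by
  obtain ⟨n, hn, h1⟩ := hc
  have h2 := W.v_pow h0 (p ^ n)
  rw [h1] at h2
  have hpn : 1 < p ^ n := Nat.one_lt_pow hn.ne' (Fact.out : p.Prime).one_lt
  have h3 : ((p ^ n : ℕ) : ℤ) - 1 ≠ 0 := by
    have : (1 : ℤ) < ((p ^ n : ℕ) : ℤ) := by exact_mod_cast hpn
    omega
  have h4 : (((p ^ n : ℕ) : ℤ) - 1) * W.v c = 0 := by linear_combination -h2
  rcases mul_eq_zero.1 h4 with h | h
  · exact absurd h h3
  · exact h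

/-- `y` lies in the maximal ideal -/
def InM (y : K) : Prop := y = 0 ∨ W.v y < 0

/-- `y` lies in the valuation ring -/
def InA (y : K) : Prop := y = 0 ∨ W.v y ≤ 0

variable {W}

theorem InM.inA {y : K} (h : W.InM y) : W.InA y := by
  rcases h with h | h
  · exact Or.inl h
  · exact Or.inr h.le

theorem InM.zero : W.InM (0 : K) := Or.inl rfl

theorem InM.add {y z : K} (hy : W.InM y) (hz : W.InM z) : W.InM (y + z) := by
  rcases hy with rfl | hy
  · rw [zero_add]; exact hz
  rcases hz with rfl | hz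
  · rw [add_zero]; exact Or.inr hy
  by_cases h0 : y = 0
  · rw [h0, zero_add]; exact Or.inr hz
  by_cases h1 : z = 0
  · rw [h1, add_zero]; exact Or.inr hy
  by_cases h : y + z = 0
  · exact Or.inl h
  · exact Or.inr ((W.v_add y z h0 h1 h).trans_lt (max_lt hy hz))

theorem InM.neg {y : K} (hy : W.InM y) : W.InM (-y) := by
  rcases hy with rfl | hy
  · rw [neg_zero]; exact InM.zero
  · by_cases h0 : y = 0
    · rw [h0, neg_zero]; exact InM.zero
    · exact Or.inr (by rw [W.v_neg h0]; exact hy)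

theorem InM.sub {y z : K} (hy : W.InM y) (hz : W.InM z) : W.InM (y - z) := by
  rw [sub_eq_add_neg]
  exact hy.add hz.neg

theorem InA.add {y z : K} (hy : W.InA y) (hz : W.InA z) : W.InA (y + z) := by
  rcases hy with rfl | hy
  · rw [zero_add]; exact hz
  rcases hz with rfl | hz
  · rw [add_zero]; exact Or.inr hy
  by_cases h0 : y = 0
  · rw [h0, zero_add]; exact Or.inr hz
  by_cases h1 : z = 0
  · rw [h1, add_zero]; exact Or.inr hy
  by_cases h : y + z = 0
  · exact Or.inl h
  · exact Or.inr ((W.v_add y z h0 h1 h).trans (max_le hy hz))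

theorem InA.mul {y z : K} (hy : W.InA y) (hz : W.InA z) : W.InA (y * z) := by
  by_cases h0 : y = 0
  · rw [h0, zero_mul]; exact Or.inl rfl
  by_cases h1 : z = 0
  · rw [h1, mul_zero]; exact Or.inl rfl
  have h2 := hy.resolve_left h0
  have h3 := hz.resolve_left h1
  exact Or.inr (by rw [W.v_mul _ _ h0 h1]; omega)

theorem InM.mul {y z : K} (hy : W.InA y) (hz : W.InM z) : W.InM (y * z) := by
  by_cases h0 : y = 0
  · rw [h0, zero_mul]; exact Or.inl rfl
  by_cases h1 : z = 0
  · rw [h1, mul_zero]; exact Or.inl rfl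
  have h2 := hy.resolve_left h0
  have h3 := hz.resolve_left h1
  exact Or.inr (by rw [W.v_mul _ _ h0 h1]; omega)

theorem InM.gl {y : K} (hy : W.InM y) (σ : Gl p K) : W.InM (σ y) := by
  rcases hy with rfl | hy
  · rw [map_zero]; exact InM.zero
  · exact Or.inr (by rw [W.v_gl]; exact hy)

theorem inA_cst {c : K} (hc : IsCst p c) : W.InA c := by
  by_cases h0 : c = 0
  · exact Or.inl h0
  · exact Or.inr (W.v_cst hc h0).le

theorem inM_cst {c : K} (hc : IsCst p c) (h : W.InM c) : c = 0 := by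
  by_contra h0
  have h1 := h.resolve_left h0
  rw [W.v_cst hc h0] at h1
  exact lt_irrefl _ h1

/-- existence of residues -/
theorem exists_res {y : K} (hy : W.InA y) : ∃ c : K, IsCst p c ∧ W.InM (y - c) := by
  by_cases h0 : y = 0
  · exact ⟨0, IsCst.zero, by rw [h0, sub_zero]; exact InM.zero⟩
  · obtain ⟨c, hc, h1⟩ := W.v_res y h0 (hy.resolve_left h0)
    refine ⟨c, hc, ?_⟩
    rcases h1 with h1 | h1
    · exact Or.inl (by rw [h1, sub_self])
    · exact Or.inr h1

/-- residues of products -/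
theorem res_mul {y z c d : K} (hy : W.InA y) (hd : W.InA d) (h1 : W.InM (y - c))
    (h2 : W.InM (z - d)) : W.InM (y * z - c * d) := by
  have h3 : y * z - c * d = y * (z - d) + d * (y - c) := by ring
  rw [h3]
  exact (InM.mul hy h2).add (InM.mul hd h1)

/-- residues of powers -/
theorem res_pow {y c : K} (hy : W.InA y) (hc : W.InA c) (h1 : W.InM (y - c)) (n : ℕ) :
    W.InM (y ^ n - c ^ n) ∧ W.InA (y ^ n) ∧ W.InA (c ^ n) := by
  induction n with
  | zero =>
    rw [pow_zero, pow_zero, sub_self]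
    exact ⟨InM.zero, Or.inr (W.v_one).le, Or.inr (W.v_one).le⟩
  | succ n ih =>
    obtain ⟨h2, h3, h4⟩ := ih
    rw [pow_succ, pow_succ]
    exact ⟨res_mul h3 hc h2 h1, h3.mul hy, h4.mul hc⟩

/-- the ultrametric inequality for different degrees -/
theorem v_add_of_lt {a b : K} (ha : a ≠ 0) (hb : b ≠ 0) (h : W.v a < W.v b) :
    a + b ≠ 0 ∧ W.v (a + b) = W.v b := by
  have h1 : a + b ≠ 0 := by
    intro h2
    have h3 : b = -a := by linear_combination h2
    rw [h3, W.v_neg ha] at h
    exact lt_irrefl _ h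
  refine ⟨h1, le_antisymm ((W.v_add a b ha hb h1).trans (max_le h.le le_rfl)) ?_⟩
  have h2 : b = (a + b) + (-a) := by ring
  have h3 : W.v b ≤ max (W.v (a + b)) (W.v (-a)) := by
    conv_lhs => rw [h2]
    exact W.v_add _ _ h1 (neg_ne_zero.2 ha) (by rw [← h2]; exact hb)
  rw [W.v_neg ha] at h3
  rcases le_max_iff.1 h3 with h4 | h4
  · exact h4
  · omega

end WInf

end Pool.Agent.AB
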