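import Pool.Agent.Lib.MP_5de024_nt.C.InfG
import Pool.Agent.Lib.MP_5de024_nt.C.InfXA

/-!
# The data at infinity (piece InfX)
-/

set_option autoImplicit false
set_option linter.unusedSectionVars false

namespace Pool.Agent.AB

variable (p : ℕ) [Fact p.Prime] (K : Type) [Field K] [Algebra (Fx p) K] [Algebra (Rx p) K]
  [IsScalarTower (Rx p) (Fx p) K]

/-- a root of unity of order prime to `p` is a constant -/
theorem isCst_root (m : ℕ) (hm : m.Coprime p) (ζ : K) (hζ : ζ ^ m = 1) : IsCst p ζ := by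
  have hm0 : 0 < m := by
    rcases Nat.eq_zero_or_pos m with h | h
    · rw [h, Nat.coprime_zero_left] at hm
      exact absurd hm (Fact.out : p.Prime).one_lt.ne'
    · exact h
  refine ⟨m.totient, Nat.totient_pos.2 hm0, ?_⟩
  have h1 : p ^ m.totient ≡ 1 [MOD m] := Nat.ModEq.pow_totient hm.symm
  have h2 : ζ ^ p ^ m.totient = ζ ^ 1 := by
    rw [← Nat.mod_add_div (p ^ m.totient) m, pow_add, pow_mul, hζ, one_pow, mul_one]
    conv_rhs => rw [← Nat.mod_add_div 1 m, pow_add, pow_mul, hζ, one_pow, mul_one]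
    rw [h1]
  rwa [pow_one] at h2

section build

variable {p K} (W : WInf p K) {k : Type} [Field k] [Algebra k (Oc p K)]
  (hk : ∀ c : K, IsCst p c ↔ ∃ c' : k, ((algebraMap k (Oc p K) c' : Oc p K) : K) = c)

/-- the map of constants -/
noncomputable def jx (p : ℕ) [Fact p.Prime] (K : Type) [Field K] [Algebra (Fx p) K]
    [Algebra (Rx p) K] [IsScalarTower (Rx p) (Fx p) K] (k : Type) [Field k]
    [Algebra k (Oc p K)] : k →+* K :=
  (Oc p K).toSubring.subtype.comp (algebraMap k (Oc p K))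

theorem jx_coe (c : k) : jx p K k c = ((algebraMap k (Oc p K) c : Oc p K) : K) := rfl

include hk

theorem jx_cst (c : k) : IsCst p (jx p K k c) := (hk _).2 ⟨c, rfl⟩

/-- existence and uniqueness of the residue in `k` -/
theorem exists_rk {y : K} (hy : W.InA y) : ∃ c : k, W.InM (y - jx p K k c) := by
  obtain ⟨c, hc, h1⟩ := WInf.exists_res hy
  obtain ⟨c', hc'⟩ := (hk c).1 hc
  exact ⟨c', by rw [jx_coe, hc']; exact h1⟩

theorem rk_unique [CharP K p] {y : K} {c d : k} (h1 : W.InM (y - jx p K k c))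
    (h2 : W.InM (y - jx p K k d)) : c = d := by
  have h3 : W.InM (jx p K k (d - c)) := by
    have h4 : jx p K k (d - c) = (y - jx p K k c) - (y - jx p K k d) := by
      rw [map_sub]
      ring
    rw [h4]
    exact h1.sub h2
  have h5 := WInf.inM_cst (jx_cst hk _) h3
  rw [map_eq_zero] at h5
  exact (sub_eq_zero.1 h5).symm

/-- the degree -/
noncomputable def dx (_ : ∀ c : K, IsCst p c ↔
    ∃ c' : k, ((algebraMap k (Oc p K) c' : Oc p K) : K) = c) (a : Oc p K) : ℕ :=
  open Classical in if a = 0 then 0 else (W.v (a : K)).toNat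

omit hk in
theorem dx_zero (hk : ∀ c : K, IsCst p c ↔
    ∃ c' : k, ((algebraMap k (Oc p K) c' : Oc p K) : K) = c) : dx W hk 0 = 0 := by
  rw [dx, if_pos rfl]

theorem dx_coe {a : Oc p K} (ha : a ≠ 0) : ((dx W hk a : ℕ) : ℤ) = W.v (a : K) := by
  rw [dx, if_neg ha]
  exact Int.toNat_of_nonneg (W.v_int a fun h => ha (Subtype.ext h))

variable {π : K} (hπ0 : π ≠ 0) (hπ : W.v π = -1)

include hπ0 hπ

theorem v_norm {a : Oc p K} (ha : a ≠ 0) : W.v ((a : K) * π ^ dx W hk a) = 0 := by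
  have ha' : (a : K) ≠ 0 := fun h => ha (Subtype.ext h)
  rw [W.v_mul _ _ ha' (pow_ne_zero _ hπ0), W.v_pow hπ0, hπ, ← dx_coe W hk ha]
  ring

theorem norm_inA (a : Oc p K) : W.InA ((a : K) * π ^ dx W hk a) := by
  by_cases ha : a = 0
  · rw [ha]
    exact Or.inl (by rw [ZeroMemClass.coe_zero, zero_mul])
  · exact Or.inr (v_norm W hk hπ0 hπ ha).le

theorem exists_lcx (a : Oc p K) : ∃ c : k, W.InM ((a : K) * π ^ dx W hk a - jx p K k c) :=
  exists_rk W hk (norm_inA W hk hπ0 hπ a)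

/-- the leading coefficient -/
noncomputable def lcx (a : Oc p K) : k := (exists_lcx W hk hπ0 hπ a).choose

theorem lcx_spec (a : Oc p K) :
    W.InM ((a : K) * π ^ dx W hk a - jx p K k (lcx W hk hπ0 hπ a)) :=
  (exists_lcx W hk hπ0 hπ a).choose_spec

theorem lcx_eq [CharP K p] {a : Oc p K} {c : k}
    (h : W.InM ((a : K) * π ^ dx W hk a - jx p K k c)) : lcx W hk hπ0 hπ a = c :=
  rk_unique W hk (lcx_spec W hk hπ0 hπ a) h

/-- the degree and the leading coefficient form a `OneInf` -/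
theorem exists_oneInf [CharP K p] [Finite k]
    (hgr : ∃ c : ℕ, ∀ n : ℕ, Nat.card k ^ n ≤
      Nat.card k ^ c * Nat.card {a : Oc p K // a = 0 ∨ (W.v (a : K)).toNat ≤ n}) :
    ∃ X : OneInf k (Oc p K), (∀ a, X.d a = dx W hk a) ∧
      ∀ a, X.lc a = lcx W hk hπ0 hπ a := by
  have hcoe : ∀ {a : Oc p K}, a ≠ 0 → (a : K) ≠ 0 := fun {a} ha h => ha (Subtype.ext h)
  have hlc0 : lcx W hk hπ0 hπ 0 = 0 := by
    apply lcx_eq
    rw [ZeroMemClass.coe_zero, zero_mul, map_zero, sub_zero]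
    exact WInf.InM.zero
  have hmul : ∀ a b : Oc p K, a ≠ 0 → b ≠ 0 → dx W hk (a * b) = dx W hk a + dx W hk b := by
    intro a b ha hb
    have h1 := dx_coe W hk (mul_ne_zero ha hb)
    have h2 := dx_coe W hk ha
    have h3 := dx_coe W hk hb
    have h4 : ((a * b : Oc p K) : K) = (a : K) * (b : K) := rfl
    rw [h4, W.v_mul _ _ (hcoe ha) (hcoe hb)] at h1
    omega
  have hda : ∀ c : k, dx W hk (algebraMap k (Oc p K) c) = 0 := by
    intro c
    by_cases h0 : algebraMap k (Oc p K) c = 0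
    · rw [h0, dx_zero]
    · have h1 := dx_coe W hk h0
      have h2 := W.v_cst (jx_cst hk c) (hcoe h0)
      rw [jx_coe] at h2
      omega
  refine ⟨{ d := dx W hk, lc := lcx W hk hπ0 hπ, lc_zero := hlc0, lc_ne := ?_, lc_mul := ?_,
            lc_alg := ?_, d_alg := hda, d_mul := hmul, add_of_lt := ?_, sub_lt := ?_,
            growth := ?_ }, fun _ => rfl, fun _ => rfl⟩
  · intro a ha h
    have h1 := lcx_spec W hk hπ0 hπ a
    rw [h, map_zero, sub_zero] at h1
    rcases h1 with h1 | h1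
    · exact mul_ne_zero (hcoe ha) (pow_ne_zero _ hπ0) h1
    · rw [v_norm W hk hπ0 hπ ha] at h1
      exact lt_irrefl _ h1
  · intro a b
    by_cases ha : a = 0
    · rw [ha, zero_mul, hlc0, zero_mul]
    by_cases hb : b = 0
    · rw [hb, mul_zero, hlc0, mul_zero]
    apply lcx_eq
    have h1 : ((a * b : Oc p K) : K) * π ^ dx W hk (a * b) =
        ((a : K) * π ^ dx W hk a) * ((b : K) * π ^ dx W hk b) := by
      rw [hmul a b ha hb, pow_add]
      change ((a : K) * (b : K)) * _ = _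
      ring
    rw [h1, map_mul]
    exact WInf.res_mul (norm_inA W hk hπ0 hπ a) (WInf.inA_cst (jx_cst hk _))
      (lcx_spec W hk hπ0 hπ a) (lcx_spec W hk hπ0 hπ b)
  · intro c
    apply lcx_eq
    rw [hda, pow_zero, mul_one, ← jx_coe, sub_self]
    exact WInf.InM.zero
  · intro a b ha hb hab
    have h1 := dx_coe W hk ha
    have h2 := dx_coe W hk hb
    have h3 : W.v (a : K) < W.v (b : K) := by omega
    obtain ⟨h4, h5⟩ := WInf.v_add_of_lt (hcoe ha) (hcoe hb) h3
    have h6 : a + b ≠ 0 := fun h => h4 (congrArg Subtype.val h)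
    have h7 : dx W hk (a + b) = dx W hk b := by
      have h8 := dx_coe W hk h6
      have h9 : ((a + b : Oc p K) : K) = (a : K) + (b : K) := rfl
      rw [h9, h5] at h8
      omega
    refine ⟨h7, ?_⟩
    apply lcx_eq
    rw [h7]
    have h9 : ((a + b : Oc p K) : K) * π ^ dx W hk b - jx p K k (lcx W hk hπ0 hπ b) =
        (a : K) * π ^ dx W hk b + ((b : K) * π ^ dx W hk b - jx p K k (lcx W hk hπ0 hπ b)) := by
      change ((a : K) + (b : K)) * _ - _ = _
      ring
    rw [h9]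
    refine WInf.InM.add (Or.inr ?_) (lcx_spec W hk hπ0 hπ b)
    rw [W.v_mul _ _ (hcoe ha) (pow_ne_zero _ hπ0), W.v_pow hπ0, hπ]
    omega
  · intro a b ha hb hab hd hl
    have h1 := dx_coe W hk ha
    have h4 : a - b ≠ 0 := sub_ne_zero.2 hab
    have h2 := dx_coe W hk h4
    have h5 : W.InM (((a - b : Oc p K) : K) * π ^ dx W hk a) := by
      have h6 : ((a - b : Oc p K) : K) * π ^ dx W hk a =
          ((a : K) * π ^ dx W hk a - jx p K k (lcx W hk hπ0 hπ a)) -
            ((b : K) * π ^ dx W hk b - jx p K k (lcx W hk hπ0 hπ b)) := by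
        rw [hl, ← hd]
        change ((a : K) - (b : K)) * _ = _
        ring
      rw [h6]
      exact (lcx_spec W hk hπ0 hπ a).sub (lcx_spec W hk hπ0 hπ b)
    rcases h5 with h5 | h5
    · exact absurd h5 (mul_ne_zero (hcoe h4) (pow_ne_zero _ hπ0))
    · rw [W.v_mul _ _ (hcoe h4) (pow_ne_zero _ hπ0), W.v_pow hπ0, hπ] at h5
      omega
  · obtain ⟨c, hc⟩ := hgr
    refine ⟨c, fun n => (hc n).trans (le_of_eq ?_)⟩
    congr 1
    apply Nat.card_congr
    refine Equiv.subtypeEquivRight fun a => ?_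
    by_cases ha : a = 0
    · simp [ha]
    · rw [dx, if_neg ha]

end build

/-- the data at infinity -/
theorem exists_infdata [FiniteDimensional (Fx p) K] [IsGalois (Fx p) K] (hNI : NI p K) (m : ℕ)
    (hm : m.Coprime p) (ζ : K) (hζ : IsPrimitiveRoot ζ m) (hgeo : Geo p K ζ)
    (hpg : ∀ σ : Gl p K, σ ζ = ζ → ∃ n : ℕ, σ ^ p ^ n = 1) :
    ∃ (k : Type) (_ : Field k) (_ : Finite k) (_ : Algebra k (Oc p K)),
      Nonempty (InfData p K ζ k) ∧
      ∀ c : K, (∃ n : ℕ, 0 < n ∧ c ^ p ^ n = c) ↔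
        ∃ c' : k, ((algebraMap k (Oc p K) c' : Oc p K) : K) = c := by
  have hCh : CharP K p := charP_of p K
  obtain ⟨W⟩ := exists_winf p K hNI m hm ζ hζ hgeo hpg
  obtain ⟨k, iF, iFin, iA, hk, hcard⟩ := exists_const p K W
  obtain ⟨π, hπ0, hπ⟩ := W.v_unif
  obtain ⟨X, hXd, hXlc⟩ := exists_oneInf W hk hπ0 hπ
    (inf_growth p K W (Nat.card k) hcard Finite.one_lt_card)
  refine ⟨k, iF, iFin, iA, ?_, hk⟩
  have hj : Function.Injective (jx p K k) := (jx p K k).injective
  -- the root of unity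
  obtain ⟨z, hz⟩ := (hk ζ).1 (isCst_root p K m hm ζ hζ.pow_eq_one)
  -- the action on the constants
  have hex : ∀ (σ : Gl p K) (c : k), ∃ c' : k, jx p K k c' = σ (jx p K k c) := fun σ c =>
    (hk _).1 ((jx_cst hk c).map (σ : K →+* K))
  choose f hf using hex
  obtain ⟨F, hF⟩ : ∃ F : Gl p K → (k →+* k), ∀ σ c, F σ c = f σ c :=
    ⟨fun σ =>
      { toFun := f σ
        map_one' := hj (by rw [hf, map_one, map_one])
        map_mul' := fun a b => hj (by rw [hf, map_mul, map_mul, map_mul, hf, hf])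
        map_zero' := hj (by rw [hf, map_zero, map_zero])
        map_add' := fun a b => hj (by rw [hf, map_add, map_add, map_add, hf, hf]) },
      fun σ c => rfl⟩
  obtain ⟨sg, hsg0⟩ : ∃ sg : Gl p K → (k ≃+* k), ∀ σ c, sg σ c = F σ c :=
    ⟨fun σ => RingEquiv.ofBijective (F σ)
      (Finite.injective_iff_bijective.1 (F σ).injective), fun σ c => rfl⟩
  have hsgj : ∀ σ c, jx p K k (sg σ c) = σ (jx p K k c) := fun σ c => by
    rw [hsg0, hF, hf]
  have hdσ : ∀ (σ : Gl p K) (a : Oc p K), X.d (act p K σ a) = X.d a := by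
    intro σ a
    rw [hXd, hXd]
    by_cases ha : a = 0
    · rw [ha, map_zero]
    · have ha' : act p K σ a ≠ 0 := fun h => ha (by
        rw [← map_zero (act p K σ)] at h
        exact (act p K σ).injective h)
      have h1 := dx_coe W hk ha
      have h2 := dx_coe W hk ha'
      rw [act_coe, W.v_gl] at h2
      omega
  refine ⟨{ X := X, z := z, hz := hz, sg := sg, hsg := ?_, hd := hdσ, hlc := ?_ }⟩
  · intro σ c
    apply Subtype.ext
    rw [act_coe]
    exact (hsgj σ c).symm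
  · intro σ
    have hσπ : σ π ≠ 0 := fun h => hπ0 (by
      rw [← map_zero σ] at h
      exact σ.injective h)
    have hθA : W.InA (π / σ π) := Or.inr (by
      rw [W.v_div hπ0 hσπ, W.v_gl, sub_self])
    obtain ⟨θ, hθ⟩ := exists_rk W hk hθA
    refine ⟨θ, fun a => ?_⟩
    rw [hXlc, hXlc, hXd]
    apply lcx_eq
    have hdd : dx W hk (act p K σ a) = dx W hk a := by
      have := hdσ σ a
      rwa [hXd, hXd] at this
    rw [hdd, act_coe, map_mul, map_pow, hsgj]
    have h1 : σ (a : K) * π ^ dx W hk a =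
        σ ((a : K) * π ^ dx W hk a) * (π / σ π) ^ dx W hk a := by
      rw [map_mul, map_pow, div_pow]
      field_simp
    rw [h1]
    have h2 := WInf.res_pow hθA (WInf.inA_cst (jx_cst hk θ)) hθ (dx W hk a)
    refine WInf.res_mul ?_ h2.2.2 ?_ h2.1
    · rcases norm_inA W hk hπ0 hπ a with h3 | h3
      · exact Or.inl (by rw [h3, map_zero])
      · exact Or.inr (by rw [W.v_gl]; exact h3)
    · rw [← map_sub]
      exact (lcx_spec W hk hπ0 hπ a).gl σ

end Pool.Agent.AB
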