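import Pool.Agent.Lib.MP_5de024_nt.KdOf
import Pool.Agent.Lib.MP_5de024_nt.C.KDefs
import Pool.Agent.Lib.MP_5de024_nt.C.Eta2
import Pool.Agent.Lib.MP_5de024_nt.C.Bc3

/-!
# From `PCg` to `KD2` (piece Kd2)
-/

set_option autoImplicit false
set_option linter.unusedSectionVars false

namespace Pool.Agent.AB

/-- the order of the group of the field is prime to `l` -/
private theorem kd2_card (p : ℕ) [Fact p.Prime] (l : ℕ) (hl : l.Prime) (hlp : l ≠ p) (G : Type)
    [Group G] [Finite G] (hG : IsPGroup p G) (K : Type) [Field K] [Algebra (Fx p) K]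
    (ζ : K) (hζ : IsPrimitiveRoot ζ l) (π : Gl p K →* G)
    (hinj : ∀ σ : Gl p K, π σ = 1 → σ ζ = ζ → σ = 1) : (Nat.card (Gl p K)).Coprime l := by
  have : NeZero l := ⟨hl.ne_zero⟩
  let φ : Gl p K →* G × (ZMod l)ˣ := π.prod (hζ.autToPow (Fx p))
  have hφ : Function.Injective φ := by
    rw [injective_iff_map_eq_one]
    intro σ hσ
    have h1 : π σ = 1 := congrArg Prod.fst hσ
    have h2 : hζ.autToPow (Fx p) σ = 1 := congrArg Prod.snd hσ
    refine hinj σ h1 ?_
    have h3 := hζ.autToPow_spec (Fx p) σ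
    rw [h2, Units.val_one] at h3
    have : Fact (1 < l) := ⟨hl.one_lt⟩
    rw [ZMod.val_one, pow_one] at h3
    exact h3.symm
  have hdvd := Subgroup.card_dvd_of_injective φ hφ
  rw [Nat.card_prod, Nat.card_eq_fintype_card (α := (ZMod l)ˣ), ZMod.card_units_eq_totient,
    Nat.totient_prime hl] at hdvd
  obtain ⟨n, hn⟩ := IsPGroup.iff_card.mp hG
  rw [hn] at hdvd
  refine Nat.Coprime.coprime_dvd_left hdvd (Nat.Coprime.mul_left ?_ ?_)
  · refine Nat.Coprime.pow_left n ?_
    rw [Nat.coprime_primes Fact.out hl]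
    exact fun h => hlp h.symm
  · have h1 := hl.two_le
    refine Nat.Coprime.symm ((Nat.Prime.coprime_iff_not_dvd hl).2 fun h => ?_)
    have := Nat.le_of_dvd (by omega) h
    omega

/-- the data for the duality step -/
theorem kd2_of_pcg (p : ℕ) [Fact p.Prime] (l : ℕ) (hl : l.Prime) (hlp : l ≠ p) (G : Type)
    [Group G] [Finite G] (hG : IsPGroup p G) (h : PCg p l G 1) : KD2 p l G := by
  obtain ⟨K, _, _, _, _, ζ, π, q, γ, hfd, hgal, hNI, hζ, hq, hπγ, hinj, hst, hpow, hgeo⟩ := h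
  have hm0 := hl.pos
  have hco := kd2_card p l hl hlp G hG K ζ hζ π hinj
  obtain ⟨η, hη0, ⟨n, a, b, hab, hab2⟩, hind⟩ := exists_eta2 p K hNI q γ hq l hm0 hco
  obtain ⟨K', _, _, _, _, ι, β, hfd', hgal', hNI', hιx, hint, hβ, hdesc, hcon⟩ :=
    bc_const p K hNI l hl hlp ζ hζ
  have hfix : ∀ σ : Gl p K, β σ (ι ζ) = ι ζ → σ ζ = ζ := fun σ hσ => by
    rw [hβ] at hσ
    exact ι.injective hσ
  refine ⟨K', inferInstance, inferInstance, inferInstance, inferInstance, ι ζ, ι η,
    π.comp β.symm.toMonoidHom, β γ, hfd', hgal', hNI', hζ.map_of_injective ι.injective,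
    ?_, ?_, ?_, ?_, ?_, ?_, ?_, ?_, ?_⟩
  · simp [hπγ]
  · intro σ' h1 h2
    obtain ⟨σ, rfl⟩ := β.surjective σ'
    have h3 : π σ = 1 := by simpa using h1
    rw [hinj σ h3 (hfix σ h2), map_one]
  · intro g
    obtain ⟨σ, h1, h2⟩ := hst g
    refine ⟨β σ, by simp [h1], ?_⟩
    rw [hβ, h2]
  · intro σ'
    obtain ⟨σ, rfl⟩ := β.surjective σ'
    obtain ⟨i, hi⟩ := hpow σ
    refine ⟨i, ?_⟩
    rw [hβ, hi, map_pow]
  · intro z hz σ' hσ'
    obtain ⟨σ, rfl⟩ := β.surjective σ'
    obtain ⟨s, rfl⟩ := hcon z hz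
    obtain ⟨k, hk, hks⟩ := hz
    have h1 : s ^ p ^ k = s := by
      apply ι.injective
      rw [map_pow, hks]
    rw [hβ, hgeo s ⟨k, hk, h1⟩ σ (hfix σ hσ')]
  · rwa [Nat.card_congr β.symm.toEquiv]
  · rwa [Ne, map_eq_zero]
  · intro h' P' hP'
    let om : Oc p K →+* Oc p K' :=
      { toFun := fun s => ⟨ι (s : K), hint _ s.2⟩
        map_one' := Subtype.ext (by simp)
        map_zero' := Subtype.ext (by simp)
        map_mul' := fun s t => Subtype.ext (by simp)
        map_add' := fun s t => Subtype.ext (by simp) }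
    have hom : ∀ s : Oc p K, ((om s : Oc p K') : K') = ι (s : K) := fun s => rfl
    have homx : om (xo p K) = xo p K' ^ l := Subtype.ext (by
      rw [hom, xo_coe, hιx, SubmonoidClass.coe_pow, xo_coe])
    obtain ⟨h1, rfl⟩ := β.surjective h'
    have hP : (P'.comap om).IsPrime := Ideal.IsPrime.comap om
    by_cases hx : xo p K' ∈ P'
    · have hxP : xo p K ∈ P'.comap om := by
        rw [Ideal.mem_comap, homx]
        exact Ideal.pow_mem_of_mem P' hx l hm0
      have hne : h1 η ≠ 0 := by rwa [Ne, map_eq_zero]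
      obtain ⟨k1, a1, b1, ha1, hb1, hab1⟩ := exists_vl p K hNI _ hP hxP (h1 η) hne
      refine ⟨k1, om a1, om b1, ha1, hb1, ?_⟩
      rw [hβ, hom, hom, ← map_mul, hab1, map_mul, map_zpow₀, hιx, zpow_mul, zpow_natCast]
    · have hxm : ∀ j : ℕ, xo p K' ^ j ∉ P' := fun j hj => hx (hP'.mem_of_pow_mem j hj)
      refine ⟨0, om (act p K h1 a), om (xo p K ^ n), ?_, ?_, ?_⟩
      · intro hmem
        have h2 : om (act p K h1 a) * om (act p K h1 b) ∈ P' := P'.mul_mem_right _ hmem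
        rw [← map_mul, ← map_mul, hab2, map_pow, act_xo, map_pow, homx, ← pow_mul] at h2
        exact hxm _ h2
      · rw [map_pow, homx, ← pow_mul]
        exact hxm _
      · rw [hβ, hom, hom, act_coe, ← hab, mul_zero, zpow_zero, one_mul, ← map_mul, map_mul h1,
          SubmonoidClass.coe_pow, map_pow h1, xo_coe, gl_xk]
  · intro e c z hc hc0 hz
    obtain ⟨c0, rfl⟩ := hcon c hc
    obtain ⟨k, hk, hks⟩ := hc
    have hc1 : c0 ^ p ^ k = c0 := by
      apply ι.injective
      rw [map_pow, hks]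
    have hc00 : c0 ≠ 0 := by
      rintro rfl
      exact hc0 (map_zero ι)
    have hpk : 2 ≤ p ^ k := by
      calc 2 ≤ p := (Fact.out : p.Prime).two_le
        _ = p ^ 1 := (pow_one p).symm
        _ ≤ p ^ k := Nat.pow_le_pow_right (Fact.out : p.Prime).pos hk
    have hc2 : c0 ^ (p ^ k - 1) = 1 := by
      have h1 : c0 ^ (p ^ k - 1) * c0 = c0 := by
        rw [← pow_succ, Nat.sub_add_cancel (by omega), hc1]
      exact mul_right_cancel₀ hc00 (by rw [h1, one_mul])
    let c' : Oc p K := rou p K (p ^ k - 1) (by omega) c0 hc2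
    have hcu : IsUnit c' := by
      have h1 : c' ^ (p ^ k - 1) = 1 := Subtype.ext (by
        show (c0 : K) ^ (p ^ k - 1) = 1
        exact hc2)
      exact IsUnit.of_pow_eq_one h1 (by omega)
    have h2 : ι ((∏ h : Gl p K, (h η) ^ e (β h)) * c0⁻¹) = z ^ l := by
      rw [map_mul, map_inv₀, mul_inv_eq_iff_eq_mul₀ hc0, mul_comm, ← hz,
        finprod_eq_prod_of_fintype, map_prod]
      refine Fintype.prod_equiv β.toEquiv _ _ fun h => ?_
      rw [map_zpow₀, ← hβ]
      rfl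
    obtain ⟨j, w, hw⟩ := hdesc _ z h2
    rw [mul_inv_eq_iff_eq_mul₀ hc00] at hw
    obtain ⟨c1, hc3⟩ := hind (fun h => e (β h)) j c' w hcu (by
      rw [hw]
      show xk p K ^ j * w ^ l * c0 = xk p K ^ j * c0 * w ^ l
      ring)
    refine ⟨c1, fun h0 => ?_⟩
    obtain ⟨h1, rfl⟩ := β.surjective h0
    have h3 := hc3 h1
    have h4 : orderOf (β γ) = orderOf γ := orderOf_injective β.toMonoidHom β.injective γ
    rw [h4]
    simpa only [map_mul, map_pow] using h3

end Pool.Agent.AB
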