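import Pool.Agent.Lib.MP_5de024_nt.Kum1
import Pool.Agent.Lib.MP_5de024_nt.C.KDefs

/-!
# The Kummer extension of a family (piece Km1)
-/

set_option autoImplicit false
set_option linter.unusedSectionVars false

namespace Pool.Agent.AB

section km1field

open Polynomial

/-- The field generated by `m`-th roots of a family which is stable modulo `m`-th powers. -/
theorem km1_field (F K : Type) [Field F] [Field K] [Algebra F K] [FiniteDimensional F K]
    [IsGalois F K] (m : ℕ) (hm0 : 0 < m) (hm : (m : K) ≠ 0) (ζ : K) (hζ : IsPrimitiveRoot ζ m)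
    (X0 : Type) [Finite X0] (u : X0 → K) (hu : ∀ χ, u χ ≠ 0)
    (hst : ∀ (σ : K ≃ₐ[F] K) (χ : X0), ∃ (χ' : X0) (w : K), w ≠ 0 ∧
      σ (u χ) = u χ' * w ^ m) :
    ∃ (L : Type) (_ : Field L) (_ : Algebra F L) (_ : Algebra K L) (_ : IsScalarTower F K L)
      (y : X0 → L), FiniteDimensional F L ∧ IsGalois F L ∧
      (∀ χ, y χ ^ m = algebraMap K L (u χ)) ∧ Algebra.adjoin K (Set.range y) = ⊤ := by
  classical
  have := Fintype.ofFinite (K ≃ₐ[F] K)
  have := Fintype.ofFinite X0
  choose f1 hf1 using fun χ : X0 => kum1_lift F K m (u χ)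
  obtain ⟨f, hfd⟩ : ∃ f : F[X], f = ∏ χ, f1 χ := ⟨_, rfl⟩
  obtain ⟨g, hg⟩ : ∃ g : K[X], g = ∏ χ : X0, ∏ h : K ≃ₐ[F] K, (X ^ m - C (h (u χ)) : K[X]) :=
    ⟨_, rfl⟩
  have hf : f.map (algebraMap F K) = g := by
    rw [hfd, hg, Polynomial.map_prod]
    exact Finset.prod_congr rfl fun χ _ => hf1 χ
  have hX : ∀ c : K, (X ^ m - C c : K[X]) ≠ 0 := fun c => (monic_X_pow_sub_C c hm0.ne').ne_zero
  have hg0 : g ≠ 0 := by
    rw [hg, Finset.prod_ne_zero_iff]
    intro χ _
    rw [Finset.prod_ne_zero_iff]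
    exact fun h _ => hX _
  have hf0 : f ≠ 0 := by
    rintro rfl
    rw [Polynomial.map_zero] at hf
    exact hg0 hf.symm
  obtain ⟨L, i1, i2, i3, i4, hsp⟩ : ∃ (L : Type) (_ : Field L) (_ : Algebra F L)
      (_ : Algebra K L) (_ : IsScalarTower F K L), IsSplittingField K L g :=
    ⟨g.SplittingField, inferInstance, inferInstance, inferInstance, inferInstance, inferInstance⟩
  have hfd : FiniteDimensional K L := IsSplittingField.finiteDimensional L g
  have hmL : (m : L) ≠ 0 := by
    rw [← map_natCast (algebraMap K L)]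
    exact (_root_.map_ne_zero _).2 hm
  -- roots of `g`
  have hroot : ∀ α ∈ g.rootSet L, ∃ (χ : X0) (w : K), w ≠ 0 ∧
      α ^ m = algebraMap K L (u χ * w ^ m) := by
    intro α hα
    rw [mem_rootSet, hg, map_prod, Finset.prod_eq_zero_iff] at hα
    obtain ⟨-, χ, -, h1⟩ := hα
    rw [map_prod, Finset.prod_eq_zero_iff] at h1
    obtain ⟨h, -, h1⟩ := h1
    obtain ⟨χ', w, hw, h2⟩ := hst h χ
    refine ⟨χ', w, hw, ?_⟩
    rw [← h2]
    rwa [map_sub, map_pow, aeval_X, aeval_C, sub_eq_zero] at h1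
  have hy : ∀ χ : X0, ∃ y : L, y ^ m = algebraMap K L (u χ) := by
    intro χ
    have h1 : ((X ^ m - C (u χ) : K[X]).map (algebraMap K L)).Splits := by
      refine (IsSplittingField.splits L g).of_dvd ?_ ?_
      · exact (Polynomial.map_ne_zero_iff (algebraMap K L).injective).2 hg0
      · refine Polynomial.map_dvd _ ?_
        rw [hg]
        refine dvd_trans ?_ (Finset.dvd_prod_of_mem _ (Finset.mem_univ χ))
        have h2 := Finset.dvd_prod_of_mem (fun h : K ≃ₐ[F] K => (X ^ m - C (h (u χ)) : K[X]))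
          (Finset.mem_univ 1)
        exact h2
    obtain ⟨y, hy⟩ := h1.exists_eval_eq_zero (by
      rw [degree_map, degree_X_pow_sub_C hm0]
      exact_mod_cast hm0.ne')
    refine ⟨y, ?_⟩
    rw [Polynomial.map_sub, Polynomial.map_pow, map_X, map_C, eval_sub, eval_pow, eval_X, eval_C,
      sub_eq_zero] at hy
    exact hy
  choose y hy using hy
  have hgen : Algebra.adjoin K (Set.range y) = ⊤ := by
    rw [eq_top_iff, ← IsSplittingField.adjoin_rootSet L g, Algebra.adjoin_le_iff]
    intro α hα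
    obtain ⟨χ, w, hw, h1⟩ := hroot α hα
    have hy0 : y χ ≠ 0 := by
      intro h2
      have h3 := hy χ
      rw [h2, zero_pow hm0.ne', eq_comm, map_eq_zero] at h3
      exact hu χ h3
    have hw0 : algebraMap K L w ≠ 0 := (_root_.map_ne_zero _).2 hw
    have : NeZero m := ⟨hm0.ne'⟩
    obtain ⟨i, -, hi⟩ := (hζ.map_of_injective (algebraMap K L).injective).eq_pow_of_pow_eq_one
      (ξ := α / (y χ * algebraMap K L w)) (by
        rw [div_pow, h1, mul_pow, hy, map_mul, map_pow, div_self]
        rw [← hy]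
        exact mul_ne_zero (pow_ne_zero _ hy0) (pow_ne_zero _ hw0))
    have h2 : α = algebraMap K L (ζ ^ i * w) * y χ := by
      rw [map_mul, map_pow, hi]
      field_simp
    rw [h2]
    exact Subalgebra.mul_mem _ (Subalgebra.algebraMap_mem _ _)
      (Algebra.subset_adjoin ⟨χ, rfl⟩)
  have hsepK : Algebra.IsSeparable K L := by
    have h1 : ∀ α ∈ Set.range y, IsSeparable K α := by
      rintro _ ⟨χ, rfl⟩
      have h2 : (X ^ m - C (u χ) : K[X]).Separable :=
        separable_X_pow_sub_C (u χ) hm (hu χ)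
      refine h2.of_dvd (minpoly.dvd K _ ?_)
      rw [map_sub, map_pow, aeval_X, aeval_C, sub_eq_zero]
      exact hy χ
    have h2 := (IntermediateField.isSeparable_adjoin_iff_isSeparable K L).2 h1
    have h3 : IntermediateField.adjoin K (Set.range y) = ⊤ := by
      rw [← IntermediateField.toSubalgebra_inj,
        IntermediateField.adjoin_toSubalgebra_of_isAlgebraic
          (fun x _ => Algebra.IsAlgebraic.isAlgebraic x), hgen]
      rfl
    rw [h3] at h2
    exact Algebra.IsSeparable.of_algHom K (⊤ : IntermediateField K L)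
      (IntermediateField.topEquiv (F := K) (E := L)).symm.toAlgHom
  obtain ⟨q, hqs, hq⟩ := IsGalois.is_separable_splitting_field F K
  have hq0 : q ≠ 0 := hqs.ne_zero
  have hLs : IsSplittingField F L (q * f) := by
    have h1 : IsSplittingField K L (f.map (algebraMap F K)) := by
      rw [hf]
      exact hsp
    exact IsSplittingField.mul (K := K) L q f hq0 hf0
  have hsep : Algebra.IsSeparable F L := Algebra.IsSeparable.trans F K L
  have hnor : Normal F L := Normal.of_isSplittingField (q * f)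
  exact ⟨L, i1, i2, i3, i4, y, FiniteDimensional.trans F K L, ⟨⟩, hy, hgen⟩

end km1field

/-- the Kummer extension of a family of elements which is stable modulo `l`-th powers and
locally consists of `l`-th powers times units -/
theorem kum_fam (p : ℕ) [Fact p.Prime] (K : Type) [Field K] [Algebra (Fx p) K]
    [Algebra (Rx p) K] [IsScalarTower (Rx p) (Fx p) K] [FiniteDimensional (Fx p) K]
    [IsGalois (Fx p) K] (hNI : NI p K) (l : ℕ) (hl : l.Coprime p) (ζ : K)
    (hζ : IsPrimitiveRoot ζ l) (X : Type) [Finite X] (u : X → K) (hu : ∀ χ, u χ ≠ 0)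
    (hst : ∀ (σ : Gl p K) (χ : X), ∃ (χ' : X) (w : K), w ≠ 0 ∧ σ (u χ) = u χ' * w ^ l)
    (hloc : ∀ (χ : X) (P : Ideal (Oc p K)), P.IsPrime →
      ∃ (w : K) (a b : Oc p K), a ∉ P ∧ b ∉ P ∧ u χ * (b : K) = w ^ l * (a : K)) :
    ∃ (L : Type) (_ : Field L) (_ : Algebra (Fx p) L) (_ : Algebra (Rx p) L)
      (_ : IsScalarTower (Rx p) (Fx p) L) (ι : K →ₐ[Fx p] L) (y : X → L),
      FiniteDimensional (Fx p) L ∧ IsGalois (Fx p) L ∧ NI p L ∧
      (∀ χ : X, y χ ^ l = ι (u χ)) ∧
      (∀ τ : Gl p L, (∀ s : K, τ (ι s) = ι s) → (∀ χ : X, τ (y χ) = y χ) → τ = 1) := by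
  have hm0 : 0 < l := by
    rcases Nat.eq_zero_or_pos l with h | h
    · rw [h, Nat.coprime_zero_left] at hl
      exact absurd hl (Fact.out : p.Prime).one_lt.ne'
    · exact h
  obtain ⟨L, i1, i2, i3, i4, y, hfd, hgal, hy, hgen⟩ := km1_field (Fx p) K l hm0
    (natCast_isUnit p l hl K).ne_zero ζ hζ X u hu hst
  let i5 : Algebra (Rx p) L := ((algebraMap (Fx p) L).comp (algebraMap (Rx p) (Fx p))).toAlgebra
  have i6 : IsScalarTower (Rx p) (Fx p) L := IsScalarTower.of_algebraMap_eq' rfl
  have hfix : ∀ τ : Gl p L, (∀ s : K, τ (algebraMap K L s) = algebraMap K L s) →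
      (∀ χ : X, τ (y χ) = y χ) → τ = 1 := by
    intro τ h1 h2
    have h3 : ∀ z ∈ Algebra.adjoin K (Set.range y), τ z = z := by
      intro z hz
      induction hz using Algebra.adjoin_induction with
      | mem z hz =>
        obtain ⟨h, rfl⟩ := hz
        exact h2 h
      | algebraMap s => exact h1 s
      | add a b _ _ ha hb => rw [map_add, ha, hb]
      | mul a b _ _ ha hb => rw [map_mul, ha, hb]
    refine AlgEquiv.ext fun z => ?_
    rw [AlgEquiv.one_apply]
    exact h3 z (by rw [hgen]; trivial)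
  refine ⟨L, i1, i2, i5, i6, IsScalarTower.toAlgHom (Fx p) K L, y, hfd, hgal, ?_, hy, hfix⟩
  intro t ht P hP
  by_cases hres : t.restrictNormal K = 1
  · -- `t` fixes `K`
    have hK : ∀ s : K, t (algebraMap K L s) = algebraMap K L s := by
      intro s
      rw [← AlgEquiv.restrictNormal_commutes, hres, AlgEquiv.one_apply]
    obtain ⟨χ, hh⟩ : ∃ χ : X, t (y χ) ≠ y χ := by
      by_contra hcon
      push Not at hcon
      exact ht (hfix t hK hcon)
    have hηh : (algebraMap K L) (u χ) ≠ 0 := (map_ne_zero _).2 (hu χ)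
    have hy0 : y χ ≠ 0 := by
      intro h2
      rw [← hy χ, h2, zero_pow hm0.ne'] at hηh
      exact hηh rfl
    have hxm : (t (y χ) / y χ) ^ l = 1 := by
      rw [div_pow, ← map_pow, hy, hK, div_self hηh]
    obtain ⟨ξ, hξ⟩ : ∃ ξ : Oc p L, (ξ : L) = t (y χ) / y χ :=
      ⟨⟨t (y χ) / y χ, IsIntegral.of_pow hm0 (by rw [hxm]; exact isIntegral_one)⟩, rfl⟩
    have hξm : ξ ^ l = 1 := by
      apply Subtype.ext
      rw [SubmonoidClass.coe_pow, hξ, hxm]
      rfl
    have hξ1 : ξ ≠ 1 := by
      rintro rfl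
      apply hh
      have h1 : (1 : L) = t (y χ) / y χ := hξ
      rw [eq_div_iff hy0, one_mul] at h1
      exact h1.symm
    have hun : IsUnit (1 - ξ) := isUnit_one_sub l (natCast_isUnit p l hl (Oc p L)) ξ hξm hξ1
    have hP0 : (P.comap (omap p K L (IsScalarTower.toAlgHom (Fx p) K L))).IsPrime :=
      Ideal.comap_isPrime _ _
    obtain ⟨w0, a, b, ha, hb, hab⟩ := hloc χ _ hP0
    rw [Ideal.mem_comap] at ha hb
    have hb0 : (b : K) ≠ 0 := by
      intro h1
      apply hb
      have h2 : b = 0 := Subtype.ext h1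
      rw [h2, map_zero]
      exact P.zero_mem
    have hw0 : w0 ≠ 0 := by
      rintro rfl
      rw [zero_pow hm0.ne', zero_mul] at hab
      exact mul_ne_zero (hu χ) hb0 hab
    have hx0 : algebraMap K L w0 ≠ 0 := (map_ne_zero _).2 hw0
    have hcm : (y χ * algebraMap K L b / algebraMap K L w0) ^ l =
        algebraMap K L a * (algebraMap K L b) ^ (l - 1) := by
      have h1 := congrArg (algebraMap K L) hab
      rw [map_mul, map_mul, map_pow] at h1
      have h2 : (algebraMap K L b) ^ l = algebraMap K L b * (algebraMap K L b) ^ (l - 1) := by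
        rw [← pow_succ']
        congr 1
        omega
      rw [div_pow, mul_pow, hy, h2, ← mul_assoc, h1]
      have h3 : (algebraMap K L w0) ^ l ≠ 0 := pow_ne_zero _ hx0
      field_simp
    obtain ⟨w, hw⟩ : ∃ w : Oc p L, w = omap p K L (IsScalarTower.toAlgHom (Fx p) K L) a *
        omap p K L (IsScalarTower.toAlgHom (Fx p) K L) b ^ (l - 1) := ⟨_, rfl⟩
    have hwL : (w : L) = algebraMap K L a * (algebraMap K L b) ^ (l - 1) := by
      rw [hw]
      rfl
    have hwP : w ∉ P := by
      rw [hw]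
      intro h1
      rcases hP.isPrime.mem_or_mem h1 with h2 | h2
      · exact ha h2
      · exact hb (hP.isPrime.mem_of_pow_mem _ h2)
    obtain ⟨c, hc⟩ : ∃ c : Oc p L, (c : L) =
        y χ * algebraMap K L b / algebraMap K L w0 := by
      refine ⟨⟨_, IsIntegral.of_pow hm0 ?_⟩, rfl⟩
      rw [hcm, ← hwL]
      exact w.2
    have hcw : c ^ l = w := by
      apply Subtype.ext
      rw [SubmonoidClass.coe_pow, hc, hcm, hwL]
    have hcP : c ∉ P := by
      intro h1
      apply hwP
      rw [← hcw]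
      exact Ideal.pow_mem_of_mem _ h1 _ hm0
    refine ⟨c, fun h1 => ?_⟩
    have h2 : act p L t c - c = -(1 - ξ) * c := by
      apply Subtype.ext
      have e1 : t (c : L) = (ξ : L) * (c : L) := by
        rw [hc, hξ, map_div₀, map_mul, hK, hK]
        field_simp
      have e2 : ((act p L t c - c : Oc p L) : L) = t (c : L) - c := rfl
      have e3 : ((-(1 - ξ) * c : Oc p L) : L) = -(1 - (ξ : L)) * (c : L) := rfl
      rw [e2, e3, e1]
      ring
    rw [h2] at h1
    rcases hP.isPrime.mem_or_mem h1 with h3 | h3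
    · exact hP.ne_top (Ideal.eq_top_of_isUnit_mem _ h3 hun.neg)
    · exact hcP h3
  · obtain ⟨n, a, b, h1, h2⟩ := gs_of_ni p K hNI
    by_contra hcon
    push Not at hcon
    have h3 := h2 _ hres
    have h4 : ∑ i, omap p K L (IsScalarTower.toAlgHom (Fx p) K L) (a i) *
        (act p L t (omap p K L (IsScalarTower.toAlgHom (Fx p) K L) (b i)) -
          omap p K L (IsScalarTower.toAlgHom (Fx p) K L) (b i)) ∈ P :=
      P.sum_mem fun i _ => P.mul_mem_left _ (hcon _)
    have h5 : ∀ s : Oc p K, act p L t (omap p K L (IsScalarTower.toAlgHom (Fx p) K L) s) =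
        omap p K L (IsScalarTower.toAlgHom (Fx p) K L) (act p K (t.restrictNormal K) s) := by
      intro s
      apply Subtype.ext
      exact (AlgEquiv.restrictNormal_commutes t K (s : K)).symm
    have h6 : ∑ i, omap p K L (IsScalarTower.toAlgHom (Fx p) K L) (a i) *
        (act p L t (omap p K L (IsScalarTower.toAlgHom (Fx p) K L) (b i)) -
          omap p K L (IsScalarTower.toAlgHom (Fx p) K L) (b i)) = -1 := by
      have h7 := congrArg (omap p K L (IsScalarTower.toAlgHom (Fx p) K L)) h3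
      have h8 := congrArg (omap p K L (IsScalarTower.toAlgHom (Fx p) K L)) h1
      rw [map_sum, map_zero] at h7
      rw [map_sum, map_one] at h8
      simp only [h5, mul_sub, Finset.sum_sub_distrib]
      simp only [map_mul] at h7 h8
      rw [h7, h8, zero_sub]
    rw [h6] at h4
    exact (Ideal.ne_top_iff_one P).1 hP.ne_top (P.neg_mem_iff.1 h4)

end Pool.Agent.AB
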