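import Pool.Agent.Lib.MP_5de024_nt.Grp
import Pool.Agent.Lib.MP_5de024_nt.Kum2
import Pool.Agent.Lib.MP_5de024_nt.C.Km1
import Pool.Agent.Lib.MP_5de024_nt.C.ChD

/-!
# From the radicals to the semidirect product (piece Km2)
-/

set_option autoImplicit false
set_option linter.unusedSectionVars false

namespace Pool.Agent.AB

/-- restriction of automorphisms to a Galois subfield -/
theorem km2_rho (F K L : Type) [Field F] [Field K] [Field L] [Algebra F K] [Algebra F L]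
    [FiniteDimensional F K] [IsGalois F K] [FiniteDimensional F L] [IsGalois F L]
    (ι : K →ₐ[F] L) :
    ∃ ρ : (L ≃ₐ[F] L) →* (K ≃ₐ[F] K), (∀ (τ : L ≃ₐ[F] L) (s : K), τ (ι s) = ι (ρ τ s)) ∧
      Function.Surjective ρ ∧
      ∀ z : L, (∀ τ : L ≃ₐ[F] L, ρ τ = 1 → τ z = z) → ∃ w : K, z = ι w := by
  let _ : Algebra K L := ι.toRingHom.toAlgebra
  have : IsScalarTower F K L := IsScalarTower.of_algebraMap_eq fun r => (ι.commutes r).symm
  have hρ1 : ∀ (τ : L ≃ₐ[F] L) (s : K), τ (ι s) = ι (AlgEquiv.restrictNormalHom K τ s) := by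
    intro τ s
    exact (AlgEquiv.restrictNormal_commutes τ K s).symm
  refine ⟨AlgEquiv.restrictNormalHom K, hρ1, AlgEquiv.restrictNormalHom_surjective L, ?_⟩
  intro z hz
  have : IsGalois K L := IsGalois.tower_top_of_isGalois F K L
  have : FiniteDimensional K L := FiniteDimensional.right F K L
  have h1 : z ∈ Set.range (algebraMap K L) := by
    rw [IsGalois.mem_range_algebraMap_iff_fixed]
    intro g
    refine hz (g.restrictScalars F) ?_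
    refine AlgEquiv.ext fun s => ?_
    apply ι.toRingHom.injective
    have h2 := hρ1 (g.restrictScalars F) s
    have h3 : (g.restrictScalars F) (ι s) = ι s := g.commutes s
    exact h2.symm.trans h3
  obtain ⟨w, hw⟩ := h1
  exact ⟨w, hw.symm⟩

/-- from the radicals to the semidirect product -/
theorem rni_of_rads (p : ℕ) [Fact p.Prime] (K : Type) [Field K] [Algebra (Fx p) K]
    [Algebra (Rx p) K] [IsScalarTower (Rx p) (Fx p) K] [FiniteDimensional (Fx p) K]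
    [IsGalois (Fx p) K] (hNI : NI p K) (l : ℕ) (hl : l.Prime) (hlp : l ≠ p) (ζ : K)
    (hζ : IsPrimitiveRoot ζ l) (hco : (Nat.card (Gl p K)).Coprime l) (G V : Type) [Group G]
    [CommGroup V] [Finite V] (φ : G →* MulAut V) (hexp : ∀ n : V, n ^ l = 1)
    (π : Gl p K →* G) (hπ : Function.Surjective π) (u : (V →* Kˣ) → K) (hu : ∀ χ, u χ ≠ 0)
    (hmul : ∀ χ χ', ∃ w : K, w ≠ 0 ∧ u (χ * χ') = u χ * u χ' * w ^ l)
    (hgal : ∀ (σ : Gl p K) (χ χ' : V →* Kˣ),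
      (∀ n, ((χ' (φ (π σ) n) : Kˣ) : K) = σ ((χ n : Kˣ) : K)) →
      ∃ w : K, w ≠ 0 ∧ σ (u χ) = u χ' * w ^ l)
    (hinj : ∀ (χ : V →* Kˣ) (w : K), u χ = w ^ l → χ = 1)
    (hloc : ∀ (χ : V →* Kˣ) (P : Ideal (Oc p K)), P.IsPrime →
      ∃ (w : K) (a b : Oc p K), a ∉ P ∧ b ∉ P ∧ u χ * (b : K) = w ^ l * (a : K)) :
    RNI p (V ⋊[φ] G) := by
  obtain ⟨hfin, hW, hf, hsep⟩ := char_dual K V l hl ζ hζ hexp
  have hlcop : l.Coprime p := (Nat.coprime_primes hl Fact.out).2 hlp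
  have hst : ∀ (σ : Gl p K) (χ : V →* Kˣ), ∃ (χ' : V →* Kˣ) (w : K), w ≠ 0 ∧
      σ (u χ) = u χ' * w ^ l := by
    intro σ χ
    refine ⟨(Units.map (σ : K →* K)).comp
      (χ.comp ((φ (π σ))⁻¹ : MulAut V).toMonoidHom), ?_⟩
    refine hgal σ χ _ fun n => ?_
    change σ (((χ (((φ (π σ))⁻¹ : MulAut V) (φ (π σ) n)) : Kˣ) : K)) = σ ((χ n : Kˣ) : K)
    rw [MulAut.inv_apply_self]
  obtain ⟨L, i1, i2, i3, i4, ι, y, hfd, hgalL, hNIL, hy, hgen⟩ :=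
    kum_fam p K hNI l hlcop ζ hζ (V →* Kˣ) u hu hst hloc
  obtain ⟨ρ, hρ1, hρ2, hρ3⟩ := km2_rho (Fx p) K L ι
  have hl0 : NeZero l := ⟨hl.ne_zero⟩
  have hζL : IsPrimitiveRoot (ι ζ) l := hζ.map_of_injective ι.toRingHom.injective
  have hinjι : Function.Injective ι := ι.toRingHom.injective
  have hy0 : ∀ χ, y χ ≠ 0 := by
    intro χ h0
    have h1 := hy χ
    rw [h0, zero_pow hl.ne_zero] at h1
    exact hu χ ((map_eq_zero ι).1 h1.symm)
  have hζ0 : ζ ≠ 0 := hζ.ne_zero hl.ne_zero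
  -- quotients of elements with the same power
  have hquot : ∀ a b : L, b ≠ 0 → a ^ l = b ^ l → ∃ c : ℕ, a = ι (ζ ^ c) * b := by
    intro a b hb hab
    obtain ⟨c, hc⟩ := kum2_quot hζL hb hab
    exact ⟨c.val, by rw [map_pow]; exact hc⟩
  have hfix : ∀ (τ : ρ.ker) (s : K), (τ : Gl p L) (ι s) = ι s := by
    intro τ s
    have h1 : ρ (τ : Gl p L) = 1 := τ.2
    rw [hρ1, h1]
    rfl
  have hcancel : ∀ (χ : V →* Kˣ) (a b : K), ι a * y χ = ι b * y χ → a = b := fun χ a b hab =>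
    hinjι (mul_right_cancel₀ (hy0 χ) hab)
  have hmulL : ∀ χ χ' : V →* Kˣ, ∃ w' : K, y (χ * χ') = ι w' * (y χ * y χ') := by
    intro χ χ'
    obtain ⟨w, hw, h1⟩ := hmul χ χ'
    have hw0 : ι w ≠ 0 := (map_ne_zero ι).2 hw
    obtain ⟨c, hc⟩ := hquot (y (χ * χ')) (y χ * y χ' * ι w)
      (mul_ne_zero (mul_ne_zero (hy0 _) (hy0 _)) hw0) (by
        rw [hy, h1, map_mul, map_mul, map_pow, ← hy, ← hy]
        ring)
    refine ⟨ζ ^ c * w, ?_⟩
    rw [hc, map_mul]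
    ring
  have hΨ0 : ∀ τ : ρ.ker, ∃ n : V, ∀ χ : V →* Kˣ,
      (τ : Gl p L) (y χ) = ι ((χ n : Kˣ) : K) * y χ := by
    intro τ
    have h1 : ∀ χ : V →* Kˣ, ∃ f : Kˣ, (τ : Gl p L) (y χ) = ι (f : K) * y χ ∧ f ^ l = 1 := by
      intro χ
      obtain ⟨c, hc⟩ := hquot ((τ : Gl p L) (y χ)) (y χ) (hy0 χ) (by
        rw [← map_pow, hy, hfix])
      refine ⟨(Units.mk0 ζ hζ0) ^ c, ?_, ?_⟩
      · rw [Units.val_pow_eq_pow_val, Units.val_mk0]
        exact hc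
      · apply Units.ext
        rw [Units.val_pow_eq_pow_val, Units.val_pow_eq_pow_val, Units.val_mk0, ← pow_mul,
          mul_comm, pow_mul, hζ.pow_eq_one, one_pow, Units.val_one]
    choose f hf1 hf2 using h1
    have hfm : ∀ χ χ', f (χ * χ') = f χ * f χ' := by
      intro χ χ'
      apply Units.ext
      rw [Units.val_mul]
      apply hcancel (χ * χ')
      obtain ⟨w', hw'⟩ := hmulL χ χ'
      rw [← hf1, hw', map_mul, map_mul, hfix, hf1, hf1, map_mul]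
      ring
    obtain ⟨n, hn⟩ := hf f hfm hf2
    exact ⟨n, fun χ => by rw [hf1, hn]⟩
  choose Ψ0 hΨ using hΨ0
  obtain ⟨Ψ, hΨ1⟩ : ∃ Ψ : ρ.ker →* V, ∀ τ, Ψ τ = Ψ0 τ := by
    refine ⟨MonoidHom.mk' Ψ0 fun τ τ' => ?_, fun τ => rfl⟩
    apply hsep
    intro χ
    apply Units.ext
    apply hcancel χ
    have h1 : ((τ * τ' : ρ.ker) : Gl p L) (y χ) = (τ : Gl p L) ((τ' : Gl p L) (y χ)) := rfl
    rw [hΨ, hΨ τ' χ, map_mul, hfix, hΨ τ χ] at h1
    rw [h1, map_mul, Units.val_mul, map_mul]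
    ring
  have hΨ' : ∀ (τ : ρ.ker) (χ : V →* Kˣ),
      (τ : Gl p L) (y χ) = ι ((χ (Ψ τ) : Kˣ) : K) * y χ := by
    intro τ χ
    rw [hΨ1]
    exact hΨ τ χ
  have hsurj : Function.Surjective Ψ := by
    rw [← MonoidHom.range_eq_top]
    refine hW _ fun χ hχ => ?_
    obtain ⟨w, hw⟩ := hρ3 (y χ) (by
      intro τ hτ
      have h1 := hΨ' ⟨τ, hτ⟩ χ
      rw [hχ _ ⟨_, rfl⟩, Units.val_one, map_one, one_mul] at h1
      exact h1)
    refine hinj χ w (hinjι ?_)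
    rw [← hy, hw, map_pow]
  have hker : ∀ τ : ρ.ker, Ψ τ = 1 → τ = 1 := by
    intro τ hτ
    apply Subtype.ext
    refine hgen _ (hfix τ) fun χ => ?_
    rw [hΨ', hτ, map_one, Units.val_one, map_one, one_mul]
  have hpow : ∀ τ : ρ.ker, τ ^ l = 1 := by
    intro τ
    apply hker
    rw [map_pow, hexp]
  have hcard : (Nat.card ρ.ker).Coprime (Nat.card (Gl p K)) :=
    card_coprime_of_pow ρ.ker l (Nat.card (Gl p K)) hpow hco
  obtain ⟨Φ, hΦ⟩ := glue (Gl p L) (Gl p K) V G φ ρ hρ2 hcard Ψ hsurj π hπ (by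
    intro s τ τ' hs
    apply hsep
    intro χ
    obtain ⟨χ1, hχ1⟩ : ∃ χ1 : V →* Kˣ, ∀ n,
        ((χ (φ (π (ρ s)) n) : Kˣ) : K) = (ρ s) ((χ1 n : Kˣ) : K) := by
      refine ⟨(Units.map (((ρ s)⁻¹ : Gl p K) : K →* K)).comp
        (χ.comp (φ (π (ρ s))).toMonoidHom), fun n => ?_⟩
      change _ = (ρ s) ((ρ s)⁻¹ (((χ (φ (π (ρ s)) n)) : Kˣ) : K))
      exact (AlgEquiv.apply_symm_apply (ρ s) _).symm
    obtain ⟨w, hw, h1⟩ := hgal (ρ s) χ1 χ hχ1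
    have hw0 : ι w ≠ 0 := (map_ne_zero ι).2 hw
    obtain ⟨c, hc⟩ := hquot (s (y χ1)) (y χ * ι w) (mul_ne_zero (hy0 _) hw0) (by
      rw [← map_pow, hy, hρ1, h1, map_mul, map_pow, ← hy, mul_pow])
    obtain ⟨w1, hw1, hc'⟩ : ∃ w1 : K, w1 ≠ 0 ∧ s (y χ1) = ι w1 * y χ := by
      refine ⟨ζ ^ c * w, mul_ne_zero (pow_ne_zero _ hζ0) hw, ?_⟩
      rw [hc, map_mul]
      ring
    have hne : ι w1 ≠ 0 := (map_ne_zero ι).2 hw1
    have h2 : (τ' : Gl p L) (s (y χ1)) = s ((τ : Gl p L) (y χ1)) := by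
      rw [hs]
      change s ((τ : Gl p L) (s⁻¹ (s (y χ1)))) = _
      rw [show s⁻¹ (s (y χ1)) = y χ1 from AlgEquiv.symm_apply_apply s _]
    rw [hΨ' τ χ1, map_mul s, hρ1, ← hχ1, hc', map_mul, hfix, hΨ'] at h2
    apply Units.ext
    apply hinjι
    apply mul_right_cancel₀ (hy0 χ)
    apply mul_left_cancel₀ hne
    rw [h2]
    ring)
  exact ⟨L, i1, i2, i3, i4, Φ, hfd, hgalL, hNIL, hΦ⟩

end Pool.Agent.AB
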