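import Pool.Agent.Lib.MP_5de024_nt.C.Geo

/-!
# Geometric `p`-covers, induction (piece PcGeo)
-/

set_option autoImplicit false
set_option linter.unusedSectionVars false

namespace Pool.Agent.AB

theorem pcg_cyc (p : ℕ) [Fact p.Prime] (m : ℕ) (hm : m.Coprime p) (G : Type) [Group G]
    [Subsingleton G] (g0 : G) (K : Type) [Field K] [Algebra (Fx p) K] [Algebra (Rx p) K]
    [IsScalarTower (Rx p) (Fx p) K] [NeZero m] [NeZero ((m : ℕ) : Fx p)]
    [IsCyclotomicExtension {m} (Fx p) K] : PCg p m G g0 := by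
  have hfd : FiniteDimensional (Fx p) K := IsCyclotomicExtension.finiteDimensional {m} (Fx p) K
  have hgal : IsGalois (Fx p) K := IsCyclotomicExtension.isGalois {m} (Fx p) K
  have hζ := IsCyclotomicExtension.zeta_spec m (Fx p) K
  obtain ⟨q, hq, hxq⟩ := exists_place p K
  obtain ⟨γ, hγ⟩ := exists_frob p K q hq hxq
  have hinj : ∀ σ : Gl p K, σ (IsCyclotomicExtension.zeta m (Fx p) K) =
      IsCyclotomicExtension.zeta m (Fx p) K → σ = 1 := by
    intro σ hσ
    have h1 : (σ : K →ₐ[Fx p] K) = ((1 : Gl p K) : K →ₐ[Fx p] K) := by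
      apply (hζ.powerBasis (Fx p)).algHom_ext
      rw [IsPrimitiveRoot.powerBasis_gen]
      exact hσ
    exact AlgEquiv.ext fun x => DFunLike.congr_fun h1 x
  exact ⟨K, inferInstance, inferInstance, inferInstance, inferInstance,
    IsCyclotomicExtension.zeta m (Fx p) K, 1, q, γ, hfd, hgal,
    cyc_ni p K m hm _ hζ.pow_eq_one hinj, hζ, hγ, Subsingleton.elim _ _, fun σ _ => hinj σ,
    fun g => ⟨1, Subsingleton.elim _ _, rfl⟩, fun σ => cyc_conj p K m hm _ hζ.pow_eq_one σ,
    fun z _ σ hσ => by rw [hinj σ hσ]; rfl⟩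

/-- the base: `K = F_p(x)(ζ_m)` -/
theorem pcg_base (p : ℕ) [Fact p.Prime] (m : ℕ) (hm : m.Coprime p) (G : Type) [Group G]
    [Subsingleton G] (g0 : G) : PCg p m G g0 := by
  have hm0 : m ≠ 0 := by
    rintro rfl
    rw [Nat.coprime_zero_left] at hm
    exact absurd hm (Fact.out : p.Prime).one_lt.ne'
  have hmu : IsUnit (m : Fx p) := natCast_isUnit p m hm (Fx p)
  have h1 : NeZero m := ⟨hm0⟩
  have h2 : NeZero ((m : ℕ) : Fx p) := ⟨hmu.ne_zero⟩
  exact @pcg_cyc p _ m hm G _ _ g0 (CyclotomicField m (Fx p)) _ _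
    ((algebraMap (Fx p) (CyclotomicField m (Fx p))).comp (algebraMap (Rx p) (Fx p))).toAlgebra
    (@IsScalarTower.of_algebraMap_eq _ _ _ _ _ _ _ _
      ((algebraMap (Fx p) (CyclotomicField m (Fx p))).comp
        (algebraMap (Rx p) (Fx p))).toAlgebra fun _ => rfl) h1 h2 _

/-- the step, as in `pc_step`, with `as_gen2` and `as_geo` -/
theorem pcg_step (p : ℕ) [Fact p.Prime] (m : ℕ) (hm : m.Coprime p) (G : Type) [Group G]
    [Finite G] (C : Subgroup G) [C.Normal] (hC : C ≤ Subgroup.center G)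
    (hc : Nat.card C = p) (g0 : G) (h : PCg p m (G ⧸ C) (QuotientGroup.mk g0)) :
    PCg p m G g0 := by
  have hm0 : 0 < m := by
    rcases Nat.eq_zero_or_pos m with h | h
    · rw [h, Nat.coprime_zero_left] at hm
      exact absurd hm (Fact.out : p.Prime).one_lt.ne'
    · exact h
  obtain ⟨zp, s, c, hadd, hcomm, hone, hzm, hs, hg, hss, hcoc⟩ := pcs_cocycle p G C hC hc
  obtain ⟨K, _, _, _, _, ζ, π, q, γ, hfd, hgal, hNI, hζ, hPl, hπγ, hinj, hsur, hpow, hgeo⟩ := h
  obtain ⟨b, a, hb, ha⟩ := as_split p K hNI (fun σ τ => c (π σ) (π τ)) (by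
    intro σ τ ρ
    simp only [map_mul]
    exact hcoc _ _ _)
  obtain ⟨κ, hκ⟩ := pcs_const p K q γ hPl a (b γ) (ha γ)
  obtain ⟨j0, hj0⟩ := hg g0
  obtain ⟨h, hh0, hhirr⟩ := as_gen2 p K ζ m hζ.pow_eq_one hm0 hgeo a (-j0 - κ)
  obtain ⟨a1, ha1⟩ : ∃ a1 : Oc p K, a1 = a + algebraMap (Rx p) (Oc p K) h := ⟨_, rfl⟩
  have ha1' : ∀ σ : Gl p K, act p K σ a1 = a1 - (b σ ^ p - b σ) := by
    intro σ
    rw [ha1, map_add, ha, AlgEquiv.commutes]
    ring
  have hirr2 : ∀ (y c : K), (∃ n : ℕ, 0 < n ∧ c ^ p ^ n = c) → y ^ p - y ≠ (a1 : K) + c := by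
    intro y c hcn hy
    apply hhirr y c hcn
    rw [hy, ha1]
    rfl
  have hirr : ∀ y : K, y ^ p - y ≠ (a1 : K) := by
    intro y hy
    refine hirr2 y 0 ⟨1, one_pos, ?_⟩ ?_
    · exact zero_pow (pow_ne_zero _ (Fact.out : p.Prime).ne_zero)
    · rw [hy, add_zero]
  obtain ⟨M, _, _, _, _, ι, y, e, hfdM, hgalM, hNIM, hy, heι, hey, hesur, heone⟩ :=
    as_ext p K hNI b a1 ha1' hirr
  have hιinj : Function.Injective ι := ι.toRingHom.injective
  have hιcst : ∀ i : ZMod p, ι (cst p K i) = cst p M i := by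
    intro i
    exact (ι.restrictScalars (Rx p)).commutes _
  have hbσ : ∀ σ ρ : Gl p K, σ (b ρ : K) - (b (σ * ρ) : K) + (b σ : K) =
      cst p K (c (π σ) (π ρ)) := by
    intro σ ρ
    have h1 := congrArg (fun t : Oc p K => (t : K)) (hb σ ρ)
    exact h1
  have hext : ∀ τ τ' : Gl p M, (∀ s : K, τ (ι s) = τ' (ι s)) → τ y = τ' y → τ = τ' := by
    intro τ τ' h1 h2
    have h3 : τ'⁻¹ * τ = 1 := by
      refine heone _ (fun s => ?_) ?_
      · rw [AlgEquiv.mul_apply, h1]
        exact τ'.symm_apply_apply _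
      · rw [AlgEquiv.mul_apply, h2]
        exact τ'.symm_apply_apply _
    exact (inv_mul_eq_one.mp h3).symm
  -- the multiplication rule
  have hmul : ∀ (σ ρ : Gl p K) (i j : ZMod p),
      e σ i * e ρ j = e (σ * ρ) (i + j + c (π σ) (π ρ)) := by
    intro σ ρ i j
    refine hext _ _ (fun s => ?_) ?_
    · rw [AlgEquiv.mul_apply, heι, heι, heι, AlgEquiv.mul_apply]
    · have h1 : e σ i (cst p M j) = cst p M j :=
        ((e σ i).restrictScalars (Rx p)).commutes _
      rw [AlgEquiv.mul_apply, hey, map_sub, map_sub, hey, heι, h1, hey, map_add, map_add]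
      have h2 := congrArg ι (hbσ σ ρ)
      rw [map_add, map_sub, hιcst] at h2
      linear_combination -h2
  -- uniqueness
  have huniq : ∀ (σ σ' : Gl p K) (i i' : ZMod p), e σ i = e σ' i' → σ = σ' ∧ i = i' := by
    intro σ σ' i i' h1
    have h2 : σ = σ' := by
      refine AlgEquiv.ext fun s => ?_
      apply hιinj
      rw [← heι σ i, ← heι σ' i', h1]
    refine ⟨h2, ?_⟩
    have h3 : e σ i y = e σ' i' y := by rw [h1]
    rw [hey, hey, h2, sub_right_inj] at h3
    exact (cst p M).injective h3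
  choose σM iM hσi using hesur
  obtain ⟨Pm, hPm⟩ : ∃ Pm : Gl p M →* G, ∀ (σ : Gl p K) (i : ZMod p),
      Pm (e σ i) = zp i * s (π σ) := by
    refine ⟨MonoidHom.mk' (fun τ => zp (iM τ) * s (π (σM τ))) ?_, ?_⟩
    · intro τ τ'
      have h1 : e (σM (τ * τ')) (iM (τ * τ')) =
          e (σM τ * σM τ') (iM τ + iM τ' + c (π (σM τ)) (π (σM τ'))) := by
        rw [← hmul, ← hσi, ← hσi, ← hσi]
      obtain ⟨h2, h3⟩ := huniq _ _ _ _ h1
      rw [h2, h3, map_mul, hadd, hadd]
      have h4 := hss (π (σM τ)) (π (σM τ'))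
      rw [mul_assoc _ _ (s _), ← h4]
      have h5 := hcomm (iM τ') (s (π (σM τ)))
      simp only [mul_assoc]
      rw [← mul_assoc (zp (iM τ')) (s _), h5, mul_assoc]
    · intro σ i
      obtain ⟨h2, h3⟩ := huniq _ _ _ _ (hσi (e σ i))
      change zp (iM (e σ i)) * s (π (σM (e σ i))) = _
      rw [← h2, ← h3]
  obtain ⟨Q, δ, hQ, hδι, hQq⟩ := pl_lift p K M hNI ι q γ hPl
  refine ⟨M, _, _, _, ‹_›, ι ζ, Pm, Q, δ, hfdM, hgalM, hNIM,
    hζ.map_of_injective hιinj, hQ, ?_, ?_, ?_, ?_,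
    as_geo p K ζ hgeo (a1 : K) hirr2 M ι y hy heone⟩
  · -- the Frobenius element
    obtain ⟨j, hj⟩ : ∃ j, δ = e γ j := by
      refine ⟨iM δ, ?_⟩
      have h1 : σM δ = γ := by
        refine AlgEquiv.ext fun s => ?_
        apply hιinj
        rw [← hδι, hσi δ, heι, ← hσi δ]
      rw [← h1]
      exact hσi δ
    have hyint : IsIntegral (Rx p) y := by
      have h1 : IsIntegral (Rx p) (Polynomial.aeval y
          (Polynomial.X ^ p - Polynomial.X : Polynomial (Rx p))) := by
        rw [map_sub, map_pow, Polynomial.aeval_X, hy]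
        exact (omap p K M ι a1).2
      have hp : 1 < p := (Fact.out : p.Prime).one_lt
      have hdeg : (Polynomial.X ^ p - Polynomial.X : Polynomial (Rx p)).natDegree = p := by
        rw [Polynomial.natDegree_sub_eq_left_of_natDegree_lt, Polynomial.natDegree_X_pow]
        rw [Polynomial.natDegree_X_pow, Polynomial.natDegree_X]
        exact hp
      refine IsIntegral.of_aeval_monic ?_ ?_ h1
      · exact Polynomial.monic_X_pow_sub (by
          rw [Polynomial.degree_X]
          exact_mod_cast hp)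
      · rw [hdeg]
        omega
    obtain ⟨yo, hyo⟩ : ∃ yo : Oc p M, (yo : M) = y := ⟨⟨y, hyint⟩, rfl⟩
    have h1 : act p M δ yo = yo - omap p K M ι (b γ) - cst p (Oc p M) j := by
      apply Subtype.ext
      rw [act_coe, hyo, hj, hey]
      push_cast
      rw [hyo, omap_coe, cst_coe]
    have h2 : yo ^ p = yo + omap p K M ι a1 := by
      apply Subtype.ext
      push_cast
      rw [hyo, omap_coe, ← hy]
      ring
    have h3 := hQ.2.2 yo
    rw [h1, h2] at h3
    have h4 : omap p K M ι (b γ + a1 + cst p (Oc p K) j) ∈ Q := by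
      have h5 := Q.neg_mem h3
      have h6 : omap p K M ι (cst p (Oc p K) j) = cst p (Oc p M) j :=
        (omap p K M ι).commutes _
      rw [map_add, map_add, h6]
      convert h5 using 1
      ring
    rw [hQq] at h4
    have h5 := pcs_poly p K q hPl.2.1 h
    rw [hh0] at h5
    have h6 : cst p (Oc p K) (-j0 + j) ∈ q := by
      have h7 := q.sub_mem (q.sub_mem h4 h5) hκ
      convert h7 using 1
      rw [ha1, map_sub, map_add, map_neg]
      ring
    have h7 := pcs_cst_mem p K q hPl.1.ne_top _ h6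
    have h8 : j = j0 := by linear_combination h7
    rw [hj, hPm, h8, hπγ]
    exact hj0.symm
  · intro τ h1 h2
    rw [hσi τ, hPm] at h1
    have h3 : π (σM τ) = 1 := by
      have h4 := congrArg (fun g : G => (QuotientGroup.mk g : G ⧸ C)) h1
      rw [QuotientGroup.mk_mul, hzm, hs, one_mul] at h4
      exact h4
    have h5 : σM τ ζ = ζ := by
      apply hιinj
      rw [← heι (σM τ) (iM τ), ← hσi τ, h2]
    have h6 : σM τ = 1 := hinj _ h3 h5
    rw [h6, map_one] at h1
    have h7 : s 1 = zp (c 1 1) := by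
      have h8 := hss 1 1
      rw [mul_one] at h8
      exact mul_right_cancel h8
    rw [h7, ← hadd] at h1
    have h8 := hone _ h1
    have h9 : (b 1 : K) = cst p K (c 1 1) := by
      have h10 := hbσ 1 1
      rw [mul_one, map_one] at h10
      rw [← h10]
      change (b 1 : K) = (b 1 : K) - (b 1 : K) + (b 1 : K)
      ring
    rw [hσi τ, h6]
    refine heone _ (fun s => ?_) ?_
    · rw [heι]
      rfl
    · rw [hey, h9, hιcst, sub_sub, ← map_add, add_comm, h8, map_zero, sub_zero]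
  · intro g
    obtain ⟨σ, h1, h2⟩ := hsur (QuotientGroup.mk g)
    obtain ⟨i, hi⟩ := hg g
    refine ⟨e σ i, ?_, ?_⟩
    · rw [hPm, h1, ← hi]
    · rw [heι, h2]
  · intro τ
    obtain ⟨k, hk⟩ := hpow (σM τ)
    refine ⟨k, ?_⟩
    rw [hσi τ, heι, hk, map_pow]

/-- all `p`-groups -/
theorem pcg_all (p : ℕ) [Fact p.Prime] (m : ℕ) (hm : m.Coprime p) (G : Type) [Group G]
    [Finite G] (hG : IsPGroup p G) (g0 : G) : PCg p m G g0 := by
  suffices H : ∀ (n : ℕ) (G : Type) (_ : Group G) (_ : Finite G), IsPGroup p G →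
      Nat.card G = n → ∀ g0 : G, PCg p m G g0 from H _ G _ inferInstance hG rfl g0
  intro n
  induction n using Nat.strong_induction_on with
  | _ n ih =>
    intro G _ _ hG hn g0
    rcases subsingleton_or_nontrivial G with hs | hs
    · exact pcg_base p m hm G g0
    · obtain ⟨C, hC, hCp⟩ := exists_central_p p G hG
      have hnorm : C.Normal := ⟨fun a ha g => by
        have h1 := Subgroup.mem_center_iff.mp (hC ha) g
        rw [h1, mul_inv_cancel_right]
        exact ha⟩
      refine pcg_step p m hm G C hC hCp g0 ?_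
      have hlt : Nat.card (G ⧸ C) < n := by
        have h2 := Subgroup.card_eq_card_quotient_mul_card_subgroup C
        rw [hCp, hn] at h2
        have h3 : 0 < Nat.card (G ⧸ C) := Nat.card_pos
        have h4 : 1 < p := (Fact.out : p.Prime).one_lt
        rw [h2]
        nlinarith
      exact ih _ hlt (G ⧸ C) _ inferInstance (hG.to_quotient C) rfl _

end Pool.Agent.AB
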