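import Pool.Agent.Lib.MP_5de024_nt.C.Pk4

/-!
# Embedding problems with a p-group as kernel (piece PkQ)
-/

set_option autoImplicit false
set_option linter.unusedSectionVars false

namespace Pool.Agent.AB

/-- a minimal normal `p`-subgroup is abelian of exponent `p` -/
theorem min_elem (p : ℕ) [Fact p.Prime] (E : Type) [Group E] [Finite E] (U : Subgroup E)
    [U.Normal] (hU : IsPGroup p U) (hb : U ≠ ⊥)
    (hmin : ∀ W : Subgroup E, W.Normal → W ≤ U → W = ⊥ ∨ W = U) :
    (∀ a ∈ U, ∀ b ∈ U, a * b = b * a) ∧ ∀ a ∈ U, a ^ p = 1 := by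
  have hnt : Nontrivial U := (Subgroup.nontrivial_iff_ne_bot U).mpr hb
  have hcom : ⁅U, U⁆ = (⊥ : Subgroup E) := by
    rcases hmin ⁅U, U⁆ inferInstance (Subgroup.commutator_le_self U) with h | h
    · exact h
    · exfalso
      have hnil : Group.IsNilpotent U := hU.isNilpotent
      have h1 : _root_.commutator U < ⊤ := Group.IsSolvable.commutator_lt_top_of_nontrivial U
      apply h1.ne
      have h2 : (_root_.commutator U).map U.subtype = U := by
        rw [Subgroup.map_subtype_commutator, h]
      rw [eq_top_iff]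
      intro u _
      have h3 : (u : E) ∈ (_root_.commutator U).map U.subtype := by
        rw [h2]; exact u.2
      obtain ⟨v, hv, hvu⟩ := h3
      have h4 : v = u := Subtype.ext hvu
      rw [← h4]; exact hv
  have hab : ∀ a ∈ U, ∀ b ∈ U, a * b = b * a := by
    intro a ha b hb
    have h1 := Subgroup.commutator_mem_commutator ha hb
    rw [hcom, Subgroup.mem_bot] at h1
    exact commutatorElement_eq_one_iff_mul_comm.mp h1
  refine ⟨hab, ?_⟩
  let W : Subgroup E :=
    { carrier := {x | ∃ a ∈ U, x = a ^ p}
      mul_mem' := by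
        rintro x y ⟨a, ha, rfl⟩ ⟨b, hb, rfl⟩
        exact ⟨a * b, U.mul_mem ha hb, (Commute.mul_pow (hab a ha b hb) p).symm⟩
      one_mem' := ⟨1, U.one_mem, (one_pow p).symm⟩
      inv_mem' := by
        rintro x ⟨a, ha, rfl⟩
        exact ⟨a⁻¹, U.inv_mem ha, (inv_pow a p).symm⟩ }
  have hWn : W.Normal := by
    refine ⟨?_⟩
    rintro x ⟨a, ha, rfl⟩ g
    exact ⟨g * a * g⁻¹, (inferInstance : U.Normal).conj_mem a ha g, (conj_pow).symm⟩
  have hWU : W ≤ U := by
    rintro x ⟨a, ha, rfl⟩
    exact U.pow_mem ha p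
  rcases hmin W hWn hWU with h | h
  · intro a ha
    have h1 : a ^ p ∈ W := ⟨a, ha, rfl⟩
    rw [h, Subgroup.mem_bot] at h1
    exact h1
  · exfalso
    have hs : Function.Surjective (fun u : U => u ^ p) := by
      intro u
      have h1 : (u : E) ∈ W := by rw [h]; exact u.2
      obtain ⟨a, ha, hau⟩ := h1
      exact ⟨⟨a, ha⟩, Subtype.ext hau.symm⟩
    have hi : Function.Injective (fun u : U => u ^ p) := Finite.injective_iff_surjective.mpr hs
    obtain ⟨n, hn⟩ := IsPGroup.iff_card.mp hU
    have hn0 : n ≠ 0 := by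
      rintro rfl
      rw [pow_zero] at hn
      have h1 : 1 < Nat.card U := Finite.one_lt_card
      omega
    have hdvd : p ∣ Nat.card U := by
      rw [hn]
      exact dvd_pow_self p hn0
    obtain ⟨z, hz⟩ := exists_prime_orderOf_dvd_card' (G := U) p hdvd
    have h2 : z ^ p = 1 := by rw [← hz]; exact pow_orderOf_eq_one z
    have h3 : z = 1 := hi (by simp only [h2, one_pow])
    rw [h3, orderOf_one] at hz
    exact (Fact.out : p.Prime).one_lt.ne hz

/-- all kernels which are `p`-groups -/
theorem rni_pker (p : ℕ) [Fact p.Prime] (E : Type) [Group E] [Finite E] (Q : Subgroup E)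
    [Q.Normal] (hQ : IsPGroup p Q) (h : RNI p (E ⧸ Q)) : RNI p E := by
  suffices H : ∀ (n : ℕ) (E : Type) (_ : Group E) (_ : Finite E) (Q : Subgroup E)
      (_ : Q.Normal), IsPGroup p Q → RNI p (E ⧸ Q) → Nat.card Q = n → RNI p E from
    H _ E _ inferInstance Q inferInstance hQ h rfl
  intro n
  induction n using Nat.strong_induction_on with
  | _ n ih =>
    intro E _ _ Q _ hQ h hn
    by_cases hb : Q = ⊥
    · subst hb
      exact rni_congr p _ _ (QuotientGroup.quotientBot) h
    · obtain ⟨U, ⟨hUn, hUQ, hUb⟩, hUmin⟩ := WellFounded.has_min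
        (wellFounded_lt : WellFounded ((· < ·) : Subgroup E → Subgroup E → Prop))
        {U : Subgroup E | U.Normal ∧ U ≤ Q ∧ U ≠ ⊥} ⟨Q, inferInstance, le_rfl, hb⟩
      have hmin : ∀ W : Subgroup E, W.Normal → W ≤ U → W = ⊥ ∨ W = U := by
        intro W hW hWU
        by_cases hWb : W = ⊥
        · exact Or.inl hWb
        · right
          by_contra hne
          exact hUmin W ⟨hW, hWU.trans hUQ, hWb⟩ (lt_of_le_of_ne hWU hne)
      have hUp : IsPGroup p U := hQ.to_le hUQ
      obtain ⟨hab, hpw⟩ := min_elem p E U hUp hUb hmin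
      refine rni_min p E U hab hpw hmin ?_
      have hlt : Nat.card (Q.map (QuotientGroup.mk' U)) < n := by
        rw [← hn]
        have hs : Function.Surjective ((QuotientGroup.mk' U).subgroupMap Q) :=
          (QuotientGroup.mk' U).subgroupMap_surjective Q
        by_contra hge
        rw [not_lt] at hge
        have hbij := hs.bijective_of_nat_card_le hge
        apply hUb
        rw [eq_bot_iff]
        intro u hu
        have h1 : (⟨u, hUQ hu⟩ : Q) = 1 := by
          apply hbij.1
          apply Subtype.ext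
          change (QuotientGroup.mk' U) u = (QuotientGroup.mk' U) 1
          rw [map_one]
          exact (QuotientGroup.eq_one_iff u).mpr hu
        rw [Subgroup.mem_bot]
        exact congrArg Subtype.val h1
      exact ih _ hlt (E ⧸ U) _ inferInstance (Q.map (QuotientGroup.mk' U))
        (Subgroup.Normal.map inferInstance _ (QuotientGroup.mk'_surjective U))
        (hQ.map _)
        (rni_congr p _ _ (QuotientGroup.quotientQuotientEquivQuotient U Q hUQ).symm h) rfl

end Pool.Agent.AB
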