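import Pool.Agent.Lib.MP_5de024_nt.C.ModK

/-!
# A surjection of the class group onto `V` (piece ModL, abstract)
-/

set_option autoImplicit false
set_option linter.unusedSectionVars false

namespace Pool.Agent.AB

/-- products of powers -/
private noncomputable def modL_pw {Γ D : Type} [Fintype Γ] [CommGroup D] (x : Γ → D) :
    Multiplicative (Γ → ℤ) →* D where
  toFun e := ∏ h, x h ^ (Multiplicative.toAdd e h)
  map_one' := Finset.prod_eq_one fun h _ => zpow_zero _
  map_mul' e f := by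
    rw [← Finset.prod_mul_distrib]
    exact Finset.prod_congr rfl fun h _ => zpow_add _ _ _

private theorem modL_pw_apply {Γ D : Type} [Fintype Γ] [CommGroup D] (x : Γ → D)
    (e : Multiplicative (Γ → ℤ)) : modL_pw x e = ∏ h, x h ^ (Multiplicative.toAdd e h) := rfl

private theorem modL_pw_pow {Γ D : Type} [Fintype Γ] [CommGroup D] (x : Γ → D) (l : ℕ)
    (hx : ∀ h, x h ^ l = 1) (e : Multiplicative (Γ → ℤ)) : modL_pw x e ^ l = 1 := by
  rw [modL_pw_apply, ← Finset.prod_pow]
  refine Finset.prod_eq_one fun h _ => ?_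
  rw [← zpow_natCast, ← zpow_mul, mul_comm, zpow_mul, zpow_natCast, hx, one_zpow]

/-- the shift of the exponents -/
private def modL_sh {Γ : Type} [Group Γ] (σ : Γ) (e : Multiplicative (Γ → ℤ)) :
    Multiplicative (Γ → ℤ) := Multiplicative.ofAdd fun h => Multiplicative.toAdd e (σ⁻¹ * h)

private theorem modL_shift {Γ D : Type} [Group Γ] [Fintype Γ] [CommGroup D] (ψ : Γ →* MulAut D)
    (d : D) (σ : Γ) (e : Multiplicative (Γ → ℤ)) :
    ψ σ (modL_pw (fun h => ψ h d) e) = modL_pw (fun h => ψ h d) (modL_sh σ e) := by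
  rw [modL_pw_apply, modL_pw_apply, map_prod]
  refine Fintype.prod_equiv (Equiv.mulLeft σ) _ _ fun h => ?_
  rw [map_zpow, ← MulAut.mul_apply, ← map_mul]
  simp [modL_sh]

/-- if the relations between the conjugates of `c` are as stated, then `C` maps onto `V` -/
theorem mod_surj (Γ G C V : Type) [Group Γ] [Finite Γ] [Group G] [CommGroup C] [Finite C]
    [CommGroup V] [Finite V] (l : ℕ) (hl : l.Prime) (hco : (Nat.card Γ).Coprime l)
    (s : Γ →* MulAut C) (π : Γ →* G) (hπ : Function.Surjective π) (γ : Γ) (hγ : π γ = 1)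
    (φ : G →* MulAut V) (hexp : ∀ n : V, n ^ l = 1)
    (hfix : ∀ n : V, (∀ g, φ g n = n) → n = 1) (w : V)
    (hcl : Subgroup.closure (Set.range fun g : G => φ g w) = ⊤) (c : C) (hc : c ^ l = 1)
    (hrel : ∀ e : Γ → ℤ, (∏ᶠ h : Γ, (s h c) ^ e h) = 1 → ∃ c1 : ℤ, ∀ h0 : Γ,
      (∑ i ∈ Finset.range (orderOf γ), e (h0 * γ ^ i)) ≡ c1 [ZMOD l]) :
    ∃ ψ : C →* V, Function.Surjective ψ ∧ ∀ σ c, ψ (s σ c) = φ (π σ) (ψ c) := by
  classical
  haveI := Fintype.ofFinite Γ
  obtain ⟨κ, hκ1, hκ2, hκ3⟩ := kappa Γ C s l hl hco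
  set Θ : Multiplicative (Γ → ℤ) →* C := modL_pw fun h => s h c with hΘ
  set Ω : Multiplicative (Γ → ℤ) →* V := modL_pw fun h => (φ.comp π) h w with hΩ
  -- `Ω` is surjective
  have hΩs : Function.Surjective Ω := by
    rw [← MonoidHom.range_eq_top, ← top_le_iff, ← hcl, Subgroup.closure_le]
    rintro _ ⟨g, rfl⟩
    obtain ⟨h, rfl⟩ := hπ g
    refine ⟨Multiplicative.ofAdd (Pi.single h 1), ?_⟩
    rw [hΩ, modL_pw_apply, Finset.prod_eq_single h]
    · simp
    · intro h' _ hne
      simp [Pi.single_eq_of_ne hne]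
    · intro hh
      exact absurd (Finset.mem_univ h) hh
  -- the kernels
  have hker : ∀ e, Θ e = 1 → Ω e = 1 := by
    intro e he
    have h1 : (∏ᶠ h : Γ, (s h c) ^ (Multiplicative.toAdd e h)) = 1 := by
      rw [finprod_eq_prod_of_fintype]
      exact he
    obtain ⟨c1, hc1⟩ := hrel _ h1
    set x : Γ → V := fun h => (φ.comp π) h w with hx
    have hxγ : ∀ h (i : ℕ), x (h * γ ^ i) = x h := by
      intro h i
      show φ (π (h * γ ^ i)) w = φ (π h) w
      rw [map_mul, map_pow, hγ, one_pow, mul_one]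
    have h2 : Ω e ^ orderOf γ = (∏ h, x h) ^ c1 := by
      calc Ω e ^ orderOf γ = ∏ _i ∈ Finset.range (orderOf γ), Ω e := by
            rw [Finset.prod_const, Finset.card_range]
        _ = ∏ i ∈ Finset.range (orderOf γ), ∏ h, x h ^ (Multiplicative.toAdd e (h * γ ^ i)) := by
            refine Finset.prod_congr rfl fun i _ => ?_
            rw [hΩ, modL_pw_apply]
            refine (Fintype.prod_equiv (Equiv.mulRight (γ ^ i)) _ _ fun h => ?_).symm
            show x h ^ _ = x (h * γ ^ i) ^ _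
            rw [hxγ]
            rfl
        _ = ∏ h, ∏ i ∈ Finset.range (orderOf γ), x h ^ (Multiplicative.toAdd e (h * γ ^ i)) :=
            Finset.prod_comm
        _ = ∏ h, x h ^ c1 := by
            refine Finset.prod_congr rfl fun h _ => ?_
            have h3 : ∏ i ∈ Finset.range (orderOf γ), x h ^ (Multiplicative.toAdd e (h * γ ^ i)) =
                x h ^ (∑ i ∈ Finset.range (orderOf γ), Multiplicative.toAdd e (h * γ ^ i)) := by
              induction (Finset.range (orderOf γ)) using Finset.induction_on with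
              | empty => simp
              | insert a t ha ih => rw [Finset.prod_insert ha, Finset.sum_insert ha, zpow_add, ih]
            rw [h3]
            obtain ⟨t, ht⟩ := (hc1 h).symm.dvd
            have h4 : (∑ i ∈ Finset.range (orderOf γ), Multiplicative.toAdd e (h * γ ^ i)) =
                c1 + l * t := by
              rw [← ht]
              ring
            rw [h4, zpow_add, zpow_mul, zpow_natCast, hexp, one_zpow, mul_one]
        _ = (∏ h, x h) ^ c1 := Finset.prod_zpow _ _ _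
    have h5 : (∏ h, x h) = 1 := by
      refine hfix _ fun g => ?_
      obtain ⟨g', rfl⟩ := hπ g
      rw [map_prod]
      refine Fintype.prod_equiv (Equiv.mulLeft g') _ _ fun h => ?_
      show φ (π g') (φ (π h) w) = φ (π (g' * h)) w
      rw [map_mul, map_mul, MulAut.mul_apply]
    rw [h5, one_zpow] at h2
    have h6 : (orderOf γ).Coprime l := Nat.Coprime.coprime_dvd_left (orderOf_dvd_natCard γ) hco
    have h7 := pow_gcd_eq_one.2 ⟨h2, hexp (Ω e)⟩
    rwa [h6, pow_one] at h7
  -- the image of `Θ`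
  have hA : ∀ σ, ∀ a ∈ Θ.range, s σ a ∈ Θ.range := by
    rintro σ _ ⟨e, rfl⟩
    exact ⟨modL_sh σ e, (modL_shift s c σ e).symm⟩
  have hAl : ∀ a ∈ Θ.range, a ^ l = 1 := by
    rintro _ ⟨e, rfl⟩
    exact modL_pw_pow _ l (fun h => by rw [← map_pow, hc, map_one]) e
  obtain ⟨ρ, hρ1, hρ2, hρ3⟩ := retract Γ C s l hl hco Θ.range hA hAl
  have hsurj : Function.Surjective Θ.rangeRestrict := Θ.rangeRestrict_surjective
  have hk : Θ.rangeRestrict.ker ≤ Ω.ker := by
    intro e he
    rw [MonoidHom.ker_rangeRestrict] at he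
    exact hker e he
  let Ω1 : Θ.range →* V := Θ.rangeRestrict.liftOfSurjective hsurj ⟨Ω, hk⟩
  have hΩ1 : ∀ e, Ω1 (Θ.rangeRestrict e) = Ω e := fun e =>
    MonoidHom.liftOfRightInverse_comp_apply _ _ _ ⟨Ω, hk⟩ e
  let κ' : C →* (powMonoidHom l : C →* C).ker := κ.codRestrict _ fun c => by
    rw [MonoidHom.mem_ker]
    exact hκ2 c
  let ρ' : (powMonoidHom l : C →* C).ker →* Θ.range := ρ.codRestrict _ hρ1
  refine ⟨Ω1.comp (ρ'.comp κ'), ?_, fun σ c' => ?_⟩
  · intro v
    obtain ⟨e, rfl⟩ := hΩs v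
    obtain ⟨c', hc'⟩ := hκ3 (Θ e) (hAl _ ⟨e, rfl⟩)
    refine ⟨c', ?_⟩
    have h1 : ρ' (κ' c') = Θ.rangeRestrict e := by
      apply Subtype.ext
      show ρ (κ' c') = Θ e
      rw [hρ2 (κ' c') (by
        show κ c' ∈ Θ.range
        rw [hc']
        exact ⟨e, rfl⟩)]
      exact hc'
    show Ω1 (ρ' (κ' c')) = Ω e
    rw [h1, hΩ1]
  · obtain ⟨e, he⟩ := hsurj (ρ' (κ' c'))
    have h1 : ρ' (κ' (s σ c')) = Θ.rangeRestrict (modL_sh σ e) := by
      apply Subtype.ext
      show ρ (κ' (s σ c')) = Θ (modL_sh σ e)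
      rw [hρ3 σ (κ' c') (κ' (s σ c')) (hκ1 σ c'), hΘ, ← modL_shift]
      congr 1
      exact (congrArg Subtype.val he).symm
    show Ω1 (ρ' (κ' (s σ c'))) = φ (π σ) (Ω1 (ρ' (κ' c')))
    rw [h1, ← he, hΩ1, hΩ1, hΩ]
    exact (modL_shift (φ.comp π) w σ e).symm

end Pool.Agent.AB
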