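import Pool.Agent.Lib.MP_5de024_nt.C.Idx
import Pool.Agent.Lib.MP_5de024_nt.C.InfX
import Pool.Agent.Lib.MP_5de024_nt.C.Cact
import Pool.Agent.Lib.MP_5de024_nt.C.ModL
import Pool.Agent.Lib.MP_5de024_nt.C.IdR

/-!
# The class group maps onto `V` (piece Psi)
-/

set_option autoImplicit false
set_option linter.unusedSectionVars false

namespace Pool.Agent.AB

open nonZeroDivisors

/-- the class group is finite -/
theorem finite_cls (p : ℕ) [Fact p.Prime] (K : Type) [Field K] [Algebra (Fx p) K]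
    [Algebra (Rx p) K] [IsScalarTower (Rx p) (Fx p) K] [FiniteDimensional (Fx p) K]
    [IsGalois (Fx p) K] [IsDedekindDomain (Oc p K)] : Finite (ClassGroup (Oc p K)) := by
  classical
  haveI hfin : Fintype (ClassGroup (Oc p K)) :=
    ClassGroup.fintypeOfAdmissibleOfFinite (Fx p) K
      (Polynomial.cardPowDegreeIsAdmissible :
        AbsoluteValue.IsAdmissible
          (Polynomial.cardPowDegree : AbsoluteValue (Polynomial (ZMod p)) ℤ))
  exact Finite.of_fintype _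

theorem psi_zpow {K : Type} [Field K] (a : K) (ha : a ≠ 0) (n : ℤ) :
    a ^ n = a ^ n.toNat / a ^ (-n).toNat := by
  have h0 : n = (n.toNat : ℤ) - ((-n).toNat : ℤ) := by omega
  conv_lhs => rw [h0]
  rw [zpow_sub₀ ha, zpow_natCast, zpow_natCast]

/-- two products of powers of ideals in the same class, whose factors have principal `l`-th
powers -/
theorem psi_rel {Γ R : Type} [Fintype Γ] [CommRing R] [IsDedekindDomain R] (l : ℕ)
    (J : Γ → (Ideal R)⁰) (t : Γ → R) (hJ : ∀ h, (J h : Ideal R) ^ l = Ideal.span {t h})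
    (e : Γ → ℤ) (he : ∏ h, (ClassGroup.mk0 (J h)) ^ e h = 1) :
    ∃ (x y u : R), x ≠ 0 ∧ y ≠ 0 ∧ IsUnit u ∧
      x ^ l * (∏ h, t h ^ (e h).toNat) * u = y ^ l * ∏ h, t h ^ (-e h).toNat := by
  have h1 : ∀ h, ClassGroup.mk0 (J h) ^ e h =
      ClassGroup.mk0 (J h) ^ (e h).toNat / ClassGroup.mk0 (J h) ^ (-e h).toNat := by
    intro h
    have h0 : e h = ((e h).toNat : ℤ) - ((-e h).toNat : ℤ) := by omega
    conv_lhs => rw [h0]
    rw [zpow_sub, zpow_natCast, zpow_natCast, div_eq_mul_inv]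
  rw [Finset.prod_congr rfl fun h _ => h1 h, Finset.prod_div_distrib, div_eq_one] at he
  have h2 : ClassGroup.mk0 (∏ h, J h ^ (e h).toNat) = ClassGroup.mk0 (∏ h, J h ^ (-e h).toNat) := by
    rw [map_prod, map_prod]
    simpa only [map_pow] using he
  rw [ClassGroup.mk0_eq_mk0_iff] at h2
  obtain ⟨x, y, hx, hy, hxy⟩ := h2
  have hco : ∀ f : Γ → ℕ, (((∏ h, J h ^ f h : (Ideal R)⁰) : Ideal R)) ^ l =
      Ideal.span {∏ h, t h ^ f h} := by
    intro f
    rw [Submonoid.coe_finsetProd, ← Finset.prod_pow]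
    rw [← Ideal.prod_span_singleton]
    refine Finset.prod_congr rfl fun h _ => ?_
    rw [SubmonoidClass.coe_pow, ← pow_mul, mul_comm, pow_mul, hJ, Ideal.span_singleton_pow]
  have h3 := congrArg (fun I : Ideal R => I ^ l) hxy
  simp only [mul_pow, hco, Ideal.span_singleton_pow, Ideal.span_singleton_mul_span_singleton]
    at h3
  rw [Ideal.span_singleton_eq_span_singleton] at h3
  obtain ⟨u, hu⟩ := h3
  exact ⟨x, y, u, hx, hy, u.isUnit, hu⟩

/-- the class group maps onto `V` -/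
theorem exists_psi (p : ℕ) [Fact p.Prime] (K : Type) [Field K] [Algebra (Fx p) K]
    [Algebra (Rx p) K] [IsScalarTower (Rx p) (Fx p) K] [FiniteDimensional (Fx p) K]
    [IsGalois (Fx p) K] [IsDedekindDomain (Oc p K)] (l : ℕ) (hl : l.Prime)
    (hco : (Nat.card (Gl p K)).Coprime l) (G V : Type) [Group G] [CommGroup V] [Finite V]
    (φ : G →* MulAut V) (hexp : ∀ n : V, n ^ l = 1)
    (hfix : ∀ n : V, (∀ g, φ g n = n) → n = 1) (w : V)
    (hcl : Subgroup.closure (Set.range fun g : G => φ g w) = ⊤)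
    (π : Gl p K →* G) (hπ : Function.Surjective π) (γ : Gl p K) (hγ : π γ = 1)
    (k : Type) [Field k] [Finite k] [Algebra k (Oc p K)] (X : OneInf k (Oc p K))
    (hk : ∀ c : k, ∃ n : ℕ, 0 < n ∧
      ((algebraMap k (Oc p K) c : Oc p K) : K) ^ p ^ n = (algebraMap k (Oc p K) c : Oc p K))
    (η : K) (hη : η ≠ 0)
    (hloc : ∀ (h : Gl p K) (P : Ideal (Oc p K)), P.IsPrime →
      ∃ (k : ℤ) (a b : Oc p K), a ∉ P ∧ b ∉ P ∧
        h η * (b : K) = xk p K ^ ((l : ℤ) * k) * (a : K))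
    (hind : ∀ (e : Gl p K → ℤ) (c z : K), (∃ n : ℕ, 0 < n ∧ c ^ p ^ n = c) → c ≠ 0 →
      (∏ᶠ h : Gl p K, (h η) ^ e h) = c * z ^ l →
      ∃ c1 : ℤ, ∀ h0 : Gl p K,
        (∑ i ∈ Finset.range (orderOf γ), e (h0 * γ ^ i)) ≡ c1 [ZMOD l]) :
    ∃ ψ : ClassGroup (Oc p K) →* V, Function.Surjective ψ ∧
      ∀ (σ : Gl p K) (I I' : (Ideal (Oc p K))⁰),
        (I' : Ideal (Oc p K)) =
          (I : Ideal (Oc p K)).map (act p K σ : Oc p K →+* Oc p K) →
        ψ (ClassGroup.mk0 I') = φ (π σ) (ψ (ClassGroup.mk0 I)) := by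
  classical
  haveI := finite_cls p K
  haveI : Fintype (Gl p K) := Fintype.ofFinite _
  obtain ⟨N, t, J, htη, hJ0, hJl⟩ := ideal_root p K l hl.pos η hη fun P hP => hloc 1 P hP
  obtain ⟨s, hs⟩ := exists_cact p K
  have hmap0 : ∀ h : Gl p K, J.map (act p K h : Oc p K →+* Oc p K) ≠ ⊥ := by
    intro h h0
    exact hJ0 ((Ideal.map_eq_bot_iff_of_injective (act p K h).injective).1 h0)
  let JJ : Gl p K → (Ideal (Oc p K))⁰ := fun h =>
    ⟨J.map (act p K h : Oc p K →+* Oc p K), mem_nonZeroDivisors_iff_ne_zero.2 (hmap0 h)⟩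
  let J0 : (Ideal (Oc p K))⁰ := ⟨J, mem_nonZeroDivisors_iff_ne_zero.2 hJ0⟩
  have hsJ : ∀ h, s h (ClassGroup.mk0 J0) = ClassGroup.mk0 (JJ h) := fun h => hs h J0 (JJ h) rfl
  have hJJ : ∀ h, (JJ h : Ideal (Oc p K)) ^ l = Ideal.span {act p K h t} := by
    intro h
    change (J.map (act p K h : Oc p K →+* Oc p K)) ^ l = _
    rw [← Ideal.map_pow, hJl, Ideal.map_span, Set.image_singleton]
    rfl
  have hx0 : xk p K ≠ 0 := xk_ne_zero p K
  have ht0 : (t : K) ≠ 0 := by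
    rw [htη]
    exact mul_ne_zero hη (pow_ne_zero _ hx0)
  have hht : ∀ h : Gl p K, ((act p K h t : Oc p K) : K) = h η * xk p K ^ (l * N) := by
    intro h
    rw [act_coe, htη, map_mul, map_pow, gl_xk]
  have hhη : ∀ h : Gl p K, h η ≠ 0 := fun h => by
    rw [Ne, map_eq_zero]
    exact hη
  have hc : ClassGroup.mk0 J0 ^ l = 1 := by
    rw [← map_pow, ClassGroup.mk0_eq_one_iff]
    change (J ^ l).IsPrincipal
    rw [hJl]
    exact ⟨t, rfl⟩
  have hrel : ∀ e : Gl p K → ℤ, (∏ᶠ h : Gl p K, (s h (ClassGroup.mk0 J0)) ^ e h) = 1 →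
      ∃ c1 : ℤ, ∀ h0 : Gl p K,
        (∑ i ∈ Finset.range (orderOf γ), e (h0 * γ ^ i)) ≡ c1 [ZMOD l] := by
    intro e he
    rw [finprod_eq_prod_of_fintype] at he
    simp only [hsJ] at he
    obtain ⟨x, y, u, hx, hy, hu, huxy⟩ := psi_rel l JJ (fun h => act p K h t) hJJ e he
    obtain ⟨c', hc'0, rfl⟩ := unit_const X u hu
    obtain ⟨n, hn, hcn⟩ := hk c'
    set cK : K := ((algebraMap k (Oc p K) c' : Oc p K) : K) with hcK
    have hcK0 : cK ≠ 0 := by
      intro h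
      apply hc'0
      apply (algebraMap k (Oc p K)).injective
      rw [map_zero]
      exact Subtype.ext h
    have hxK : (x : K) ≠ 0 := fun h => hx (Subtype.ext h)
    have hyK : (y : K) ≠ 0 := fun h => hy (Subtype.ext h)
    have h1 : (x : K) ^ l * (∏ h : Gl p K, (h η * xk p K ^ (l * N)) ^ (e h).toNat) * cK =
        (y : K) ^ l * ∏ h : Gl p K, (h η * xk p K ^ (l * N)) ^ (-e h).toNat := by
      have h2 := congrArg (fun z : Oc p K => (z : K)) huxy
      simp only [MulMemClass.coe_mul, SubmonoidClass.coe_pow, SubmonoidClass.coe_finsetProd,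
        hht] at h2
      exact h2
    have h3 : ∏ h : Gl p K, (h η * xk p K ^ (l * N)) ^ e h =
        (∏ h : Gl p K, (h η * xk p K ^ (l * N)) ^ (e h).toNat) /
          ∏ h : Gl p K, (h η * xk p K ^ (l * N)) ^ (-e h).toNat := by
      rw [← Finset.prod_div_distrib]
      exact Finset.prod_congr rfl fun h _ =>
        psi_zpow _ (mul_ne_zero (hhη h) (pow_ne_zero _ hx0)) _
    have h4 : ∏ h : Gl p K, (h η * xk p K ^ (l * N)) ^ (-e h).toNat ≠ 0 :=
      Finset.prod_ne_zero_iff.2 fun h _ =>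
        pow_ne_zero _ (mul_ne_zero (hhη h) (pow_ne_zero _ hx0))
    have h5 : ∏ h : Gl p K, (h η * xk p K ^ (l * N)) ^ e h = cK⁻¹ * ((y : K) / x) ^ l := by
      have hxl : (x : K) ^ l ≠ 0 := pow_ne_zero _ hxK
      rw [h3, div_eq_iff h4, div_pow]
      generalize (∏ h : Gl p K, (h η * xk p K ^ (l * N)) ^ (e h).toNat) = A at h1 ⊢
      generalize (∏ h : Gl p K, (h η * xk p K ^ (l * N)) ^ (-e h).toNat) = B at h1 ⊢
      calc A = (x : K) ^ l * A * cK / ((x : K) ^ l * cK) := by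
            rw [mul_right_comm, mul_div_cancel_left₀ _ (mul_ne_zero hxl hcK0)]
        _ = (y : K) ^ l * B / ((x : K) ^ l * cK) := by rw [h1]
        _ = cK⁻¹ * ((y : K) ^ l / (x : K) ^ l) * B := by
            rw [div_eq_mul_inv, div_eq_mul_inv, mul_inv]
            ring
    have h6 : ∏ h : Gl p K, (h η * xk p K ^ (l * N)) ^ e h =
        (∏ h : Gl p K, (h η) ^ e h) * (xk p K ^ ((N : ℤ) * ∑ h, e h)) ^ l := by
      have h6a : ∀ h : Gl p K, (h η * xk p K ^ (l * N)) ^ e h =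
          (h η) ^ e h * xk p K ^ (((l * N : ℕ) : ℤ) * e h) := by
        intro h
        rw [mul_zpow, zpow_mul, zpow_natCast]
      have h6b : ∀ T : Finset (Gl p K), ∏ h ∈ T, xk p K ^ (((l * N : ℕ) : ℤ) * e h) =
          (xk p K ^ ((N : ℤ) * ∑ h ∈ T, e h)) ^ l := by
        intro T
        rw [← zpow_natCast (xk p K ^ ((N : ℤ) * ∑ h ∈ T, e h)) l, ← zpow_mul]
        induction T using Finset.induction_on with
        | empty => simp
        | insert a T ha ih =>
          rw [Finset.prod_insert ha, Finset.sum_insert ha, ih, ← zpow_add₀ hx0]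
          congr 1
          push_cast
          ring
      rw [Finset.prod_congr rfl fun h _ => h6a h, Finset.prod_mul_distrib, h6b]
    have h7 : xk p K ^ ((N : ℤ) * ∑ h, e h) ≠ 0 := zpow_ne_zero _ hx0
    refine hind e cK⁻¹ ((y : K) / x / xk p K ^ ((N : ℤ) * ∑ h, e h)) ⟨n, hn, ?_⟩
      (inv_ne_zero hcK0) ?_
    · rw [inv_pow, hcn]
    · rw [finprod_eq_prod_of_fintype, div_pow, ← mul_div_assoc, ← h5, h6,
        mul_div_cancel_right₀ _ (pow_ne_zero l h7)]
  obtain ⟨ψ, hψ, hψs⟩ := mod_surj (Gl p K) G (ClassGroup (Oc p K)) V l hl hco s π hπ γ hγ φ hexp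
    hfix w hcl (ClassGroup.mk0 J0) hc hrel
  exact ⟨ψ, hψ, fun σ I I' hI => by rw [← hs σ I I' hI, hψs]⟩

end Pool.Agent.AB
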