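import Pool.Agent.Lib.MP_5de024_nt.C.KDefs

/-!
# The ring of integers as an algebra over `k[x]` (piece PolyK)
-/

set_option autoImplicit false
set_option linter.unusedSectionVars false

namespace Pool.Agent.AB

attribute [local instance] Polynomial.algebra in
/-- a ring homomorphism on `k[X]` is injective if it is so on `F[X]`, for `k` integral over `F` -/
theorem polyK_inj (F k A : Type) [Field F] [Field k] [CommRing A] [IsDomain A] [Algebra F k]
    [Algebra.IsIntegral F k] (φ : Polynomial k →+* A) (ψ : Polynomial F →+* A)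
    (hφ : φ.comp (Polynomial.mapRingHom (algebraMap F k)) = ψ) (hinj : Function.Injective ψ) :
    Function.Injective φ := by
  have h1 : (RingHom.ker φ).comap (algebraMap (Polynomial F) (Polynomial k)) = ⊥ := by
    rw [eq_bot_iff]
    intro f hf
    rw [Ideal.mem_comap, RingHom.mem_ker] at hf
    have h2 : ψ f = 0 := by
      rw [← hφ]
      exact hf
    rw [Ideal.mem_bot]
    exact hinj (by rw [h2, map_zero])
  rw [RingHom.injective_iff_ker_eq_bot]
  exact Ideal.eq_bot_of_comap_eq_bot h1

theorem poly_alg (p : ℕ) [Fact p.Prime] (K : Type) [Field K] [Algebra (Fx p) K]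
    [Algebra (Rx p) K] [IsScalarTower (Rx p) (Fx p) K] [FiniteDimensional (Fx p) K]
    [IsGalois (Fx p) K] (k : Type) [Field k] [Finite k] [Algebra k (Oc p K)] :
    ∃ (_ : Algebra (Polynomial k) (Oc p K)), IsScalarTower k (Polynomial k) (Oc p K) ∧
      Module.Finite (Polynomial k) (Oc p K) ∧
      Function.Injective (algebraMap (Polynomial k) (Oc p K)) := by
  -- the characteristic of `k`
  have hpR : ((p : ℕ) : Rx p) = 0 := by
    have h : ((p : ℕ) : ZMod p) = 0 := ZMod.natCast_self p
    rw [← map_natCast (Polynomial.C : ZMod p →+* Rx p) p, h, map_zero]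
  have hpA : ((p : ℕ) : Oc p K) = 0 := by
    rw [← map_natCast (algebraMap (Rx p) (Oc p K)) p, hpR, map_zero]
  have hpk : ((p : ℕ) : k) = 0 := by
    apply (algebraMap k (Oc p K)).injective
    rw [map_natCast, hpA, map_zero]
  haveI : CharP k p := (CharP.charP_iff_prime_eq_zero (Fact.out : p.Prime)).2 hpk
  letI : Algebra (ZMod p) k := ZMod.algebra k p
  haveI : Module.Finite (ZMod p) k := Module.Finite.of_finite
  haveI : Algebra.IsIntegral (ZMod p) k := inferInstance
  -- the algebra structure
  let φ : Polynomial k →ₐ[k] Oc p K := Polynomial.aeval (xo p K)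
  have hcomp : φ.toRingHom.comp (Polynomial.mapRingHom (algebraMap (ZMod p) k)) =
      algebraMap (Rx p) (Oc p K) := by
    apply Polynomial.ringHom_ext'
    · exact RingHom.ext_zmod _ _
    · change φ (Polynomial.map (algebraMap (ZMod p) k) Polynomial.X) = xo p K
      rw [Polynomial.map_X]
      exact Polynomial.aeval_X _
  have hinj : Function.Injective (algebraMap (Rx p) (Oc p K)) := by
    intro a b h
    have h1 : Function.Injective (algebraMap (Rx p) K) := by
      rw [IsScalarTower.algebraMap_eq (Rx p) (Fx p) K]
      exact (algebraMap (Fx p) K).injective.comp (IsFractionRing.injective (Rx p) (Fx p))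
    exact h1 (congrArg (fun t : Oc p K => (t : K)) h)
  have hfin : Module.Finite (Rx p) (Oc p K) :=
    IsIntegralClosure.finite (Rx p) (Fx p) K (Oc p K)
  refine ⟨φ.toRingHom.toAlgebra, ?_, ?_, ?_⟩
  · letI := φ.toRingHom.toAlgebra
    refine IsScalarTower.of_algebraMap_eq fun c => ?_
    exact (φ.commutes c).symm
  · have h1 : φ.toRingHom.Finite := by
      refine RingHom.Finite.of_comp_finite
        (f := Polynomial.mapRingHom (algebraMap (ZMod p) k)) ?_
      rw [hcomp]
      exact RingHom.finite_algebraMap.2 hfin
    exact h1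
  · exact polyK_inj (ZMod p) k (Oc p K) φ.toRingHom (algebraMap (Rx p) (Oc p K)) hcomp hinj

end Pool.Agent.AB
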