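import Pool.Agent.Lib.MP_5de024_nt.C.Dual
import Pool.Agent.Lib.MP_5de024_nt.C.Equi
import Pool.Agent.Lib.MP_5de024_nt.C.PolyK
import Pool.Agent.Lib.MP_5de024_nt.C.IdR
import Pool.Agent.Lib.MP_5de024_nt.C.KDefs

/-!
# The radicals of the characters of `V` (piece Rads)
-/

set_option autoImplicit false
set_option linter.unusedSectionVars false

namespace Pool.Agent.AB

open nonZeroDivisors

section gen

variable {k R : Type} [Field k] [Finite k] [CommRing R] [IsDedekindDomain R] [Algebra k R]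

/-- the index of a power of an ideal -/
theorem rads_card_pow (X : OneInf k R) (J : Ideal R) (hJ : J ≠ ⊥) (l : ℕ) :
    Nat.card (R ⧸ J ^ l) = Nat.card (R ⧸ J) ^ l := by
  induction l with
  | zero =>
    rw [pow_zero, pow_zero, Ideal.one_eq_top]
    have : Subsingleton (R ⧸ (⊤ : Ideal R)) := Ideal.Quotient.subsingleton_iff.2 rfl
    exact Nat.card_unique
  | succ l ih =>
    rw [pow_succ, card_quot_mul R (fun I hI => finite_quot X I hI) _ _ (pow_ne_zero l hJ) hJ, ih,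
      pow_succ]

/-- the degree of a radical is divisible by `l` -/
theorem rads_deg (X : OneInf k R) (l : ℕ) (hl : l ≠ 0) (u : R) (J : Ideal R) (hu : u ≠ 0)
    (h : J ^ l = Ideal.span {u}) : ∃ m : ℕ, X.d u = m * l := by
  have hJ : J ≠ ⊥ := by
    rintro rfl
    rw [← Ideal.zero_eq_bot, zero_pow hl, Ideal.zero_eq_bot] at h
    exact hu (Ideal.span_singleton_eq_bot.1 h.symm)
  have : Finite (R ⧸ J) := finite_quot X J hJ
  have : Module.Finite k (R ⧸ J) := Module.Finite.of_finite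
  refine ⟨Module.finrank k (R ⧸ J), ?_⟩
  have h1 := rads_card_pow X J hJ l
  rw [h, card_quot X u hu, Module.natCard_eq_pow_finrank (K := k) (V := R ⧸ J), ← pow_mul] at h1
  exact Nat.pow_right_injective (Finite.one_lt_card (α := k)) h1

/-- a radical transported by a semilinear automorphism -/
theorem rads_act (X : OneInf k R) (l : ℕ) (hl : l ≠ 0) (σ : R ≃+* R) (s : k ≃+* k)
    (hlc : ∃ θ : k, ∀ a, X.lc (σ a) = s (X.lc a) * θ ^ X.d a) (u : R) (J : Ideal R)
    (h : Rad X l u J) : Rad X l (σ u) (J.map (σ : R →+* R)) := by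
  obtain ⟨hu, hJ, c, hc⟩ := h
  obtain ⟨θ, hθ⟩ := hlc
  obtain ⟨m, hm⟩ := rads_deg X l hl u J hu hJ
  refine ⟨(map_ne_zero_iff σ σ.injective).2 hu, ?_, s c * θ ^ m, ?_⟩
  · rw [← Ideal.map_pow, hJ, Ideal.map_span, Set.image_singleton]
    rfl
  · rw [hθ, hc, hm, map_pow, mul_pow, ← pow_mul]

theorem rads_mul (X : OneInf k R) (l : ℕ) (u u' : R) (J J' : Ideal R) (h : Rad X l u J)
    (h' : Rad X l u' J') : Rad X l (u * u') (J * J') := by
  obtain ⟨hu, hJ, c, hc⟩ := h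
  obtain ⟨hu', hJ', c', hc'⟩ := h'
  exact ⟨mul_ne_zero hu hu', by
    rw [mul_pow, hJ, hJ', Ideal.span_singleton_mul_span_singleton], c * c', by
    rw [X.lc_mul, hc, hc', mul_pow]⟩

theorem rads_sy_mul (l : ℕ) (u u' : R) (I : Ideal R) :
    Sy k l (u * u') I = Sy k l u I * Sy k l u' I := by
  rw [Sy, Sy, Sy, nk_mul, mul_pow]

/-- the symbol of an `l`-th power -/
theorem rads_sy_pow (l : ℕ) (hlk : l ∣ Nat.card k - 1) (w : R) (I : Ideal R) [Finite (R ⧸ I)]
    (h : I ⊔ Ideal.span {w ^ l} = ⊤) (hl : l ≠ 0) : Sy k l (w ^ l) I = 1 := by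
  have hpow : ∀ n : ℕ, Nk k (w ^ n) I = Nk k w I ^ n := by
    intro n
    induction n with
    | zero => rw [pow_zero, pow_zero, nk_one]
    | succ n ih => rw [pow_succ, pow_succ, nk_mul, ih]
  have h1 : Nk k (w ^ l) I ≠ 0 := nk_ne_zero _ I h
  rw [hpow] at h1
  have h2 : Nk k w I ≠ 0 := fun h0 => h1 (by rw [h0, zero_pow hl])
  have _ := Fintype.ofFinite k
  rw [Sy, hpow, ← pow_mul, Nat.mul_div_cancel' hlk, Nat.card_eq_fintype_card]
  exact FiniteField.pow_card_sub_one_eq_one _ h2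

end gen

/-- lifting of a homomorphism along an injective one -/
theorem rads_lift {A F F' : Type} [Group A] [CommGroup F] [CommGroup F'] (j : F →* F')
    (hj : Function.Injective j) (f : A →* F') (h : ∀ a, ∃ y, j y = f a) :
    ∃ g : A →* F, ∀ a, j (g a) = f a := by
  choose y hy using h
  exact ⟨MonoidHom.mk' y fun a b => hj (by rw [map_mul, hy, hy, hy, map_mul]), hy⟩

/-- the radicals `u χ` of the characters `χ` of `V` with values in the roots of unity -/
theorem exists_rads (p : ℕ) [Fact p.Prime] (K : Type) [Field K] [Algebra (Fx p) K]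
    [Algebra (Rx p) K] [IsScalarTower (Rx p) (Fx p) K] [FiniteDimensional (Fx p) K]
    [IsGalois (Fx p) K] [IsDedekindDomain (Oc p K)] [Finite (ClassGroup (Oc p K))] (l : ℕ)
    (hl : l.Prime) (hlp : l ≠ p) (ζ : K) (hζ : IsPrimitiveRoot ζ l)
    (G V : Type) [Group G] [CommGroup V] [Finite V] (φ : G →* MulAut V)
    (hexp : ∀ n : V, n ^ l = 1) (π : Gl p K →* G)
    (k : Type) [Field k] [Finite k] [Algebra k (Oc p K)] (D : InfData p K ζ k)
    (ψ : ClassGroup (Oc p K) →* V) (hψ : Function.Surjective ψ)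
    (hequi : ∀ (σ : Gl p K) (I I' : (Ideal (Oc p K))⁰),
      (I' : Ideal (Oc p K)) = (I : Ideal (Oc p K)).map (act p K σ : Oc p K →+* Oc p K) →
      ψ (ClassGroup.mk0 I') = φ (π σ) (ψ (ClassGroup.mk0 I))) :
    ∃ u : (V →* Kˣ) → K, (∀ χ, u χ ≠ 0) ∧
      (∀ χ χ', ∃ w : K, w ≠ 0 ∧ u (χ * χ') = u χ * u χ' * w ^ l) ∧
      (∀ (σ : Gl p K) (χ χ' : V →* Kˣ),
        (∀ n, ((χ' (φ (π σ) n) : Kˣ) : K) = σ ((χ n : Kˣ) : K)) →
        ∃ w : K, w ≠ 0 ∧ σ (u χ) = u χ' * w ^ l) ∧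
      (∀ (χ : V →* Kˣ) (w : K), u χ = w ^ l → χ = 1) ∧
      (∀ (χ : V →* Kˣ) (P : Ideal (Oc p K)), P.IsPrime →
        ∃ (w : K) (a b : Oc p K), a ∉ P ∧ b ∉ P ∧ u χ * (b : K) = w ^ l * (a : K)) := by
  classical
  obtain ⟨ialg, itow, ifin, hinj⟩ := poly_alg p K k
  -- the embedding of the constants
  let j : k →+* K := ((Oc p K).val : Oc p K →+* K).comp (algebraMap k (Oc p K))
  have hj : ∀ c : k, j c = ((algebraMap k (Oc p K) c : Oc p K) : K) := fun _ => rfl
  have hjσ : ∀ (σ : Gl p K) (c : k), j (D.sg σ c) = σ (j c) := by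
    intro σ c
    rw [hj, ← D.hsg σ c, act_coe, hj]
  have hz' : IsPrimitiveRoot D.z l := by
    refine IsPrimitiveRoot.of_map_of_injective (f := j) ?_ j.injective
    rw [hj, D.hz]
    exact hζ
  obtain ⟨zu, hzu⟩ := hz'.isUnit hl.ne_zero
  have hzu' : IsPrimitiveRoot zu l := IsPrimitiveRoot.coe_units_iff.1 (by rw [hzu]; exact hz')
  have hlk : l ∣ Nat.card k - 1 := by
    rw [← Nat.card_units, hzu'.eq_orderOf]
    exact orderOf_dvd_natCard zu
  let jU : kˣ →* Kˣ := Units.map (j : k →* K)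
  have hjU : Function.Injective jU := Units.map_injective j.injective
  have hval : ∀ (χ : V →* Kˣ) (n : V), ∃ y : kˣ, jU y = χ n := by
    intro χ n
    have h1 : ((χ n : Kˣ) : K) ^ l = 1 := by
      rw [← Units.val_pow_eq_pow_val, ← map_pow, hexp, map_one, Units.val_one]
    have : NeZero l := ⟨hl.ne_zero⟩
    obtain ⟨i, -, hi⟩ := hζ.eq_pow_of_pow_eq_one h1
    refine ⟨zu ^ i, Units.ext ?_⟩
    rw [← hi, map_pow, Units.val_pow_eq_pow_val]
    congr 1
    show j (zu : k) = ζ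
    rw [hzu, hj, D.hz]
  -- the radicals
  have hmain : ∀ χ : V →* Kˣ, ∃ (u : Oc p K) (J : Ideal (Oc p K)), Rad D.X l u J ∧
      ∀ I : (Ideal (Oc p K))⁰, (I : Ideal (Oc p K)) ⊔ Ideal.span {u} = ⊤ →
        j (Sy k l u (I : Ideal (Oc p K))) = ((χ (ψ (ClassGroup.mk0 I)) : Kˣ) : K) := by
    intro χ
    obtain ⟨β, hβ⟩ := rads_lift jU hjU (χ.comp ψ) fun c => hval χ (ψ c)
    obtain ⟨u, J, h1, h2⟩ := rad_exists D.X hinj l hl hlk β (by
      intro c
      apply hjU
      rw [map_pow, hβ, MonoidHom.comp_apply, ← map_pow, hexp, map_one, map_one])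
    refine ⟨u, J, h1, fun I hI => ?_⟩
    rw [← h2 I hI]
    exact congrArg Units.val (hβ (ClassGroup.mk0 I))
  choose U J hR hS using hmain
  have hnz : ∀ a : Oc p K, a ≠ 0 → (a : K) ≠ 0 := fun a ha h => ha (Subtype.ext h)
  have hSP : ∀ (χ : V →* Kˣ) (P : (Ideal (Oc p K))⁰), (P : Ideal (Oc p K)).IsMaximal →
      U χ ∉ (P : Ideal (Oc p K)) →
      j (Sy k l (U χ) (P : Ideal (Oc p K))) = ((χ (ψ (ClassGroup.mk0 P)) : Kˣ) : K) :=
    fun χ P hP h => hS χ P (dual_coprime _ hP _ h)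
  have key : ∀ (u u' : Oc p K) (J J' : Ideal (Oc p K)), Rad D.X l u J → Rad D.X l u' J' →
      (∀ P : (Ideal (Oc p K))⁰, (P : Ideal (Oc p K)).IsMaximal → u ∉ (P : Ideal (Oc p K)) →
        u' ∉ (P : Ideal (Oc p K)) →
        j (Sy k l u (P : Ideal (Oc p K))) = j (Sy k l u' (P : Ideal (Oc p K)))) →
      ∃ w : K, w ≠ 0 ∧ (u : K) = (u' : K) * w ^ l := by
    intro u u' J J' h h' h1
    obtain ⟨a, b, ha, hb, hab⟩ := rad_unique D.X hinj l hl hlk u u' J J' h h'
      fun P hP h2 h3 => j.injective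
        (h1 ⟨P, mem_nonZeroDivisors_of_ne_zero (dual_ne_bot hinj P hP)⟩ hP h2 h3)
    have ha' := hnz a ha
    have hb' := hnz b hb
    refine ⟨(b : K) / a, div_ne_zero hb' ha', ?_⟩
    have h3 : (a : K) ^ l * u = (b : K) ^ l * u' := by
      have := congrArg (fun t : Oc p K => (t : K)) hab
      simpa using this
    rw [div_pow, mul_div_assoc', eq_div_iff (pow_ne_zero l ha')]
    linear_combination h3
  refine ⟨fun χ => (U χ : K), fun χ => hnz _ (hR χ).1, ?_, ?_, ?_, ?_⟩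
  · intro χ χ'
    obtain ⟨w, hw, h⟩ := key (U (χ * χ')) (U χ * U χ') _ _ (hR _) (rads_mul D.X l _ _ _ _ (hR χ)
      (hR χ')) (by
        intro P hP h1 h2
        have h3 : U χ ∉ (P : Ideal (Oc p K)) := fun h => h2 (Ideal.mul_mem_right _ _ h)
        have h4 : U χ' ∉ (P : Ideal (Oc p K)) := fun h => h2 (Ideal.mul_mem_left _ _ h)
        rw [rads_sy_mul, map_mul, hSP _ P hP h1, hSP _ P hP h3, hSP _ P hP h4,
          MonoidHom.mul_apply, Units.val_mul])
    exact ⟨w, hw, h⟩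
  · intro σ χ χ' hχ
    let s : Oc p K ≃+* Oc p K := (act p K σ).toRingEquiv
    have hs : ∀ a, s a = act p K σ a := fun _ => rfl
    have hr := rads_act D.X l hl.ne_zero s (D.sg σ) (D.hlc σ) (U χ) (J χ) (hR χ)
    obtain ⟨w, hw, h⟩ := key (s (U χ)) (U χ') _ _ hr (hR χ') (by
      intro P hP h1 h2
      have hsurj : Function.Surjective (s : Oc p K →+* Oc p K) := s.surjective
      have hPmap : ((P : Ideal (Oc p K)).comap (s : Oc p K →+* Oc p K)).map
          (s : Oc p K →+* Oc p K) = P := Ideal.map_comap_of_surjective _ hsurj _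
      have hmaxI : ((P : Ideal (Oc p K)).comap (s : Oc p K →+* Oc p K)).IsMaximal :=
        Ideal.comap_isMaximal_of_surjective _ hsurj
      have hne := dual_ne_bot hinj _ hmaxI
      have h3 := hSP χ ⟨_, mem_nonZeroDivisors_of_ne_zero hne⟩ hmaxI h1
      have h4 := sy_equi s (D.sg σ) (D.hsg σ) l (U χ)
        ((P : Ideal (Oc p K)).comap (s : Oc p K →+* Oc p K))
      rw [hPmap] at h4
      rw [h4, hjσ, h3, ← hχ, hSP χ' P hP h2]
      have h5 := hequi σ ⟨_, mem_nonZeroDivisors_of_ne_zero hne⟩ P hPmap.symm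
      rw [h5])
    exact ⟨w, hw, h⟩
  · intro χ w hw
    have hwi : IsIntegral (Rx p) w := by
      refine IsIntegral.of_pow hl.pos ?_
      rw [← hw]
      exact (U χ).2
    obtain ⟨w', hw'⟩ : ∃ w' : Oc p K, (w' : K) = w := ⟨⟨w, hwi⟩, rfl⟩
    have hU : U χ = w' ^ l := by
      apply Subtype.ext
      rw [SubmonoidClass.coe_pow, hw']
      exact hw
    refine MonoidHom.ext fun n => ?_
    obtain ⟨c, rfl⟩ := hψ n
    have hT : Ideal.span {U χ} ≠ ⊥ := by
      rw [Ne, Ideal.span_singleton_eq_bot]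
      exact (hR χ).1
    obtain ⟨I, rfl, hI⟩ := exists_coprime_rep (Oc p K) c _ hT
    have hI0 : (I : Ideal (Oc p K)) ≠ ⊥ := nonZeroDivisors.coe_ne_zero I
    have := finite_quot D.X (I : Ideal (Oc p K)) hI0
    have h1 := hS χ I hI
    rw [hU] at hI h1
    rw [rads_sy_pow l hlk w' _ hI hl.ne_zero, map_one] at h1
    rw [MonoidHom.one_apply]
    exact Units.ext h1.symm
  · intro χ P hP
    exact local_root p K l hl.pos (U χ) (hR χ).1 (J χ) (hR χ).2.1 P hP

end Pool.Agent.AB
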