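import Pool.Agent.Lib.MP_5de024_nt.Quo
import Pool.Agent.Lib.MP_5de024_nt.C.PcGeo
import Pool.Agent.Lib.MP_5de024_nt.C.Kd2
import Pool.Agent.Lib.MP_5de024_nt.C.Psi
import Pool.Agent.Lib.MP_5de024_nt.C.Rads
import Pool.Agent.Lib.MP_5de024_nt.C.Km2
import Pool.Agent.Lib.MP_5de024_nt.C.PkQ
import Pool.Agent.Lib.MP_5de024_nt.C.Grp2

/-!
# The theorem of project AB2 (piece Main2)
-/

set_option autoImplicit false
set_option linter.unusedSectionVars false

namespace Pool.Agent.AB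

/-- the semidirect product of a `p`-group and a module without invariants generated by one
element -/
theorem rni_semi (p : ℕ) [Fact p.Prime] (l : ℕ) (hl : l.Prime) (hlp : l ≠ p) (V G : Type)
    [CommGroup V] [Finite V] [Group G] [Finite G] (hG : IsPGroup p G) (φ : G →* MulAut V)
    (hexp : ∀ n : V, n ^ l = 1) (w : V)
    (hcl : Subgroup.closure (Set.range fun g : G => φ g w) = ⊤)
    (hfix : ∀ n : V, (∀ g, φ g n = n) → n = 1) : RNI p (V ⋊[φ] G) := by
  have hlc : l.Coprime p := (Nat.coprime_primes hl Fact.out).2 hlp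
  obtain ⟨K, _, _, _, _, ζ, η, π, γ, hfd, hgal, hNI, hζ, hγ, hinj, hst, -, hgeo, hco, hη,
    hloc, hind⟩ := kd2_of_pcg p l hl hlp G hG (pcg_all p l hlc G hG 1)
  have hpg : ∀ σ : Gl p K, σ ζ = ζ → ∃ n : ℕ, σ ^ p ^ n = 1 := by
    intro σ hσ
    obtain ⟨n, hn⟩ := hG (π σ)
    have hpow : ∀ i : ℕ, (σ ^ i) ζ = ζ := by
      intro i
      induction i with
      | zero => rfl
      | succ i ih => rw [pow_succ, AlgEquiv.mul_apply, hσ, ih]
    exact ⟨n, hinj _ (by rw [map_pow, hn]) (hpow _)⟩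
  have hded : IsDedekindDomain (Oc p K) := oc_dedekind p K
  have hcf : Finite (ClassGroup (Oc p K)) := finite_cls p K
  obtain ⟨k, _, _, _, ⟨D⟩, hconst⟩ := exists_infdata p K hNI l hlc ζ hζ hgeo hpg
  have hπ : Function.Surjective π := fun g => by
    obtain ⟨σ, hσ, -⟩ := hst g
    exact ⟨σ, hσ⟩
  obtain ⟨ψ, hψ, hequi⟩ := exists_psi p K l hl hco G V φ hexp hfix w hcl π hπ γ hγ k D.X
    (fun c => (hconst _).2 ⟨c, rfl⟩) η hη hloc hind
  obtain ⟨u, hu, hmul, hgl, hin, hlo⟩ := exists_rads p K l hl hlp ζ hζ G V φ hexp π k D ψ hψ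
    hequi
  exact rni_of_rads p K hNI l hl hlp ζ hζ hco G V φ hexp π hπ u hu hmul hgl hin hlo

/-- groups generated by elements of `p`-power order with a normal series `1 ≤ Q ≤ M ≤ E`,
`Q` and `E / M` being `p`-groups and `M / Q` an abelian group of prime exponent `l ≠ p`
generated by the conjugates of one element, are Galois groups over the affine line -/
theorem main2 (p : ℕ) [Fact p.Prime] (E : Type) [Group E] [Finite E]
    (hE : Subgroup.closure {g : E | ∃ n : ℕ, g ^ (p ^ n) = 1} = ⊤) (Q M : Subgroup E)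
    [Q.Normal] [M.Normal] (hQ : IsPGroup p Q) (hEM : IsPGroup p (E ⧸ M)) (l : ℕ)
    (hl : l.Prime) (hlp : l ≠ p) (hMl : ∀ a ∈ M, a ^ l ∈ Q)
    (hMc : ∀ a ∈ M, ∀ b ∈ M, a * b * a⁻¹ * b⁻¹ ∈ Q) (v : E)
    (hv : Q ⊔ Subgroup.normalClosure {v} = M) : RealG p E := by
  let f : E →* E ⧸ Q := QuotientGroup.mk' Q
  have hf : Function.Surjective f := QuotientGroup.mk'_surjective Q
  have hf1 : ∀ a : E, f a = 1 ↔ a ∈ Q := fun a => QuotientGroup.eq_one_iff a
  have hQM : Q ≤ M := hv ▸ le_sup_left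
  have hE' : Subgroup.closure {g : E ⧸ Q | ∃ n : ℕ, g ^ (p ^ n) = 1} = ⊤ := by
    rw [eq_top_iff, ← Subgroup.map_top_of_surjective f hf, ← hE, MonoidHom.map_closure,
      Subgroup.closure_le]
    rintro _ ⟨a, ⟨n, hn⟩, rfl⟩
    exact Subgroup.subset_closure ⟨n, by rw [← map_pow, hn, map_one]⟩
  let N : Subgroup (E ⧸ Q) := M.map f
  have hN : N.Normal := Subgroup.Normal.map inferInstance f hf
  have hab : ∀ a ∈ N, ∀ b ∈ N, a * b = b * a := by
    rintro _ ⟨a, ha, rfl⟩ _ ⟨b, hb, rfl⟩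
    rw [← map_mul, ← map_mul]
    have h1 := (hf1 _).2 (hMc a ha b hb)
    rw [map_mul, map_mul, map_inv, map_inv, map_mul] at h1
    rw [map_mul, map_mul]
    exact (eq_mul_of_mul_inv_eq (mul_inv_eq_one.1 h1)).trans rfl
  have hexp : ∀ a ∈ N, a ^ l = 1 := by
    rintro _ ⟨a, ha, rfl⟩
    rw [← map_pow]
    exact (hf1 _).2 (hMl a ha)
  have hEN : IsPGroup p ((E ⧸ Q) ⧸ N) :=
    hEM.of_equiv (QuotientGroup.quotientQuotientEquivQuotient Q M hQM).symm
  have hvN : Subgroup.normalClosure {f v} = N := by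
    have h1 : (Subgroup.normalClosure {v}).map f = Subgroup.normalClosure {f v} := by
      rw [Subgroup.map_normalClosure _ f hf, Set.image_singleton]
    rw [← h1]
    show _ = M.map f
    rw [← hv, Subgroup.map_sup]
    have h2 : Q.map f = ⊥ := by
      rw [eq_bot_iff]
      rintro _ ⟨a, ha, rfl⟩
      exact (hf1 a).2 ha
    rw [h2, bot_sup_eq]
  obtain ⟨V, G, _, _, _, _, φ, w, ⟨e⟩, hG, hexpV, hcl, hfix⟩ :=
    split_data2 p (E ⧸ Q) hE' N hab l hl hlp hexp hEN (f v) hvN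
  have h1 : RNI p (E ⧸ Q) := rni_congr p _ _ e (rni_semi p l hl hlp V G hG φ hexpV w hcl hfix)
  obtain ⟨L, _, _, _, _, Φ, hfd, hgal, hNI, hΦ⟩ := rni_pker p E Q hQ h1
  exact realG_of_surj p L hNI E Φ hΦ

end Pool.Agent.AB
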