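import Mathlib

/-!
# Maschke (piece ModA)
-/

set_option autoImplicit false
set_option linter.unusedSectionVars false

namespace Pool.Agent.AB

private theorem modA_aux (l : ℕ) [Fact l.Prime] (V : Type) [AddCommGroup V]
    (hV : ∀ v : V, l • v = 0) (W : AddSubgroup V) :
    ∃ g : V →+ V, (∀ v, g v ∈ W) ∧ ∀ v ∈ W, g v = v := by
  have i0 : Module (ZMod l) V := AddCommGroup.zmodModule hV
  obtain ⟨g, hg⟩ := (AddSubgroup.toZModSubmodule l W).subtype.exists_leftInverse_of_injective
    (AddSubgroup.toZModSubmodule l W).ker_subtype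
  refine ⟨((AddSubgroup.toZModSubmodule l W).subtype.comp g).toAddMonoidHom, fun v => (g v).2,
    fun v hv => ?_⟩
  exact congrArg Subtype.val (LinearMap.congr_fun hg ⟨v, hv⟩)

/-- a linear projection of the `l`-torsion onto a subgroup -/
private theorem modA_proj (C : Type) [CommGroup C] (l : ℕ) (hl : l.Prime) (A : Subgroup C) :
    ∃ p : (powMonoidHom l : C →* C).ker →* C, (∀ b, p b ∈ A) ∧
      ∀ b : (powMonoidHom l : C →* C).ker, (b : C) ∈ A → p b = b := by
  haveI : Fact l.Prime := ⟨hl⟩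
  obtain ⟨g, hg, hg'⟩ := modA_aux l (Additive (powMonoidHom l : C →* C).ker) (fun x => by
      apply Additive.toMul.injective
      apply Subtype.ext
      have h := (Additive.toMul x).2
      rw [MonoidHom.mem_ker] at h
      simpa using h)
    (Subgroup.toAddSubgroup (A.subgroupOf (powMonoidHom l : C →* C).ker))
  refine ⟨((powMonoidHom l : C →* C).ker.subtype).comp (AddMonoidHom.toMultiplicative g),
    fun b => ?_, fun b hb => ?_⟩
  · exact hg (Additive.ofMul b)
  · exact congrArg (fun x => ((Additive.toMul x : (powMonoidHom l : C →* C).ker) : C))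
      (hg' (Additive.ofMul b) hb)

/-- Maschke's theorem: an equivariant retraction of the `l`-torsion onto a submodule -/
theorem retract (Γ C : Type) [Group Γ] [Finite Γ] [CommGroup C] [Finite C]
    (s : Γ →* MulAut C) (l : ℕ) (hl : l.Prime) (hco : (Nat.card Γ).Coprime l)
    (A : Subgroup C) (hA : ∀ γ, ∀ a ∈ A, s γ a ∈ A) (hAl : ∀ a ∈ A, a ^ l = 1) :
    ∃ ρ : (powMonoidHom l : C →* C).ker →* C, (∀ b, ρ b ∈ A) ∧
      (∀ b : (powMonoidHom l : C →* C).ker, (b : C) ∈ A → ρ b = b) ∧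
      ∀ (γ : Γ) (b b' : (powMonoidHom l : C →* C).ker), (b' : C) = s γ b →
        ρ b' = s γ (ρ b) := by
  classical
  haveI := Fintype.ofFinite Γ
  obtain ⟨p, hp, hp'⟩ := modA_proj C l hl A
  obtain ⟨r, -, hr⟩ := Nat.exists_mul_mod_eq_one_of_coprime hco hl.one_lt
  have hs : ∀ (γ : Γ) (b : (powMonoidHom l : C →* C).ker), s γ b ∈
      (powMonoidHom l : C →* C).ker := by
    intro γ b
    have h := b.2
    rw [MonoidHom.mem_ker, powMonoidHom_apply] at h ⊢
    rw [← map_pow, h, map_one]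
  let sB : Γ → (powMonoidHom l : C →* C).ker →* (powMonoidHom l : C →* C).ker := fun γ =>
    { toFun := fun b => ⟨s γ b, hs γ b⟩
      map_one' := Subtype.ext (map_one (s γ))
      map_mul' := fun a b => Subtype.ext (map_mul (s γ) _ _) }
  have hsB : ∀ γ b, ((sB γ b : (powMonoidHom l : C →* C).ker) : C) = s γ b := fun _ _ => rfl
  have key : ∀ b : (powMonoidHom l : C →* C).ker,
      ((∏ γ : Γ, ((s γ).toMonoidHom.comp (p.comp (sB γ⁻¹)))) ^ r : _ →* C) b =
        (∏ γ : Γ, s γ (p (sB γ⁻¹ b))) ^ r := by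
    intro b
    rw [MonoidHom.pow_apply, MonoidHom.finset_prod_apply]
    rfl
  refine ⟨(∏ γ : Γ, ((s γ).toMonoidHom.comp (p.comp (sB γ⁻¹)))) ^ r, fun b => ?_,
    fun b hb => ?_, fun γ b b' h => ?_⟩
  · rw [key]
    exact A.pow_mem (A.prod_mem fun γ _ => hA γ _ (hp _)) r
  · rw [key]
    have h1 : ∀ γ : Γ, s γ (p (sB γ⁻¹ b)) = b := by
      intro γ
      rw [hp' _ (hA γ⁻¹ _ hb), hsB, ← MulAut.mul_apply, ← map_mul, mul_inv_cancel, map_one,
        MulAut.one_apply]
    rw [Finset.prod_congr rfl fun γ _ => h1 γ, Finset.prod_const, Finset.card_univ,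
      ← Nat.card_eq_fintype_card, ← pow_mul, ← Nat.div_add_mod (Nat.card Γ * r) l, hr, pow_add,
      pow_mul, hAl _ hb, one_pow, one_mul, pow_one]
  · rw [key, key, map_pow, map_prod]
    congr 1
    refine Fintype.prod_equiv (Equiv.mulLeft γ⁻¹) _ _ fun δ => ?_
    have h2 : sB δ⁻¹ b' = sB ((Equiv.mulLeft γ⁻¹) δ)⁻¹ b := by
      apply Subtype.ext
      rw [hsB, hsB, h, ← MulAut.mul_apply, ← map_mul]
      simp
    rw [h2, ← MulAut.mul_apply, ← map_mul]
    simp

end Pool.Agent.AB
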