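import Pool.Agent.Lib.MP_5de024_nt.C.ModA

/-!
# The surjection onto the torsion (piece ModK)
-/

set_option autoImplicit false
set_option linter.unusedSectionVars false

namespace Pool.Agent.AB

/-- the action on an invariant subgroup -/
noncomputable def ModK_sub {Γ C : Type} [Group Γ] [CommGroup C] (s : Γ →* MulAut C)
    (D : Subgroup C) (hD : ∀ γ, ∀ a ∈ D, s γ a ∈ D) : Γ →* MulAut D where
  toFun γ :=
    { toFun := fun x => ⟨s γ x, hD γ x x.2⟩
      invFun := fun x => ⟨s γ⁻¹ x, hD γ⁻¹ x x.2⟩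
      left_inv := fun x => Subtype.ext (by
        change s γ⁻¹ (s γ x) = x
        rw [map_inv, MulAut.inv_apply_self])
      right_inv := fun x => Subtype.ext (by
        change s γ (s γ⁻¹ x) = x
        rw [map_inv, MulAut.apply_inv_self])
      map_mul' := fun x y => Subtype.ext (map_mul (s γ) _ _) }
  map_one' := by
    ext x
    change s 1 x = x
    rw [map_one]
    rfl
  map_mul' γ γ' := by
    ext x
    change s (γ * γ') x = s γ (s γ' x)
    rw [map_mul]
    rfl

/-- the action on the quotient by an invariant subgroup -/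
theorem ModK_quo {Γ C : Type} [Group Γ] [CommGroup C] (s : Γ →* MulAut C)
    (D : Subgroup C) (hD : ∀ γ, ∀ a ∈ D, s γ a ∈ D) : ∃ t : Γ →* MulAut (C ⧸ D),
    ∀ γ (c : C), t γ (QuotientGroup.mk c) = QuotientGroup.mk (s γ c) := by
  have h1 : ∀ γ, D ≤ D.comap (s γ).toMonoidHom := fun γ a ha => hD γ a ha
  let f : Γ → (C ⧸ D) →* (C ⧸ D) := fun γ => QuotientGroup.map D D (s γ).toMonoidHom (h1 γ)
  have hf : ∀ γ (c : C), f γ (QuotientGroup.mk c) = QuotientGroup.mk (s γ c) := fun γ c => rfl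
  have hf1 : ∀ x, f 1 x = x := by
    intro x
    obtain ⟨c, rfl⟩ := QuotientGroup.mk_surjective x
    rw [hf, map_one]
    rfl
  have hfm : ∀ γ γ' x, f (γ * γ') x = f γ (f γ' x) := by
    intro γ γ' x
    obtain ⟨c, rfl⟩ := QuotientGroup.mk_surjective x
    rw [hf, hf, hf, map_mul]
    rfl
  refine ⟨
    { toFun := fun γ =>
        { toFun := f γ
          invFun := f γ⁻¹
          left_inv := fun x => by rw [← hfm, inv_mul_cancel, hf1]
          right_inv := fun x => by rw [← hfm, mul_inv_cancel, hf1]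
          map_mul' := map_mul (f γ) }
      map_one' := by
        ext x
        exact hf1 x
      map_mul' := fun γ γ' => by
        ext x
        exact hfm γ γ' x }, fun γ c => rfl⟩

theorem ModK_ind (Γ : Type) [Group Γ] [Finite Γ] (l : ℕ) (hl : l.Prime)
    (hco : (Nat.card Γ).Coprime l) (n : ℕ) : ∀ (C : Type) [CommGroup C] [Finite C]
    (s : Γ →* MulAut C), Nat.card C = n →
    ∃ κ : C →* C, (∀ γ c, κ (s γ c) = s γ (κ c)) ∧ (∀ c, κ c ^ l = 1) ∧
      ∀ c : C, c ^ l = 1 → ∃ c', κ c' = c := by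
  induction n using Nat.strong_induction_on with
  | _ n ih =>
    intro C _ _ s hn
    by_cases hB : ∀ c : C, c ^ l = 1 → c = 1
    · refine ⟨1, fun γ c => ?_, fun c => ?_, fun c hc => ⟨1, ?_⟩⟩
      · rw [MonoidHom.one_apply, MonoidHom.one_apply, map_one]
      · rw [MonoidHom.one_apply, one_pow]
      · rw [MonoidHom.one_apply, hB c hc]
    push Not at hB
    obtain ⟨b₀, hb₀, hb₀'⟩ := hB
    obtain ⟨P, hP⟩ : ∃ P : C →* C, P = powMonoidHom l := ⟨_, rfl⟩
    have hPa : ∀ c, P c = c ^ l := fun c => by rw [hP]; rfl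
    have hker : ∀ c, c ∈ P.ker ↔ c ^ l = 1 := fun c => by rw [MonoidHom.mem_ker, hPa]
    have hran : ∀ γ, ∀ a ∈ P.range, s γ a ∈ P.range := by
      rintro γ _ ⟨a, rfl⟩
      exact ⟨s γ a, by rw [hPa, hPa, map_pow]⟩
    have hkers : ∀ γ, ∀ a ∈ P.ker, s γ a ∈ P.ker := by
      intro γ a ha
      rw [hker] at ha ⊢
      rw [← map_pow, ha, map_one]
    have hlt : Nat.card P.range < n := by
      have h1 : ¬ Function.Injective P := by
        intro h2
        apply hb₀'
        apply h2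
        rw [hPa, map_one, hb₀]
      rw [Finite.injective_iff_surjective] at h1
      have h2 : ∃ x, ¬ x ∈ P.range := by
        by_contra h3
        push Not at h3
        exact h1 h3
      obtain ⟨x, hx⟩ := h2
      rw [← hn]
      exact Finite.card_subtype_lt hx
    obtain ⟨κ₁, k1, k2, k3⟩ := ih _ hlt P.range (ModK_sub s P.range hran) rfl
    let α : C →* C := P.range.subtype.comp (κ₁.comp P.rangeRestrict)
    have hα : ∀ c, α c = (κ₁ (P.rangeRestrict c) : C) := fun c => rfl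
    have hα1 : ∀ c ∈ P.ker, α c = 1 := by
      intro c hc
      have h1 : P.rangeRestrict c = 1 := Subtype.ext hc
      rw [hα, h1, map_one]
      rfl
    have hαs : ∀ γ c, α (s γ c) = s γ (α c) := by
      intro γ c
      have h1 : P.rangeRestrict (s γ c) = ModK_sub s P.range hran γ (P.rangeRestrict c) := by
        apply Subtype.ext
        change P (s γ c) = s γ (P c)
        rw [hPa, hPa, map_pow]
      rw [hα, h1, k1]
      rfl
    have hαl : ∀ c, α c ^ l = 1 := by
      intro c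
      have h1 := congrArg Subtype.val (k2 (P.rangeRestrict c))
      exact h1
    -- the retraction of the torsion onto the torsion of the range
    subst hP
    obtain ⟨ρ, r1, r2, r3⟩ := retract Γ C s l hl hco
      ((powMonoidHom l : C →* C).range ⊓ (powMonoidHom l : C →* C).ker)
      (fun γ a ha => ⟨hran γ a ha.1, hkers γ a ha.2⟩) (fun a ha => (hker a).1 ha.2)
    -- the retraction of the quotient
    obtain ⟨t, ht⟩ := ModK_quo s (powMonoidHom l : C →* C).range hran
    have hfinD : Finite (C ⧸ (powMonoidHom l : C →* C).range) := inferInstance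
    obtain ⟨ρ', q1, q2, q3⟩ := retract Γ (C ⧸ (powMonoidHom l : C →* C).range) t l hl hco
      ((powMonoidHom l : C →* C).ker.map (QuotientGroup.mk' (powMonoidHom l : C →* C).range))
      (by
        rintro γ _ ⟨a, ha, rfl⟩
        exact ⟨s γ a, hkers γ a ha, (ht γ a).symm⟩)
      (by
        rintro _ ⟨a, ha, rfl⟩
        rw [← map_pow, (hker a).1 ha, map_one])
    have hD : ∀ c : C, (QuotientGroup.mk c : C ⧸ (powMonoidHom l : C →* C).range) ∈
        (powMonoidHom l : (C ⧸ (powMonoidHom l : C →* C).range) →*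
          (C ⧸ (powMonoidHom l : C →* C).range)).ker := by
      intro c
      rw [MonoidHom.mem_ker, powMonoidHom_apply, ← QuotientGroup.mk_pow,
        QuotientGroup.eq_one_iff]
      exact ⟨c, rfl⟩
    have hβ : ∀ c : C, ∃ x : (powMonoidHom l : C →* C).ker, ρ x = 1 ∧
        (QuotientGroup.mk (x : C) : C ⧸ (powMonoidHom l : C →* C).range) =
          ρ' ⟨QuotientGroup.mk c, hD c⟩ := by
      intro c
      obtain ⟨b, hb, e⟩ := q1 ⟨QuotientGroup.mk c, hD c⟩
      have h1 := r1 ⟨b, hb⟩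
      refine ⟨⟨b, hb⟩ * ⟨ρ ⟨b, hb⟩, h1.2⟩⁻¹, ?_, ?_⟩
      · rw [map_mul, map_inv, r2 ⟨ρ ⟨b, hb⟩, h1.2⟩ h1, mul_inv_cancel]
      · rw [← e, Subgroup.coe_mul, Subgroup.coe_inv]
        change (QuotientGroup.mk (b * (ρ ⟨b, hb⟩)⁻¹) : C ⧸ (powMonoidHom l : C →* C).range) =
          QuotientGroup.mk b
        rw [QuotientGroup.eq]
        have h2 : (b * (ρ ⟨b, hb⟩)⁻¹)⁻¹ * b = ρ ⟨b, hb⟩ := by
          rw [mul_inv, inv_inv, mul_right_comm, inv_mul_cancel, one_mul]
        rw [h2]
        exact h1.1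
    have huniq : ∀ x y : (powMonoidHom l : C →* C).ker, ρ x = 1 → ρ y = 1 →
        (QuotientGroup.mk (x : C) : C ⧸ (powMonoidHom l : C →* C).range) =
          QuotientGroup.mk (y : C) → x = y := by
      intro x y hx hy hxy
      rw [QuotientGroup.eq] at hxy
      have h1 := r2 (x⁻¹ * y) ⟨hxy, (x⁻¹ * y).2⟩
      rw [map_mul, map_inv, hx, hy, inv_one, one_mul] at h1
      have h2 : x⁻¹ * y = 1 := Subtype.ext h1.symm
      exact (inv_mul_eq_one.1 h2)
    choose β hβ1 hβ2 using hβ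
    have hβm : ∀ c c', β (c * c') = β c * β c' := by
      intro c c'
      refine huniq _ _ (hβ1 _) (by rw [map_mul, hβ1, hβ1, one_mul]) ?_
      refine (hβ2 _).trans ?_
      have h1 : ρ' ⟨QuotientGroup.mk (c * c'), hD (c * c')⟩ =
          ρ' ⟨QuotientGroup.mk c, hD c⟩ * ρ' ⟨QuotientGroup.mk c', hD c'⟩ := by
        rw [← map_mul]
        rfl
      rw [h1, ← hβ2, ← hβ2]
      rfl
    have hβs : ∀ γ c, (β (s γ c) : C) = s γ (β c) := by
      intro γ c
      have h1 : β (s γ c) = ⟨s γ (β c), hkers γ _ (β c).2⟩ := by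
        refine huniq _ _ (hβ1 _) ?_ ?_
        · rw [r3 γ (β c) ⟨s γ (β c), hkers γ _ (β c).2⟩ rfl, hβ1, map_one]
        · refine (hβ2 _).trans ?_
          have h2 := q3 γ ⟨QuotientGroup.mk c, hD c⟩ ⟨QuotientGroup.mk (s γ c), hD (s γ c)⟩
            (ht γ c).symm
          rw [h2, ← hβ2, ht]
      rw [h1]
    have hβb : ∀ b : (powMonoidHom l : C →* C).ker, ρ b = 1 → β b = b := by
      intro b hb
      refine huniq _ _ (hβ1 _) hb ?_
      rw [hβ2]
      exact q2 ⟨QuotientGroup.mk (b : C), hD b⟩ ⟨b, b.2, rfl⟩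
    let β' : C →* C := MonoidHom.mk' (fun c => (β c : C)) (fun c c' => by
      rw [hβm]
      rfl)
    have hβ' : ∀ c, β' c = (β c : C) := fun c => rfl
    refine ⟨α * β', fun γ c => ?_, fun c => ?_, fun c hc => ?_⟩
    · rw [MonoidHom.mul_apply, MonoidHom.mul_apply, hαs, hβ', hβs, map_mul, hβ']
    · rw [MonoidHom.mul_apply, mul_pow, hαl, hβ', (hker _).1 (β c).2, one_mul]
    · obtain ⟨b, hb⟩ : ∃ b : (powMonoidHom l : C →* C).ker, (b : C) = c :=
        ⟨⟨c, (hker c).2 hc⟩, rfl⟩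
      have h1 := r1 b
      obtain ⟨c₁, hc₁⟩ := k3 ⟨ρ b, h1.1⟩ (Subtype.ext ((hker _).1 h1.2))
      obtain ⟨_, c', rfl⟩ := c₁
      have h2 : α c' = ρ b := by
        have h3 := congrArg Subtype.val hc₁
        exact h3
      have h4 : (ρ b) ∈ (powMonoidHom l : C →* C).ker := h1.2
      have h5 : ρ (b * (⟨ρ b, h4⟩ : (powMonoidHom l : C →* C).ker)⁻¹) = 1 := by
        rw [map_mul, map_inv, r2 ⟨ρ b, h4⟩ h1, mul_inv_cancel]
      have h6 := hβb _ h5
      have h7 := hβb (β c') (hβ1 c')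
      refine ⟨c' * (β c' : C)⁻¹ * (b * (⟨ρ b, h4⟩ : (powMonoidHom l : C →* C).ker)⁻¹ :
        (powMonoidHom l : C →* C).ker), ?_⟩
      rw [MonoidHom.mul_apply, map_mul, map_mul, map_inv, h2, hα1 _ (β c').2,
        hα1 _ (Subtype.mem _), inv_one, mul_one, mul_one, map_mul, map_mul, map_inv, hβ', hβ', hβ',
        h6, h7, mul_inv_cancel, one_mul, Subgroup.coe_mul, Subgroup.coe_inv, hb]
      change ρ b * (c * (ρ b)⁻¹) = c
      rw [mul_left_comm, mul_inv_cancel, mul_one]

/-- an equivariant surjection of `C` onto its `l`-torsion -/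
theorem kappa (Γ C : Type) [Group Γ] [Finite Γ] [CommGroup C] [Finite C]
    (s : Γ →* MulAut C) (l : ℕ) (hl : l.Prime) (hco : (Nat.card Γ).Coprime l) :
    ∃ κ : C →* C, (∀ γ c, κ (s γ c) = s γ (κ c)) ∧ (∀ c, κ c ^ l = 1) ∧
      ∀ c : C, c ^ l = 1 → ∃ c', κ c' = c :=
  ModK_ind Γ l hl hco _ C s rfl

end Pool.Agent.AB
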