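import Mathlib

/-!
# The number of ideals from above (piece Ub)
-/

set_option autoImplicit false
set_option linter.unusedSectionVars false

namespace Pool.Agent.AB

/-- multiplicativity of the index of ideals in a Dedekind domain with finite quotients -/
theorem card_quot_mul (B : Type) [CommRing B] [IsDedekindDomain B]
    (hfin : ∀ I : Ideal B, I ≠ ⊥ → Finite (B ⧸ I)) (I J : Ideal B) (hI : I ≠ ⊥) (hJ : J ≠ ⊥) :
    Nat.card (B ⧸ I * J) = Nat.card (B ⧸ I) * Nat.card (B ⧸ J) := by
  rcases finite_or_infinite B with hB | hB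
  · have hF : IsField B := Finite.isField_of_domain B
    have key : ∀ K : Ideal B, K ≠ ⊥ → K = ⊤ := by
      intro K hK
      obtain ⟨x, hx, hx0⟩ := Submodule.exists_mem_ne_zero_of_ne_bot hK
      obtain ⟨y, hy⟩ := hF.mul_inv_cancel hx0
      exact Ideal.eq_top_of_isUnit_mem K hx (IsUnit.of_mul_eq_one y hy)
    have h1 := key I hI
    have h2 := key J hJ
    subst h1; subst h2
    have : Subsingleton (B ⧸ (⊤ : Ideal B)) := Ideal.Quotient.subsingleton_iff.mpr rfl
    have h3 : Nat.card (B ⧸ (⊤ : Ideal B)) = 1 := Nat.card_unique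
    rw [Ideal.mul_top, h3]
  · have h := UniqueFactorizationMonoid.multiplicative_of_coprime
      (fun K : Ideal B => Submodule.cardQuot K) I J (Submodule.cardQuot_bot _ _)
      (fun {I J} hI => by simp [Ideal.isUnit_iff.mp hI, Ideal.mul_top])
      (fun {I} i hI =>
        have : Ideal.IsPrime I := Ideal.isPrime_of_prime hI
        cardQuot_pow_of_prime hI.ne_zero)
      (fun {I J} hIJ => cardQuot_mul_of_coprime <| Ideal.isCoprime_iff_sup_eq.mpr
        (Ideal.isUnit_iff.mp
          (hIJ (Ideal.dvd_iff_le.mpr le_sup_left) (Ideal.dvd_iff_le.mpr le_sup_right))))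
    simpa [Submodule.cardQuot_apply] using h

/-- quotients of a finite torsion free algebra over `k[X]` are finite -/
theorem finite_quot_poly (k B : Type) [Field k] [Finite k] [CommRing B] [IsDomain B]
    [Algebra (Polynomial k) B] [Module.Finite (Polynomial k) B]
    (hinj : Function.Injective (algebraMap (Polynomial k) B)) (I : Ideal B) (hI : I ≠ ⊥) :
    Finite (B ⧸ I) := by
  obtain ⟨x, hx, hx0⟩ := Submodule.exists_mem_ne_zero_of_ne_bot hI
  have hint : Algebra.IsIntegral (Polynomial k) B := inferInstance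
  have h1 : I.comap (algebraMap (Polynomial k) B) ≠ ⊥ :=
    Ideal.comap_ne_bot_of_integral_mem hx0 hx (hint.isIntegral x)
  obtain ⟨f, hf, hf0⟩ := Submodule.exists_mem_ne_zero_of_ne_bot h1
  set J : Ideal (Polynomial k) := I.comap (algebraMap (Polynomial k) B) with hJ
  have hfinJ : Finite (Polynomial k ⧸ J) := by
    have h2 : Finite (Polynomial k ⧸ Ideal.span {f}) := by
      have : Module.Finite k (AdjoinRoot f) := by
        have := (AdjoinRoot.powerBasis hf0).finite
        exact this
      exact Module.finite_of_finite k (M := AdjoinRoot f)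
    have hle : Ideal.span {f} ≤ J := by
      rw [Ideal.span_singleton_le_iff_mem]; exact hf
    exact Finite.of_surjective _ (Ideal.Quotient.factor_surjective hle)
  have : Module.Finite (Polynomial k ⧸ J) (B ⧸ I) := by
    have h3 : Module.Finite (Polynomial k) (B ⧸ I) := inferInstance
    exact Module.Finite.of_restrictScalars_finite (Polynomial k) (Polynomial k ⧸ J) (B ⧸ I)
  exact Module.finite_of_finite (Polynomial k ⧸ J)

/-- ideals of bounded index: they divide a fixed nonzero ideal -/
theorem exists_common (k B : Type) [Field k] [Finite k] [CommRing B] [IsDomain B]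
    [Algebra (Polynomial k) B] [Module.Finite (Polynomial k) B]
    (hinj : Function.Injective (algebraMap (Polynomial k) B)) (M : ℕ) :
    ∃ F : B, F ≠ 0 ∧ ∀ I : Ideal B, I ≠ ⊥ → Nat.card (B ⧸ I) ≤ M → F ∈ I := by
  classical
  refine ⟨∏ ij ∈ (Finset.range (M + 1) ×ˢ Finset.range (M + 1)).filter (fun ij => ij.1 < ij.2),
    algebraMap (Polynomial k) B (Polynomial.X ^ ij.2 - Polynomial.X ^ ij.1), ?_, ?_⟩
  · rw [Finset.prod_ne_zero_iff]
    intro ij hij
    have hlt := (Finset.mem_filter.mp hij).2
    rw [Ne, map_eq_zero_iff _ hinj, sub_eq_zero]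
    intro h
    have := congrArg Polynomial.natDegree h
    simp at this
    omega
  · intro I hI hc
    have hfin := finite_quot_poly k B hinj I hI
    have hF : Fintype (B ⧸ I) := Fintype.ofFinite _
    rw [Nat.card_eq_fintype_card] at hc
    obtain ⟨i, j, hij, he⟩ := Fintype.exists_ne_map_eq_of_card_lt
      (fun i : Fin (M + 1) => Ideal.Quotient.mk I (algebraMap (Polynomial k) B (Polynomial.X ^ (i : ℕ))))
      (by rw [Fintype.card_fin]; omega)
    have key : ∀ a b : Fin (M + 1), (a : ℕ) < b →
        Ideal.Quotient.mk I (algebraMap (Polynomial k) B (Polynomial.X ^ (a : ℕ))) =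
        Ideal.Quotient.mk I (algebraMap (Polynomial k) B (Polynomial.X ^ (b : ℕ))) →
        ∃ ij ∈ (Finset.range (M + 1) ×ˢ Finset.range (M + 1)).filter (fun ij => ij.1 < ij.2),
          algebraMap (Polynomial k) B (Polynomial.X ^ ij.2 - Polynomial.X ^ ij.1) ∈ I := by
      intro a b hab h
      refine ⟨((a : ℕ), (b : ℕ)), ?_, ?_⟩
      · simp only [Finset.mem_filter, Finset.mem_product, Finset.mem_range]
        exact ⟨⟨a.2, b.2⟩, hab⟩
      · rw [map_sub]
        exact Ideal.Quotient.eq.mp h.symm
    obtain ⟨ij, hm, hmem⟩ : ∃ ij ∈ (Finset.range (M + 1) ×ˢ Finset.range (M + 1)).filter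
        (fun ij => ij.1 < ij.2),
          algebraMap (Polynomial k) B (Polynomial.X ^ ij.2 - Polynomial.X ^ ij.1) ∈ I := by
      rcases lt_or_gt_of_ne (fun h => hij (Fin.ext h) : (i : ℕ) ≠ j) with h | h
      · exact key i j h he
      · exact key j i h he.symm
    exact Ideal.mem_of_dvd I (Finset.dvd_prod_of_mem _ hm) hmem

/-- degree bound for the norm -/
theorem norm_natDegree_le {k B ι : Type} [Field k] [CommRing B]
    [Algebra (Polynomial k) B] [Fintype ι] [DecidableEq ι]
    (w : Module.Basis ι (Polynomial k) B) :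
    ∃ D : ℕ, ∀ (m : ℕ) (f : ι → Polynomial k), (∀ i, (f i).natDegree ≤ m) →
      (Algebra.norm (Polynomial k) (∑ i, f i • w i)).natDegree ≤ Fintype.card ι * (m + D) := by
  classical
  let c : ι → ι → ι → Polynomial k := fun i a b => Algebra.leftMulMatrix w (w i) a b
  refine ⟨∑ i, ∑ a, ∑ b, (c i a b).natDegree, ?_⟩
  intro m f hf
  have hc : ∀ i a b, (c i a b).natDegree ≤ ∑ i, ∑ a, ∑ b, (c i a b).natDegree := by
    intro i a b
    calc (c i a b).natDegree ≤ ∑ b, (c i a b).natDegree :=
          Finset.single_le_sum (f := fun b => (c i a b).natDegree) (fun _ _ => Nat.zero_le _) (Finset.mem_univ b)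
      _ ≤ ∑ a, ∑ b, (c i a b).natDegree :=
          Finset.single_le_sum (f := fun a => ∑ b, (c i a b).natDegree) (fun _ _ => Nat.zero_le _) (Finset.mem_univ a)
      _ ≤ _ :=
          Finset.single_le_sum (f := fun i => ∑ a, ∑ b, (c i a b).natDegree) (fun _ _ => Nat.zero_le _) (Finset.mem_univ i)
  set D := ∑ i, ∑ a, ∑ b, (c i a b).natDegree with hD
  rw [Algebra.norm_eq_matrix_det w, Matrix.det_apply]
  have hent : ∀ a b, (Algebra.leftMulMatrix w (∑ i, f i • w i) a b).natDegree ≤ m + D := by
    intro a b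
    have : Algebra.leftMulMatrix w (∑ i, f i • w i) a b = ∑ i, f i * c i a b := by
      rw [map_sum, Matrix.sum_apply]
      refine Finset.sum_congr rfl fun i _ => ?_
      rw [map_smul, Matrix.smul_apply, smul_eq_mul]
    rw [this]
    refine Polynomial.natDegree_sum_le_of_forall_le _ _ fun i _ => ?_
    refine le_trans Polynomial.natDegree_mul_le ?_
    exact add_le_add (hf i) (hc i a b)
  refine Polynomial.natDegree_sum_le_of_forall_le _ _ fun σ _ => ?_
  refine le_trans (Polynomial.natDegree_smul_le _ _) ?_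
  refine le_trans (Polynomial.natDegree_prod_le _ _) ?_
  calc ∑ i, (Algebra.leftMulMatrix w (∑ i, f i • w i) (σ i) i).natDegree ≤ ∑ _i : ι, (m + D) :=
        Finset.sum_le_sum fun i _ => hent _ _
    _ = Fintype.card ι * (m + D) := by simp

/-- the number of ideals of index `q ^ n` is at most a constant times `q ^ n` -/
theorem ideals_upper (k B : Type) [Field k] [Finite k] [CommRing B] [IsDedekindDomain B]
    [Algebra (Polynomial k) B] [Module.Finite (Polynomial k) B]
    (hinj : Function.Injective (algebraMap (Polynomial k) B)) :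
    ∃ C : ℕ, ∀ (n : ℕ) (s : Finset (Ideal B)),
      (∀ I ∈ s, I ≠ ⊥ ∧ Nat.card (B ⧸ I) = Nat.card k ^ n) → s.card ≤ C * Nat.card k ^ n := by
  classical
  have htf : Module.IsTorsionFree (Polynomial k) B := by
    have : FaithfulSMul (Polynomial k) B := (faithfulSMul_iff_algebraMap_injective _ _).mpr hinj
    infer_instance
  have hfree : Module.Free (Polynomial k) B := inferInstance
  let ι := Module.Free.ChooseBasisIndex (Polynomial k) B
  let w : Module.Basis ι (Polynomial k) B := Module.Free.chooseBasis (Polynomial k) B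
  let g := Fintype.card ι
  have hg : 0 < g := by
    have : Nonempty ι := w.index_nonempty
    exact Fintype.card_pos
  obtain ⟨D, hD⟩ := norm_natDegree_le w
  set q := Nat.card k with hq
  have hq2 : 1 < q := Finite.one_lt_card
  obtain ⟨F, hF0, hF⟩ := exists_common k B hinj (q ^ (g * D))
  have hsp : Ideal.span {F} ≠ (0 : Ideal B) := by
    rw [Ne, Ideal.zero_eq_bot, Ideal.span_singleton_eq_bot]; exact hF0
  let _ : Fintype {J : Ideal B // J ∣ Ideal.span {F}} :=
    UniqueFactorizationMonoid.fintypeSubtypeDvd _ hsp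
  let algk : Algebra k B := Algebra.compHom B (Polynomial.C : k →+* Polynomial k)
  have : IsScalarTower k (Polynomial k) B := by
    refine IsScalarTower.of_algebraMap_eq fun x => ?_
    rfl
  refine ⟨Fintype.card {J : Ideal B // J ∣ Ideal.span {F}} * q ^ g, ?_⟩
  intro n s hs
  set m := n / g with hm
  have hm1 : n < g * (m + 1) := by
    rw [hm]
    exact Nat.lt_mul_div_succ n hg
  have hm2 : g * m ≤ n := by rw [hm]; exact Nat.mul_div_le n g
  have hfinP : Finite (Polynomial.degreeLT k (m + 1)) :=
    Finite.of_equiv _ (Polynomial.degreeLTEquiv k (m + 1)).toEquiv.symm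
  let P := ι → Polynomial.degreeLT k (m + 1)
  let _ : Fintype (Polynomial.degreeLT k (m + 1)) := Fintype.ofFinite _
  have hcP : Fintype.card P = q ^ (g * (m + 1)) := by
    have h1 : Fintype.card (Polynomial.degreeLT k (m + 1)) = q ^ (m + 1) := by
      rw [← Nat.card_eq_fintype_card, Nat.card_congr (Polynomial.degreeLTEquiv k (m + 1)).toEquiv,
        Nat.card_fun, Nat.card_fin]
    rw [Fintype.card_fun, h1, ← pow_mul, mul_comm]
  let Φ : P → B := fun f => ∑ i, ((f i : Polynomial k)) • w i
  have hΦsub : ∀ f f' : P, Φ (f - f') = Φ f - Φ f' := by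
    intro f f'
    change ∑ i, (((f i : Polynomial k)) - ((f' i : Polynomial k))) • w i =
      (∑ i, ((f i : Polynomial k)) • w i) - ∑ i, ((f' i : Polynomial k)) • w i
    rw [← Finset.sum_sub_distrib]
    exact Finset.sum_congr rfl fun i _ => sub_smul _ _ _
  have hΦ0 : ∀ f : P, Φ f = 0 → f = 0 := by
    intro f hf
    have := Fintype.linearIndependent_iff.mp w.linearIndependent (fun i => (f i : Polynomial k)) hf
    funext i
    exact Subtype.ext (this i)
  -- the element of an ideal
  have h1 : ∀ I : Ideal B, I ≠ ⊥ → Nat.card (B ⧸ I) = q ^ n → ∃ f : P, f ≠ 0 ∧ Φ f ∈ I := by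
    intro I hI hc
    have hfin := finite_quot_poly k B hinj I hI
    let _ : Fintype (B ⧸ I) := Fintype.ofFinite _
    rw [Nat.card_eq_fintype_card] at hc
    obtain ⟨f, f', hne, he⟩ := Fintype.exists_ne_map_eq_of_card_lt
      (fun f : P => Ideal.Quotient.mk I (Φ f)) (by
        rw [hc, hcP]; exact Nat.pow_lt_pow_right hq2 hm1)
    refine ⟨f - f', sub_ne_zero.mpr hne, ?_⟩
    rw [hΦsub]
    exact Ideal.Quotient.eq.mp he
  have h2 : ∀ I : Ideal B, I ≠ ⊥ → Nat.card (B ⧸ I) = q ^ n →
      ∃ (f : P) (J : Ideal B), f ≠ 0 ∧ I * J = Ideal.span {Φ f} ∧ J ∣ Ideal.span {F} ∧ J ≠ ⊥ := by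
    intro I hI hc
    obtain ⟨f, hf0, hfI⟩ := h1 I hI hc
    have hΦf : Φ f ≠ 0 := fun h => hf0 (hΦ0 f h)
    obtain ⟨J, hJ⟩ := Ideal.dvd_span_singleton.mpr hfI
    have hJ0 : J ≠ ⊥ := by
      rintro rfl
      rw [Ideal.mul_bot, Ideal.span_singleton_eq_bot] at hJ
      exact hΦf hJ
    refine ⟨f, J, hf0, hJ.symm, ?_, hJ0⟩
    rw [Ideal.dvd_span_singleton]
    apply hF J hJ0
    -- index of J
    have hmul := card_quot_mul B (finite_quot_poly k B hinj) I J hI hJ0
    rw [← hJ] at hmul
    have hnd := hD m (fun i => (f i : Polynomial k)) (fun i => by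
      have := (Polynomial.mem_degreeLT.mp (f i).2)
      by_cases h0 : (f i : Polynomial k) = 0
      · rw [h0]; simp
      · rw [← Nat.lt_succ_iff]
        exact (Polynomial.natDegree_lt_iff_degree_lt h0).mpr this)
    have hfr := finrank_quotient_span_eq_natDegree_norm (F := k) w hΦf
    have hfinS : Finite (B ⧸ Ideal.span {Φ f}) := by
      apply finite_quot_poly k B hinj
      rw [Ne, Ideal.span_singleton_eq_bot]; exact hΦf
    have hmf : Module.Finite k (B ⧸ Ideal.span {Φ f}) := Module.Finite.of_finite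
    have hcard : Nat.card (B ⧸ Ideal.span {Φ f}) =
        q ^ (Algebra.norm (Polynomial k) (Φ f)).natDegree := by
      rw [← hfr]
      exact Module.natCard_eq_pow_finrank (K := k)
    have hle : q ^ n * Nat.card (B ⧸ J) ≤ q ^ n * q ^ (g * D) := by
      rw [← hc, ← hmul, hcard, hc, ← pow_add]
      apply Nat.pow_le_pow_right (by omega)
      refine le_trans hnd ?_
      change g * (m + D) ≤ _
      rw [mul_add]; omega
    exact Nat.le_of_mul_le_mul_left hle (pow_pos (by omega) n)
  choose! fF fJ hh0 hmulJ hdvd hne using h2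
  let T := P × {J : Ideal B // J ∣ Ideal.span {F}}
  have hinjT : s.card ≤ Fintype.card T := by
    let G : {x // x ∈ s} → T := fun I =>
      (fF I.1, ⟨fJ I.1, hdvd I.1 (hs I.1 I.2).1 (hs I.1 I.2).2⟩)
    have hG : Function.Injective G := by
      rintro ⟨I, hI⟩ ⟨I', hI'⟩ h
      have e1 : fF I = fF I' := congrArg Prod.fst h
      have e2 : fJ I = fJ I' := congrArg (fun t => (t.2 : Ideal B)) h
      have m1 := hmulJ I (hs I hI).1 (hs I hI).2
      have m2 := hmulJ I' (hs I' hI').1 (hs I' hI').2
      rw [e1, e2, ← m2] at m1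
      have := mul_right_cancel₀ (hne I' (hs I' hI').1 (hs I' hI').2) m1
      exact Subtype.ext this
    have := Fintype.card_le_of_injective G hG
    simpa using this
  refine le_trans hinjT ?_
  rw [Fintype.card_prod, hcP, mul_comm (q ^ _), mul_assoc, ← pow_add]
  refine Nat.mul_le_mul_left _ (Nat.pow_le_pow_right (by omega) ?_)
  rw [mul_add, mul_one]; omega

end Pool.Agent.AB
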