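import Pool.Agent.Lib.MP_5de024_nt.C.Idx
import Pool.Agent.Lib.MP_5de024_nt.C.Ub

/-!
# Counting (piece NdA)
-/

set_option autoImplicit false
set_option linter.unusedSectionVars false

namespace Pool.Agent.AB

open UniqueFactorizationMonoid

/-- multiplicativity of the index for a product of several ideals -/
theorem nda_card_prod (B : Type) [CommRing B] [IsDedekindDomain B]
    (hfin : ∀ I : Ideal B, I ≠ ⊥ → Finite (B ⧸ I)) (m : Multiset (Ideal B))
    (hm : ∀ Q ∈ m, Q ≠ ⊥) : m.prod ≠ ⊥ ∧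
      Nat.card (B ⧸ m.prod) = (m.map fun Q => Nat.card (B ⧸ Q)).prod := by
  induction m using Multiset.induction with
  | empty =>
    rw [Multiset.prod_zero, Multiset.map_zero, Multiset.prod_zero, Ideal.one_eq_top]
    refine ⟨top_ne_bot, ?_⟩
    have : Subsingleton (B ⧸ (⊤ : Ideal B)) := Ideal.Quotient.subsingleton_iff.2 rfl
    exact Nat.card_of_subsingleton 0
  | cons Q m ih =>
    obtain ⟨h1, h2⟩ := ih fun Q' hQ' => hm Q' (Multiset.mem_cons_of_mem hQ')
    have hQ := hm Q (Multiset.mem_cons_self Q m)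
    rw [Multiset.prod_cons, Multiset.map_cons, Multiset.prod_cons, ← h2]
    exact ⟨mul_ne_zero hQ h1, card_quot_mul B hfin Q m.prod hQ h1⟩

/-- the pair of multisets is determined by the sum of the images -/
theorem nda_inj {α β : Type*} (f g : α → β) (r : β → α) (S : Set α) (hf : ∀ a ∈ S, r (f a) = a)
    (hg : ∀ a ∈ S, r (g a) = a) (hfg : ∀ a ∈ S, f a ≠ g a) (m n m' n' : Multiset α)
    (hm : ∀ a ∈ m, a ∈ S) (hn : ∀ a ∈ n, a ∈ S) (hm' : ∀ a ∈ m', a ∈ S)
    (hn' : ∀ a ∈ n', a ∈ S) (h : m.map f + n.map g = m'.map f + n'.map g) :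
    m = m' ∧ n = n' := by
  classical
  have key1 : ∀ m n : Multiset α, (∀ a ∈ m, a ∈ S) → (∀ a ∈ n, a ∈ S) →
      ((m.map f + n.map g).filter fun b => b = f (r b)).map r = m := by
    intro m n hm hn
    rw [Multiset.filter_add, (Multiset.filter_eq_self (s := m.map f)).2,
      (Multiset.filter_eq_nil (s := n.map g)).2, add_zero, Multiset.map_map]
    · conv_rhs => rw [← Multiset.map_id m]
      exact Multiset.map_congr rfl fun a ha => hf a (hm a ha)
    · intro b hb hb'
      obtain ⟨a, ha, rfl⟩ := Multiset.mem_map.1 hb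
      rw [hg a (hn a ha)] at hb'
      exact hfg a (hn a ha) hb'.symm
    · intro b hb
      obtain ⟨a, ha, rfl⟩ := Multiset.mem_map.1 hb
      rw [hf a (hm a ha)]
  have key2 : ∀ m n : Multiset α, (∀ a ∈ m, a ∈ S) → (∀ a ∈ n, a ∈ S) →
      ((m.map f + n.map g).filter fun b => b ≠ f (r b)).map r = n := by
    intro m n hm hn
    rw [Multiset.filter_add, (Multiset.filter_eq_nil (s := m.map f)).2,
      (Multiset.filter_eq_self (s := n.map g)).2, zero_add, Multiset.map_map]
    · conv_rhs => rw [← Multiset.map_id n]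
      exact Multiset.map_congr rfl fun a ha => hg a (hn a ha)
    · intro b hb hb'
      obtain ⟨a, ha, rfl⟩ := Multiset.mem_map.1 hb
      rw [hg a (hn a ha)] at hb'
      exact hfg a (hn a ha) hb'.symm
    · intro b hb hb'
      obtain ⟨a, ha, rfl⟩ := Multiset.mem_map.1 hb
      rw [hf a (hm a ha)] at hb'
      exact hb' rfl
  constructor
  · rw [← key1 m n hm hn, h, key1 m' n' hm' hn']
  · rw [← key2 m n hm hn, h, key2 m' n' hm' hn']

/-- counting: two primes of degree one of `B` over almost all primes of `R` are impossible -/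
theorem no_double (k R B : Type) [Field k] [Finite k] [CommRing R] [IsDedekindDomain R]
    [Algebra k R] (X : OneInf k R) [CommRing B] [IsDedekindDomain B]
    [Algebra (Polynomial k) B] [Module.Finite (Polynomial k) B]
    (hinj : Function.Injective (algebraMap (Polynomial k) B)) [Algebra R B]
    (T : Ideal R) (hT : T ≠ ⊥)
    (h : ∀ P : Ideal R, P.IsMaximal → P ⊔ T = ⊤ → ∃ Q1 Q2 : Ideal B, Q1.IsMaximal ∧
      Q2.IsMaximal ∧ Q1 ≠ Q2 ∧ Q1.comap (algebraMap R B) = P ∧
      Q2.comap (algebraMap R B) = P ∧ Nat.card (B ⧸ Q1) = Nat.card (R ⧸ P) ∧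
      Nat.card (B ⧸ Q2) = Nat.card (R ⧸ P)) : False := by
  classical
  have hfinR : ∀ I : Ideal R, I ≠ ⊥ → Finite (R ⧸ I) := fun I hI => finite_quot X I hI
  have hfinB : ∀ I : Ideal B, I ≠ ⊥ → Finite (B ⧸ I) := finite_quot_poly k B hinj
  choose! Q1 Q2 hQ using h
  let S : Set (Ideal R) := {P | P.IsMaximal ∧ P ⊔ T = ⊤ ∧ P ≠ ⊥}
  have hBinf : ¬ Finite (B ⧸ (⊥ : Ideal B)) := by
    intro hf
    have hinf : Infinite B := Infinite.of_injective _ hinj
    have h1 : Finite B := Finite.of_equiv _ (RingEquiv.quotientBot B).toEquiv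
    exact not_finite B
  have hne : ∀ P ∈ S, Q1 P ≠ ⊥ ∧ Q2 P ≠ ⊥ := by
    rintro P ⟨h1, h2, h3⟩
    have hf : Nat.card (R ⧸ P) ≠ 0 := by
      have := hfinR P h3
      exact Nat.card_pos.ne'
    obtain ⟨_, _, _, _, _, e1, e2⟩ := hQ P h1 h2
    constructor
    · intro h0
      rw [h0] at e1
      rw [← e1] at hf
      exact hBinf (Nat.finite_of_card_ne_zero hf)
    · intro h0
      rw [h0] at e2
      rw [← e2] at hf
      exact hBinf (Nat.finite_of_card_ne_zero hf)
  -- the factors of an ideal prime to `T`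
  have hfac : ∀ I : Ideal R, I ≠ ⊥ → I ⊔ T = ⊤ → ∀ P ∈ normalizedFactors I, P ∈ S := by
    intro I hI hIT P hP
    have hp : Prime P := prime_of_normalized_factor P hP
    have hP0 : P ≠ ⊥ := hp.ne_zero
    have hdvd : P ∣ I := dvd_of_mem_normalizedFactors hP
    refine ⟨(Ideal.isPrime_of_prime hp).isMaximal hP0, ?_, hP0⟩
    rw [eq_top_iff, ← hIT]
    exact sup_le_sup_right (Ideal.le_of_dvd hdvd) T
  let F : Ideal R × Ideal R → Ideal B := fun p =>
    ((normalizedFactors p.1).map Q1 + (normalizedFactors p.2).map Q2).prod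
  let G : Set (Ideal R × Ideal R) := {p | p.1 ≠ ⊥ ∧ p.1 ⊔ T = ⊤ ∧ p.2 ≠ ⊥ ∧ p.2 ⊔ T = ⊤}
  have hprime : ∀ p ∈ G, ∀ Q ∈ (normalizedFactors p.1).map Q1 + (normalizedFactors p.2).map Q2,
      Prime Q := by
    rintro p ⟨h1, h2, h3, h4⟩ Q hQm
    rcases Multiset.mem_add.1 hQm with h5 | h5
    · obtain ⟨P, hP, rfl⟩ := Multiset.mem_map.1 h5
      have hPS := hfac p.1 h1 h2 P hP
      exact Ideal.prime_of_isPrime (hne P hPS).1 (hQ P hPS.1 hPS.2.1).1.isPrime
    · obtain ⟨P, hP, rfl⟩ := Multiset.mem_map.1 h5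
      have hPS := hfac p.2 h3 h4 P hP
      exact Ideal.prime_of_isPrime (hne P hPS).2 (hQ P hPS.1 hPS.2.1).2.1.isPrime
  have hFinj : Set.InjOn F G := by
    intro p hp p' hp' he
    have h1 := normalizedFactors_prod_of_prime (hprime p hp)
    have h2 := normalizedFactors_prod_of_prime (hprime p' hp')
    have h3 : (normalizedFactors p.1).map Q1 + (normalizedFactors p.2).map Q2 =
        (normalizedFactors p'.1).map Q1 + (normalizedFactors p'.2).map Q2 := by
      rw [← h1, ← h2]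
      exact congrArg normalizedFactors he
    obtain ⟨a1, a2, a3, a4⟩ := hp
    obtain ⟨b1, b2, b3, b4⟩ := hp'
    obtain ⟨e1, e2⟩ := nda_inj Q1 Q2 (fun Q => Q.comap (algebraMap R B)) S
      (fun P hP => (hQ P hP.1 hP.2.1).2.2.2.1) (fun P hP => (hQ P hP.1 hP.2.1).2.2.2.2.1)
      (fun P hP => (hQ P hP.1 hP.2.1).2.2.1) _ _ _ _ (hfac p.1 a1 a2) (hfac p.2 a3 a4)
      (hfac p'.1 b1 b2) (hfac p'.2 b3 b4) h3
    refine Prod.ext ?_ ?_
    · rw [← Ideal.prod_normalizedFactors_eq_self a1, e1, Ideal.prod_normalizedFactors_eq_self b1]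
    · rw [← Ideal.prod_normalizedFactors_eq_self a3, e2, Ideal.prod_normalizedFactors_eq_self b3]
  have hFcard : ∀ p ∈ G, F p ≠ ⊥ ∧
      Nat.card (B ⧸ F p) = Nat.card (R ⧸ p.1) * Nat.card (R ⧸ p.2) := by
    intro p hp
    obtain ⟨h0, h1⟩ := nda_card_prod B hfinB
      ((normalizedFactors p.1).map Q1 + (normalizedFactors p.2).map Q2)
      (fun Q hQ' => (hprime p hp Q hQ').ne_zero)
    refine ⟨h0, ?_⟩
    obtain ⟨a1, a2, a3, a4⟩ := hp
    have hc : ∀ I : Ideal R, I ≠ ⊥ → I ⊔ T = ⊤ → Nat.card (R ⧸ I) =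
        ((normalizedFactors I).map fun P => Nat.card (R ⧸ P)).prod := by
      intro I hI hIT
      have h2 := (nda_card_prod R hfinR (normalizedFactors I)
        (fun P hP => (hfac I hI hIT P hP).2.2)).2
      rw [Ideal.prod_normalizedFactors_eq_self hI] at h2
      exact h2
    change Nat.card (B ⧸ ((normalizedFactors p.1).map Q1 + (normalizedFactors p.2).map Q2).prod) = _
    rw [h1, Multiset.map_add, Multiset.prod_add, Multiset.map_map, Multiset.map_map, hc p.1 a1 a2,
      hc p.2 a3 a4]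
    congr 2
    · refine Multiset.map_congr rfl fun P hP => ?_
      have hPS := hfac p.1 a1 a2 P hP
      exact (hQ P hPS.1 hPS.2.1).2.2.2.2.2.1
    · refine Multiset.map_congr rfl fun P hP => ?_
      have hPS := hfac p.2 a3 a4 P hP
      exact (hQ P hPS.1 hPS.2.1).2.2.2.2.2.2
  -- counting
  obtain ⟨c, n0, hlow⟩ := ideals_lower X T hT
  obtain ⟨C, hup⟩ := ideals_upper k B hinj
  choose! s hs1 hs2 using hlow
  have hq : 2 ≤ Nat.card k := by
    have : Nontrivial k := inferInstance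
    exact (Finite.one_lt_card_iff_nontrivial.2 this)
  obtain ⟨q, hqd⟩ : ∃ q, q = Nat.card k := ⟨_, rfl⟩
  rw [← hqd] at hq hs1 hs2 hup
  have hq0 : 0 < q := by omega
  obtain ⟨K, hK⟩ : ∃ K, K = q ^ (2 * c) * C := ⟨_, rfl⟩
  let U : Finset (Ideal R × Ideal R) := (Finset.range (K + 1)).biUnion fun t =>
    (s (n0 + t)) ×ˢ (s (n0 + (K - t)))
  have hUcard : U.card = ∑ t ∈ Finset.range (K + 1),
      (s (n0 + t)).card * (s (n0 + (K - t))).card := by
    rw [Finset.card_biUnion]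
    · exact Finset.sum_congr rfl fun t _ => Finset.card_product _ _
    · intro t ht t' ht' hne'
      rw [Function.onFun, Finset.disjoint_left]
      intro p hp hp'
      have h1 := (hs1 (n0 + t) (by omega) p.1 (Finset.mem_product.1 hp).1).2.2
      have h2 := (hs1 (n0 + t') (by omega) p.1 (Finset.mem_product.1 hp').1).2.2
      have h3 := Nat.pow_right_injective hq (h1.symm.trans h2)
      omega
  have hUG : ∀ p ∈ U, p ∈ G ∧ Nat.card (R ⧸ p.1) * Nat.card (R ⧸ p.2) = q ^ (2 * n0 + K) := by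
    intro p hp
    obtain ⟨t, ht, hpt⟩ := Finset.mem_biUnion.1 hp
    have h1 := hs1 (n0 + t) (by omega) p.1 (Finset.mem_product.1 hpt).1
    have h2 := hs1 (n0 + (K - t)) (by omega) p.2 (Finset.mem_product.1 hpt).2
    refine ⟨⟨h1.1, h1.2.1, h2.1, h2.2.1⟩, ?_⟩
    rw [h1.2.2, h2.2.2, ← pow_add]
    congr 1
    have := Finset.mem_range.1 ht
    omega
  have hlowU : (K + 1) * q ^ (2 * n0 + K) ≤ q ^ (2 * c) * U.card := by
    rw [hUcard, Finset.mul_sum]
    have h1 : ∀ t ∈ Finset.range (K + 1), q ^ (2 * n0 + K) ≤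
        q ^ (2 * c) * ((s (n0 + t)).card * (s (n0 + (K - t))).card) := by
      intro t ht
      have h2 := hs2 (n0 + t) (by omega)
      have h3 := hs2 (n0 + (K - t)) (by omega)
      have h4 := Nat.mul_le_mul h2 h3
      have h5 : q ^ (n0 + t) * q ^ (n0 + (K - t)) = q ^ (2 * n0 + K) := by
        rw [← pow_add]
        congr 1
        have := Finset.mem_range.1 ht
        omega
      rw [h5] at h4
      calc q ^ (2 * n0 + K) ≤ q ^ c * (s (n0 + t)).card * (q ^ c * (s (n0 + (K - t))).card) := h4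
        _ = _ := by ring
    calc (K + 1) * q ^ (2 * n0 + K) = ∑ _t ∈ Finset.range (K + 1), q ^ (2 * n0 + K) := by
          rw [Finset.sum_const, Finset.card_range, smul_eq_mul]
      _ ≤ _ := Finset.sum_le_sum h1
  have hupU : U.card ≤ C * q ^ (2 * n0 + K) := by
    have h1 : (U.image F).card = U.card :=
      Finset.card_image_of_injOn fun p hp p' hp' he => hFinj (hUG p hp).1 (hUG p' hp').1 he
    rw [← h1]
    refine hup _ _ fun I hI => ?_
    obtain ⟨p, hp, rfl⟩ := Finset.mem_image.1 hI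
    obtain ⟨h2, h3⟩ := hUG p hp
    rw [(hFcard p h2).2, h3]
    exact ⟨(hFcard p h2).1, rfl⟩
  have h1 : (K + 1) * q ^ (2 * n0 + K) ≤ K * q ^ (2 * n0 + K) := by
    calc (K + 1) * q ^ (2 * n0 + K) ≤ q ^ (2 * c) * U.card := hlowU
      _ ≤ q ^ (2 * c) * (C * q ^ (2 * n0 + K)) := Nat.mul_le_mul_left _ hupU
      _ = K * q ^ (2 * n0 + K) := by rw [hK]; ring
  have h2 := Nat.le_of_mul_le_mul_right h1 (pow_pos hq0 _)
  omega

end Pool.Agent.AB
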