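import Pool.Agent.Lib.MP_5de024_nt.C.Abs

/-!
# The norm to the constants (piece Nm)
-/

set_option autoImplicit false
set_option linter.unusedSectionVars false

namespace Pool.Agent.AB

/-- the determinant of an endomorphism of an exact sequence -/
theorem Nm_det {k A B C : Type} [Field k] [AddCommGroup A] [Module k A] [AddCommGroup B]
    [Module k B] [AddCommGroup C] [Module k C] [Module.Finite k B] (f : A →ₗ[k] B)
    (g : B →ₗ[k] C) (hf : Function.Injective f) (hg : Function.Surjective g)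
    (hfg : LinearMap.range f = LinearMap.ker g) (α : A →ₗ[k] A) (β : B →ₗ[k] B) (γ : C →ₗ[k] C)
    (h1 : ∀ x, f (α x) = β (f x)) (h2 : ∀ x, g (β x) = γ (g x)) :
    LinearMap.det β = LinearMap.det γ * LinearMap.det α := by
  have he : LinearMap.range f ≤ (LinearMap.range f).comap β := by
    rintro _ ⟨x, rfl⟩
    exact ⟨α x, h1 x⟩
  have h3 := LinearMap.det_eq_det_mul_det (LinearMap.range f) β he
  let e1 : A ≃ₗ[k] LinearMap.range f := LinearEquiv.ofInjective f hf
  let e2 : (B ⧸ LinearMap.range f) ≃ₗ[k] C :=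
    (Submodule.quotEquivOfEq _ _ hfg).trans (g.quotKerEquivOfSurjective hg)
  have h4 : LinearMap.det (β.restrict he) = LinearMap.det α := by
    rw [← LinearMap.det_conj α e1]
    congr 1
    ext x
    obtain ⟨x, rfl⟩ := e1.surjective x
    simp only [LinearMap.comp_apply, LinearEquiv.coe_coe, LinearEquiv.symm_apply_apply]
    exact (h1 x).symm
  have h5 : LinearMap.det ((LinearMap.range f).mapQ (LinearMap.range f) β he) =
      LinearMap.det γ := by
    rw [← LinearMap.det_conj _ e2]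
    congr 1
    ext x
    obtain ⟨x, rfl⟩ := hg x
    have h6 : e2.symm (g x) = Submodule.Quotient.mk x := by
      rw [LinearEquiv.symm_apply_eq]
      rfl
    simp only [LinearMap.comp_apply, LinearEquiv.coe_coe]
    rw [h6, ← h2]
    rfl
  rw [h3, h4, h5, mul_comm]

variable {k R : Type} [Field k] [Finite k] [CommRing R] [Algebra k R]

theorem nk_mul (u v : R) (I : Ideal R) : Nk k (u * v) I = Nk k u I * Nk k v I := by
  unfold Nk
  rw [map_mul, LinearMap.mulLeft_mul, LinearMap.det_comp]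

theorem nk_one (I : Ideal R) : Nk k (1 : R) I = 1 := by
  unfold Nk
  rw [map_one, LinearMap.mulLeft_one, LinearMap.det_id]

theorem nk_top (u : R) : Nk k u (⊤ : Ideal R) = 1 := by
  have : Subsingleton (R ⧸ (⊤ : Ideal R)) := Ideal.Quotient.subsingleton_iff.2 rfl
  exact LinearMap.det_eq_one_of_subsingleton _

theorem nk_congr (u v : R) (I : Ideal R) (h : u - v ∈ I) : Nk k u I = Nk k v I := by
  unfold Nk
  rw [Ideal.Quotient.eq.2 h]

theorem nk_ne_zero (u : R) (I : Ideal R) [Finite (R ⧸ I)] (h : I ⊔ Ideal.span {u} = ⊤) :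
    Nk k u I ≠ 0 := by
  have h1 : (1 : R) ∈ I ⊔ Ideal.span {u} := by rw [h]; trivial
  obtain ⟨i, hi, y, hy, e⟩ := Submodule.mem_sup.1 h1
  obtain ⟨r, rfl⟩ := Ideal.mem_span_singleton'.1 hy
  have h2 : Nk k (r * u) I = Nk k (1 : R) I := by
    apply nk_congr
    have : r * u - 1 = -i := by linear_combination e
    rw [this]
    exact I.neg_mem hi
  rw [nk_mul, nk_one] at h2
  intro h0
  rw [h0, mul_zero] at h2
  exact zero_ne_one h2

/-- multiplicativity in the ideal -/
theorem nk_ideal_mul [IsDedekindDomain R] (u : R) (I J : Ideal R) (hI : I ≠ ⊥) (hJ : J ≠ ⊥)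
    (hfin : ∀ I : Ideal R, I ≠ ⊥ → Finite (R ⧸ I)) :
    Nk k u (I * J) = Nk k u I * Nk k u J := by
  have hIJ : I * J ≠ 0 := mul_ne_zero hI hJ
  have hle : I * J ≤ I := Ideal.mul_le_left
  have hf1 : Finite (R ⧸ (I * J)) := hfin _ hIJ
  have hf2 : Module.Finite k (R ⧸ (I * J)) := Module.Finite.of_finite
  obtain ⟨a, ha⟩ := IsDedekindDomain.exists_sup_span_eq hle hIJ
  have haI : Ideal.span {a} ≤ I := ha ▸ le_sup_right
  obtain ⟨K, hK⟩ := Ideal.dvd_iff_le.2 haI
  have hKJ : J ⊔ K = ⊤ := by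
    rw [hK, ← Ideal.mul_sup] at ha
    have h3 : I * (J ⊔ K) = I * 1 := by rw [ha, mul_one]
    rw [← Ideal.one_eq_top]
    exact mul_left_cancel₀ hI h3
  have haJ : J ≤ Submodule.comap (LinearMap.mulLeft R a) (I * J) := by
    intro r hr
    exact Ideal.mul_mem_mul (haI (Ideal.mem_span_singleton_self a)) hr
  let f : (R ⧸ J) →ₗ[k] (R ⧸ (I * J)) :=
    (Submodule.mapQ J (I * J) (LinearMap.mulLeft R a) haJ).restrictScalars k
  have hf : ∀ r : R, f (Ideal.Quotient.mk J r) = Ideal.Quotient.mk (I * J) (a * r) := fun r => rfl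
  let g : (R ⧸ (I * J)) →ₗ[k] (R ⧸ I) := (Ideal.Quotient.factorₐ k hle).toLinearMap
  have hg : ∀ r : R, g (Ideal.Quotient.mk (I * J) r) = Ideal.Quotient.mk I r := fun r => rfl
  refine Nm_det f g ?_ ?_ ?_ _ _ _ ?_ ?_
  · rw [injective_iff_map_eq_zero]
    intro x hx
    obtain ⟨r, rfl⟩ := Ideal.Quotient.mk_surjective x
    rw [hf, Ideal.Quotient.eq_zero_iff_mem] at hx
    rw [Ideal.Quotient.eq_zero_iff_mem]
    have h1 : Ideal.span {a} * Ideal.span {r} ≤ I * J := by
      rw [Ideal.span_singleton_mul_span_singleton, Ideal.span_singleton_le_iff_mem]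
      exact hx
    rw [hK, mul_assoc] at h1
    have h2 : K * Ideal.span {r} ≤ J := by
      rw [← Ideal.dvd_iff_le] at h1 ⊢
      exact (mul_dvd_mul_iff_left hI).1 h1
    have h3 : (J ⊔ K) * Ideal.span {r} ≤ J := by
      rw [Ideal.sup_mul]
      exact sup_le Ideal.mul_le_left h2
    rw [hKJ, Ideal.top_mul, Ideal.span_singleton_le_iff_mem] at h3
    exact h3
  · intro x
    obtain ⟨r, rfl⟩ := Ideal.Quotient.mk_surjective x
    exact ⟨Ideal.Quotient.mk (I * J) r, hg r⟩
  · ext x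
    obtain ⟨r, rfl⟩ := Ideal.Quotient.mk_surjective x
    rw [LinearMap.mem_ker, hg, Ideal.Quotient.eq_zero_iff_mem, LinearMap.mem_range]
    constructor
    · rintro ⟨y, hy⟩
      obtain ⟨t, rfl⟩ := Ideal.Quotient.mk_surjective y
      rw [hf, Ideal.Quotient.eq] at hy
      have h1 := I.sub_mem (I.mul_mem_right t (haI (Ideal.mem_span_singleton_self a))) (hle hy)
      have e : a * t - (a * t - r) = r := by ring
      rwa [e] at h1
    · intro hr
      rw [← ha] at hr
      obtain ⟨i, hi, y, hy, e⟩ := Submodule.mem_sup.1 hr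
      obtain ⟨t, rfl⟩ := Ideal.mem_span_singleton'.1 hy
      refine ⟨Ideal.Quotient.mk J t, ?_⟩
      rw [hf, Ideal.Quotient.eq]
      have e' : a * t - r = -i := by linear_combination e
      rw [e']
      exact (I * J).neg_mem hi
  · intro x
    obtain ⟨r, rfl⟩ := Ideal.Quotient.mk_surjective x
    rw [LinearMap.mulLeft_apply, LinearMap.mulLeft_apply, ← map_mul, hf, hf, ← map_mul]
    congr 1
    ring
  · intro x
    obtain ⟨r, rfl⟩ := Ideal.Quotient.mk_surjective x
    rw [LinearMap.mulLeft_apply, LinearMap.mulLeft_apply, ← map_mul, hg, hg, ← map_mul]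

/-- the norm to `k` of a constant is a power of it -/
theorem nk_alg (c : k) (I : Ideal R) [Finite (R ⧸ I)] :
    ∃ n : ℕ, Nk k (algebraMap k R c) I = c ^ n := by
  refine ⟨Module.finrank k (R ⧸ I), ?_⟩
  unfold Nk
  have h1 : LinearMap.mulLeft k (Ideal.Quotient.mk I (algebraMap k R c)) =
      c • (LinearMap.id : (R ⧸ I) →ₗ[k] (R ⧸ I)) := by
    ext x
    rw [LinearMap.mulLeft_apply, LinearMap.smul_apply, LinearMap.id_apply, Algebra.smul_def]
    rfl
  rw [h1, LinearMap.det_smul, LinearMap.det_id, mul_one]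

/-- in a finite field the `l`-th powers -/
theorem Nm_pow (F : Type) [Field F] [Finite F] (l : ℕ) (hl : l.Prime)
    (hlF : l ∣ Nat.card F - 1) (x : F) (hx : x ≠ 0) :
    x ^ ((Nat.card F - 1) / l) = 1 ↔ ∃ w : F, x = w ^ l := by
  have := Fintype.ofFinite F
  have hcF : 1 < Nat.card F := Finite.one_lt_card
  have hc : Nat.card Fˣ = Nat.card F - 1 := Nat.card_units F
  obtain ⟨m, hm⟩ := hlF
  have hm0 : 0 < m := by
    rcases Nat.eq_zero_or_pos m with h | h
    · rw [h, mul_zero] at hm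
      omega
    · exact h
  have hd : (Nat.card F - 1) / l = m := by
    rw [hm, Nat.mul_div_cancel_left _ hl.pos]
  rw [hd]
  constructor
  · intro h
    obtain ⟨g, hg⟩ := IsCyclic.exists_generator (α := Fˣ)
    obtain ⟨i, hi⟩ := Subgroup.mem_zpowers_iff.1 (hg (Units.mk0 x hx))
    have h1 : (Units.mk0 x hx) ^ m = 1 := Units.ext (by
      rw [Units.val_pow_eq_pow_val, Units.val_mk0, h, Units.val_one])
    rw [← hi, ← zpow_natCast, ← zpow_mul] at h1
    have h2 := orderOf_dvd_iff_zpow_eq_one.2 h1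
    rw [orderOf_eq_card_of_forall_mem_zpowers hg, hc, hm] at h2
    obtain ⟨j, hj⟩ := h2
    have h3 : i = l * j := by
      have hm' : (m : ℤ) ≠ 0 := by exact_mod_cast hm0.ne'
      apply mul_right_cancel₀ hm'
      rw [hj]
      push_cast
      ring
    refine ⟨((g ^ j : Fˣ) : F), ?_⟩
    have h4 : Units.mk0 x hx = (g ^ j) ^ l := by
      rw [← hi, h3, ← zpow_natCast, ← zpow_mul, mul_comm]
    have h5 := congrArg Units.val h4
    rwa [Units.val_mk0, Units.val_pow_eq_pow_val] at h5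
  · rintro ⟨w, rfl⟩
    have hw : w ≠ 0 := by
      rintro rfl
      exact hx (zero_pow hl.ne_zero)
    rw [← pow_mul, ← hm, ← FiniteField.pow_card_sub_one_eq_one w hw, Nat.card_eq_fintype_card]

/-- the symbol at a maximal ideal is trivial exactly for `l`-th powers -/
theorem sy_max (l : ℕ) (hl : l.Prime) (hlk : l ∣ Nat.card k - 1) (u : R) (P : Ideal R)
    (hP : P.IsMaximal) [Finite (R ⧸ P)] (hu : u ∉ P) :
    Sy k l u P = 1 ↔ ∃ w : R, u - w ^ l ∈ P := by
  let : Field (R ⧸ P) := Ideal.Quotient.field P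
  have hx : Ideal.Quotient.mk P u ≠ 0 := fun h => hu (Ideal.Quotient.eq_zero_iff_mem.1 h)
  have h1 : algebraMap k (R ⧸ P) (Nk k u P) =
      (Ideal.Quotient.mk P u) ^ ((Nat.card (R ⧸ P) - 1) / (Nat.card k - 1)) := by
    rw [← FiniteField.algebraMap_norm_eq_pow (K := k), Algebra.norm_apply]
    rfl
  have hinj : Function.Injective (algebraMap k (R ⧸ P)) := (algebraMap k (R ⧸ P)).injective
  have hk1 : 1 < Nat.card k := Finite.one_lt_card
  have hdvd : Nat.card k - 1 ∣ Nat.card (R ⧸ P) - 1 := by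
    have h2 : Nat.card (R ⧸ P) = Nat.card k ^ Module.finrank k (R ⧸ P) :=
      Module.natCard_eq_pow_finrank
    rw [h2]
    exact Nat.sub_one_dvd_pow_sub_one _ _
  have hl2 : l ∣ Nat.card (R ⧸ P) - 1 := hlk.trans hdvd
  have h3 : algebraMap k (R ⧸ P) (Sy k l u P) =
      (Ideal.Quotient.mk P u) ^ ((Nat.card (R ⧸ P) - 1) / l) := by
    unfold Sy
    rw [map_pow, h1, ← pow_mul]
    congr 1
    obtain ⟨c, hc⟩ := hlk
    obtain ⟨d, hd⟩ := hdvd
    have hc0 : 0 < Nat.card k - 1 := by omega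
    rw [hd, Nat.mul_div_cancel_left _ hc0, hc, Nat.mul_div_cancel_left _ hl.pos, mul_assoc,
      Nat.mul_div_cancel_left _ hl.pos, mul_comm]
  rw [← hinj.eq_iff, h3, map_one, Nm_pow _ l hl hl2 _ hx]
  constructor
  · rintro ⟨w, hw⟩
    obtain ⟨w, rfl⟩ := Ideal.Quotient.mk_surjective w
    refine ⟨w, ?_⟩
    rw [← Ideal.Quotient.eq, hw, map_pow]
  · rintro ⟨w, hw⟩
    exact ⟨Ideal.Quotient.mk P w, by rw [← map_pow]; exact Ideal.Quotient.eq.2 hw⟩

end Pool.Agent.AB
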