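import Pool.Agent.Lib.MP_5de024_nt.Gs
import Pool.Agent.Lib.MP_5de024_nt.C.KDefs

/-!
# Vectors with a semilinear action and their cohomology (piece Pk1)
-/

set_option autoImplicit false
set_option linter.unusedSectionVars false

namespace Pool.Agent.AB

section

variable (p : ℕ) [Fact p.Prime] (L : Type) [Field L] [Algebra (Fx p) L] [Algebra (Rx p) L]
  [IsScalarTower (Rx p) (Fx p) L] (r : ℕ)

/-- the semilinear action on vectors over the ring of integers, for matrices `A` over `F_p` -/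
noncomputable def sv (A : Gl p L → Matrix (Fin r) (Fin r) (ZMod p)) (σ : Gl p L)
    (a : Fin r → Oc p L) : Fin r → Oc p L :=
  fun i => ∑ j, cst p (Oc p L) (A σ i j) * act p L σ (a j)

/-- `a ↦ a ^ p - a` for vectors -/
noncomputable def wp (a : Fin r → Oc p L) : Fin r → Oc p L := fun i => a i ^ p - a i

/-- constant vectors -/
noncomputable def cv (f : Fin r → ZMod p) : Fin r → Oc p L := fun i => cst p (Oc p L) (f i)

theorem pk1_charP : CharP (Oc p L) p :=
  charP_of_injective_ringHom (cst p (Oc p L)).injective p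

theorem pk1_cst_pow (x : ZMod p) : cst p (Oc p L) x ^ p = cst p (Oc p L) x := by
  rw [← map_pow, ZMod.pow_card]

theorem pk1_wp_sub (a b : Fin r → Oc p L) : wp p L r (a - b) = wp p L r a - wp p L r b := by
  have := pk1_charP p L
  funext i
  simp only [wp, Pi.sub_apply]
  rw [sub_pow_char]
  ring

theorem pk1_wp_add (a b : Fin r → Oc p L) : wp p L r (a + b) = wp p L r a + wp p L r b := by
  have := pk1_charP p L
  funext i
  simp only [wp, Pi.add_apply]
  rw [add_pow_char]
  ring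

theorem pk1_wp_cv (f : Fin r → ZMod p) : wp p L r (cv p L r f) = 0 := by
  funext i
  simp only [wp, cv, Pi.zero_apply]
  rw [pk1_cst_pow, sub_self]

theorem pk1_wp_sv (A : Gl p L → Matrix (Fin r) (Fin r) (ZMod p)) (σ : Gl p L)
    (a : Fin r → Oc p L) : wp p L r (sv p L r A σ a) = sv p L r A σ (wp p L r a) := by
  have := pk1_charP p L
  funext i
  simp only [wp, sv]
  rw [sum_pow_char, ← Finset.sum_sub_distrib]
  refine Finset.sum_congr rfl fun j _ => ?_
  rw [mul_pow, pk1_cst_pow, map_sub, map_pow]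
  ring

theorem pk1_tr [FiniteDimensional (Fx p) L] {θ : Oc p L}
    (hθ : ∑ σ : Gl p L, act p L σ θ = 1) (σ : Gl p L) : ∑ t : Gl p L, act p L (σ * t) θ = 1 := by
  rw [← hθ]
  exact Fintype.sum_equiv (Equiv.mulLeft σ) _ _ fun t => rfl

/-- a cocycle with values in the constant vectors is the boundary of `b`, and `℘ b` is the
boundary of some `a` -/
theorem coh_split [FiniteDimensional (Fx p) L] [IsGalois (Fx p) L] (hNI : NI p L)
    (A : Gl p L → Matrix (Fin r) (Fin r) (ZMod p)) (hA1 : A 1 = 1)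
    (hA : ∀ σ τ, A (σ * τ) = A σ * A τ) (f : Gl p L → Gl p L → Fin r → ZMod p)
    (hf : ∀ σ τ ρ, (A σ).mulVec (f τ ρ) + f σ (τ * ρ) = f (σ * τ) ρ + f σ τ) :
    ∃ (b : Gl p L → Fin r → Oc p L) (a : Fin r → Oc p L),
      (∀ σ τ, cv p L r (f σ τ) = b σ + sv p L r A σ (b τ) - b (σ * τ)) ∧
      ∀ σ, sv p L r A σ a = a - wp p L r (b σ) := by
  classical
  obtain ⟨θ, hθ⟩ := trace_one p L hNI
  obtain ⟨b, hb⟩ : ∃ b : Gl p L → Fin r → Oc p L, ∀ σ i,
      b σ i = ∑ t : Gl p L, act p L (σ * t) θ * cst p (Oc p L) (f σ t i) := ⟨_, fun _ _ => rfl⟩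
  have h1 : ∀ σ τ, cv p L r (f σ τ) = b σ + sv p L r A σ (b τ) - b (σ * τ) := by
    intro σ τ
    funext i
    rw [Pi.sub_apply, Pi.add_apply]
    have e1 : b σ i = ∑ t : Gl p L, act p L (σ * τ * t) θ * cst p (Oc p L) (f σ (τ * t) i) := by
      rw [hb]
      refine (Fintype.sum_equiv (Equiv.mulLeft τ) _ _ fun t => ?_).symm
      rw [Equiv.coe_mulLeft, mul_assoc]
    have e2 : sv p L r A σ (b τ) i =
        ∑ t : Gl p L, act p L (σ * τ * t) θ * cst p (Oc p L) ((A σ).mulVec (f τ t) i) := by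
      simp only [sv, hb, map_sum, map_mul, act_cst, Finset.mul_sum, Matrix.mulVec, dotProduct]
      rw [Finset.sum_comm]
      refine Finset.sum_congr rfl fun t _ => Finset.sum_congr rfl fun j _ => ?_
      rw [← act_mul, ← mul_assoc σ τ t]
      ring
    have e3 := hb (σ * τ) i
    rw [e1, e2, e3, ← Finset.sum_add_distrib, ← Finset.sum_sub_distrib]
    have e4 : ∀ t : Gl p L, act p L (σ * τ * t) θ * cst p (Oc p L) (f σ (τ * t) i) +
        act p L (σ * τ * t) θ * cst p (Oc p L) ((A σ).mulVec (f τ t) i) -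
        act p L (σ * τ * t) θ * cst p (Oc p L) (f (σ * τ) t i) =
        act p L (σ * τ * t) θ * cst p (Oc p L) (f σ τ i) := by
      intro t
      have e5 := congrFun (hf σ τ t) i
      rw [Pi.add_apply, Pi.add_apply] at e5
      have e6 := congrArg (cst p (Oc p L)) e5
      rw [map_add, map_add] at e6
      linear_combination (act p L (σ * τ * t) θ) * e6
    rw [Finset.sum_congr rfl fun t _ => e4 t, ← Finset.sum_mul, pk1_tr p L hθ, one_mul]
    rfl
  obtain ⟨β, hβ⟩ : ∃ β : Gl p L → Fin r → Oc p L, ∀ σ, β σ = wp p L r (b σ) :=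
    ⟨_, fun _ => rfl⟩
  have h2 : ∀ σ τ, sv p L r A σ (β τ) = β (σ * τ) - β σ := by
    intro σ τ
    have e1 : b (σ * τ) = b σ + sv p L r A σ (b τ) - cv p L r (f σ τ) := by
      rw [h1 σ τ]
      abel
    rw [hβ, hβ, hβ, e1, pk1_wp_sub, pk1_wp_add, pk1_wp_cv, pk1_wp_sv]
    abel
  refine ⟨b, fun i => ∑ t : Gl p L, act p L t θ * β t i, h1, fun σ => ?_⟩
  funext i
  have e1 : sv p L r A σ (fun i => ∑ t : Gl p L, act p L t θ * β t i) i =
      ∑ t : Gl p L, act p L (σ * t) θ * sv p L r A σ (β t) i := by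
    simp only [sv, map_sum, map_mul, Finset.mul_sum]
    rw [Finset.sum_comm]
    refine Finset.sum_congr rfl fun t _ => Finset.sum_congr rfl fun j _ => ?_
    rw [← act_mul]
    ring
  rw [e1, Pi.sub_apply, ← hβ]
  simp only [h2, Pi.sub_apply, mul_sub]
  rw [Finset.sum_sub_distrib, ← Finset.sum_mul, pk1_tr p L hθ, one_mul]
  congr 1
  exact Fintype.sum_equiv (Equiv.mulLeft σ) _ _ fun t => rfl

end

end Pool.Agent.AB
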