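import Pool.Agent.Lib.MP_5de024_nt.Rt
import Pool.Agent.Lib.MP_5de024_nt.As3
import Pool.Agent.Lib.MP_5de024_nt.C.Pk1

/-!
# A fixed vector which is generic (piece Pk2)
-/

set_option autoImplicit false
set_option linter.unusedSectionVars false

namespace Pool.Agent.AB

/-- growth: an infinite group `H` with a degree is not the union of finitely many translates of
`W H` if `W` multiplies large degrees at least by two and `x` raises the degree by one -/
theorem pk2_count {V : Type} [AddCommGroup V] (H : AddSubgroup V) (D : V → ℕ) (β : ℕ)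
    (hfin : ∀ N, {z | D z ≤ N}.Finite) (hD0 : D 0 = 0)
    (hadd : ∀ z w, D (z + w) ≤ max (D z) (D w)) (hneg : ∀ z, D (-z) = D z)
    (x : V →+ V) (hx : ∀ z, z ≠ 0 → D (x z) = D z + 1) (hxH : ∀ z ∈ H, x z ∈ H)
    (W : V → V) (hW : ∀ z, 2 * D z ≤ D (W z) + 2 * β)
    (S : Finset V) (hS : ∀ h ∈ H, ∃ s ∈ S, ∃ d ∈ H, h = s + W d)
    (hne : ∃ κ ∈ H, κ ≠ 0) : False := by
  classical
  -- a nonzero element of minimal degree
  obtain ⟨κ, ⟨hκH, hκ0⟩, hκm⟩ : ∃ κ, (κ ∈ H ∧ κ ≠ 0) ∧ ∀ w, w ∈ H → w ≠ 0 → D κ ≤ D w := by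
    obtain ⟨κ1, h1, h2⟩ := hne
    have hwf := WellFounded.has_min (InvImage.wf D Nat.lt_wfRel.wf) {w | w ∈ H ∧ w ≠ 0}
      ⟨κ1, h1, h2⟩
    obtain ⟨κ, hκ, hm⟩ := hwf
    exact ⟨κ, hκ, fun w hw1 hw2 => not_lt.mp fun hlt => hm w ⟨hw1, hw2⟩ hlt⟩
  have hinj : Function.Injective x := by
    rw [injective_iff_map_eq_zero]
    intro z hz
    by_contra hz0
    have h1 := hx z hz0
    rw [hz, hD0] at h1
    omega
  have hκx : ∀ h ∈ H, κ ≠ x h := by
    intro h hh he
    have h0 : h ≠ 0 := by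
      rintro rfl
      exact hκ0 (by rw [he, map_zero])
    have h1 := hx h h0
    rw [← he] at h1
    have h2 := hκm h hh h0
    omega
  obtain ⟨B, hB⟩ : ∃ B : ℕ → Set V, ∀ N, B N = {z | z ∈ H ∧ D z ≤ N} := ⟨_, fun _ => rfl⟩
  have hBf : ∀ N, (B N).Finite := fun N => by
    rw [hB]
    exact (hfin N).subset fun z hz => hz.2
  have hB0 : ∀ N, 1 ≤ (B N).ncard := fun N => by
    have h1 : (0 : V) ∈ B N := by
      rw [hB]
      exact ⟨H.zero_mem, by rw [hD0]; exact Nat.zero_le _⟩
    exact (Set.ncard_pos (hBf N)).mpr ⟨0, h1⟩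
  have hxD : ∀ z N, D z ≤ N → D (x z) ≤ N + 1 := by
    intro z N hz
    by_cases h0 : z = 0
    · rw [h0, map_zero, hD0]
      omega
    · rw [hx z h0]
      omega
  -- doubling
  have hstep : ∀ N, D κ ≤ N → 2 * (B N).ncard ≤ (B (N + 1)).ncard := by
    intro N hN
    have h1 : (x '' B N).ncard = (B N).ncard := Set.ncard_image_of_injective _ hinj
    have h2 : ((fun z => κ + x z) '' B N).ncard = (B N).ncard :=
      Set.ncard_image_of_injective _ fun z w hzw => hinj (add_left_cancel hzw)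
    have h3 : Disjoint (x '' B N) ((fun z => κ + x z) '' B N) := by
      rw [Set.disjoint_left]
      rintro _ ⟨z, hz, rfl⟩ ⟨w, hw, he⟩
      rw [hB] at hz hw
      apply hκx (z - w) (H.sub_mem hz.1 hw.1)
      have he' : κ + x w = x z := he
      rw [map_sub, ← he']
      exact (add_sub_cancel_right _ _).symm
    have h4 : x '' B N ∪ (fun z => κ + x z) '' B N ⊆ B (N + 1) := by
      rintro z (⟨w, hw, rfl⟩ | ⟨w, hw, rfl⟩)
      · rw [hB] at hw ⊢
        exact ⟨hxH w hw.1, hxD w N hw.2⟩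
      · rw [hB] at hw ⊢
        refine ⟨H.add_mem hκH (hxH w hw.1), (hadd _ _).trans (max_le (by omega) ?_)⟩
        exact hxD w N hw.2
    have h5 := Set.ncard_le_ncard h4 (hBf (N + 1))
    rw [Set.ncard_union_eq h3 ((hBf N).image _) ((hBf N).image _), h1, h2] at h5
    omega
  have hpow : ∀ m N, D κ ≤ N → 2 ^ m * (B N).ncard ≤ (B (N + m)).ncard := by
    intro m
    induction m with
    | zero => intro N _; rw [pow_zero, one_mul, add_zero]
    | succ m ih =>
      intro N hN
      have h1 := ih N hN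
      have h2 := hstep (N + m) (by omega)
      calc 2 ^ (m + 1) * (B N).ncard = 2 * (2 ^ m * (B N).ncard) := by rw [pow_succ]; ring
        _ ≤ 2 * (B (N + m)).ncard := Nat.mul_le_mul_left 2 h1
        _ ≤ (B (N + m + 1)).ncard := h2
  -- the covering
  obtain ⟨s0, hs0⟩ : ∃ s0, ∀ s ∈ S, D s ≤ s0 := ⟨S.sup D, fun s hs => Finset.le_sup hs⟩
  have hcov : ∀ M, s0 ≤ 2 * M → (B (2 * M)).ncard ≤ S.card * (B (M + β)).ncard := by
    intro M hM
    have h1 : B (2 * M) ⊆ ((S ×ˢ (hBf (M + β)).toFinset).image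
        (fun q => q.1 + W q.2) : Finset V) := by
      intro h hh
      rw [hB] at hh
      obtain ⟨s, hs, d, hd, he⟩ := hS h hh.1
      rw [Finset.mem_coe, Finset.mem_image]
      refine ⟨(s, d), ?_, he.symm⟩
      rw [Finset.mem_product, Set.Finite.mem_toFinset]
      refine ⟨hs, ?_⟩
      show d ∈ B (M + β)
      rw [hB]
      refine ⟨hd, ?_⟩
      have h2 : W d = h + -s := by rw [he]; abel
      have h3 : D (W d) ≤ 2 * M := by
        rw [h2]
        refine (hadd _ _).trans (max_le hh.2 ?_)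
        rw [hneg]
        exact (hs0 s hs).trans hM
      have h4 := hW d
      omega
    calc (B (2 * M)).ncard ≤ (((S ×ˢ (hBf (M + β)).toFinset).image
        (fun q => q.1 + W q.2) : Finset V) : Set V).ncard :=
          Set.ncard_le_ncard h1 (Finset.finite_toSet _)
      _ = ((S ×ˢ (hBf (M + β)).toFinset).image (fun q => q.1 + W q.2)).card :=
          Set.ncard_coe_finset _
      _ ≤ (S ×ˢ (hBf (M + β)).toFinset).card := Finset.card_image_le
      _ = S.card * (hBf (M + β)).toFinset.card := Finset.card_product _ _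
      _ = S.card * (B (M + β)).ncard := by rw [Set.ncard_eq_toFinset_card _ (hBf (M + β))]
  obtain ⟨M, hM⟩ : ∃ M, M = β + D κ + s0 + S.card := ⟨_, rfl⟩
  have h1 := hcov M (by omega)
  have h2 := hpow (M - β) (M + β) (by omega)
  rw [show M + β + (M - β) = 2 * M by omega] at h2
  have h3 : S.card < 2 ^ (M - β) :=
    lt_of_lt_of_le Nat.lt_two_pow_self (Nat.pow_le_pow_right (by norm_num) (by omega))
  have h4 := h2.trans h1
  have h5 := Nat.le_of_mul_le_mul_right h4 (hB0 (M + β))
  omega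

variable (p : ℕ) [Fact p.Prime] (L : Type) [Field L] [Algebra (Fx p) L] [Algebra (Rx p) L]
  [IsScalarTower (Rx p) (Fx p) L] (r : ℕ)

/-- polynomials of bounded degree are finitely many -/
theorem pk2_fin (N : ℕ) : {g : Rx p | g.natDegree ≤ N}.Finite := by
  have h1 : Function.Injective (fun (g : {g : Rx p | g.natDegree ≤ N}) (i : Fin (N + 1)) =>
      g.1.coeff i) := by
    rintro ⟨g, hg⟩ ⟨h, hh⟩ he
    apply Subtype.ext
    show g = h
    have hg' : g.natDegree ≤ N := hg
    have hh' : h.natDegree ≤ N := hh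
    apply Polynomial.ext
    intro n
    by_cases hn : n ≤ N
    · exact congrFun he ⟨n, by omega⟩
    · rw [Polynomial.coeff_eq_zero_of_natDegree_lt (lt_of_le_of_lt hg' (not_le.mp hn)),
        Polynomial.coeff_eq_zero_of_natDegree_lt (lt_of_le_of_lt hh' (not_le.mp hn))]
  exact Finite.of_injective _ h1

/-- the degree of a nonzero multiple -/
theorem pk2_mul (g c : Rx p) (hg : g ≠ 0) (N : ℕ) (h : (g * c ^ p).natDegree ≤ N) :
    p * c.natDegree ≤ N := by
  by_cases hc : c = 0
  · rw [hc, Polynomial.natDegree_zero, mul_zero]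
    exact Nat.zero_le _
  · rw [Polynomial.natDegree_mul hg (pow_ne_zero p hc), Polynomial.natDegree_pow] at h
    omega

theorem pk2_bound (n : ℕ) (f : Fin n → Fin n → ℕ) : ∃ β : ℕ, ∀ l k, f l k ≤ β :=
  ⟨∑ l, ∑ k, f l k, fun l k =>
    (Finset.single_le_sum (f := fun k => f l k) (fun _ _ => Nat.zero_le _)
      (Finset.mem_univ k)).trans
    (Finset.single_le_sum (f := fun l => ∑ k, f l k) (fun _ _ => Nat.zero_le _)
      (Finset.mem_univ l))⟩

/-- a basis of the ring of integers over `F_p[x]` for which the Frobenius map multiplies the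
degrees of the coordinates by `p` up to a constant -/
theorem pk2_basis [FiniteDimensional (Fx p) L] [IsGalois (Fx p) L] :
    ∃ (n : ℕ) (b : Module.Basis (Fin n) (Rx p) (Oc p L)) (β : ℕ), ∀ (z : Oc p L) (N : ℕ),
      (∀ l, (b.repr (z ^ p) l).natDegree ≤ N) → ∀ k, p * (b.repr z k).natDegree ≤ N + β := by
  classical
  have hchar : CharP (Oc p L) p := charP_of p (Oc p L)
  have hcharF : ExpChar (Fx p) p := inferInstance
  have htf : Module.IsTorsionFree (Rx p) L := by
    rw [Module.isTorsionFree_iff_algebraMap_injective,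
      IsScalarTower.algebraMap_eq (Rx p) (Fx p) L]
    exact (algebraMap (Fx p) L).injective.comp (IsFractionRing.injective (Rx p) (Fx p))
  have hfree : Module.Free (Rx p) (Oc p L) :=
    IsIntegralClosure.module_free (Rx p) (Fx p) L (Oc p L)
  have hfin : Module.Finite (Rx p) (Oc p L) :=
    IsIntegralClosure.finite (Rx p) (Fx p) L (Oc p L)
  obtain ⟨n, ⟨b⟩⟩ : ∃ n, Nonempty (Module.Basis (Fin n) (Rx p) (Oc p L)) :=
    ⟨_, ⟨Module.finBasis (Rx p) (Oc p L)⟩⟩
  -- the matrix of the Frobenius map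
  obtain ⟨B, hB⟩ : ∃ B : Matrix (Fin n) (Fin n) (Rx p), ∀ k l, B k l = b.repr (b k ^ p) l :=
    ⟨fun k l => b.repr (b k ^ p) l, fun _ _ => rfl⟩
  have hB2 : ∀ k, b k ^ p = ∑ l, B k l • b l := by
    intro k
    rw [← b.sum_repr (b k ^ p)]
    exact Finset.sum_congr rfl fun l _ => by rw [hB]
  have hli : LinearIndependent (Rx p) (fun k => ((b k : Oc p L) : L) ^ p ^ 1) := by
    have h1 : LinearIndependent (Rx p) (fun k => ((b k : Oc p L) : L)) :=
      b.linearIndependent.map' (Oc p L).val.toLinearMap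
        (LinearMap.ker_eq_bot_of_injective Subtype.val_injective)
    have h2 := (LinearIndependent.iff_fractionRing (Rx p) (Fx p)).mp h1
    exact (LinearIndependent.iff_fractionRing (Rx p) (Fx p)).mpr
      (h2.map_pow_expChar_pow_of_isSeparable p 1)
  have hdet : B.det ≠ 0 := by
    intro h0
    obtain ⟨v, hv0, hv⟩ := Matrix.exists_vecMul_eq_zero_iff.mpr h0
    apply hv0
    funext k
    rw [Fintype.linearIndependent_iff] at hli
    refine hli v ?_ k
    have h1 : ∑ k, v k • b k ^ p = 0 := by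
      simp only [hB2, Finset.smul_sum, smul_smul]
      rw [Finset.sum_comm]
      refine Finset.sum_eq_zero fun l _ => ?_
      rw [← Finset.sum_smul]
      have h2 : ∑ k, v k * B k l = 0 := congrFun hv l
      rw [h2, zero_smul]
    have h2 := congrArg (Oc p L).val h1
    rw [map_sum, map_zero] at h2
    rw [← h2]
    refine Finset.sum_congr rfl fun k _ => ?_
    rw [map_smul, map_pow, pow_one]
    rfl
  obtain ⟨β, hβ⟩ := pk2_bound n fun l k => (B.adjugate l k).natDegree
  refine ⟨n, b, β, fun z N hN k => ?_⟩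
  apply pk2_mul p B.det _ hdet
  obtain ⟨c, hc⟩ : ∃ c : Fin n → Rx p, ∀ k, c k = b.repr z k := ⟨_, fun _ => rfl⟩
  rw [← hc]
  have h2 : ∀ l, b.repr (z ^ p) l = ∑ k, c k ^ p * B k l := by
    intro l
    have h3 : z ^ p = ∑ k, (c k ^ p) • b k ^ p := by
      conv_lhs => rw [← b.sum_repr z]
      rw [sum_pow_char]
      exact Finset.sum_congr rfl fun k _ => by rw [smul_pow, hc]
    rw [h3, map_sum, Finsupp.finsetSum_apply]
    exact Finset.sum_congr rfl fun k _ => by
      rw [map_smul, Finsupp.smul_apply, smul_eq_mul, hB]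
  have h4 : B.det * c k ^ p = ∑ l, b.repr (z ^ p) l * B.adjugate l k := by
    have h5 : Matrix.vecMul (Matrix.vecMul (fun k => c k ^ p) B) B.adjugate
        = Matrix.vecMul (fun k => c k ^ p) (B * B.adjugate) := Matrix.vecMul_vecMul _ _ _
    rw [Matrix.mul_adjugate, Matrix.vecMul_smul, Matrix.vecMul_one] at h5
    have h6 := congrFun h5 k
    rw [Pi.smul_apply, smul_eq_mul] at h6
    rw [← h6]
    show ∑ l, (∑ k', c k' ^ p * B k' l) * B.adjugate l k =
      ∑ l, b.repr (z ^ p) l * B.adjugate l k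
    simp only [h2]
  rw [h4]
  refine Polynomial.natDegree_sum_le_of_forall_le _ _ fun l _ => ?_
  exact Polynomial.natDegree_mul_le.trans (Nat.add_le_add (hN l) (hβ l k))

/-- a degree on vectors over the ring of integers -/
theorem pk2_deg [FiniteDimensional (Fx p) L] [IsGalois (Fx p) L] :
    ∃ (D : (Fin r → Oc p L) → ℕ) (β : ℕ), (∀ N, {z | D z ≤ N}.Finite) ∧ D 0 = 0 ∧
      (∀ z w, D (z + w) ≤ max (D z) (D w)) ∧ (∀ z, D (-z) = D z) ∧
      (∀ z, z ≠ 0 → D (fun i => xo p L * z i) = D z + 1) ∧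
      (∀ z, p * D z ≤ D (fun i => z i ^ p) + β) := by
  classical
  obtain ⟨n, b, β, hβ⟩ := pk2_basis p L
  obtain ⟨D, hD⟩ : ∃ D : (Fin r → Oc p L) → ℕ, ∀ z N, D z ≤ N ↔
      ∀ i k, (b.repr (z i) k).natDegree ≤ N := by
    refine ⟨fun z => (Finset.univ : Finset (Fin r × Fin n)).sup
      fun q => (b.repr (z q.1) q.2).natDegree, fun z N => ?_⟩
    rw [Finset.sup_le_iff]
    exact ⟨fun h i k => h (i, k) (Finset.mem_univ _), fun h q _ => h q.1 q.2⟩
  have hDle : ∀ z i k, (b.repr (z i) k).natDegree ≤ D z := fun z => (hD z (D z)).mp le_rfl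
  refine ⟨D, β, fun N => ?_, ?_, fun z w => ?_, fun z => ?_, fun z hz => ?_, fun z => ?_⟩
  · have h1 : {f : Fin r → Fin n → Rx p | ∀ i, f i ∈ {g : Fin n → Rx p |
        ∀ k, g k ∈ {g : Rx p | g.natDegree ≤ N}}}.Finite :=
      Set.Finite.pi' fun _ => Set.Finite.pi' fun _ => pk2_fin p N
    refine (h1.preimage (f := fun (z : Fin r → Oc p L) i k => b.repr (z i) k) ?_).subset ?_
    · intro z _ w _ he
      funext i
      apply b.repr.injective
      apply Finsupp.ext
      intro k
      exact congrFun (congrFun he i) k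
    · intro z hz i k
      exact (hD z N).mp hz i k
  · have h1 := (hD 0 0).mpr fun i k => by simp
    omega
  · rw [hD]
    intro i k
    rw [Pi.add_apply, map_add, Finsupp.add_apply]
    exact (Polynomial.natDegree_add_le _ _).trans (max_le_max (hDle z i k) (hDle w i k))
  · have h1 : ∀ z, D (-z) ≤ D z := by
      intro z
      rw [hD]
      intro i k
      rw [Pi.neg_apply, map_neg, Finsupp.neg_apply, Polynomial.natDegree_neg]
      exact hDle z i k
    refine le_antisymm (h1 z) ?_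
    have h2 := h1 (-z)
    rwa [neg_neg] at h2
  · have hr : ∀ i k, b.repr (xo p L * z i) k = Polynomial.X * b.repr (z i) k := by
      intro i k
      have h1 : xo p L * z i = (Polynomial.X : Rx p) • z i := (Algebra.smul_def _ _).symm
      rw [h1, map_smul, Finsupp.smul_apply, smul_eq_mul]
    apply le_antisymm
    · rw [hD]
      intro i k
      rw [hr]
      refine (Polynomial.natDegree_mul_le).trans ?_
      rw [Polynomial.natDegree_X]
      have := hDle z i k
      omega
    · obtain ⟨N, hN⟩ : ∃ N, N = D (fun i => xo p L * z i) := ⟨_, rfl⟩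
      have h1 : ∀ i k, b.repr (z i) k ≠ 0 → (b.repr (z i) k).natDegree + 1 ≤ N := by
        intro i k h0
        have h2 := hDle (fun i => xo p L * z i) i k
        rw [hr, Polynomial.natDegree_X_mul h0, ← hN] at h2
        exact h2
      have h2 : 1 ≤ N := by
        by_contra h3
        apply hz
        funext i
        rw [Pi.zero_apply, ← b.repr.map_eq_zero_iff]
        apply Finsupp.ext
        intro k
        by_contra h4
        have := h1 i k h4
        omega
      have h3 : D z ≤ N - 1 := by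
        rw [hD]
        intro i k
        by_cases h4 : b.repr (z i) k = 0
        · rw [h4, Polynomial.natDegree_zero]
          exact Nat.zero_le _
        · have := h1 i k h4
          omega
      rw [← hN]
      omega
  · have hp : 0 < p := (Fact.out : p.Prime).pos
    have h1 : D z ≤ (D (fun i => z i ^ p) + β) / p := by
      rw [hD]
      intro i k
      rw [Nat.le_div_iff_mul_le hp, mul_comm]
      exact hβ (z i) _ (fun l => hDle (fun i => z i ^ p) i l) k
    rw [Nat.le_div_iff_mul_le hp] at h1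
    rwa [mul_comm]

/-- a nonzero fixed vector -/
theorem pk2_fixed [FiniteDimensional (Fx p) L] [IsGalois (Fx p) L] (hr : 0 < r)
    (A : Gl p L → Matrix (Fin r) (Fin r) (ZMod p)) (hA1 : A 1 = 1)
    (hA : ∀ σ τ, A (σ * τ) = A σ * A τ) :
    ∃ κ : Fin r → Oc p L, (∀ σ : Gl p L, sv p L r A σ κ = κ) ∧ κ ≠ 0 := by
  classical
  obtain ⟨j0, hj0⟩ : ∃ j0 : Fin r, j0 = ⟨0, hr⟩ := ⟨_, rfl⟩
  obtain ⟨F, hF⟩ : ∃ F : Oc p L → Fin r → Oc p L, ∀ θ i,
      F θ i = ∑ τ : Gl p L, cst p (Oc p L) (A τ i j0) * act p L τ θ := ⟨_, fun _ _ => rfl⟩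
  have hfix : ∀ θ σ, sv p L r A σ (F θ) = F θ := by
    intro θ σ
    funext i
    have h1 : F θ i = ∑ τ : Gl p L, cst p (Oc p L) (A (σ * τ) i j0) * act p L (σ * τ) θ := by
      rw [hF]
      exact (Fintype.sum_equiv (Equiv.mulLeft σ) _ _ fun t => rfl).symm
    rw [h1]
    simp only [sv, hF, map_sum, map_mul, act_cst, Finset.mul_sum]
    rw [Finset.sum_comm]
    refine Finset.sum_congr rfl fun τ _ => ?_
    rw [hA, Matrix.mul_apply, map_sum, Finset.sum_mul]
    refine Finset.sum_congr rfl fun j _ => ?_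
    rw [map_mul, act_mul]
    ring
  by_contra hno
  push Not at hno
  have h0 : ∀ θ, F θ j0 = 0 := fun θ => by rw [hno (F θ) (hfix θ), Pi.zero_apply]
  -- independence of the automorphisms
  obtain ⟨χ, hχ⟩ : ∃ χ : Gl p L → (Oc p L →* L), ∀ τ θ, χ τ θ = τ (θ : L) :=
    ⟨fun τ => (τ : L →* L).comp (Oc p L).val.toRingHom.toMonoidHom, fun _ _ => rfl⟩
  have hinj : Function.Injective χ := by
    intro τ τ' he
    apply AlgEquiv.ext
    intro z
    have hfr : IsFractionRing (Oc p L) L :=
      integralClosure.isFractionRing_of_finite_extension (Fx p) L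
    have h1 : ∀ θ : Oc p L, τ (θ : L) = τ' (θ : L) := fun θ => by rw [← hχ, ← hχ, he]
    obtain ⟨a, b, -, rfl⟩ := IsFractionRing.div_surjective (A := Oc p L) z
    rw [map_div₀, map_div₀]
    exact congrArg₂ (· / ·) (h1 a) (h1 b)
  have hli := (linearIndependent_monoidHom (Oc p L) L).comp χ hinj
  rw [Fintype.linearIndependent_iff] at hli
  have h1 := hli (fun τ => cst p L (A τ j0 j0)) ?_ 1
  · have h2 : cst p L (A 1 j0 j0) = 0 := h1
    rw [hA1, Matrix.one_apply_eq, map_one] at h2
    exact one_ne_zero h2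
  · funext θ
    rw [Finset.sum_apply, Pi.zero_apply]
    have h2 := congrArg (Oc p L).val (h0 θ)
    rw [hF, map_sum, map_zero] at h2
    rw [← h2]
    refine Finset.sum_congr rfl fun τ _ => ?_
    rw [map_mul]
    show cst p L (A τ j0 j0) * χ τ θ = _
    rw [hχ]
    rfl

/-- there is a fixed vector `h` such that `a + h` is not in `℘ (L ^ r)` -/
theorem gen_fix [FiniteDimensional (Fx p) L] [IsGalois (Fx p) L] (hr : 0 < r)
    (A : Gl p L → Matrix (Fin r) (Fin r) (ZMod p)) (hA1 : A 1 = 1)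
    (hA : ∀ σ τ, A (σ * τ) = A σ * A τ) (a : Fin r → Oc p L) :
    ∃ h : Fin r → Oc p L, (∀ σ : Gl p L, sv p L r A σ h = h) ∧
      ∀ y : Fin r → L, ∃ i, y i ^ p - y i ≠ ((a i + h i : Oc p L) : L) := by
  classical
  by_contra hno
  push Not at hno
  have hchar : CharP (Oc p L) p := charP_of p (Oc p L)
  -- `sv` is additive and commutes with the multiplication by `x`
  have hadd : ∀ σ z w, sv p L r A σ (z + w) = sv p L r A σ z + sv p L r A σ w := by
    intro σ z w
    funext i
    simp only [sv, Pi.add_apply, map_add, mul_add, Finset.sum_add_distrib]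
  have hzero : ∀ σ, sv p L r A σ 0 = 0 := by
    intro σ
    funext i
    simp only [sv, Pi.zero_apply, map_zero, mul_zero, Finset.sum_const_zero]
  have hneg : ∀ σ z, sv p L r A σ (-z) = -sv p L r A σ z := by
    intro σ z
    rw [eq_neg_iff_add_eq_zero, ← hadd, neg_add_cancel, hzero]
  have hsub : ∀ σ z w, sv p L r A σ (z - w) = sv p L r A σ z - sv p L r A σ w := by
    intro σ z w
    rw [sub_eq_add_neg, hadd, hneg, ← sub_eq_add_neg]
  obtain ⟨H, hH⟩ : ∃ H : AddSubgroup (Fin r → Oc p L), ∀ z,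
      z ∈ H ↔ ∀ σ : Gl p L, sv p L r A σ z = z :=
    ⟨{ carrier := {z | ∀ σ : Gl p L, sv p L r A σ z = z}
       add_mem' := fun {z w} hz hw σ => by rw [hadd, hz σ, hw σ]
       zero_mem' := hzero
       neg_mem' := fun {z} hz σ => by rw [hneg, hz σ] }, fun _ => Iff.rfl⟩
  obtain ⟨x, hx⟩ : ∃ x : (Fin r → Oc p L) →+ (Fin r → Oc p L), ∀ z,
      x z = fun i => xo p L * z i :=
    ⟨{ toFun := fun z i => xo p L * z i
       map_zero' := by
        funext i
        exact mul_zero _
       map_add' := fun z w => by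
        funext i
        exact mul_add _ _ _ }, fun _ => rfl⟩
  have hxH : ∀ z ∈ H, x z ∈ H := by
    intro z hz
    rw [hH] at hz ⊢
    intro σ
    funext i
    rw [hx]
    simp only [sv, map_mul, act_xo]
    rw [← congrFun (hz σ) i]
    simp only [sv, Finset.mul_sum]
    exact Finset.sum_congr rfl fun j _ => by ring
  -- all fixed vectors are values of `wp`
  have hy : ∀ h ∈ H, ∃ y : Fin r → Oc p L, wp p L r y = a + h := by
    intro h hh
    obtain ⟨y, hy⟩ := hno h ((hH h).mp hh)
    refine ⟨fun i => ⟨y i, as_int p L (y i) (a i + h i) (hy i)⟩, ?_⟩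
    funext i
    exact Subtype.ext (hy i)
  choose! Y hY using hy
  obtain ⟨Z, hZ⟩ : ∃ Z : (Fin r → Oc p L) → (Fin r → Oc p L), ∀ h, Z h = Y h - Y 0 :=
    ⟨_, fun _ => rfl⟩
  have hZw : ∀ h ∈ H, wp p L r (Z h) = h := by
    intro h hh
    rw [hZ, pk1_wp_sub, hY h hh, hY 0 H.zero_mem, add_zero, add_sub_cancel_left]
  have hU : ∀ h ∈ H, ∃ u : Gl p L → Fin r → ZMod p, ∀ σ,
      sv p L r A σ (Z h) - Z h = cv p L r (u σ) := by
    intro h hh
    have h1 : ∀ σ i, ∃ c : ZMod p, (sv p L r A σ (Z h) - Z h) i = cst p (Oc p L) c := by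
      intro σ i
      apply cst_of_pow
      have h2 : wp p L r (sv p L r A σ (Z h) - Z h) = 0 := by
        rw [pk1_wp_sub, pk1_wp_sv, hZw h hh, (hH h).mp hh σ, sub_self]
      exact sub_eq_zero.mp (congrFun h2 i)
    choose u hu using h1
    exact ⟨u, fun σ => funext fun i => hu σ i⟩
  choose! U hU using hU
  -- representatives
  have hrep : ∀ u : Gl p L → Fin r → ZMod p, ∃ s ∈ H, ∀ h ∈ H, U h = u → U s = u := by
    intro u
    by_cases hu : ∃ s ∈ H, U s = u
    · obtain ⟨s, hs, hsu⟩ := hu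
      exact ⟨s, hs, fun _ _ _ => hsu⟩
    · exact ⟨0, H.zero_mem, fun h hh he => absurd ⟨h, hh, he⟩ hu⟩
  choose R hR1 hR2 using hrep
  have hS : ∀ h ∈ H, ∃ s ∈ Finset.univ.image R, ∃ d ∈ H, h = s + wp p L r d := by
    intro h hh
    refine ⟨R (U h), Finset.mem_image_of_mem R (Finset.mem_univ _), Z h - Z (R (U h)), ?_, ?_⟩
    · rw [hH]
      intro σ
      have h1 := hU h hh σ
      have h2 := hU (R (U h)) (hR1 _) σ
      rw [hR2 (U h) h hh rfl, ← h1] at h2
      rw [hsub]
      rw [sub_eq_sub_iff_add_eq_add] at h2 ⊢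
      rw [← h2]
      abel
    · rw [pk1_wp_sub, hZw h hh, hZw _ (hR1 _)]
      abel
  obtain ⟨D, β, hD1, hD2, hD3, hD4, hD5, hD6⟩ := pk2_deg p L r
  obtain ⟨κ, hκ1, hκ2⟩ := pk2_fixed p L r hr A hA1 hA
  refine pk2_count H D β hD1 hD2 hD3 hD4 x (fun z hz => ?_) hxH (wp p L r) (fun z => ?_)
    (Finset.univ.image R) hS ⟨κ, (hH κ).mpr hκ1, hκ2⟩
  · rw [hx]
    exact hD5 z hz
  · have h1 := hD6 z
    have h2 : (fun i => z i ^ p) = wp p L r z + z := by
      funext i
      simp only [wp, Pi.add_apply, sub_add_cancel]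
    rw [h2] at h1
    have h3 := hD3 (wp p L r z) z
    have hp : 2 ≤ p := (Fact.out : p.Prime).two_le
    have h4 : 2 * D z ≤ p * D z := Nat.mul_le_mul_right _ hp
    rcases le_total (D (wp p L r z)) (D z) with h5 | h5
    · rw [max_eq_right h5] at h3
      omega
    · rw [max_eq_left h5] at h3
      omega

end Pool.Agent.AB
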