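import Pool.Agent.Lib.MP_5de024_nt.C.Pk1
import Pool.Agent.Lib.MP_5de024_nt.As3

/-!
# The extension given by a vector (piece Pk3)
-/

set_option autoImplicit false
set_option linter.unusedSectionVars false

namespace Pool.Agent.AB

section pk3field

open Polynomial

theorem pk3_lt (p : ℕ) (hp : 1 < p) (K : Type) [Field K] (a : K) :
    (X + C a : K[X]).natDegree < (X ^ p : K[X]).natDegree := by
  rw [natDegree_X_add_C, natDegree_X_pow]
  exact hp

theorem pk3_monic (p : ℕ) (hp : 1 < p) (K : Type) [Field K] (a : K) :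
    (X ^ p - (X + C a) : K[X]).Monic :=
  (monic_X_pow p).sub_of_left (degree_lt_degree (pk3_lt p hp K a))

theorem pk3_natDegree (p : ℕ) (hp : 1 < p) (K : Type) [Field K] (a : K) :
    (X ^ p - (X + C a) : K[X]).natDegree = p := by
  rw [natDegree_sub_eq_left_of_natDegree_lt (pk3_lt p hp K a), natDegree_X_pow]

theorem pk3_separable (p : ℕ) (K : Type) [Field K] [CharP K p] (a : K) :
    (X ^ p - (X + C a) : K[X]).Separable := by
  rw [separable_def, derivative_sub, derivative_X_pow, derivative_add, derivative_X,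
    derivative_C, CharP.cast_eq_zero, C_0, zero_mul, zero_sub, add_zero]
  exact isCoprime_one_right.neg_right

/-- The product of the `X ^ p - X - σ (a i)` comes from the base field. -/
theorem pk3_lift (F K : Type) [Field F] [Field K] [Algebra F K] [FiniteDimensional F K]
    [IsGalois F K] [Fintype (K ≃ₐ[F] K)] (p r : ℕ) (a : Fin r → K) :
    ∃ f : F[X], f.map (algebraMap F K) =
      ∏ h : K ≃ₐ[F] K, ∏ i, (X ^ p - (X + C (h (a i))) : K[X]) := by
  rw [← mem_lifts, lifts_iff_coeff_lifts]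
  intro i
  rw [IsGalois.mem_range_algebraMap_iff_fixed]
  intro σ
  have h1 : (∏ h : K ≃ₐ[F] K, ∏ i, (X ^ p - (X + C (h (a i))) : K[X])).map (σ : K →+* K) =
      ∏ h : K ≃ₐ[F] K, ∏ i, (X ^ p - (X + C (h (a i))) : K[X]) := by
    rw [Polynomial.map_prod]
    refine Fintype.prod_equiv (Equiv.mulLeft σ) _ _ fun h => ?_
    rw [Polynomial.map_prod]
    refine Finset.prod_congr rfl fun j _ => ?_
    rw [Polynomial.map_sub, Polynomial.map_pow, Polynomial.map_add, map_X, map_C,
      Equiv.coe_mulLeft, AlgEquiv.mul_apply]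
    rfl
  have h2 := congrArg (fun g : K[X] => g.coeff i) h1
  simp only [coeff_map] at h2
  exact h2

/-- The field generated by the roots of `X ^ p - X - a i`. -/
theorem pk3_field (F K : Type) [Field F] [Field K] [Algebra F K] [FiniteDimensional F K]
    [IsGalois F K] (p : ℕ) [Fact p.Prime] [CharP K p] (r : ℕ) (a : Fin r → K)
    (hst : ∀ (σ : K ≃ₐ[F] K) (j : Fin r), ∃ (c : Fin r → K) (w : K), (∀ i, c i ^ p = c i) ∧
      σ (a j) = ∑ i, c i * a i + (w ^ p - w)) :
    ∃ (L : Type) (_ : Field L) (_ : Algebra F L) (_ : Algebra K L) (_ : IsScalarTower F K L)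
      (y : Fin r → L), FiniteDimensional F L ∧ IsGalois F L ∧
      (∀ i, y i ^ p - y i = algebraMap K L (a i)) ∧ Algebra.adjoin K (Set.range y) = ⊤ := by
  classical
  have hp : 1 < p := (Fact.out : p.Prime).one_lt
  have := Fintype.ofFinite (K ≃ₐ[F] K)
  obtain ⟨f, hf⟩ := pk3_lift F K p r a
  obtain ⟨g, hg⟩ : ∃ g : K[X], g = ∏ h : K ≃ₐ[F] K, ∏ i, (X ^ p - (X + C (h (a i))) : K[X]) :=
    ⟨_, rfl⟩
  have hX : ∀ c : K, (X ^ p - (X + C c) : K[X]) ≠ 0 := fun c => (pk3_monic p hp K c).ne_zero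
  have hg0 : g ≠ 0 := by
    rw [hg, Finset.prod_ne_zero_iff]
    intro h _
    rw [Finset.prod_ne_zero_iff]
    exact fun i _ => hX _
  have hf0 : f ≠ 0 := by
    rintro rfl
    rw [Polynomial.map_zero, ← hg] at hf
    exact hg0 hf.symm
  obtain ⟨L, i1, i2, i3, i4, hsp⟩ : ∃ (L : Type) (_ : Field L) (_ : Algebra F L)
      (_ : Algebra K L) (_ : IsScalarTower F K L), IsSplittingField K L g :=
    ⟨g.SplittingField, inferInstance, inferInstance, inferInstance, inferInstance, inferInstance⟩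
  have hfd : FiniteDimensional K L := IsSplittingField.finiteDimensional L g
  have hcharL : CharP L p := charP_of_injective_algebraMap (algebraMap K L).injective p
  -- roots of `g`
  have hroot : ∀ α ∈ g.rootSet L, ∃ (h : K ≃ₐ[F] K) (j : Fin r),
      α ^ p - α = algebraMap K L (h (a j)) := by
    intro α hα
    rw [mem_rootSet, hg, map_prod, Finset.prod_eq_zero_iff] at hα
    obtain ⟨-, h, -, h1⟩ := hα
    rw [map_prod, Finset.prod_eq_zero_iff] at h1
    obtain ⟨j, -, h2⟩ := h1
    refine ⟨h, j, ?_⟩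
    rw [map_sub, map_pow, map_add, aeval_X, aeval_C] at h2
    linear_combination h2
  have hy : ∀ i : Fin r, ∃ y : L, y ^ p - y = algebraMap K L (a i) := by
    intro i
    have h1 : ((X ^ p - (X + C (a i)) : K[X]).map (algebraMap K L)).Splits := by
      refine (IsSplittingField.splits L g).of_dvd ?_ ?_
      · exact (Polynomial.map_ne_zero_iff (algebraMap K L).injective).2 hg0
      · refine Polynomial.map_dvd _ ?_
        rw [hg]
        refine dvd_trans ?_ (Finset.dvd_prod_of_mem _ (Finset.mem_univ (1 : K ≃ₐ[F] K)))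
        exact Finset.dvd_prod_of_mem (fun i => (X ^ p - (X + C ((1 : K ≃ₐ[F] K) (a i))) : K[X]))
          (Finset.mem_univ i)
    obtain ⟨y, hy⟩ := h1.exists_eval_eq_zero (by
      rw [degree_map, degree_eq_natDegree (hX _), pk3_natDegree p hp]
      exact_mod_cast (by omega : p ≠ 0))
    refine ⟨y, ?_⟩
    rw [Polynomial.map_sub, Polynomial.map_pow, Polynomial.map_add, map_X, map_C, eval_sub,
      eval_pow, eval_add, eval_X, eval_C] at hy
    linear_combination hy
  choose y hy using hy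
  have hgen : Algebra.adjoin K (Set.range y) = ⊤ := by
    rw [eq_top_iff, ← IsSplittingField.adjoin_rootSet L g, Algebra.adjoin_le_iff]
    intro α hα
    obtain ⟨h, j, h1⟩ := hroot α hα
    obtain ⟨c, w, hc, hcw⟩ := hst h j
    have h2 : (α - (∑ i, algebraMap K L (c i) * y i + algebraMap K L w)) ^ p =
        α - (∑ i, algebraMap K L (c i) * y i + algebraMap K L w) := by
      rw [sub_pow_char, add_pow_char, sum_pow_char]
      have h3 : ∀ i, (algebraMap K L (c i) * y i) ^ p =
          algebraMap K L (c i) * y i + algebraMap K L (c i) * algebraMap K L (a i) := by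
        intro i
        rw [mul_pow, ← map_pow, hc i, ← hy i]
        ring
      rw [Finset.sum_congr rfl fun i _ => h3 i, Finset.sum_add_distrib]
      have h4 := congrArg (algebraMap K L) hcw
      rw [map_add, map_sum, map_sub, map_pow] at h4
      simp only [map_mul] at h4
      linear_combination h1 + h4
    have h3 : α - (∑ i, algebraMap K L (c i) * y i + algebraMap K L w) ∈ (⊥ : Subfield L) :=
      (Subfield.mem_bot_iff_pow_eq_self L p).2 h2
    rw [mem_bot_iff_intCast p L] at h3
    obtain ⟨n, hn⟩ := h3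
    have h4 : α = (∑ i, algebraMap K L (c i) * y i + algebraMap K L w) +
        algebraMap K L (n : K) := by
      rw [map_intCast, hn]
      ring
    rw [h4]
    refine Subalgebra.add_mem _ (Subalgebra.add_mem _ (Subalgebra.sum_mem _ fun i _ =>
      Subalgebra.mul_mem _ (Subalgebra.algebraMap_mem _ _) (Algebra.subset_adjoin ⟨i, rfl⟩))
      (Subalgebra.algebraMap_mem _ _)) (Subalgebra.algebraMap_mem _ _)
  have hsepK : Algebra.IsSeparable K L := by
    have h1 : ∀ α ∈ Set.range y, IsSeparable K α := by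
      rintro _ ⟨h, rfl⟩
      refine (pk3_separable p K (a h)).of_dvd (minpoly.dvd K _ ?_)
      rw [map_sub, map_pow, map_add, aeval_X, aeval_C]
      linear_combination hy h
    have h2 := (IntermediateField.isSeparable_adjoin_iff_isSeparable K L).2 h1
    have h3 : IntermediateField.adjoin K (Set.range y) = ⊤ := by
      rw [← IntermediateField.toSubalgebra_inj,
        IntermediateField.adjoin_toSubalgebra_of_isAlgebraic
          (fun x _ => Algebra.IsAlgebraic.isAlgebraic x), hgen]
      rfl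
    rw [h3] at h2
    exact Algebra.IsSeparable.of_algHom K (⊤ : IntermediateField K L)
      (IntermediateField.topEquiv (F := K) (E := L)).symm.toAlgHom
  obtain ⟨q, hqs, hq⟩ := IsGalois.is_separable_splitting_field F K
  have hq0 : q ≠ 0 := hqs.ne_zero
  have hLs : IsSplittingField F L (q * f) := by
    have h1 : IsSplittingField K L (f.map (algebraMap F K)) := by
      rw [hf, ← hg]
      exact hsp
    exact IsSplittingField.mul (K := K) L q f hq0 hf0
  have hsep : Algebra.IsSeparable F L := Algebra.IsSeparable.trans F K L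
  have hnor : Normal F L := Normal.of_isSplittingField (q * f)
  exact ⟨L, i1, i2, i3, i4, y, FiniteDimensional.trans F K L, ⟨⟩, hy, hgen⟩

end pk3field

/-- the conjugates of `a` modulo `℘` -/
theorem pk3_conj (p : ℕ) [Fact p.Prime] (L : Type) [Field L] [Algebra (Fx p) L]
    [Algebra (Rx p) L] [IsScalarTower (Rx p) (Fx p) L] (r : ℕ)
    (A : Gl p L → Matrix (Fin r) (Fin r) (ZMod p))
    (hA1 : A 1 = 1) (hA : ∀ σ τ, A (σ * τ) = A σ * A τ) (b : Gl p L → Fin r → Oc p L)
    (a : Fin r → Oc p L) (ha : ∀ σ, sv p L r A σ a = a - wp p L r (b σ))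
    (σ : Gl p L) (k : Fin r) :
    ∃ (c : Fin r → L) (w : L), (∀ i, c i ^ p = c i) ∧
      σ (a k : L) = ∑ i, c i * (a i : L) + (w ^ p - w) := by
  have hchar : CharP L p := charP_of p L
  have h1 : ∀ i, ∑ j, cst p L (A σ i j) * σ (a j : L) =
      (a i : L) - ((b σ i : L) ^ p - (b σ i : L)) := by
    intro i
    have h2 := congrArg (fun s : Oc p L => (s : L)) (congrFun (ha σ) i)
    have h3 : ((sv p L r A σ a i : Oc p L) : L) = ∑ j, cst p L (A σ i j) * σ (a j : L) := by
      simp only [sv, AddSubmonoidClass.coe_finsetSum, MulMemClass.coe_mul, cst_coe, act_coe]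
    rw [← h3]
    exact h2
  refine ⟨fun i => cst p L (A σ⁻¹ k i), -∑ i, cst p L (A σ⁻¹ k i) * (b σ i : L),
    fun i => cst_pow p L _, ?_⟩
  have h2 : ∀ j, ∑ i, A σ⁻¹ k i * A σ i j = (1 : Matrix (Fin r) (Fin r) (ZMod p)) k j := by
    intro j
    rw [← Matrix.mul_apply, ← hA, inv_mul_cancel, hA1]
  have h3 : σ (a k : L) = ∑ i, cst p L (A σ⁻¹ k i) * ((a i : L) -
      ((b σ i : L) ^ p - (b σ i : L))) := by
    have h4 : ∑ i, cst p L (A σ⁻¹ k i) * ((a i : L) - ((b σ i : L) ^ p - (b σ i : L))) =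
        ∑ j, (∑ i, cst p L (A σ⁻¹ k i) * cst p L (A σ i j)) * σ (a j : L) := by
      simp only [← h1, Finset.mul_sum, Finset.sum_mul]
      rw [Finset.sum_comm]
      exact Finset.sum_congr rfl fun i _ => Finset.sum_congr rfl fun j _ => by ring
    rw [h4, Finset.sum_eq_single k]
    · simp only [← map_mul]
      rw [← map_sum, h2, Matrix.one_apply_eq, map_one, one_mul]
    · intro j _ hj
      simp only [← map_mul]
      rw [← map_sum, h2, Matrix.one_apply_ne (Ne.symm hj), map_zero, zero_mul]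
    · intro h
      exact absurd (Finset.mem_univ k) h
  rw [h3]
  have h4 : (-∑ i, cst p L (A σ⁻¹ k i) * (b σ i : L)) ^ p =
      -∑ i, cst p L (A σ⁻¹ k i) * (b σ i : L) ^ p := by
    have h5 : (∑ i, cst p L (A σ⁻¹ k i) * (b σ i : L)) ^ p =
        ∑ i, cst p L (A σ⁻¹ k i) * (b σ i : L) ^ p := by
      rw [sum_pow_char]
      exact Finset.sum_congr rfl fun i _ => by rw [mul_pow, cst_pow]
    have h6 : (-∑ i, cst p L (A σ⁻¹ k i) * (b σ i : L)) ^ p =
        -(∑ i, cst p L (A σ⁻¹ k i) * (b σ i : L)) ^ p := by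
      have h7 := sub_pow_char (p := p) (0 : L) (∑ i, cst p L (A σ⁻¹ k i) * (b σ i : L))
      rw [zero_sub, zero_pow (Fact.out : p.Prime).ne_zero, zero_sub] at h7
      exact h7
    rw [h6, h5]
  rw [h4]
  simp only [mul_sub, Finset.sum_sub_distrib]
  ring

/-- the extension `M = L(y)` with `℘ y = a` -/
theorem vec_ext (p : ℕ) [Fact p.Prime] (L : Type) [Field L] [Algebra (Fx p) L]
    [Algebra (Rx p) L] [IsScalarTower (Rx p) (Fx p) L] (r : ℕ) [FiniteDimensional (Fx p) L]
    [IsGalois (Fx p) L] (hNI : NI p L) (A : Gl p L → Matrix (Fin r) (Fin r) (ZMod p))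
    (hA1 : A 1 = 1) (hA : ∀ σ τ, A (σ * τ) = A σ * A τ) (b : Gl p L → Fin r → Oc p L)
    (a : Fin r → Oc p L) (ha : ∀ σ, sv p L r A σ a = a - wp p L r (b σ)) :
    ∃ (M : Type) (_ : Field M) (_ : Algebra (Fx p) M) (_ : Algebra (Rx p) M)
      (_ : IsScalarTower (Rx p) (Fx p) M) (ι : L →ₐ[Fx p] M) (ρ : Gl p M →* Gl p L)
      (y : Fin r → M) (u : Gl p M → Fin r → ZMod p),
      FiniteDimensional (Fx p) M ∧ IsGalois (Fx p) M ∧ NI p M ∧
      (∀ (τ : Gl p M) (s : L), τ (ι s) = ι (ρ τ s)) ∧ Function.Surjective ρ ∧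
      (∀ i, y i ^ p - y i = ι (a i : L)) ∧
      (∀ τ : Gl p M, ρ τ = 1 → (∀ i, τ (y i) = y i) → τ = 1) ∧
      ∀ (τ : Gl p M) (i : Fin r),
        ∑ j, cst p M (A (ρ τ) i j) * τ (y j) =
          y i - ι (b (ρ τ) i : L) - cst p M (u τ i) := by
  have hcharL : CharP L p := charP_of p L
  obtain ⟨M, i1, i2, i3, i4, y, hfd, hgal, hy, hgen⟩ := pk3_field (Fx p) L p r
    (fun i => (a i : L)) (pk3_conj p L r A hA1 hA b a ha)
  let i5 : Algebra (Rx p) M := ((algebraMap (Fx p) M).comp (algebraMap (Rx p) (Fx p))).toAlgebra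
  have i6 : IsScalarTower (Rx p) (Fx p) M := IsScalarTower.of_algebraMap_eq' rfl
  have hcharM : CharP M p := charP_of p M
  obtain ⟨ι, hι⟩ : ∃ ι : L →ₐ[Fx p] M, ∀ s, ι s = algebraMap L M s :=
    ⟨IsScalarTower.toAlgHom (Fx p) L M, fun s => rfl⟩
  obtain ⟨ρ, hρ⟩ : ∃ ρ : Gl p M →* Gl p L, ρ = AlgEquiv.restrictNormalHom L := ⟨_, rfl⟩
  have hρ1 : ∀ (τ : Gl p M) (s : L), τ (ι s) = ι (ρ τ s) := by
    intro τ s
    rw [hι, hι, hρ]
    exact (AlgEquiv.restrictNormal_commutes τ L s).symm
  have hρs : Function.Surjective ρ := by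
    rw [hρ]
    exact AlgEquiv.restrictNormalHom_surjective M
  have hyι : ∀ i, y i ^ p - y i = ι (a i : L) := fun i => by rw [hι]; exact hy i
  have hfix : ∀ τ : Gl p M, (∀ s : L, τ (ι s) = ι s) → (∀ i, τ (y i) = y i) → τ = 1 := by
    intro τ h1 h2
    have h3 : ∀ z ∈ Algebra.adjoin L (Set.range y), τ z = z := by
      intro z hz
      induction hz using Algebra.adjoin_induction with
      | mem z hz =>
        obtain ⟨h, rfl⟩ := hz
        exact h2 h
      | algebraMap s => rw [← hι]; exact h1 s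
      | add a b _ _ ha hb => rw [map_add, ha, hb]
      | mul a b _ _ ha hb => rw [map_mul, ha, hb]
    refine AlgEquiv.ext fun z => ?_
    rw [AlgEquiv.one_apply]
    exact h3 z (by rw [hgen]; trivial)
  have hfix1 : ∀ τ : Gl p M, ρ τ = 1 → (∀ i, τ (y i) = y i) → τ = 1 := by
    intro τ h1 h2
    refine hfix τ (fun s => ?_) h2
    rw [hρ1, h1, AlgEquiv.one_apply]
  have hιc : ∀ c : ZMod p, ι (cst p L c) = cst p M c := as_cst p L M ι
  have hu : ∀ (τ : Gl p M) (i : Fin r), ∃ c : ZMod p,
      ∑ j, cst p M (A (ρ τ) i j) * τ (y j) = y i - ι (b (ρ τ) i : L) - cst p M c := by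
    intro τ i
    obtain ⟨c, hc⟩ := cst_of_pow p M
      (∑ j, cst p M (A (ρ τ) i j) * τ (y j) - (y i - ι (b (ρ τ) i : L))) (by
        rw [sub_pow_char, sub_pow_char, sum_pow_char]
        have h3 : ∀ j, (cst p M (A (ρ τ) i j) * τ (y j)) ^ p =
            cst p M (A (ρ τ) i j) * τ (y j) +
              ι (cst p L (A (ρ τ) i j) * ρ τ (a j : L)) := by
          intro j
          rw [mul_pow, cst_pow, map_mul, hιc, ← hρ1, ← hyι, map_sub, map_pow]
          ring
        rw [Finset.sum_congr rfl fun j _ => h3 j, Finset.sum_add_distrib, ← map_sum]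
        have h4 : ∑ j, cst p L (A (ρ τ) i j) * ρ τ (a j : L) =
            (a i : L) - ((b (ρ τ) i : L) ^ p - (b (ρ τ) i : L)) := by
          have h5 := congrArg (fun s : Oc p L => (s : L)) (congrFun (ha (ρ τ)) i)
          have h6 : ((sv p L r A (ρ τ) a i : Oc p L) : L) =
              ∑ j, cst p L (A (ρ τ) i j) * (ρ τ) (a j : L) := by
            simp only [sv, AddSubmonoidClass.coe_finsetSum, MulMemClass.coe_mul, cst_coe,
              act_coe]
          rw [← h6]
          exact h5
        rw [h4, map_sub, map_sub, map_pow, ← hyι]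
        ring)
    refine ⟨-c, ?_⟩
    rw [map_neg, ← hc]
    ring
  choose u hu using hu
  refine ⟨M, i1, i2, i5, i6, ι, ρ, y, u, hfd, hgal, ?_, hρ1, hρs, hyι, hfix1, hu⟩
  intro t ht P hP
  by_cases hres : ρ t = 1
  · obtain ⟨i, hi⟩ : ∃ i, t (y i) ≠ y i := by
      by_contra hcon
      push Not at hcon
      exact ht (hfix1 t hres hcon)
    have hK : ∀ s : L, t (ι s) = ι s := fun s => by rw [hρ1, hres, AlgEquiv.one_apply]
    obtain ⟨c, hc⟩ := cst_of_pow p M (t (y i) - y i) (by
      rw [sub_pow_char]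
      have h1 := congrArg t (hyι i)
      rw [map_sub, map_pow, hK] at h1
      linear_combination h1 - hyι i)
    have hc0 : c ≠ 0 := by
      rintro rfl
      rw [map_zero, sub_eq_zero] at hc
      exact hi hc
    refine ⟨⟨y i, as_int p M (y i) (omap p L M ι (a i)) (hyι i)⟩, fun hmem => ?_⟩
    have h2 : act p M t ⟨y i, as_int p M (y i) (omap p L M ι (a i)) (hyι i)⟩ -
        ⟨y i, as_int p M (y i) (omap p L M ι (a i)) (hyι i)⟩ = cst p (Oc p M) c := by
      apply Subtype.ext
      change t (y i) - y i = cst p M c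
      exact hc
    rw [h2] at hmem
    have hun : IsUnit (cst p (Oc p M) c) := (isUnit_iff_ne_zero.2 hc0).map (cst p (Oc p M))
    exact hP.ne_top (Ideal.eq_top_of_isUnit_mem P hmem hun)
  · obtain ⟨n, a', b', h1, h2⟩ := gs_of_ni p L hNI
    by_contra hcon
    push Not at hcon
    apply hP.ne_top
    rw [Ideal.eq_top_iff_one]
    have h3 : (1 : Oc p M) = -∑ j, omap p L M ι (a' j) *
        (act p M t (omap p L M ι (b' j)) - omap p L M ι (b' j)) := by
      have h4 : ∀ j, act p M t (omap p L M ι (b' j)) =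
          omap p L M ι (act p L (ρ t) (b' j)) := fun j => Subtype.ext (hρ1 t _)
      simp only [h4, mul_sub, Finset.sum_sub_distrib, ← map_mul]
      rw [← map_sum, ← map_sum, h1, h2 (ρ t) hres, map_zero, map_one]
      ring
    rw [h3]
    exact P.neg_mem (P.sum_mem fun j _ => P.mul_mem_left _ (hcon _))

end Pool.Agent.AB
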