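import Pool.Agent.Lib.MP_5de024_nt.C.KDefs

/-!
# Coordinates on an elementary abelian kernel (piece PkE)
-/

set_option autoImplicit false
set_option linter.unusedSectionVars false

namespace Pool.Agent.AB

/-- coordinates on a finite vector space -/
theorem pkE_basis (K V : Type) [Field K] [AddCommGroup V] [Module K V] [Finite V] :
    ∃ (r : ℕ) (t : (Fin r → K) → V), (∀ u v, t (u + v) = t u + t v) ∧
      (∀ u v, t u = t v → u = v) ∧ (∀ g, ∃ u, t u = g) := by
  let e := (Module.finBasis K V).equivFun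
  exact ⟨_, fun u => e.symm u, fun u v => map_add e.symm u v, fun u v h => e.symm.injective h,
    fun g => ⟨e g, e.symm_apply_apply g⟩⟩

/-- coordinates on an elementary abelian group -/
theorem pkE_vec (p : ℕ) [Fact p.Prime] (V : Type) [CommGroup V] [Finite V]
    (hp : ∀ a : V, a ^ p = 1) :
    ∃ (r : ℕ) (t : (Fin r → ZMod p) → V), (∀ u v, t (u + v) = t u * t v) ∧
      (∀ u v, t u = t v → u = v) ∧ (∀ g, ∃ u, t u = g) := by
  let _ : Module (ZMod p) (Additive V) := AddCommGroup.zmodModule (n := p) (by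
    intro x
    apply Additive.toMul.injective
    exact hp (Additive.toMul x))
  obtain ⟨r, t, h1, h2, h3⟩ := pkE_basis (ZMod p) (Additive V)
  refine ⟨r, fun u => Additive.toMul (t u), ?_, ?_, ?_⟩
  · intro u v
    exact congrArg Additive.toMul (h1 u v)
  · intro u v h
    exact h2 u v (Additive.toMul.injective h)
  · intro g
    obtain ⟨u, hu⟩ := h3 (Additive.ofMul g)
    exact ⟨u, congrArg Additive.toMul hu⟩

/-- coordinates on an elementary abelian `p`-subgroup -/
theorem pkE_coord (p : ℕ) [Fact p.Prime] (E : Type) [Group E] [Finite E] (U : Subgroup E)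
    (hab : ∀ a ∈ U, ∀ b ∈ U, a * b = b * a) (hp : ∀ a ∈ U, a ^ p = 1) :
    ∃ (r : ℕ) (t : (Fin r → ZMod p) → E), (∀ u v, t (u + v) = t u * t v) ∧
      (∀ u v, t u = t v → u = v) ∧ (∀ g, g ∈ U ↔ ∃ u, t u = g) := by
  let _ : CommGroup U :=
    { (inferInstance : Group U) with
      mul_comm := fun a b => Subtype.ext (hab a.1 a.2 b.1 b.2) }
  obtain ⟨r, t, h1, h2, h3⟩ := pkE_vec p U fun a => Subtype.ext (hp a.1 a.2)
  refine ⟨r, fun u => (t u : E), ?_, ?_, ?_⟩
  · intro u v
    change ((t (u + v) : U) : E) = (t u : E) * (t v : E)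
    rw [h1]
    rfl
  · intro u v h
    exact h2 u v (Subtype.ext h)
  · intro g
    constructor
    · intro hg
      obtain ⟨u, hu⟩ := h3 ⟨g, hg⟩
      exact ⟨u, congrArg Subtype.val hu⟩
    · rintro ⟨u, rfl⟩
      exact (t u).2

/-- conjugation is linear in the coordinates -/
theorem pkE_conj (p : ℕ) [Fact p.Prime] (E : Type) [Group E] (U : Subgroup E) [U.Normal] (r : ℕ)
    (t : (Fin r → ZMod p) → E) (ht : ∀ u v, t (u + v) = t u * t v)
    (hinj : ∀ u v, t u = t v → u = v) (hU : ∀ g, g ∈ U ↔ ∃ u, t u = g) (g : E) :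
    ∃ M : Matrix (Fin r) (Fin r) (ZMod p), ∀ u, g * t u * g⁻¹ = t (M.mulVec u) := by
  have h1 : ∀ u, ∃ v, t v = g * t u * g⁻¹ := fun u =>
    (hU _).1 (Subgroup.Normal.conj_mem inferInstance _ ((hU _).2 ⟨u, rfl⟩) g)
  choose c hc using h1
  have hadd : ∀ u v, c (u + v) = c u + c v := by
    intro u v
    apply hinj
    rw [ht, hc, hc, hc, ht]
    group
  have h0 : c 0 = 0 := by
    have h := hadd 0 0
    rw [add_zero] at h
    exact left_eq_add.1 h
  let F : (Fin r → ZMod p) →+ (Fin r → ZMod p) :=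
    { toFun := c
      map_zero' := h0
      map_add' := hadd }
  refine ⟨LinearMap.toMatrix' (F.toZModLinearMap p), fun u => ?_⟩
  rw [LinearMap.toMatrix'_mulVec, ← hc]
  rfl

/-- coordinates on a normal elementary abelian `p`-subgroup and the cocycle of a section -/
theorem ext_data (p : ℕ) [Fact p.Prime] (E : Type) [Group E] [Finite E] (U : Subgroup E)
    [U.Normal] (hab : ∀ a ∈ U, ∀ b ∈ U, a * b = b * a) (hp : ∀ a ∈ U, a ^ p = 1) :
    ∃ (r : ℕ) (t : (Fin r → ZMod p) → E) (s : E ⧸ U → E)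
      (A : E ⧸ U → Matrix (Fin r) (Fin r) (ZMod p))
      (f : E ⧸ U → E ⧸ U → Fin r → ZMod p),
      (∀ u v, t (u + v) = t u * t v) ∧ (∀ u, t u = 1 → u = 0) ∧ (∀ g, g ∈ U ↔ ∃ u, t u = g) ∧
      (∀ g, (QuotientGroup.mk (s g) : E ⧸ U) = g) ∧ A 1 = 1 ∧
      (∀ g h, A (g * h) = A g * A h) ∧
      (∀ (g : E) (u : Fin r → ZMod p),
        g * t u * g⁻¹ = t ((A (QuotientGroup.mk g)).mulVec u)) ∧
      (∀ g h, s g * s h = t (f g h) * s (g * h)) ∧
      ∀ g h k, (A g).mulVec (f h k) + f g (h * k) = f (g * h) k + f g h := by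
  obtain ⟨r, t, ht, hinj, hU⟩ := pkE_coord p E U hab hp
  choose M hM using pkE_conj p E U r t ht hinj hU
  have hs : ∀ q : E ⧸ U, (QuotientGroup.mk (Quotient.out q) : E ⧸ U) = q :=
    fun q => QuotientGroup.out_eq' q
  set s : E ⧸ U → E := fun q => Quotient.out q with hsdef
  have hs' : ∀ q : E ⧸ U, (QuotientGroup.mk (s q) : E ⧸ U) = q := hs
  have hA : ∀ (g : E) (u : Fin r → ZMod p),
      g * t u * g⁻¹ = t ((M (s (QuotientGroup.mk g))).mulVec u) := by
    intro g u
    rw [← hM]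
    have hw : (s (QuotientGroup.mk g : E ⧸ U))⁻¹ * g ∈ U := by
      rw [← QuotientGroup.eq]
      exact hs' _
    have hcomm := hab _ hw _ ((hU _).2 ⟨u, rfl⟩)
    have h1 : g = s (QuotientGroup.mk g : E ⧸ U) * ((s (QuotientGroup.mk g : E ⧸ U))⁻¹ * g) := by
      group
    calc g * t u * g⁻¹
        = s (QuotientGroup.mk g : E ⧸ U) * (((s (QuotientGroup.mk g : E ⧸ U))⁻¹ * g) * t u) *
            g⁻¹ := by group
      _ = s (QuotientGroup.mk g : E ⧸ U) * (t u * ((s (QuotientGroup.mk g : E ⧸ U))⁻¹ * g)) *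
            g⁻¹ := by rw [hcomm]
      _ = s (QuotientGroup.mk g : E ⧸ U) * t u * (s (QuotientGroup.mk g : E ⧸ U))⁻¹ := by group
  have hext : ∀ M1 M2 : Matrix (Fin r) (Fin r) (ZMod p),
      (∀ u, t (M1.mulVec u) = t (M2.mulVec u)) → M1 = M2 := by
    intro M1 M2 h
    apply Matrix.toLin'.injective
    apply LinearMap.ext
    intro u
    rw [Matrix.toLin'_apply, Matrix.toLin'_apply]
    exact hinj _ _ (h u)
  have hmem : ∀ g h : E ⧸ U, ∃ v, t v = s g * s h * (s (g * h))⁻¹ := by
    intro g h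
    rw [← hU]
    rw [← QuotientGroup.eq_one_iff]
    rw [QuotientGroup.mk_mul, QuotientGroup.mk_mul, QuotientGroup.mk_inv, hs', hs', hs',
      mul_inv_cancel]
  choose f hf using hmem
  have hf' : ∀ g h, s g * s h = t (f g h) * s (g * h) := by
    intro g h
    rw [hf, inv_mul_cancel_right]
  have hAs : ∀ (g : E ⧸ U) (u : Fin r → ZMod p), s g * t u = t ((M (s g)).mulVec u) * s g := by
    intro g u
    rw [← hM, inv_mul_cancel_right]
  refine ⟨r, t, s, fun q => M (s q), f, ht, ?_, hU, hs', ?_, ?_, hA, hf', ?_⟩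
  · intro u hu
    have h0 : t 0 = 1 := by
      have h := ht 0 0
      rw [add_zero] at h
      exact left_eq_mul.1 h
    exact hinj u 0 (by rw [hu, h0])
  · apply hext
    intro u
    have h := hA 1 u
    rw [Matrix.one_mulVec]
    rw [one_mul, inv_one, mul_one] at h
    exact h.symm
  · intro g h
    apply hext
    intro u
    rw [← Matrix.mulVec_mulVec]
    have h1 := hA (s g * s h) u
    rw [QuotientGroup.mk_mul, hs', hs'] at h1
    rw [← h1, ← hM, ← hM]
    group
  · intro g h k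
    apply hinj
    rw [ht, add_comm (f (g * h) k), ht]
    have h1 : s g * s h * s k = t (f g h) * t (f (g * h) k) * s (g * h * k) := by
      rw [hf' g h, mul_assoc, hf' (g * h) k, ← mul_assoc]
    have h2 : s g * (s h * s k) =
        t ((M (s g)).mulVec (f h k)) * t (f g (h * k)) * s (g * (h * k)) := by
      rw [hf' h k, ← mul_assoc, hAs, mul_assoc, hf' g (h * k), ← mul_assoc]
    have h3 : t ((M (s g)).mulVec (f h k)) * t (f g (h * k)) * s (g * (h * k)) =
        t (f g h) * t (f (g * h) k) * s (g * h * k) := by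
      rw [← h1, ← h2, mul_assoc]
    rw [mul_assoc g h k] at h3
    exact mul_right_cancel h3

end Pool.Agent.AB
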