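import Pool.Agent.Lib.MP_5de024_nt.C.Pk2
import Pool.Agent.Lib.MP_5de024_nt.C.Pk3
import Pool.Agent.Lib.MP_5de024_nt.C.PkE

/-!
# Embedding problems with minimal kernel (piece Pk4)
-/

set_option autoImplicit false
set_option linter.unusedSectionVars false

namespace Pool.Agent.AB

section aux

variable (p : ℕ) [Fact p.Prime] (L : Type) [Field L] [Algebra (Fx p) L] [Algebra (Rx p) L]
  [IsScalarTower (Rx p) (Fx p) L] (r : ℕ)

theorem pk4_gl_cst (σ : Gl p L) (i : ZMod p) : σ (cst p L i) = cst p L i :=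
  (σ.restrictScalars (Rx p)).commutes _

theorem pk4_sv_add (A : Gl p L → Matrix (Fin r) (Fin r) (ZMod p)) (σ : Gl p L)
    (a b : Fin r → Oc p L) : sv p L r A σ (a + b) = sv p L r A σ a + sv p L r A σ b := by
  funext i
  simp only [sv, Pi.add_apply, map_add, mul_add, Finset.sum_add_distrib]

theorem pk4_sv_one (A : Gl p L → Matrix (Fin r) (Fin r) (ZMod p)) (hA1 : A 1 = 1)
    (a : Fin r → Oc p L) : sv p L r A 1 a = a := by
  funext i
  simp only [sv, hA1]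
  rw [Finset.sum_eq_single i]
  · rw [Matrix.one_apply_eq, map_one, one_mul, act_one]
  · intro j _ hj
    rw [Matrix.one_apply_ne hj.symm, map_zero, zero_mul]
  · intro h
    exact absurd (Finset.mem_univ i) h

variable (M : Type) [Field M] [Algebra (Fx p) M] [Algebra (Rx p) M]
  [IsScalarTower (Rx p) (Fx p) M]

/-- the cocycle of the extension -/
theorem pk4_u (A : Gl p L → Matrix (Fin r) (Fin r) (ZMod p))
    (hA : ∀ σ τ, A (σ * τ) = A σ * A τ) (f : Gl p L → Gl p L → Fin r → ZMod p)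
    (b : Gl p L → Fin r → Oc p L)
    (hb : ∀ σ τ, cv p L r (f σ τ) = b σ + sv p L r A σ (b τ) - b (σ * τ))
    (ι : L →ₐ[Fx p] M) (ρ : Gl p M →* Gl p L) (y : Fin r → M) (u : Gl p M → Fin r → ZMod p)
    (hι : ∀ (τ : Gl p M) (s : L), τ (ι s) = ι (ρ τ s))
    (hu : ∀ (τ : Gl p M) (i : Fin r), ∑ j, cst p M (A (ρ τ) i j) * τ (y j) =
      y i - ι (b (ρ τ) i : L) - cst p M (u τ i)) (τ₁ τ₂ : Gl p M) :
    u (τ₁ * τ₂) = u τ₁ + (A (ρ τ₁)).mulVec (u τ₂) + f (ρ τ₁) (ρ τ₂) := by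
  funext i
  apply (cst p M).injective
  have e1 := hu (τ₁ * τ₂) i
  have e2 : ∑ j, cst p M (A (ρ (τ₁ * τ₂)) i j) * (τ₁ * τ₂) (y j) =
      ∑ k, cst p M (A (ρ τ₁) i k) * τ₁ (∑ j, cst p M (A (ρ τ₂) k j) * τ₂ (y j)) := by
    simp only [map_mul, hA, Matrix.mul_apply, map_sum, Finset.mul_sum, Finset.sum_mul,
      pk4_gl_cst]
    rw [Finset.sum_comm]
    refine Finset.sum_congr rfl fun k _ => Finset.sum_congr rfl fun j _ => ?_
    rw [AlgEquiv.mul_apply]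
    ring
  have e3 : ∀ k, τ₁ (∑ j, cst p M (A (ρ τ₂) k j) * τ₂ (y j)) =
      τ₁ (y k) - ι (ρ τ₁ (b (ρ τ₂) k : L)) - cst p M (u τ₂ k) := by
    intro k
    rw [hu τ₂ k, map_sub, map_sub, hι, pk4_gl_cst]
  have e4 : ∑ k, cst p M (A (ρ τ₁) i k) *
      (τ₁ (y k) - ι (ρ τ₁ (b (ρ τ₂) k : L)) - cst p M (u τ₂ k)) =
      (y i - ι (b (ρ τ₁) i : L) - cst p M (u τ₁ i)) -
        ι ((sv p L r A (ρ τ₁) (b (ρ τ₂)) i : Oc p L) : L) -
        cst p M ((A (ρ τ₁)).mulVec (u τ₂) i) := by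
    rw [← hu τ₁ i]
    have h1 : ι ((sv p L r A (ρ τ₁) (b (ρ τ₂)) i : Oc p L) : L) =
        ∑ k, cst p M (A (ρ τ₁) i k) * ι (ρ τ₁ (b (ρ τ₂) k : L)) := by
      rw [sv]
      push_cast
      rw [map_sum]
      refine Finset.sum_congr rfl fun k _ => ?_
      rw [map_mul, act_coe, cst_coe, as_cst]
    have h2 : cst p M ((A (ρ τ₁)).mulVec (u τ₂) i) =
        ∑ k, cst p M (A (ρ τ₁) i k) * cst p M (u τ₂ k) := by
      simp only [Matrix.mulVec, dotProduct, map_sum, map_mul]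
    rw [h1, h2, ← Finset.sum_sub_distrib, ← Finset.sum_sub_distrib]
    exact Finset.sum_congr rfl fun k _ => by ring
  have e5 : cst p M (f (ρ τ₁) (ρ τ₂) i) = ι (b (ρ τ₁) i : L) +
      ι ((sv p L r A (ρ τ₁) (b (ρ τ₂)) i : Oc p L) : L) - ι (b (ρ τ₁ * ρ τ₂) i : L) := by
    have h1 := congrArg (fun w : Fin r → Oc p L => ι ((w i : Oc p L) : L)) (hb (ρ τ₁) (ρ τ₂))
    simp only [cv, Pi.add_apply, Pi.sub_apply] at h1
    rw [cst_coe, as_cst] at h1
    rw [h1]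
    push_cast
    rw [map_sub, map_add]
  rw [e2, Finset.sum_congr rfl fun k _ => by rw [e3 k], e4, map_mul ρ] at e1
  rw [Pi.add_apply, Pi.add_apply, map_add, map_add, e5]
  linear_combination e1

end aux

/-- minimal kernels -/
theorem rni_min (p : ℕ) [Fact p.Prime] (E : Type) [Group E] [Finite E] (U : Subgroup E)
    [U.Normal] (hab : ∀ a ∈ U, ∀ b ∈ U, a * b = b * a) (hp : ∀ a ∈ U, a ^ p = 1)
    (hmin : ∀ W : Subgroup E, W.Normal → W ≤ U → W = ⊥ ∨ W = U) (h : RNI p (E ⧸ U)) :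
    RNI p E := by
  classical
  by_cases hUb : U = ⊥
  · subst hUb
    exact rni_congr p _ _ QuotientGroup.quotientBot h
  obtain ⟨r, t, s, A, f, ht, h0, hU, hs, hA1, hA, hconj, hf, hcoc⟩ := ext_data p E U hab hp
  have ht0 : t 0 = 1 := by
    have h1 := ht 0 0
    rw [add_zero] at h1
    exact left_eq_mul.1 h1
  have hr : 0 < r := by
    rcases Nat.eq_zero_or_pos r with h1 | h1
    · exfalso
      apply hUb
      rw [eq_bot_iff]
      intro g hg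
      obtain ⟨u, rfl⟩ := (hU g).1 hg
      have h2 : u = 0 := by
        subst h1
        exact Subsingleton.elim _ _
      rw [h2, ht0]
      exact Subgroup.mem_bot.2 rfl
    · exact h1
  obtain ⟨L, _, _, _, _, Φ, hfin, hgal, hNI, hΦ⟩ := h
  have hA1' : (fun σ : Gl p L => A (Φ σ)) 1 = 1 := by
    show A (Φ 1) = 1
    rw [map_one, hA1]
  have hA' : ∀ σ τ : Gl p L, A (Φ (σ * τ)) = A (Φ σ) * A (Φ τ) := fun σ τ => by
    rw [map_mul, hA]
  obtain ⟨b, a₀, hb, ha₀⟩ := coh_split p L r hNI (fun σ => A (Φ σ)) hA1' hA'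
    (fun σ τ => f (Φ σ) (Φ τ)) (fun σ τ ν => by
      show (A (Φ σ)).mulVec (f (Φ τ) (Φ ν)) + f (Φ σ) (Φ (τ * ν)) =
        f (Φ (σ * τ)) (Φ ν) + f (Φ σ) (Φ τ)
      rw [map_mul, map_mul, hcoc])
  obtain ⟨h, hh, hgen⟩ := gen_fix p L r hr (fun σ => A (Φ σ)) hA1' hA' a₀
  have ha : ∀ σ, sv p L r (fun σ => A (Φ σ)) σ (a₀ + h) = a₀ + h - wp p L r (b σ) := by
    intro σ
    rw [pk4_sv_add, ha₀, hh]
    abel
  obtain ⟨M, _, _, _, _, ι, ρ, y, u, hfinM, hgalM, hNIM, hι, hρ, hy, hinj, hu⟩ :=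
    vec_ext p L r hNI (fun σ => A (Φ σ)) hA1' hA' b (a₀ + h) ha
  have hcu := pk4_u p L r M (fun σ => A (Φ σ)) hA' (fun σ τ => f (Φ σ) (Φ τ)) b hb ι ρ y u hι hu
  have hst : ∀ (g : E ⧸ U) (v : Fin r → ZMod p), s g * t v = t ((A g).mulVec v) * s g := by
    intro g v
    have h1 := hconj (s g) v
    rw [hs] at h1
    rw [← h1, inv_mul_cancel_right]
  obtain ⟨Ψ, hΨ⟩ : ∃ Ψ : Gl p M →* E, ∀ τ, Ψ τ = t (u τ) * s (Φ (ρ τ)) := by
    refine ⟨MonoidHom.mk' (fun τ => t (u τ) * s (Φ (ρ τ))) fun τ₁ τ₂ => ?_, fun τ => rfl⟩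
    rw [hcu τ₁ τ₂]
    show t (u τ₁ + (A (Φ (ρ τ₁))).mulVec (u τ₂) + f (Φ (ρ τ₁)) (Φ (ρ τ₂))) * s (Φ (ρ (τ₁ * τ₂))) =
      t (u τ₁) * s (Φ (ρ τ₁)) * (t (u τ₂) * s (Φ (ρ τ₂)))
    rw [map_mul, map_mul, ht, ht, mul_assoc (t (u τ₁) * _) _ _, ← hf, mul_assoc (t (u τ₁)) _ _,
      ← mul_assoc _ (s (Φ (ρ τ₁))) _, ← hst]
    group
  have hmk : ∀ τ, (QuotientGroup.mk (Ψ τ) : E ⧸ U) = Φ (ρ τ) := by
    intro τ
    have h1 : (QuotientGroup.mk (t (u τ)) : E ⧸ U) = 1 :=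
      (QuotientGroup.eq_one_iff _).2 ((hU _).2 ⟨_, rfl⟩)
    rw [hΨ, QuotientGroup.mk_mul, h1, one_mul, hs]
  have hker : ∀ τ, ρ τ = 1 → Ψ τ = 1 → τ = 1 := by
    intro τ h1 h2
    have hs1 : s 1 = t (f 1 1) := by
      have h3 := hf 1 1
      rw [mul_one] at h3
      exact mul_right_cancel h3
    rw [hΨ, h1, map_one, hs1, ← ht] at h2
    have h3 := h0 _ h2
    apply hinj τ h1
    intro i
    have h4 := hu τ i
    rw [h1] at h4
    have h5 : ∑ j, cst p M (A (Φ 1) i j) * τ (y j) = τ (y i) := by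
      rw [map_one, hA1, Finset.sum_eq_single i]
      · rw [Matrix.one_apply_eq, map_one, one_mul]
      · intro j _ hj
        rw [Matrix.one_apply_ne hj.symm, map_zero, zero_mul]
      · intro h6
        exact absurd (Finset.mem_univ i) h6
    have h6 : ι (b 1 i : L) = cst p M (f 1 1 i) := by
      have h7 := hb 1 1
      rw [pk4_sv_one p L r _ hA1', mul_one] at h7
      have h8 := congrArg (fun w : Fin r → Oc p L => ι ((w i : Oc p L) : L)) h7
      simp only [cv, Pi.add_apply, Pi.sub_apply] at h8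
      rw [cst_coe, as_cst, map_one, add_sub_cancel_right] at h8
      exact h8.symm
    have h9 := congrFun h3 i
    rw [Pi.add_apply, Pi.zero_apply] at h9
    have h10 := congrArg (cst p M) h9
    rw [map_add, map_zero] at h10
    rw [← h5]
    refine h4.trans ?_
    rw [h6]
    linear_combination -h10
  have hrange : ∀ g : E, ∃ τ, (Ψ τ)⁻¹ * g ∈ U := by
    intro g
    obtain ⟨σ, hσ⟩ := hΦ (QuotientGroup.mk g)
    obtain ⟨τ, hτ⟩ := hρ σ
    refine ⟨τ, ?_⟩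
    rw [← QuotientGroup.eq, hmk, hτ, hσ]
  have hWn : (Ψ.range ⊓ U).Normal := by
    refine ⟨fun w hw g => ?_⟩
    obtain ⟨τ, hτ⟩ := hrange g
    obtain ⟨hw1, hw2⟩ := hw
    have h1 : g * w * g⁻¹ = Ψ τ * w * (Ψ τ)⁻¹ := by
      have h2 := hab _ hτ _ hw2
      calc g * w * g⁻¹ = Ψ τ * ((Ψ τ)⁻¹ * g * w) * g⁻¹ := by group
        _ = Ψ τ * (w * ((Ψ τ)⁻¹ * g)) * g⁻¹ := by rw [h2]
        _ = Ψ τ * w * (Ψ τ)⁻¹ := by group
    rw [h1]
    exact Subgroup.mem_inf.2 ⟨Ψ.range.mul_mem (Ψ.range.mul_mem ⟨τ, rfl⟩ hw1)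
      (Ψ.range.inv_mem ⟨τ, rfl⟩), Subgroup.Normal.conj_mem inferInstance _ hw2 _⟩
  rcases hmin (Ψ.range ⊓ U) hWn inf_le_right with hW | hW
  · exfalso
    have hρi : Function.Injective ρ := by
      rw [injective_iff_map_eq_one]
      intro τ h1
      apply hker τ h1
      have h2 : Ψ τ ∈ Ψ.range ⊓ U := by
        refine Subgroup.mem_inf.2 ⟨⟨τ, rfl⟩, ?_⟩
        rw [← QuotientGroup.eq_one_iff, hmk, h1, map_one]
      rw [hW] at h2
      exact Subgroup.mem_bot.1 h2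
    have hcard : Nat.card (Gl p M) = Nat.card (Gl p L) :=
      Nat.card_congr (Equiv.ofBijective ρ ⟨hρi, hρ⟩)
    have hrank : Module.finrank (Fx p) L = Module.finrank (Fx p) M := by
      rw [← IsGalois.card_aut_eq_finrank (Fx p) L, ← IsGalois.card_aut_eq_finrank (Fx p) M]
      exact hcard.symm
    have hιs : Function.Surjective ι :=
      (LinearMap.injective_iff_surjective_of_finrank_eq_finrank
        (f := ι.toLinearMap) hrank).1 ι.injective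
    choose y₀ hy₀ using fun i => hιs (y i)
    obtain ⟨i, hi⟩ := hgen y₀
    apply hi
    have h3 : ι (y₀ i ^ p - y₀ i) = ι ((a₀ i + h i : Oc p L) : L) := by
      rw [map_sub, map_pow, hy₀, hy]
      rfl
    exact ι.injective h3
  · refine ⟨M, inferInstance, inferInstance, inferInstance, inferInstance, Ψ, hfinM, hgalM, hNIM,
      fun g => ?_⟩
    obtain ⟨τ, hτ⟩ := hrange g
    rw [← hW] at hτ
    obtain ⟨τ', hτ'⟩ := hτ.1
    refine ⟨τ * τ', ?_⟩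
    rw [map_mul, hτ', mul_inv_cancel_left]

end Pool.Agent.AB
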