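import Pool.Agent.Lib.MP_5de024_nt.C.Idx

/-!
# The leading coefficient of the norm (piece RecL)
-/

set_option autoImplicit false
set_option linter.unusedSectionVars false

namespace Pool.Agent.AB

open Polynomial

variable {k R : Type} [Field k] [Finite k] [CommRing R] [IsDomain R] [Algebra k R]

namespace RecL

omit [Finite k] [IsDomain R] in
theorem ne_of_lc (X : OneInf k R) {a : R} (h : X.lc a ≠ 0) : a ≠ 0 := by
  rintro rfl
  exact h X.lc_zero

omit [Finite k] [IsDomain R] in
theorem lc_one (X : OneInf k R) : X.lc 1 = 1 := by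
  have := X.lc_alg 1
  rwa [map_one] at this

omit [Finite k] [IsDomain R] in
theorem d_one (X : OneInf k R) : X.d 1 = 0 := by
  have := X.d_alg 1
  rwa [map_one] at this

omit [Finite k] [IsDomain R] in
theorem lc_pow (X : OneInf k R) (a : R) (n : ℕ) : X.lc (a ^ n) = X.lc a ^ n := by
  induction n with
  | zero => rw [pow_zero, pow_zero, lc_one]
  | succ n ih => rw [pow_succ, pow_succ, X.lc_mul, ih]

omit [Finite k] in
theorem d_pow (X : OneInf k R) {a : R} (ha : a ≠ 0) (n : ℕ) : X.d (a ^ n) = n * X.d a := by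
  induction n with
  | zero => rw [pow_zero, d_one, zero_mul]
  | succ n ih => rw [pow_succ, X.d_mul _ _ (pow_ne_zero n ha) ha, ih]; ring

omit [Finite k] [IsDomain R] in
/-- a sum of nonzero elements of different degrees -/
theorem sum_max (X : OneInf k R) {ι : Type} (s : Finset ι) (hs : s.Nonempty) (f : ι → R)
    (hf : ∀ i ∈ s, f i ≠ 0) (hd : ∀ i ∈ s, ∀ j ∈ s, X.d (f i) = X.d (f j) → i = j) :
    ∃ j ∈ s, (∀ i ∈ s, X.d (f i) ≤ X.d (f j)) ∧ ∑ i ∈ s, f i ≠ 0 ∧
      X.d (∑ i ∈ s, f i) = X.d (f j) ∧ X.lc (∑ i ∈ s, f i) = X.lc (f j) := by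
  induction hs using Finset.Nonempty.cons_induction with
  | singleton a =>
    refine ⟨a, Finset.mem_singleton_self a, ?_, ?_, ?_, ?_⟩
    · intro i hi
      rw [Finset.mem_singleton.1 hi]
    · rw [Finset.sum_singleton]
      exact hf a (Finset.mem_singleton_self a)
    · rw [Finset.sum_singleton]
    · rw [Finset.sum_singleton]
  | cons a s ha hs ih =>
    obtain ⟨j, hj, h1, h2, h3, h4⟩ := ih (fun i hi => hf i (Finset.mem_cons.2 (Or.inr hi)))
      (fun i hi j hj h => hd i (Finset.mem_cons.2 (Or.inr hi)) j (Finset.mem_cons.2 (Or.inr hj)) h)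
    have hfa := hf a (Finset.mem_cons_self a s)
    have hja : X.d (f a) ≠ X.d (f j) := by
      intro h
      have := hd a (Finset.mem_cons_self a s) j (Finset.mem_cons.2 (Or.inr hj)) h
      exact ha (this ▸ hj)
    rw [Finset.sum_cons]
    rcases lt_or_gt_of_ne hja with h | h
    · obtain ⟨e1, e2⟩ := X.add_of_lt (f a) (∑ i ∈ s, f i) hfa h2 (by rw [h3]; exact h)
      refine ⟨j, Finset.mem_cons.2 (Or.inr hj), ?_, ?_, e1.trans h3, e2.trans h4⟩
      · intro i hi
        rcases Finset.mem_cons.1 hi with rfl | hi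
        · exact h.le
        · exact h1 i hi
      · apply ne_of_lc X
        rw [e2]
        exact X.lc_ne _ h2
    · obtain ⟨e1, e2⟩ := X.add_of_lt (∑ i ∈ s, f i) (f a) h2 hfa (by rw [h3]; exact h)
      rw [add_comm] at e1 e2
      refine ⟨a, Finset.mem_cons_self a s, ?_, ?_, e1, e2⟩
      · intro i hi
        rcases Finset.mem_cons.1 hi with rfl | hi
        · exact le_rfl
        · exact (h1 i hi).trans h.le
      · apply ne_of_lc X
        rw [e2]
        exact X.lc_ne _ hfa

section Poly

variable [Algebra (Polynomial k) R] [IsScalarTower k (Polynomial k) R]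

omit [Finite k] in
theorem mono (X : OneInf k R) (t : R) (ht : algebraMap (Polynomial k) R Polynomial.X = t)
    (ht0 : t ≠ 0) (c : k) (hc : c ≠ 0) (n : ℕ) :
    algebraMap (Polynomial k) R (Polynomial.C c * Polynomial.X ^ n) ≠ 0 ∧
      X.d (algebraMap (Polynomial k) R (Polynomial.C c * Polynomial.X ^ n)) = X.d t * n ∧
      X.lc (algebraMap (Polynomial k) R (Polynomial.C c * Polynomial.X ^ n)) =
        c * X.lc t ^ n := by
  have h1 : algebraMap (Polynomial k) R (Polynomial.C c * Polynomial.X ^ n) =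
      algebraMap k R c * t ^ n := by
    rw [map_mul, map_pow, ht, ← Polynomial.algebraMap_eq,
      ← IsScalarTower.algebraMap_apply k (Polynomial k) R]
  have h2 : algebraMap k R c ≠ 0 := by
    apply ne_of_lc X
    rw [X.lc_alg]
    exact hc
  rw [h1]
  refine ⟨mul_ne_zero h2 (pow_ne_zero n ht0), ?_, ?_⟩
  · rw [X.d_mul _ _ h2 (pow_ne_zero n ht0), X.d_alg, d_pow X ht0, zero_add, mul_comm]
  · rw [X.lc_mul, X.lc_alg, lc_pow]

omit [Finite k] in
/-- degree and leading coefficient of a polynomial in `t` -/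
theorem poly (X : OneInf k R) (t : R) (ht : algebraMap (Polynomial k) R Polynomial.X = t)
    (hd : 0 < X.d t) (f : Polynomial k) (hf : f ≠ 0) :
    algebraMap (Polynomial k) R f ≠ 0 ∧ X.d (algebraMap (Polynomial k) R f) = X.d t * f.natDegree ∧
      X.lc (algebraMap (Polynomial k) R f) = f.leadingCoeff * X.lc t ^ f.natDegree := by
  classical
  have ht0 : t ≠ 0 := by
    rintro rfl
    have := X.d_alg 0
    rw [map_zero] at this
    omega
  have h1 : algebraMap (Polynomial k) R f = ∑ i ∈ f.support,
      algebraMap (Polynomial k) R (Polynomial.C (f.coeff i) * Polynomial.X ^ i) := by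
    conv_lhs => rw [f.as_sum_support_C_mul_X_pow]
    rw [map_sum]
  have hm : ∀ i ∈ f.support, f.coeff i ≠ 0 := fun i hi => Polynomial.mem_support_iff.1 hi
  obtain ⟨j, hj, h2, h3, h4, h5⟩ := sum_max X f.support (Polynomial.support_nonempty.2 hf)
    (fun i => algebraMap (Polynomial k) R (Polynomial.C (f.coeff i) * Polynomial.X ^ i))
    (fun i hi => (mono X t ht ht0 _ (hm i hi) i).1) (fun i hi j hj h => by
      rw [(mono X t ht ht0 _ (hm i hi) i).2.1, (mono X t ht ht0 _ (hm j hj) j).2.1] at h
      exact Nat.eq_of_mul_eq_mul_left hd h)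
  have hjn : j = f.natDegree := by
    refine le_antisymm (Polynomial.le_natDegree_of_mem_supp j hj) ?_
    have h6 := h2 f.natDegree (Polynomial.natDegree_mem_support_of_nonzero hf)
    rw [(mono X t ht ht0 _ (hm j hj) j).2.1,
      (mono X t ht ht0 _ (hm _ (Polynomial.natDegree_mem_support_of_nonzero hf)) _).2.1] at h6
    exact Nat.le_of_mul_le_mul_left h6 hd
  rw [h1]
  refine ⟨h3, ?_, ?_⟩
  · rw [h4, (mono X t ht ht0 _ (hm j hj) j).2.1, hjn]
  · rw [h5, (mono X t ht ht0 _ (hm j hj) j).2.2, hjn]
    rfl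

end Poly

/-! ### all residue classes of degrees occur -/

/-- the elements of degree less than `n` -/
def Low (X : OneInf k R) (n : ℕ) : Set R := {a | a = 0 ∨ X.d a < n}

omit [IsDomain R] in
/-- one step of the filtration: no element of degree `n` -/
theorem low_none (X : OneInf k R) (n : ℕ) (h : ¬ ∃ a : R, a ≠ 0 ∧ X.d a = n) :
    Low X (n + 1) = Low X n := by
  ext a
  constructor
  · rintro (h1 | h1)
    · exact Or.inl h1
    · rcases Nat.lt_succ_iff_lt_or_eq.1 h1 with h2 | h2
      · exact Or.inr h2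
      · by_cases h3 : a = 0
        · exact Or.inl h3
        · exact absurd ⟨a, h3, h2⟩ h
  · rintro (h1 | h1)
    · exact Or.inl h1
    · exact Or.inr (by omega)

/-- one step of the filtration: an element of degree `n` -/
theorem low_some (X : OneInf k R) (n : ℕ) (b : R) (hb : b ≠ 0) (hbn : X.d b = n) :
    ∃ g : Low X (n + 1) → k × Low X n, Function.Injective g := by
  classical
  have hsub : ∀ a : Low X (n + 1), ∃ c : k, (a : R) - algebraMap k R c * b ∈ Low X n := by
    rintro ⟨a, ha⟩
    by_cases ha0 : a = 0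
    · refine ⟨0, ?_⟩
      rw [map_zero, zero_mul, sub_zero]
      exact Or.inl ha0
    rcases ha with ha | ha
    · exact absurd ha ha0
    rcases Nat.lt_succ_iff_lt_or_eq.1 ha with h2 | h2
    · refine ⟨0, ?_⟩
      rw [map_zero, zero_mul, sub_zero]
      exact Or.inr h2
    · have hlb := X.lc_ne b hb
      have hla := X.lc_ne a ha0
      refine ⟨X.lc a / X.lc b, ?_⟩
      have hc : X.lc a / X.lc b ≠ 0 := div_ne_zero hla hlb
      have hc' : algebraMap k R (X.lc a / X.lc b) ≠ 0 := by
        apply ne_of_lc X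
        rw [X.lc_alg]
        exact hc
      have hd : X.d (algebraMap k R (X.lc a / X.lc b) * b) = n := by
        rw [X.d_mul _ _ hc' hb, X.d_alg, zero_add, hbn]
      have hl : X.lc (algebraMap k R (X.lc a / X.lc b) * b) = X.lc a := by
        rw [X.lc_mul, X.lc_alg, div_mul_cancel₀ _ hlb]
      by_cases he : a = algebraMap k R (X.lc a / X.lc b) * b
      · exact Or.inl (sub_eq_zero.2 he)
      · refine Or.inr ?_
        have := X.sub_lt a _ ha0 (mul_ne_zero hc' hb) he (h2.trans hd.symm) hl.symm
        rw [h2] at this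
        exact this
  choose c hc using hsub
  refine ⟨fun a => (c a, ⟨_, hc a⟩), ?_⟩
  intro a a' h
  have h1 : c a = c a' := congrArg Prod.fst h
  have h2 : (a : R) - algebraMap k R (c a) * b = (a' : R) - algebraMap k R (c a') * b :=
    congrArg (fun z => ((z.2 : Low X n) : R)) h
  rw [h1] at h2
  exact Subtype.ext (sub_left_injective h2)

theorem low_finite (X : OneInf k R) (n : ℕ) : Finite (Low X n) := by
  induction n with
  | zero =>
    have : Low X 0 = {0} := by
      ext a
      constructor
      · rintro (h | h)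
        · exact h
        · omega
      · intro h
        exact Or.inl h
    rw [this]
    infer_instance
  | succ n ih =>
    by_cases h : ∃ a : R, a ≠ 0 ∧ X.d a = n
    · obtain ⟨b, hb, hbn⟩ := h
      obtain ⟨g, hg⟩ := low_some X n b hb hbn
      exact Finite.of_injective g hg
    · rw [low_none X n h]
      exact ih

open Classical in
theorem low_card (X : OneInf k R) (n : ℕ) : Nat.card (Low X n) ≤
    Nat.card k ^ ((Finset.range n).filter fun m => ∃ a : R, a ≠ 0 ∧ X.d a = m).card := by
  induction n with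
  | zero =>
    have : Low X 0 = {0} := by
      ext a
      constructor
      · rintro (h | h)
        · exact h
        · omega
      · intro h
        exact Or.inl h
    rw [this]
    simp
  | succ n ih =>
    have := low_finite X n
    rw [Finset.range_add_one, Finset.filter_insert]
    by_cases h : ∃ a : R, a ≠ 0 ∧ X.d a = n
    · rw [if_pos h, Finset.card_insert_of_notMem (by simp), pow_succ]
      obtain ⟨b, hb, hbn⟩ := h
      obtain ⟨g, hg⟩ := low_some X n b hb hbn
      refine (Nat.card_le_card_of_injective g hg).trans ?_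
      rw [Nat.card_prod, mul_comm]
      exact Nat.mul_le_mul_right _ ih
    · rw [if_neg h, low_none X n h]
      exact ih

/-- every residue class modulo `D` contains a degree -/
theorem class_occurs (X : OneInf k R) (D : ℕ) (hD : 0 < D) (i : ℕ) (hi : i < D) :
    ∃ a : R, a ≠ 0 ∧ X.d a % D = i := by
  classical
  by_contra hcon
  push Not at hcon
  obtain ⟨c, hc⟩ := X.growth
  have hq : 2 ≤ Nat.card k := by
    have := Finite.one_lt_card (α := k)
    omega
  -- n + 1 = D (c + 2)
  obtain ⟨n, hn⟩ : ∃ n, n + 1 = D * (c + 2) := ⟨D * (c + 2) - 1, by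
    have : 0 < D * (c + 2) := by positivity
    omega⟩
  have h1 := hc n
  have h2 : {a : R | a = 0 ∨ X.d a ≤ n} = Low X (n + 1) := by
    ext a
    constructor
    · rintro (h | h)
      · exact Or.inl h
      · exact Or.inr (Nat.lt_succ_of_le h)
    · rintro (h | h)
      · exact Or.inl h
      · exact Or.inr (Nat.le_of_lt_succ h)
  have h3 : Nat.card {a : R // a = 0 ∨ X.d a ≤ n} = Nat.card (Low X (n + 1)) := by
    rw [← h2]
    rfl
  rw [h3] at h1
  have h4 := h1.trans (Nat.mul_le_mul_left _ (low_card X (n + 1)))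
  rw [← pow_add] at h4
  have h5 := (Nat.pow_le_pow_iff_right (by omega : 1 < Nat.card k)).1 h4
  -- the class is missing
  have h6 : ((Finset.range (n + 1)).filter fun m => ∃ a : R, a ≠ 0 ∧ X.d a = m) ⊆
      Finset.range (n + 1) \ ((Finset.range (c + 2)).image fun j => i + D * j) := by
    intro m hm
    rw [Finset.mem_filter] at hm
    rw [Finset.mem_sdiff]
    refine ⟨hm.1, ?_⟩
    intro hm2
    obtain ⟨j, -, rfl⟩ := Finset.mem_image.1 hm2
    obtain ⟨a, ha, hda⟩ := hm.2
    apply hcon a ha
    rw [hda, Nat.add_mul_mod_self_left, Nat.mod_eq_of_lt hi]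
  have h7 : ((Finset.range (c + 2)).image fun j => i + D * j) ⊆ Finset.range (n + 1) := by
    intro m hm
    obtain ⟨j, hj, rfl⟩ := Finset.mem_image.1 hm
    rw [Finset.mem_range] at hj ⊢
    rw [hn]
    have : D * (j + 1) ≤ D * (c + 2) := Nat.mul_le_mul_left _ hj
    rw [Nat.mul_add, Nat.mul_one] at this
    omega
  have h8 := Finset.card_le_card h6
  rw [Finset.card_sdiff_of_subset h7, Finset.card_image_of_injective _ (fun j j' h => by
    have h' : i + D * j = i + D * j' := h
    exact Nat.eq_of_mul_eq_mul_left hD (Nat.add_left_cancel h')), Finset.card_range,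
    Finset.card_range] at h8
  have h9 : c + 2 ≤ D * (c + 2) := Nat.le_mul_of_pos_left _ hD
  omega

section Basis

variable [Algebra (Polynomial k) R] [IsScalarTower k (Polynomial k) R]

/-- the adapted basis -/
theorem basis_aux (X : OneInf k R) (t : R) (ht : algebraMap (Polynomial k) R Polynomial.X = t)
    (D : ℕ) (hD : 0 < D) (htD : X.d t = D) :
    ∃ b : Module.Basis (Fin D) (Polynomial k) R, ∀ i, X.d (b i) % D = i := by
  classical
  have hex : ∀ i : Fin D, ∃ m : ℕ, ∃ a : R, a ≠ 0 ∧ X.d a = m ∧ m % D = i := by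
    intro i
    obtain ⟨a, ha, hai⟩ := class_occurs X D hD i i.2
    exact ⟨X.d a, a, ha, rfl, hai⟩
  choose v hv0 hv1 hv2 using fun i => Nat.find_spec (hex i)
  have hmin : ∀ (i : Fin D) (a : R), a ≠ 0 → X.d a % D = i → X.d (v i) ≤ X.d a := by
    intro i a ha hai
    rw [hv1]
    exact Nat.find_min' (hex i) ⟨a, ha, rfl, hai⟩
  have hvD : ∀ i, X.d (v i) % D = i := by
    intro i
    rw [hv1]
    exact hv2 i
  have ht0 : t ≠ 0 := by
    rintro rfl
    have := X.d_alg 0
    rw [map_zero] at this
    omega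
  have hdt : 0 < X.d t := by omega
  have hsm : ∀ (f : Polynomial k) (a : R), f • a = algebraMap (Polynomial k) R f * a :=
    fun f a => Algebra.smul_def f a
  have hli : LinearIndependent (Polynomial k) v := by
    rw [Fintype.linearIndependent_iff]
    intro g hg
    by_contra hcon
    push Not at hcon
    obtain ⟨i0, hi0⟩ := hcon
    obtain ⟨j, -, -, h3, -, -⟩ := sum_max X (Finset.univ.filter fun i => g i ≠ 0)
      ⟨i0, Finset.mem_filter.2 ⟨Finset.mem_univ _, hi0⟩⟩ (fun i => g i • v i) (fun i hi => by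
        rw [hsm]
        exact mul_ne_zero (poly X t ht hdt _ (Finset.mem_filter.1 hi).2).1 (hv0 i))
      (fun i hi j hj h => by
        have e1 := poly X t ht hdt _ (Finset.mem_filter.1 hi).2
        have e2 := poly X t ht hdt _ (Finset.mem_filter.1 hj).2
        rw [hsm, hsm, X.d_mul _ _ e1.1 (hv0 i), X.d_mul _ _ e2.1 (hv0 j), e1.2.1, e2.2.1,
          htD] at h
        have h' := congrArg (fun z => z % D) h
        simp only [Nat.mul_add_mod] at h'
        rw [hvD, hvD] at h'
        exact Fin.ext h')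
    apply h3
    rw [← hg]
    refine Finset.sum_subset (Finset.filter_subset _ _) fun i _ hi => ?_
    have : g i = 0 := by
      by_contra hne
      exact hi (Finset.mem_filter.2 ⟨Finset.mem_univ _, hne⟩)
    rw [this, zero_smul]
  have hsp : ∀ (n : ℕ) (a : R), X.d a < n → a ∈ Submodule.span (Polynomial k) (Set.range v) := by
    intro n
    induction n with
    | zero => intro a ha; omega
    | succ n ih =>
      intro a ha
      by_cases ha0 : a = 0
      · rw [ha0]
        exact Submodule.zero_mem _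
      have hlt : X.d a % D < D := Nat.mod_lt _ hD
      set i : Fin D := ⟨X.d a % D, hlt⟩ with hi
      have hle : X.d (v i) ≤ X.d a := hmin i a ha0 rfl
      have hmod : X.d (v i) % D = X.d a % D := hvD i
      obtain ⟨j, hj⟩ : ∃ j, X.d a = D * j + X.d (v i) := by
        have h1 : D ∣ X.d a - X.d (v i) := (Nat.modEq_iff_dvd' hle).1 hmod
        obtain ⟨j, hj⟩ := h1
        exact ⟨j, by omega⟩
      have hlt' : X.lc t ^ j * X.lc (v i) ≠ 0 :=
        mul_ne_zero (pow_ne_zero j (X.lc_ne t ht0)) (X.lc_ne _ (hv0 i))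
      have hc : X.lc a / (X.lc t ^ j * X.lc (v i)) ≠ 0 := div_ne_zero (X.lc_ne a ha0) hlt'
      obtain ⟨m1, m2, m3⟩ := mono X t ht ht0 _ hc j
      set P : Polynomial k :=
        Polynomial.C (X.lc a / (X.lc t ^ j * X.lc (v i))) * Polynomial.X ^ j with hP
      have hd : X.d (P • v i) = X.d a := by
        rw [hsm, X.d_mul _ _ m1 (hv0 i), m2, htD, hj]
      have hl : X.lc (P • v i) = X.lc a := by
        rw [hsm, X.lc_mul, m3, mul_assoc, div_mul_cancel₀ _ hlt']
      have hne : P • v i ≠ 0 := by
        rw [hsm]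
        exact mul_ne_zero m1 (hv0 i)
      have hmem : P • v i ∈ Submodule.span (Polynomial k) (Set.range v) :=
        Submodule.smul_mem _ _ (Submodule.subset_span ⟨i, rfl⟩)
      by_cases he : a = P • v i
      · rw [he]
        exact hmem
      · have h1 := X.sub_lt a (P • v i) ha0 hne he hd.symm hl.symm
        have h2 := ih (a - P • v i) (by omega)
        have h3 := Submodule.add_mem _ h2 hmem
        rwa [sub_add_cancel] at h3
  refine ⟨Module.Basis.mk hli fun a _ => hsp (X.d a + 1) a (Nat.lt_succ_self _), fun i => ?_⟩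
  rw [Module.Basis.mk_apply]
  exact hvD i

/-- the rotation -/
theorem rot_apply (n m : ℕ) (j : Fin (n + 1)) :
    (((finRotate (n + 1)) ^ m) j : ℕ) = (j + m) % (n + 1) := by
  induction m with
  | zero =>
    rw [pow_zero, add_zero, Nat.mod_eq_of_lt j.2]
    rfl
  | succ m ih =>
    rw [pow_succ', Equiv.Perm.mul_apply, finRotate_apply, Fin.val_add, ih]
    rw [Nat.add_mod, Nat.mod_mod, Fin.val_one', Nat.mod_mod, ← Nat.add_mod, add_assoc]

omit [Finite k] in
theorem norm_aux (X : OneInf k R) (t : R) (ht : algebraMap (Polynomial k) R Polynomial.X = t)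
    (n : ℕ) (htD : X.d t = n + 1) (b : Module.Basis (Fin (n + 1)) (Polynomial k) R)
    (hb : ∀ i, X.d (b i) % (n + 1) = i) (a : R) (ha : a ≠ 0) :
    (Algebra.norm (Polynomial k) a).natDegree = X.d a ∧
    (Algebra.norm (Polynomial k) a).leadingCoeff * X.lc t ^ X.d a =
      (-1) ^ (X.d a * n) * X.lc a ^ (n + 1) := by
  classical
  have hdt : 0 < X.d t := by omega
  have hsm : ∀ (f : Polynomial k) (a : R), f • a = algebraMap (Polynomial k) R f * a :=
    fun f a => Algebra.smul_def f a
  have hb0 : ∀ i, b i ≠ 0 := fun i => b.ne_zero i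
  set M := Algebra.leftMulMatrix b a with hM
  set π : Equiv.Perm (Fin (n + 1)) := (finRotate (n + 1)) ^ X.d a with hπ
  -- the columns
  have hcol : ∀ j, a * b j = ∑ i, M i j • b i := by
    intro j
    refine (b.sum_repr (a * b j)).symm.trans ?_
    refine Finset.sum_congr rfl fun i _ => ?_
    rw [hM, Algebra.leftMulMatrix_eq_repr_mul]
  have hdM : ∀ i j, M i j ≠ 0 → M i j • b i ≠ 0 ∧
      X.d (M i j • b i) = (n + 1) * (M i j).natDegree + X.d (b i) ∧
      X.lc (M i j • b i) = (M i j).leadingCoeff * X.lc t ^ (M i j).natDegree * X.lc (b i) := by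
    intro i j h
    obtain ⟨e1, e2, e3⟩ := poly X t ht hdt _ h
    rw [hsm]
    refine ⟨mul_ne_zero e1 (hb0 i), ?_, ?_⟩
    · rw [X.d_mul _ _ e1 (hb0 i), e2, htD]
    · rw [X.lc_mul, e3]
  have key : ∀ j, (∀ i, M i j ≠ 0 →
      (n + 1) * (M i j).natDegree + X.d (b i) ≤ X.d a + X.d (b j)) ∧
      (∀ i, M i j ≠ 0 → i ≠ π j →
      (n + 1) * (M i j).natDegree + X.d (b i) < X.d a + X.d (b j)) ∧
      M (π j) j ≠ 0 ∧ (n + 1) * (M (π j) j).natDegree + X.d (b (π j)) = X.d a + X.d (b j) ∧
      (M (π j) j).leadingCoeff * X.lc t ^ (M (π j) j).natDegree * X.lc (b (π j)) =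
        X.lc a * X.lc (b j) := by
    intro j
    have hsum : ∑ i ∈ Finset.univ.filter (fun i => M i j ≠ 0), M i j • b i = a * b j := by
      rw [hcol]
      refine Finset.sum_subset (Finset.filter_subset _ _) fun i _ hi => ?_
      have : M i j = 0 := by
        by_contra hne
        exact hi (Finset.mem_filter.2 ⟨Finset.mem_univ _, hne⟩)
      rw [this, zero_smul]
    have hab : a * b j ≠ 0 := mul_ne_zero ha (hb0 j)
    have hne : (Finset.univ.filter (fun i => M i j ≠ 0)).Nonempty := by
      by_contra h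
      rw [Finset.not_nonempty_iff_eq_empty] at h
      rw [h, Finset.sum_empty] at hsum
      exact hab hsum.symm
    obtain ⟨i0, hi0, h1, h2, h3, h4⟩ := sum_max X _ hne (fun i => M i j • b i)
      (fun i hi => (hdM i j (Finset.mem_filter.1 hi).2).1) (fun i hi i' hi' h => by
        rw [(hdM i j (Finset.mem_filter.1 hi).2).2.1,
          (hdM i' j (Finset.mem_filter.1 hi').2).2.1] at h
        have h' := congrArg (fun z => z % (n + 1)) h
        simp only [Nat.mul_add_mod] at h'
        rw [hb, hb] at h'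
        exact Fin.ext h')
    have hi0' := (Finset.mem_filter.1 hi0).2
    rw [hsum, X.d_mul _ _ ha (hb0 j), (hdM i0 j hi0').2.1] at h3
    rw [hsum, X.lc_mul, (hdM i0 j hi0').2.2] at h4
    have hi0π : i0 = π j := by
      apply Fin.ext
      rw [hπ, rot_apply]
      have h' := congrArg (fun z => z % (n + 1)) h3
      simp only [Nat.mul_add_mod] at h'
      rw [hb, Nat.add_mod, hb, add_comm, Nat.add_mod_mod] at h'
      exact h'.symm
    have hle : ∀ i, M i j ≠ 0 →
        (n + 1) * (M i j).natDegree + X.d (b i) ≤ X.d a + X.d (b j) := by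
      intro i hi
      have h5 := h1 i (Finset.mem_filter.2 ⟨Finset.mem_univ _, hi⟩)
      rw [(hdM i j hi).2.1, (hdM i0 j hi0').2.1] at h5
      omega
    refine ⟨hle, ?_, ?_, ?_, ?_⟩
    · intro i hi hiπ
      refine lt_of_le_of_ne (hle i hi) fun heq => hiπ ?_
      rw [← hi0π]
      apply Fin.ext
      have h' := congrArg (fun z => z % (n + 1)) (heq.trans h3)
      simp only [Nat.mul_add_mod] at h'
      rw [hb, hb] at h'
      exact h'
    · rw [← hi0π]
      exact hi0'
    · rw [← hi0π]
      exact h3.symm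
    · rw [← hi0π]
      exact h4.symm
  -- the sum of the degrees
  have hdeg : ∀ σ : Equiv.Perm (Fin (n + 1)), (∀ i, M (σ i) i ≠ 0) →
      (n + 1) * ∑ i, (M (σ i) i).natDegree + ∑ i, X.d (b i) =
        ∑ i, ((n + 1) * (M (σ i) i).natDegree + X.d (b (σ i))) := by
    intro σ _
    rw [Finset.sum_add_distrib, Finset.mul_sum, Equiv.sum_comp σ (fun i => X.d (b i))]
  have hconst : ∑ i : Fin (n + 1), (X.d a + X.d (b i)) = (n + 1) * X.d a + ∑ i, X.d (b i) := by
    rw [Finset.sum_add_distrib, Finset.sum_const, Finset.card_univ, Fintype.card_fin, smul_eq_mul]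
  -- other permutations
  have hother : ∀ σ : Equiv.Perm (Fin (n + 1)), σ ≠ π →
      (∏ i, M (σ i) i) = 0 ∨ (∏ i, M (σ i) i).natDegree < X.d a := by
    intro σ hσ
    by_cases h0 : ∀ i, M (σ i) i ≠ 0
    · right
      obtain ⟨i0, hi0⟩ : ∃ i, σ i ≠ π i := by
        by_contra h
        push Not at h
        exact hσ (Equiv.ext h)
      rw [Polynomial.natDegree_prod _ _ fun i _ => h0 i]
      have h1 := hdeg σ h0
      have h2 : ∑ i, ((n + 1) * (M (σ i) i).natDegree + X.d (b (σ i))) <
          ∑ i : Fin (n + 1), (X.d a + X.d (b i)) :=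
        Finset.sum_lt_sum (fun i _ => (key i).1 _ (h0 i))
          ⟨i0, Finset.mem_univ _, (key i0).2.1 _ (h0 i0) hi0⟩
      rw [hconst] at h2
      have h3 : (n + 1) * ∑ i, (M (σ i) i).natDegree < (n + 1) * X.d a := by omega
      exact Nat.lt_of_mul_lt_mul_left h3
    · left
      push Not at h0
      obtain ⟨i, hi⟩ := h0
      exact Finset.prod_eq_zero (Finset.mem_univ i) hi
  have hπ0 : ∀ i, M (π i) i ≠ 0 := fun i => (key i).2.2.1
  have hπdeg : (∏ i, M (π i) i).natDegree = X.d a := by
    rw [Polynomial.natDegree_prod _ _ fun i _ => hπ0 i]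
    have h1 := hdeg π hπ0
    have h2 : ∑ i, ((n + 1) * (M (π i) i).natDegree + X.d (b (π i))) =
        ∑ i : Fin (n + 1), (X.d a + X.d (b i)) :=
      Finset.sum_congr rfl fun i _ => (key i).2.2.2.1
    rw [hconst] at h2
    have h3 : (n + 1) * ∑ i, (M (π i) i).natDegree = (n + 1) * X.d a := by omega
    exact Nat.eq_of_mul_eq_mul_left (Nat.succ_pos n) h3
  have hπlead : (∏ i, M (π i) i).leadingCoeff * X.lc t ^ X.d a = X.lc a ^ (n + 1) := by
    rw [Polynomial.leadingCoeff_prod]
    have h1 : ∏ i, ((M (π i) i).leadingCoeff * X.lc t ^ (M (π i) i).natDegree * X.lc (b (π i))) =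
        ∏ i, (X.lc a * X.lc (b i)) :=
      Finset.prod_congr rfl fun i _ => (key i).2.2.2.2
    rw [Finset.prod_mul_distrib, Finset.prod_mul_distrib, Finset.prod_mul_distrib,
      Equiv.prod_comp π (fun i => X.lc (b i)), Finset.prod_const, Finset.card_univ,
      Fintype.card_fin, Finset.prod_pow_eq_pow_sum] at h1
    have h2 : ∏ i, X.lc (b i) ≠ 0 := Finset.prod_ne_zero_iff.2 fun i _ => X.lc_ne _ (hb0 i)
    have h3 := mul_right_cancel₀ h2 h1
    rw [← Polynomial.natDegree_prod _ _ fun i _ => hπ0 i, hπdeg] at h3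
    exact h3
  -- the determinant
  have hnorm : Algebra.norm (Polynomial k) a =
      ∑ σ : Equiv.Perm (Fin (n + 1)), ((Equiv.Perm.sign σ : ℤ) : Polynomial k) *
        ∏ i, M (σ i) i := by
    rw [Algebra.norm_eq_matrix_det b, Matrix.det_apply']
  have hsign : ∀ σ : Equiv.Perm (Fin (n + 1)), ((Equiv.Perm.sign σ : ℤ) : Polynomial k) =
      Polynomial.C (((Equiv.Perm.sign σ : ℤ) : k)) := by
    intro σ
    simp
  have hcoef : (Algebra.norm (Polynomial k) a).coeff (X.d a) =
      ((Equiv.Perm.sign π : ℤ) : k) * (∏ i, M (π i) i).leadingCoeff := by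
    rw [hnorm, Polynomial.finsetSum_coeff, Finset.sum_eq_single π]
    · rw [hsign, Polynomial.coeff_C_mul, Polynomial.leadingCoeff, hπdeg]
    · intro σ _ hσ
      rw [hsign, Polynomial.coeff_C_mul]
      rcases hother σ hσ with h | h
      · rw [h, Polynomial.coeff_zero, mul_zero]
      · rw [Polynomial.coeff_eq_zero_of_natDegree_lt h, mul_zero]
    · intro h
      exact absurd (Finset.mem_univ _) h
  have hle : (Algebra.norm (Polynomial k) a).natDegree ≤ X.d a := by
    rw [hnorm]
    refine Polynomial.natDegree_sum_le_of_forall_le _ _ fun σ _ => ?_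
    rw [hsign]
    refine (Polynomial.natDegree_C_mul_le _ _).trans ?_
    by_cases hσ : σ = π
    · rw [hσ, hπdeg]
    · rcases hother σ hσ with h | h
      · rw [h, Polynomial.natDegree_zero]
        exact Nat.zero_le _
      · exact h.le
  have hsπ : ((Equiv.Perm.sign π : ℤ) : k) = (-1) ^ (X.d a * n) := by
    rw [hπ, map_pow, sign_finRotate, Nat.add_sub_cancel, ← pow_mul, mul_comm n]
    push_cast
    rfl
  have hlne : (∏ i, M (π i) i).leadingCoeff ≠ 0 := by
    rw [Polynomial.leadingCoeff_ne_zero]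
    exact Finset.prod_ne_zero_iff.2 fun i _ => hπ0 i
  have hne : (Algebra.norm (Polynomial k) a).coeff (X.d a) ≠ 0 := by
    rw [hcoef, hsπ]
    refine mul_ne_zero (pow_ne_zero _ (neg_ne_zero.2 one_ne_zero)) hlne
  have hdegN := Polynomial.natDegree_eq_of_le_of_coeff_ne_zero hle hne
  refine ⟨hdegN, ?_⟩
  rw [Polynomial.leadingCoeff, hdegN, hcoef, hsπ, mul_assoc, hπlead]

end Basis

end RecL

/-- a basis of `R` over `k[t]` with degrees in all residue classes modulo `d t` -/
theorem adapted_basis (X : OneInf k R) [Algebra (Polynomial k) R]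
    [IsScalarTower k (Polynomial k) R]
    (ht : 0 < X.d (algebraMap (Polynomial k) R Polynomial.X)) :
    ∃ b : Module.Basis (Fin (X.d (algebraMap (Polynomial k) R Polynomial.X)))
      (Polynomial k) R, ∀ i, X.d (b i) %
        X.d (algebraMap (Polynomial k) R Polynomial.X) = i :=
  RecL.basis_aux X _ rfl _ ht rfl

/-- degree and leading coefficient of the norm to `k[t]` -/
theorem norm_lead (X : OneInf k R) [Algebra (Polynomial k) R]
    [IsScalarTower k (Polynomial k) R]
    (ht : 0 < X.d (algebraMap (Polynomial k) R Polynomial.X)) (a : R) (ha : a ≠ 0) :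
    (Algebra.norm (Polynomial k) a).natDegree = X.d a ∧
    (Algebra.norm (Polynomial k) a).leadingCoeff *
        X.lc (algebraMap (Polynomial k) R Polynomial.X) ^ X.d a =
      (-1) ^ (X.d a * (X.d (algebraMap (Polynomial k) R Polynomial.X) - 1)) *
        X.lc a ^ X.d (algebraMap (Polynomial k) R Polynomial.X) := by
  obtain ⟨n, hn⟩ : ∃ n, X.d (algebraMap (Polynomial k) R Polynomial.X) = n + 1 :=
    ⟨X.d (algebraMap (Polynomial k) R Polynomial.X) - 1, by omega⟩
  obtain ⟨b, hb⟩ := RecL.basis_aux X _ rfl (n + 1) (Nat.succ_pos n) hn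
  have h := RecL.norm_aux X _ rfl n hn b hb a ha
  rw [hn, Nat.add_sub_cancel]
  exact h

end Pool.Agent.AB
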