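import Pool.Agent.Lib.MP_5de024_nt.C.RecN
import Pool.Agent.Lib.MP_5de024_nt.C.RecL
import Pool.Agent.Lib.MP_5de024_nt.C.Ub

/-!
# Reciprocity (piece Rec)
-/

set_option autoImplicit false
set_option linter.unusedSectionVars false

namespace Pool.Agent.AB

private theorem rec_one_lt (k : Type) [Field k] [Finite k] : 1 < Nat.card k :=
  Finite.one_lt_card

private theorem rec_pow_card (k : Type) [Field k] [Finite k] (x : k) (hx : x ≠ 0) :
    x ^ (Nat.card k - 1) = 1 := by
  haveI := Fintype.ofFinite k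
  rw [Nat.card_eq_fintype_card]
  exact FiniteField.pow_card_sub_one_eq_one x hx

/-- the determinant of a constant -/
private theorem rec_const {k R : Type} [Field k] [Finite k] [CommRing R] [IsDomain R]
    [Algebra k R] (X : OneInf k R) (a : R) (ha : a ≠ 0) (c : k) :
    Nk k (algebraMap k R c) (Ideal.span {a}) = c ^ X.d a := by
  have h1 := card_quot X a ha
  have hq := rec_one_lt k
  haveI : Finite (R ⧸ Ideal.span {a}) := Nat.finite_of_card_ne_zero (by
    rw [h1]
    exact pow_ne_zero _ (by omega))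
  have h2 : Nat.card (R ⧸ Ideal.span {a}) =
      Nat.card k ^ Module.finrank k (R ⧸ Ideal.span {a}) := Module.natCard_eq_pow_finrank
  have h3 : Module.finrank k (R ⧸ Ideal.span {a}) = X.d a :=
    Nat.pow_right_injective hq (h2.symm.trans h1)
  have h4 : LinearMap.mulLeft k (Ideal.Quotient.mk (Ideal.span {a}) (algebraMap k R c)) =
      c • (LinearMap.id : (R ⧸ Ideal.span {a}) →ₗ[k] _) := by
    refine LinearMap.ext fun x => ?_
    rw [LinearMap.mulLeft_apply, LinearMap.smul_apply, LinearMap.id_apply, Algebra.smul_def]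
    rfl
  rw [Nk, h4, LinearMap.det_smul, LinearMap.det_id, mul_one, h3]

/-- the reciprocity law -/
theorem reciprocity {k R : Type} [Field k] [Finite k] [CommRing R] [IsDedekindDomain R]
    [Algebra k R] (X : OneInf k R) (a u : R) (ha : a ≠ 0) (hu : u ≠ 0)
    (hau : Ideal.span {a} ⊔ Ideal.span {u} = ⊤) :
    Nk k u (Ideal.span {a}) * X.lc a ^ X.d u =
      (-1) ^ (X.d a * X.d u) * Nk k a (Ideal.span {u}) * X.lc u ^ X.d a := by
  rcases Nat.eq_zero_or_pos (X.d u) with h0 | h0
  · have hc : u = algebraMap k R (X.lc u) := by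
      by_contra hne
      have hlu := X.lc_ne u hu
      have h1 : algebraMap k R (X.lc u) ≠ 0 := by
        intro h
        have h2 := X.lc_alg (X.lc u)
        rw [h, X.lc_zero] at h2
        exact hlu h2.symm
      have h2 := X.sub_lt u _ hu h1 hne (by rw [X.d_alg, h0]) (by rw [X.lc_alg])
      omega
    have h1 : Nk k u (Ideal.span {a}) = X.lc u ^ X.d a := by
      conv_lhs => rw [hc]
      exact rec_const X a ha _
    have h2 : Ideal.span {u} = ⊤ := by
      rw [Ideal.span_singleton_eq_top, hc]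
      exact (isUnit_iff_ne_zero.2 (X.lc_ne u hu)).map (algebraMap k R)
    rw [h1, h2, nk_top, h0]
    ring
  · letI : Algebra (Polynomial k) R := (Polynomial.aeval u).toRingHom.toAlgebra
    have hX : ∀ p : Polynomial k, algebraMap (Polynomial k) R p = Polynomial.aeval u p :=
      fun _ => rfl
    haveI : IsScalarTower k (Polynomial k) R := IsScalarTower.of_algebraMap_eq fun c => by
      rw [hX, Polynomial.algebraMap_eq, Polynomial.aeval_C]
    have hXu : algebraMap (Polynomial k) R Polynomial.X = u := by rw [hX, Polynomial.aeval_X]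
    have ht : 0 < X.d (algebraMap (Polynomial k) R Polynomial.X) := by rw [hXu]; exact h0
    obtain ⟨b, -⟩ := adapted_basis X ht
    haveI : Module.Finite (Polynomial k) R := Module.Finite.of_basis b
    haveI : Module.Free (Polynomial k) R := Module.Free.of_basis b
    have h1 := nk_var (k := k) a
    have h2 := nk_of_var (k := k) a ha
    obtain ⟨h3, h4⟩ := norm_lead X ht a ha
    rw [hXu] at h1 h2 h4
    rw [h3, ← h1] at h2
    set L := (Algebra.norm (Polynomial k) a).leadingCoeff
    have h5 : Nk k u (Ideal.span {a}) * ((-1) ^ (X.d a * (X.d u - 1)) * X.lc a ^ X.d u) =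
        (-1) ^ X.d a * Nk k a (Ideal.span {u}) * X.lc u ^ X.d a := by
      rw [← h4, ← mul_assoc, h2]
    have h6 : (-1 : k) ^ (X.d a * X.d u) =
        (-1) ^ (X.d a * (X.d u - 1)) * (-1) ^ X.d a := by
      rw [← pow_add]
      congr 1
      obtain ⟨m, hm⟩ : ∃ m, X.d u = m + 1 := ⟨X.d u - 1, by omega⟩
      rw [hm, Nat.add_sub_cancel]
      ring
    have h7 : (-1 : k) ^ (X.d a * (X.d u - 1)) * (-1) ^ (X.d a * (X.d u - 1)) = 1 := by
      rw [← mul_pow, neg_one_mul, neg_neg, one_pow]
    calc Nk k u (Ideal.span {a}) * X.lc a ^ X.d u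
        = ((-1 : k) ^ (X.d a * (X.d u - 1)) * (-1) ^ (X.d a * (X.d u - 1))) *
          (Nk k u (Ideal.span {a}) * X.lc a ^ X.d u) := by rw [h7, one_mul]
      _ = (-1 : k) ^ (X.d a * (X.d u - 1)) *
          (Nk k u (Ideal.span {a}) * ((-1) ^ (X.d a * (X.d u - 1)) * X.lc a ^ X.d u)) := by
            ring
      _ = _ := by rw [h5, h6]; ring

/-- the symbol of a radical is trivial on principal ideals -/
theorem sy_principal {k R : Type} [Field k] [Finite k] [CommRing R] [IsDedekindDomain R]
    [Algebra k R] (X : OneInf k R) (l : ℕ) (hl : 0 < l) (hlk : l ∣ Nat.card k - 1) (u : R)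
    (J : Ideal R) (h : Rad X l u J) (a : R) (ha : a ≠ 0)
    (hau : Ideal.span {a} ⊔ Ideal.span {u} = ⊤) : Sy k l u (Ideal.span {a}) = 1 := by
  obtain ⟨hu, hJ, c, hc⟩ := h
  obtain ⟨e, he⟩ := hlk
  have he' : (Nat.card k - 1) / l = e := by
    rw [he]
    exact Nat.mul_div_cancel_left e hl
  have hJ0 : J ≠ ⊥ := by
    rintro rfl
    rw [Ideal.bot_pow hl.ne', eq_comm, Ideal.span_singleton_eq_bot] at hJ
    exact hu hJ
  have hfin : ∀ I : Ideal R, I ≠ ⊥ → Finite (R ⧸ I) := fun I hI => finite_quot X I hI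
  haveI := hfin J hJ0
  have hpow0 : ∀ n : ℕ, J ^ n ≠ ⊥ := fun n => pow_ne_zero n hJ0
  -- the index of `J ^ n`
  have hidx : ∀ n : ℕ, Nat.card (R ⧸ J ^ n) = Nat.card (R ⧸ J) ^ n := by
    intro n
    induction n with
    | zero =>
      rw [pow_zero, pow_zero, Ideal.one_eq_top]
      haveI : Subsingleton (R ⧸ (⊤ : Ideal R)) := Ideal.Quotient.subsingleton_iff.2 rfl
      exact Nat.card_unique
    | succ n ih => rw [pow_succ, card_quot_mul R hfin _ _ (hpow0 n) hJ0, ih, pow_succ]
  have hnk : ∀ n : ℕ, Nk k a (J ^ n) = Nk k a J ^ n := by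
    intro n
    induction n with
    | zero => rw [pow_zero, pow_zero, Ideal.one_eq_top, nk_top]
    | succ n ih => rw [pow_succ, nk_ideal_mul _ _ _ (hpow0 n) hJ0 hfin, ih, pow_succ]
  have hj : ∃ j, X.d u = l * j := by
    refine ⟨Module.finrank k (R ⧸ J), ?_⟩
    have h1 := card_quot X u hu
    rw [← hJ, hidx, Module.natCard_eq_pow_finrank (K := k) (V := R ⧸ J), ← pow_mul] at h1
    rw [mul_comm]
    exact (Nat.pow_right_injective (rec_one_lt k) h1).symm
  obtain ⟨j, hj⟩ := hj
  have hle : Ideal.span {u} ≤ J := by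
    rw [← hJ]
    exact Ideal.pow_le_self hl.ne'
  have hJa : J ⊔ Ideal.span {a} = ⊤ := by
    rw [eq_top_iff, ← hau, sup_comm]
    exact sup_le_sup_right hle _
  have hB := nk_ne_zero (k := k) a J hJa
  have hr := reciprocity X a u ha hu hau
  rw [Sy, he']
  have h1 : Nk k a (Ideal.span {u}) ^ e = 1 := by
    rw [← hJ, hnk, ← pow_mul, ← he]
    exact rec_pow_card k _ hB
  have h2 : (X.lc u ^ X.d a) ^ e = 1 := by
    have hc0 : c ≠ 0 := by
      rintro rfl
      rw [zero_pow hl.ne'] at hc
      exact X.lc_ne u hu hc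
    rw [hc, ← pow_mul, ← pow_mul, show l * (X.d a * e) = l * e * X.d a by ring, ← he, pow_mul,
      rec_pow_card k c hc0, one_pow]
  have h3 : (X.lc a ^ X.d u) ^ e = 1 := by
    rw [hj, ← pow_mul, show l * j * e = l * e * j by ring, ← he, pow_mul,
      rec_pow_card k _ (X.lc_ne a ha), one_pow]
  have h4 : ((-1 : k) ^ (X.d a * X.d u)) ^ e = 1 := by
    rw [hj, ← pow_mul, show X.d a * (l * j) * e = l * e * (X.d a * j) by ring, ← he, pow_mul,
      rec_pow_card k _ (neg_ne_zero.2 one_ne_zero), one_pow]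
  have h5 := congrArg (fun x => x ^ e) hr
  simp only [mul_pow] at h5
  rwa [h1, h2, h3, h4, mul_one, mul_one, mul_one] at h5

end Pool.Agent.AB
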