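import Pool.Agent.Lib.MP_5de024_nt.C.Nm

/-!
# Norms to `k[X]` and determinants (piece RecN)
-/

set_option autoImplicit false
set_option linter.unusedSectionVars false

namespace Pool.Agent.AB

open Polynomial

/-- the determinant of a product of endomorphisms of different spaces -/
theorem recn_det_pi {k : Type*} [Field k] {n : ℕ} (V : Fin n → Type*) [∀ i, AddCommGroup (V i)]
    [∀ i, Module k (V i)] [∀ i, FiniteDimensional k (V i)] (f : ∀ i, V i →ₗ[k] V i)
    (F : (∀ i, V i) →ₗ[k] (∀ i, V i)) (hF : ∀ v i, F v i = f i (v i)) :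
    LinearMap.det F = ∏ i, LinearMap.det (f i) := by
  classical
  let b := fun i => Module.finBasis k (V i)
  rw [← LinearMap.det_toMatrix (Pi.basis b)]
  have h1 : LinearMap.toMatrix (Pi.basis b) (Pi.basis b) F =
      Matrix.blockDiagonal' (fun i => LinearMap.toMatrix (b i) (b i) (f i)) := by
    ext ⟨i, x⟩ ⟨j, y⟩
    rw [LinearMap.toMatrix_apply, Pi.basis_apply, Pi.basis_repr, hF, Matrix.blockDiagonal'_apply']
    by_cases h : i = j
    · subst h
      rw [dif_pos rfl]
      simp [LinearMap.toMatrix_apply]
    · rw [dif_neg h]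
      dsimp only
      rw [Pi.single_eq_of_ne h, map_zero, map_zero]
      rfl
  rw [h1, (Matrix.blockTriangular_blockDiagonal' _).det_fintype]
  refine Finset.prod_congr rfl fun i _ => ?_
  rw [← LinearMap.det_toMatrix (b i),
    ← Matrix.det_submatrix_equiv_self
      (Equiv.sigmaSubtype (β := fun i => Fin (Module.finrank k (V i))) i)
      (LinearMap.toMatrix (b i) (b i) (f i))]
  congr 1
  ext ⟨⟨i', x⟩, h⟩ ⟨⟨j', y⟩, h'⟩
  dsimp only at h h'
  subst h
  subst h'
  rw [Matrix.toSquareBlock_def, Matrix.of_apply, Matrix.blockDiagonal'_apply', dif_pos rfl,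
    Matrix.submatrix_apply]
  rfl

/-- the multiplication by the variable -/
noncomputable def recnX (k W : Type*) [Field k] [AddCommGroup W] [Module k W]
    [Module (Polynomial k) W] [IsScalarTower k (Polynomial k) W] : W →ₗ[k] W where
  toFun w := (X : Polynomial k) • w
  map_add' := smul_add _
  map_smul' c w := by
    rw [RingHom.id_apply, ← IsScalarTower.algebraMap_smul (Polynomial k) c w,
      ← IsScalarTower.algebraMap_smul (Polynomial k) c ((X : Polynomial k) • w), smul_smul,
      smul_smul, mul_comm]

theorem recnX_apply {k W : Type*} [Field k] [AddCommGroup W] [Module k W]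
    [Module (Polynomial k) W] [IsScalarTower k (Polynomial k) W] (w : W) :
    recnX k W w = (X : Polynomial k) • w := rfl

theorem recnX_equiv {k W W' : Type*} [Field k] [AddCommGroup W] [Module k W]
    [Module (Polynomial k) W] [IsScalarTower k (Polynomial k) W] [AddCommGroup W'] [Module k W']
    [Module (Polynomial k) W'] [IsScalarTower k (Polynomial k) W'] (e : W ≃ₗ[Polynomial k] W') :
    LinearMap.det (recnX k W) = LinearMap.det (recnX k W') := by
  rw [← LinearMap.det_conj (recnX k W) (e.restrictScalars k)]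
  congr 1
  ext w
  change e ((X : Polynomial k) • e.symm w) = (X : Polynomial k) • w
  rw [map_smul, LinearEquiv.apply_symm_apply]

theorem recnX_quot {k : Type*} [Field k] {g : Polynomial k} (hg : g ≠ 0) :
    LinearMap.det (recnX k (Polynomial k ⧸ Ideal.span {g})) * g.leadingCoeff =
      (-1) ^ g.natDegree * g.eval 0 := by
  have h := Algebra.PowerBasis.norm_gen_eq_coeff_zero_minpoly (AdjoinRoot.powerBasis hg)
  rw [AdjoinRoot.minpoly_powerBasis_gen hg, AdjoinRoot.powerBasis_dim, AdjoinRoot.powerBasis_gen,
    Algebra.norm_apply, coeff_mul_C, coeff_zero_eq_eval_zero] at h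
  have e : LinearMap.det (recnX k (Polynomial k ⧸ Ideal.span {g})) =
      LinearMap.det (Algebra.lmul k (AdjoinRoot g) (AdjoinRoot.root g)) := by
    congr 1
  rw [e, h, mul_assoc, mul_assoc, inv_mul_cancel₀ (leadingCoeff_ne_zero.2 hg), mul_one]

variable {k R : Type} [Field k] [CommRing R] [IsDomain R] [Algebra k R]
  [Algebra (Polynomial k) R] [IsScalarTower k (Polynomial k) R]
  [Module.Finite (Polynomial k) R] [Module.Free (Polynomial k) R]

/-- the determinant of `a` modulo the variable is the constant term of the norm -/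
theorem nk_var (a : R) :
    Nk k a (Ideal.span {algebraMap (Polynomial k) R X}) =
      (Algebra.norm (Polynomial k) a).eval 0 := by
  classical
  let b := Module.finBasis (Polynomial k) R
  have hC : ∀ (c : k) (r : R), c • r = (C c : Polynomial k) • r := by
    intro c r
    rw [← IsScalarTower.algebraMap_smul (Polynomial k) c r]
    rfl
  let φ : R →ₗ[k] (Fin (Module.finrank (Polynomial k) R) → k) :=
    { toFun := fun r i => (b.repr r i).eval 0
      map_add' := fun r s => by
        funext i
        rw [map_add, Finsupp.add_apply, eval_add, Pi.add_apply]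
      map_smul' := fun c r => by
        funext i
        rw [hC, map_smul, Finsupp.smul_apply, smul_eq_mul, eval_mul, eval_C, RingHom.id_apply,
          Pi.smul_apply, smul_eq_mul] }
  have hφ : ∀ r i, φ r i = (b.repr r i).eval 0 := fun _ _ => rfl
  let I : Ideal R := Ideal.span {algebraMap (Polynomial k) R X}
  let π : R →ₗ[k] (R ⧸ I) := (Ideal.Quotient.mkₐ k I).toLinearMap
  have hπ : ∀ r, π r = Ideal.Quotient.mk I r := fun _ => rfl
  have hπs : Function.Surjective π := Ideal.Quotient.mk_surjective
  have hφs : Function.Surjective φ := by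
    intro v
    refine ⟨∑ i, (C (v i) : Polynomial k) • b i, ?_⟩
    funext i
    rw [hφ, b.repr_sum_self, eval_C]
  have hker : LinearMap.ker π = LinearMap.ker φ := by
    ext r
    rw [LinearMap.mem_ker, LinearMap.mem_ker, hπ, Ideal.Quotient.eq_zero_iff_mem,
      Ideal.mem_span_singleton]
    constructor
    · rintro ⟨s, rfl⟩
      funext i
      rw [hφ, ← Algebra.smul_def, map_smul, Finsupp.smul_apply, smul_eq_mul, eval_mul, eval_X,
        zero_mul]
      rfl
    · intro h
      have h1 : ∀ i, ∃ g : Polynomial k, b.repr r i = X * g := by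
        intro i
        have h2 : (b.repr r i).eval 0 = 0 := by rw [← hφ, h]; rfl
        have h3 : X ∣ b.repr r i := by
          rw [X_dvd_iff, coeff_zero_eq_eval_zero, h2]
        exact h3
      choose g hg using h1
      refine ⟨∑ i, g i • b i, ?_⟩
      rw [← Algebra.smul_def, Finset.smul_sum, ← b.sum_repr r]
      refine Finset.sum_congr rfl fun i _ => ?_
      rw [smul_smul, ← hg]
  let e : (R ⧸ I) ≃ₗ[k] (Fin (Module.finrank (Polynomial k) R) → k) :=
    (LinearMap.quotKerEquivOfSurjective π hπs).symm ≪≫ₗ
      (Submodule.quotEquivOfEq _ _ hker) ≪≫ₗ (LinearMap.quotKerEquivOfSurjective φ hφs)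
  have he : ∀ r, e (Ideal.Quotient.mk I r) = φ r := by
    intro r
    have h1 : (LinearMap.quotKerEquivOfSurjective π hπs).symm (Ideal.Quotient.mk I r) =
        Submodule.Quotient.mk r := by
      rw [LinearEquiv.symm_apply_eq]
      rfl
    change (LinearMap.quotKerEquivOfSurjective φ hφs) ((Submodule.quotEquivOfEq _ _ hker)
      ((LinearMap.quotKerEquivOfSurjective π hπs).symm (Ideal.Quotient.mk I r))) = _
    rw [h1, Submodule.quotEquivOfEq_mk]
    rfl
  have h2 : LinearMap.det (LinearMap.mulLeft k (Ideal.Quotient.mk I a)) =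
      LinearMap.det (Matrix.toLin' ((Algebra.leftMulMatrix b a).map (fun g => g.eval 0))) := by
    rw [← LinearMap.det_conj (LinearMap.mulLeft k (Ideal.Quotient.mk I a)) e]
    congr 1
    refine LinearMap.ext fun v => ?_
    obtain ⟨r, rfl⟩ := hφs v
    rw [LinearMap.comp_apply, LinearMap.comp_apply, LinearEquiv.coe_coe, LinearEquiv.coe_coe,
      ← he, LinearEquiv.symm_apply_apply, LinearMap.mulLeft_apply, ← map_mul, he,
      Matrix.toLin'_apply, he]
    funext i
    rw [hφ, ← Algebra.leftMulMatrix_mulVec_repr b a r, Matrix.mulVec, Matrix.mulVec, dotProduct,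
      dotProduct, eval_finsetSum]
    refine Finset.sum_congr rfl fun j _ => ?_
    rw [eval_mul, Matrix.map_apply, hφ]
  change LinearMap.det (LinearMap.mulLeft k (Ideal.Quotient.mk I a)) = _
  rw [h2, LinearMap.det_toLin', Algebra.norm_eq_matrix_det b]
  exact (RingHom.map_det (evalRingHom (0 : k)) (Algebra.leftMulMatrix b a)).symm

/-- the determinant of the variable modulo `a`, in terms of the norm of `a` -/
theorem nk_of_var (a : R) (ha : a ≠ 0) :
    Nk k (algebraMap (Polynomial k) R X) (Ideal.span {a}) *
        (Algebra.norm (Polynomial k) a).leadingCoeff =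
      (-1) ^ (Algebra.norm (Polynomial k) a).natDegree *
        (Algebra.norm (Polynomial k) a).eval 0 := by
  classical
  have hI : Ideal.span {a} ≠ ⊥ := Ideal.span_singleton_eq_bot.not.2 ha
  let b := Module.finBasis (Polynomial k) R
  have h1 : Nk k (algebraMap (Polynomial k) R X) (Ideal.span {a}) =
      LinearMap.det (recnX k (R ⧸ Ideal.span {a})) := by
    rw [Nk]
    congr 1
    refine LinearMap.ext fun w => ?_
    rw [LinearMap.mulLeft_apply, recnX_apply, Algebra.smul_def]
    rfl
  rw [h1, recnX_equiv (Ideal.quotientEquivPiSpan (Ideal.span {a}) b hI),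
    recn_det_pi _ (fun i => recnX k _) _ (fun v i => rfl)]
  obtain ⟨u, hu⟩ := associated_norm_prod_smith b ha
  obtain ⟨c, hc, hcu⟩ := isUnit_iff.1 u.isUnit
  have hc0 : c ≠ 0 := hc.ne_zero
  rw [← hcu] at hu
  have hg : ∀ i, Ideal.smithCoeffs b (Ideal.span {a}) hI i ≠ 0 :=
    Ideal.smithCoeffs_ne_zero b _ hI
  have e1 : (Algebra.norm (Polynomial k) a).leadingCoeff * c =
      ∏ i, (Ideal.smithCoeffs b (Ideal.span {a}) hI i).leadingCoeff := by
    rw [← leadingCoeff_prod, ← hu, leadingCoeff_mul, leadingCoeff_C]
  have e2 : (Algebra.norm (Polynomial k) a).natDegree =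
      ∑ i, (Ideal.smithCoeffs b (Ideal.span {a}) hI i).natDegree := by
    rw [← natDegree_prod _ _ fun i _ => hg i, ← hu, natDegree_mul_C hc0]
  have e3 : (Algebra.norm (Polynomial k) a).eval 0 * c =
      ∏ i, (Ideal.smithCoeffs b (Ideal.span {a}) hI i).eval 0 := by
    rw [← eval_prod, ← hu, eval_mul, eval_C]
  apply mul_right_cancel₀ hc0
  rw [mul_assoc, e1, mul_assoc, e3, e2, ← Finset.prod_mul_distrib, ← Finset.prod_pow_eq_pow_sum,
    ← Finset.prod_mul_distrib]
  exact Finset.prod_congr rfl fun i _ => recnX_quot (hg i)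

end Pool.Agent.AB
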