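import Pool.Agent.Lib.MP_5de024_nt.C.KDefs

/-!
# The field `K` over `F_p(1/x)` (piece Tw)
-/

set_option autoImplicit false
set_option linter.unusedSectionVars false

namespace Pool.Agent.AB

/-- the twist at infinity: `M` is `K` with the variable `1 / x`; its places over `x = 0` are the
places of `K` at infinity -/
structure Tw (p : ℕ) [Fact p.Prime] (K : Type) [Field K] [Algebra (Fx p) K]
    [Algebra (Rx p) K] [IsScalarTower (Rx p) (Fx p) K] (M : Type) [Field M] [Algebra (Fx p) M]
    [Algebra (Rx p) M] [IsScalarTower (Rx p) (Fx p) M] where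
  /-- the isomorphism of fields -/
  e : K ≃+* M
  /-- the isomorphism of groups -/
  b : Gl p K ≃* Gl p M
  hx : e (xk p K) = (xk p M)⁻¹
  hb : ∀ (σ : Gl p K) (s : K), b σ (e s) = e (σ s)

open Polynomial in
/-- the homomorphism `x ↦ 1 / x` on polynomials -/
noncomputable def twPhi (p : ℕ) [Fact p.Prime] : Rx p →+* Fx p :=
  eval₂RingHom (RatFunc.C : ZMod p →+* Fx p) (RatFunc.X : Fx p)⁻¹

open Polynomial in
theorem twPhi_injective (p : ℕ) [Fact p.Prime] : Function.Injective (twPhi p) := by
  rw [injective_iff_map_eq_zero]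
  intro q hq
  by_contra hq0
  have h1 : IsAlgebraic (ZMod p) (RatFunc.X : Fx p)⁻¹ := ⟨q, hq0, hq⟩
  have h2 := h1.inv
  rw [inv_inv] at h2
  exact RatFunc.transcendental_X h2

/-- the homomorphism `x ↦ 1 / x` -/
noncomputable def twJ (p : ℕ) [Fact p.Prime] : Fx p →+* Fx p :=
  RatFunc.liftRingHom (twPhi p)
    (nonZeroDivisors_le_comap_nonZeroDivisors_of_injective _ (twPhi_injective p))

theorem twJ_algebraMap (p : ℕ) [Fact p.Prime] (q : Rx p) :
    twJ p (algebraMap (Rx p) (Fx p) q) = twPhi p q :=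
  RatFunc.liftRingHom_algebraMap _ _ q

theorem twJ_X (p : ℕ) [Fact p.Prime] : twJ p RatFunc.X = (RatFunc.X)⁻¹ := by
  rw [← RatFunc.algebraMap_X, twJ_algebraMap, twPhi, Polynomial.coe_eval₂RingHom,
    Polynomial.eval₂_X, RatFunc.algebraMap_X]

theorem twJ_C (p : ℕ) [Fact p.Prime] (a : ZMod p) : twJ p (RatFunc.C a) = RatFunc.C a := by
  rw [← RatFunc.algebraMap_C, twJ_algebraMap, twPhi, Polynomial.coe_eval₂RingHom,
    Polynomial.eval₂_C, RatFunc.algebraMap_C]

theorem twJ_twJ (p : ℕ) [Fact p.Prime] : (twJ p).comp (twJ p) = RingHom.id (Fx p) := by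
  apply IsLocalization.ringHom_ext (nonZeroDivisors (Rx p))
  apply Polynomial.ringHom_ext
  · intro a
    simp only [RingHom.comp_apply, RatFunc.algebraMap_C, twJ_C, RingHom.id_apply]
  · simp only [RingHom.comp_apply, RatFunc.algebraMap_X, twJ_X, map_inv₀, inv_inv,
      RingHom.id_apply]

/-- the automorphism `x ↦ 1 / x` -/
noncomputable def twE (p : ℕ) [Fact p.Prime] : Fx p ≃+* Fx p :=
  RingEquiv.ofRingHom (twJ p) (twJ p) (twJ_twJ p) (twJ_twJ p)

theorem twE_X (p : ℕ) [Fact p.Prime] : twE p RatFunc.X = (RatFunc.X)⁻¹ := twJ_X p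

/-- transport of the structure along a pair of isomorphisms -/
theorem tw_aux (p : ℕ) [Fact p.Prime] (K M : Type) [Field K] [Algebra (Fx p) K]
    [Algebra (Rx p) K] [IsScalarTower (Rx p) (Fx p) K] [Field M] [Algebra (Fx p) M]
    [Algebra (Rx p) M] [IsScalarTower (Rx p) (Fx p) M] (j : Fx p ≃+* Fx p)
    (hj : j RatFunc.X = (RatFunc.X)⁻¹) (e : K ≃+* M)
    (he : ∀ r, e (algebraMap (Fx p) K (j r)) = algebraMap (Fx p) M r)
    [FiniteDimensional (Fx p) K] [IsGalois (Fx p) K] :
    Nonempty (Tw p K M) ∧ FiniteDimensional (Fx p) M ∧ IsGalois (Fx p) M := by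
  have hc : (algebraMap (Fx p) M).comp (j.symm : Fx p →+* Fx p) =
      (e : K →+* M).comp (algebraMap (Fx p) K) := by
    ext1 r
    show algebraMap (Fx p) M (j.symm r) = e (algebraMap (Fx p) K r)
    rw [← he, RingEquiv.apply_symm_apply]
  have he' : ∀ r, e.symm (algebraMap (Fx p) M r) = algebraMap (Fx p) K (j r) := by
    intro r
    rw [← he, RingEquiv.symm_apply_apply]
  refine ⟨⟨?_⟩, Module.Finite.of_equiv_equiv j.symm e hc, IsGalois.of_equiv_equiv hc⟩
  have c1 : ∀ (σ : Gl p K) (r : Fx p),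
      e (σ (e.symm (algebraMap (Fx p) M r))) = algebraMap (Fx p) M r := by
    intro σ r
    rw [he', σ.commutes, he]
  have c2 : ∀ (τ : Gl p M) (r : Fx p),
      e.symm (τ (e (algebraMap (Fx p) K r))) = algebraMap (Fx p) K r := by
    intro τ r
    have h1 : algebraMap (Fx p) K r = algebraMap (Fx p) K (j (j.symm r)) := by
      rw [RingEquiv.apply_symm_apply]
    rw [h1, he, τ.commutes, he']
  exact
    { e := e
      b :=
        { toFun := fun σ => AlgEquiv.ofRingEquiv
            (f := (e.symm.trans (σ.toRingEquiv.trans e))) (c1 σ)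
          invFun := fun τ => AlgEquiv.ofRingEquiv
            (f := (e.trans (τ.toRingEquiv.trans e.symm))) (c2 τ)
          left_inv := by
            intro σ
            ext s
            show e.symm (e (σ (e.symm (e s)))) = σ s
            rw [RingEquiv.symm_apply_apply, RingEquiv.symm_apply_apply]
          right_inv := by
            intro τ
            ext s
            show e (e.symm (τ (e (e.symm s)))) = τ s
            rw [RingEquiv.apply_symm_apply, RingEquiv.apply_symm_apply]
          map_mul' := by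
            intro σ τ
            ext s
            show e (σ (τ (e.symm s))) = e (σ (e.symm (e (τ (e.symm s)))))
            rw [RingEquiv.symm_apply_apply] }
      hx := by
        have h1 := he RatFunc.X
        rw [hj, map_inv₀, map_inv₀] at h1
        rw [xk, xk, ← h1, inv_inv]
      hb := by
        intro σ s
        show e (σ (e.symm (e s))) = e (σ s)
        rw [RingEquiv.symm_apply_apply] }

theorem tw_aux1 {R F K : Type*} [CommRing R] [CommRing F] [CommRing K] [Algebra R F]
    (f : F →+* K) : @IsScalarTower R F K _ f.toAlgebra.toSMul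
      (f.comp (algebraMap R F)).toAlgebra.toSMul := by
  let _ := f.toAlgebra
  let _ := (f.comp (algebraMap R F)).toAlgebra
  exact IsScalarTower.of_algebraMap_eq fun _ => rfl

theorem tw_aux2 (p : ℕ) [Fact p.Prime] (K : Type) [Field K] [Algebra (Fx p) K]
    [Algebra (Rx p) K] [IsScalarTower (Rx p) (Fx p) K] [FiniteDimensional (Fx p) K]
    [IsGalois (Fx p) K] (j : Fx p ≃+* Fx p) (hj : j RatFunc.X = (RatFunc.X)⁻¹) :
    ∃ (M : Type) (_ : Field M) (_ : Algebra (Fx p) M) (_ : Algebra (Rx p) M)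
      (_ : IsScalarTower (Rx p) (Fx p) M), Nonempty (Tw p K M) ∧
      FiniteDimensional (Fx p) M ∧ IsGalois (Fx p) M :=
  ⟨K, inferInstance, ((algebraMap (Fx p) K).comp (j : Fx p →+* Fx p)).toAlgebra,
    (((algebraMap (Fx p) K).comp (j : Fx p →+* Fx p)).comp
      (algebraMap (Rx p) (Fx p))).toAlgebra, tw_aux1 _,
    @tw_aux p _ K K _ _ _ _ _ ((algebraMap (Fx p) K).comp (j : Fx p →+* Fx p)).toAlgebra
    (((algebraMap (Fx p) K).comp (j : Fx p →+* Fx p)).comp
      (algebraMap (Rx p) (Fx p))).toAlgebra (tw_aux1 _) j hj (RingEquiv.refl K) (fun _ => rfl) _ _⟩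

/-- the twist exists -/
theorem tw_all (p : ℕ) [Fact p.Prime] (K : Type) [Field K] [Algebra (Fx p) K]
    [Algebra (Rx p) K] [IsScalarTower (Rx p) (Fx p) K] [FiniteDimensional (Fx p) K]
    [IsGalois (Fx p) K] :
    ∃ (M : Type) (_ : Field M) (_ : Algebra (Fx p) M) (_ : Algebra (Rx p) M)
      (_ : IsScalarTower (Rx p) (Fx p) M), Nonempty (Tw p K M) ∧
      FiniteDimensional (Fx p) M ∧ IsGalois (Fx p) M := by
  exact tw_aux2 p K (twE p) (twE_X p)

end Pool.Agent.AB
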