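import Pool.Agent.Lib.MP_5de024_nt.Quo
import Pool.Agent.Lib.MP_5de024_nt.Fro
import Pool.Agent.Lib.MP_5de024_nt.Cyc
import Pool.Agent.Lib.MP_5de024_nt.C.Tw

/-!
# Lemmas for the place at infinity (piece TrF)
-/

set_option autoImplicit false
set_option linter.unusedSectionVars false

namespace Pool.Agent.AB

variable (p : ℕ) [Fact p.Prime] (K : Type) [Field K] [Algebra (Fx p) K] [Algebra (Rx p) K]
  [IsScalarTower (Rx p) (Fx p) K] (M : Type) [Field M] [Algebra (Fx p) M] [Algebra (Rx p) M]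
  [IsScalarTower (Rx p) (Fx p) M]

/-! ### the Artin - Schreier generator -/

/-- if `σ ^ p ∈ N` and `σ ∉ N` then the powers `σ ^ i`, `i < p`, are different modulo `N` -/
theorem trf_ord {G : Type} [Group G] (N : Subgroup G) (σ : G) (hσN : σ ∉ N) (hσp : σ ^ p ∈ N)
    (k : ℕ) (hk : k < p) (h : σ ^ k ∈ N) : k = 0 := by
  by_contra hk0
  have hcop : Nat.Coprime k p :=
    ((Nat.Prime.coprime_iff_not_dvd Fact.out).2 (Nat.not_dvd_of_pos_of_lt
      (Nat.pos_of_ne_zero hk0) hk)).symm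
  obtain ⟨u, v, huv⟩ : IsCoprime (k : ℤ) (p : ℤ) := Nat.isCoprime_iff_coprime.2 hcop
  apply hσN
  have h1 : σ = (σ ^ k) ^ u * (σ ^ p) ^ v := by
    rw [← zpow_natCast, ← zpow_natCast, ← zpow_mul, ← zpow_mul, ← zpow_add]
    have h2 : (k : ℤ) * u + (p : ℤ) * v = 1 := by linarith
    rw [h2, zpow_one]
  rw [h1]
  exact N.mul_mem (N.zpow_mem h _) (N.zpow_mem hσp _)

/-- summation over a subgroup with cyclic quotient of order `p` -/
theorem trf_sum {G : Type} [Group G] (H N : Subgroup G) [Fintype H] [Fintype N] (hNH : N ≤ H)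
    (σ : G) (hσ : σ ∈ H) (hσN : σ ∉ N) (hσp : σ ^ p ∈ N)
    (hgen : ∀ h ∈ H, ∃ i : ℕ, h * σ ^ i ∈ N) {A : Type} [AddCommMonoid A] (f : G → A) :
    ∑ i ∈ Finset.range p, ∑ n : N, f (σ ^ i * n) = ∑ τ : H, f τ := by
  classical
  have hp0 : 0 < p := (Fact.out : p.Prime).pos
  rw [← Finset.sum_product']
  refine Finset.sum_bij (fun x _ => (⟨σ ^ x.1 * x.2, H.mul_mem (H.pow_mem hσ _)
    (hNH x.2.2)⟩ : H)) ?_ ?_ ?_ ?_
  · intro x _
    exact Finset.mem_univ _
  · rintro ⟨i, n⟩ hi ⟨j, n'⟩ hj h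
    rw [Finset.mem_product, Finset.mem_range] at hi hj
    have h1 : σ ^ i * (n : G) = σ ^ j * (n' : G) := congrArg Subtype.val h
    have key : ∀ (i j : ℕ) (n n' : N), i ≤ j → j < p → σ ^ i * (n : G) = σ ^ j * (n' : G) →
        i = j := by
      intro i j n n' hij hj h
      obtain ⟨k, rfl⟩ := Nat.exists_eq_add_of_le hij
      rw [pow_add, mul_assoc, mul_left_cancel_iff] at h
      have h2 : σ ^ k ∈ N := by
        have h3 : σ ^ k = n * (n' : G)⁻¹ := by rw [h, mul_inv_cancel_right]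
        rw [h3]
        exact N.mul_mem n.2 (N.inv_mem n'.2)
      have := trf_ord p N σ hσN hσp k (by omega) h2
      omega
    have h2 : i = j := by
      rcases le_total i j with h3 | h3
      · exact key i j n n' h3 hj.1 h1
      · exact (key j i n' n h3 hi.1 h1.symm).symm
    subst h2
    rw [mul_left_cancel_iff] at h1
    rw [Subtype.ext h1]
  · rintro ⟨τ, hτ⟩ _
    obtain ⟨i, hi⟩ := hgen τ⁻¹ (H.inv_mem hτ)
    -- `τ⁻¹ σ ^ i ∈ N`
    have h1 : (σ ^ i)⁻¹ * τ ∈ N := by
      have := N.inv_mem hi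
      rwa [mul_inv_rev, inv_inv] at this
    have h2 : (σ ^ (i % p))⁻¹ * τ ∈ N := by
      have h3 : σ ^ i = σ ^ (i % p) * (σ ^ p) ^ (i / p) := by
        rw [← pow_mul, ← pow_add, Nat.mod_add_div]
      have h4 : (σ ^ (i % p))⁻¹ * τ = (σ ^ p) ^ (i / p) * ((σ ^ i)⁻¹ * τ) := by
        rw [h3]
        group
      rw [h4]
      exact N.mul_mem (N.pow_mem hσp _) h1
    refine ⟨(i % p, ⟨_, h2⟩), ?_, ?_⟩
    · rw [Finset.mem_product, Finset.mem_range]
      exact ⟨Nat.mod_lt _ hp0, Finset.mem_univ _⟩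
    · apply Subtype.ext
      exact mul_inv_cancel_left _ _
  · rintro ⟨i, n⟩ _
    rfl

/-- an Artin - Schreier generator which is integral -/
theorem tr_fin [FiniteDimensional (Fx p) K] [IsGalois (Fx p) K] (hNI : NI p K)
    (H N : Subgroup (Gl p K)) (hNH : N ≤ H) (hnorm : ∀ h ∈ H, ∀ n ∈ N, h * n * h⁻¹ ∈ N)
    (σ : Gl p K) (hσ : σ ∈ H) (hσN : σ ∉ N) (hσp : σ ^ p ∈ N)
    (hgen : ∀ h ∈ H, ∃ i : ℕ, h * σ ^ i ∈ N) :
    ∃ y : Oc p K, (∀ n ∈ N, n (y : K) = y) ∧ σ (y : K) = y + 1 := by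
  classical
  have : Fintype H := Fintype.ofFinite H
  have : Fintype N := Fintype.ofFinite N
  obtain ⟨c, hc⟩ := trace_one_sub p K hNI H
  obtain ⟨d, hd⟩ : ∃ d : Oc p K, d = ∑ n : N, act p K (n : Gl p K) c := ⟨_, rfl⟩
  have hdN : ∀ n ∈ N, act p K n d = d := by
    intro n hn
    rw [hd, map_sum]
    exact Equiv.sum_comp (Equiv.mulLeft (⟨n, hn⟩ : N))
      (fun n : N => act p K (n : Gl p K) c)
  have hdi : ∀ i : ℕ, ∀ n ∈ N, act p K n (act p K (σ ^ i) d) = act p K (σ ^ i) d := by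
    intro i n hn
    have h1 : (σ ^ i)⁻¹ * n * (σ ^ i) ∈ N := by
      have := hnorm (σ ^ i)⁻¹ (H.inv_mem (H.pow_mem hσ i)) n hn
      rwa [inv_inv] at this
    rw [← act_mul]
    have h2 : n * σ ^ i = σ ^ i * ((σ ^ i)⁻¹ * n * (σ ^ i)) := by group
    rw [h2, act_mul, hdN _ h1]
  have hsum : ∑ i ∈ Finset.range p, act p K (σ ^ i) d = 1 := by
    rw [← hc, ← trf_sum p H N hNH σ hσ hσN hσp hgen (fun τ => act p K τ c)]
    refine Finset.sum_congr rfl fun i _ => ?_
    rw [hd, map_sum]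
    rfl
  obtain ⟨y, hy⟩ : ∃ y : Oc p K, y = -∑ i ∈ Finset.range p, (i : Oc p K) *
    act p K (σ ^ i) d := ⟨_, rfl⟩
  have hyN : ∀ n ∈ N, act p K n y = y := by
    intro n hn
    rw [hy, map_neg, map_sum]
    congr 1
    refine Finset.sum_congr rfl fun i _ => ?_
    rw [map_mul, map_natCast, hdi i n hn]
  have hyσ : act p K σ y = y + 1 := by
    have h1 : act p K σ y = -∑ i ∈ Finset.range p, (i : Oc p K) * act p K (σ ^ (i + 1)) d := by
      rw [hy, map_neg, map_sum]
      congr 1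
      refine Finset.sum_congr rfl fun i _ => ?_
      rw [map_mul, map_natCast, ← act_mul, pow_succ']
    have h2 : ∑ i ∈ Finset.range p, (i : Oc p K) * act p K (σ ^ (i + 1)) d =
        ∑ i ∈ Finset.range p, ((i + 1 : ℕ) : Oc p K) * act p K (σ ^ (i + 1)) d -
        ∑ i ∈ Finset.range p, act p K (σ ^ (i + 1)) d := by
      rw [← Finset.sum_sub_distrib]
      refine Finset.sum_congr rfl fun i _ => ?_
      push_cast
      ring
    have hp : (p : Oc p K) = 0 := by
      have := charP_of p (Oc p K)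
      exact CharP.cast_eq_zero _ p
    have h3 : ∑ i ∈ Finset.range p, ((i + 1 : ℕ) : Oc p K) * act p K (σ ^ (i + 1)) d =
        ∑ i ∈ Finset.range p, (i : Oc p K) * act p K (σ ^ i) d := by
      have h4 := Finset.sum_range_succ (fun i : ℕ => (i : Oc p K) * act p K (σ ^ i) d) p
      have h5 := Finset.sum_range_succ' (fun i : ℕ => (i : Oc p K) * act p K (σ ^ i) d) p
      rw [h4] at h5
      simp only [hp, zero_mul, add_zero, Nat.cast_zero] at h5
      exact h5.symm
    have h6 : ∑ i ∈ Finset.range p, act p K (σ ^ (i + 1)) d = 1 := by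
      have h4 := Finset.sum_range_succ (fun i : ℕ => act p K (σ ^ i) d) p
      have h5 := Finset.sum_range_succ' (fun i : ℕ => act p K (σ ^ i) d) p
      rw [h4, hdN _ hσp, pow_zero, act_one] at h5
      rw [← hsum]
      exact (add_right_cancel h5).symm
    rw [h1, h2, h3, h6, hy]
    ring
  exact ⟨y, fun n hn => congrArg (fun s : Oc p K => (s : K)) (hyN n hn),
    congrArg (fun s : Oc p K => (s : K)) hyσ⟩

/-! ### elements which are regular at infinity -/

variable {p K M}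

/-- the map `T.e` on polynomials -/
theorem trf_poly (T : Tw p K M) (g : Rx p) :
    T.e (algebraMap (Rx p) K g) = Polynomial.eval₂ (cst p M) (xk p M)⁻¹ g := by
  have h : (T.e : K →+* M).comp (algebraMap (Rx p) K) =
      Polynomial.eval₂RingHom (cst p M) (xk p M)⁻¹ := by
    apply Polynomial.ringHom_ext'
    · exact Subsingleton.elim _ _
    · rw [RingHom.comp_apply, Polynomial.coe_eval₂RingHom, Polynomial.eval₂_X, ← T.hx,
        ← xo_coe]
      rfl
  exact RingHom.congr_fun h g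

theorem trf_eval (M : Type) [Field M] [Algebra (Fx p) M] [Algebra (Rx p) M]
    [IsScalarTower (Rx p) (Fx p) M] (g : Rx p) :
    algebraMap (Rx p) M g = Polynomial.eval₂ (cst p M) (xk p M) g := by
  have h : algebraMap (Rx p) M = Polynomial.eval₂RingHom (cst p M) (xk p M) := by
    apply Polynomial.ringHom_ext'
    · exact Subsingleton.elim _ _
    · rw [Polynomial.coe_eval₂RingHom, Polynomial.eval₂_X, ← xo_coe]
      rfl
  exact RingHom.congr_fun h g

theorem trf_reflect (T : Tw p K M) (g : Rx p) (N : ℕ) (hN : g.natDegree ≤ N) :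
    T.e (algebraMap (Rx p) K g) * xk p M ^ N = algebraMap (Rx p) M (Polynomial.reflect N g) := by
  have hx := xk_ne_zero p M
  let _ : Invertible (xk p M)⁻¹ := ⟨xk p M, mul_inv_cancel₀ hx, inv_mul_cancel₀ hx⟩
  have h := Polynomial.eval₂_reflect_mul_pow (cst p M) (xk p M)⁻¹ N g hN
  have h1 : ⅟(xk p M)⁻¹ = xk p M := rfl
  rw [h1] at h
  rw [trf_poly, ← h, trf_eval M, inv_pow, inv_mul_cancel_right₀ (pow_ne_zero _ hx)]

theorem trf_rx_ne (M : Type) [Field M] [Algebra (Fx p) M] [Algebra (Rx p) M]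
    [IsScalarTower (Rx p) (Fx p) M] {s : Rx p} (hs : s ≠ 0) : algebraMap (Rx p) M s ≠ 0 := by
  rw [IsScalarTower.algebraMap_apply (Rx p) (Fx p) M]
  intro h
  rw [map_eq_zero] at h
  exact hs ((map_eq_zero_iff _ (IsFractionRing.injective (Rx p) (Fx p))).1 h)

theorem trf_coe_rx (M : Type) [Field M] [Algebra (Fx p) M] [Algebra (Rx p) M]
    [IsScalarTower (Rx p) (Fx p) M] (s : Rx p) :
    ((algebraMap (Rx p) (Oc p M) s : Oc p M) : M) = algebraMap (Rx p) M s := rfl

/-- the elements of `K` which are regular at infinity -/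
def RegInf (T : Tw p K M) : Subring K where
  carrier := {r | ∃ (a : Oc p M) (s : Rx p), s.eval 0 ≠ 0 ∧
    T.e r * algebraMap (Rx p) M s = (a : M)}
  zero_mem' := ⟨0, 1, by simp, by simp⟩
  one_mem' := ⟨1, 1, by simp, by simp⟩
  add_mem' := by
    rintro r r' ⟨a, s, hs, h⟩ ⟨a', s', hs', h'⟩
    refine ⟨a * algebraMap (Rx p) (Oc p M) s' + a' * algebraMap (Rx p) (Oc p M) s, s * s', ?_, ?_⟩
    · rw [Polynomial.eval_mul]
      exact mul_ne_zero hs hs'
    · have e1 : ((a * algebraMap (Rx p) (Oc p M) s' + a' * algebraMap (Rx p) (Oc p M) s :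
          Oc p M) : M) = (a : M) * algebraMap (Rx p) M s' + (a' : M) * algebraMap (Rx p) M s := rfl
      rw [e1, map_mul, map_add, ← h, ← h']
      ring
  mul_mem' := by
    rintro r r' ⟨a, s, hs, h⟩ ⟨a', s', hs', h'⟩
    refine ⟨a * a', s * s', ?_, ?_⟩
    · rw [Polynomial.eval_mul]
      exact mul_ne_zero hs hs'
    · have e1 : ((a * a' : Oc p M) : M) = (a : M) * (a' : M) := rfl
      rw [e1, map_mul, map_mul, ← h, ← h']
      ring
  neg_mem' := by
    rintro r ⟨a, s, hs, h⟩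
    refine ⟨-a, s, hs, ?_⟩
    have e1 : ((-a : Oc p M) : M) = -(a : M) := rfl
    rw [e1, map_neg, ← h]
    ring

theorem mem_regInf (T : Tw p K M) (r : K) : r ∈ RegInf T ↔
    ∃ (a : Oc p M) (s : Rx p), s.eval 0 ≠ 0 ∧ T.e r * algebraMap (Rx p) M s = (a : M) := Iff.rfl

theorem regInf_gl (T : Tw p K M) {r : K} (h : r ∈ RegInf T) (σ : Gl p K) : σ r ∈ RegInf T := by
  obtain ⟨a, s, hs, h⟩ := h
  refine ⟨act p M (T.b σ) a, s, hs, ?_⟩
  rw [act_coe, ← h, map_mul, T.hb]
  congr 1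
  rw [IsScalarTower.algebraMap_apply (Rx p) (Fx p) M]
  exact ((T.b σ).commutes _).symm

theorem trf_eval_reflect (N : ℕ) (g : Rx p) :
    (Polynomial.reflect N g).eval 0 = g.coeff N := by
  rw [← Polynomial.coeff_zero_eq_eval_zero, Polynomial.coeff_reflect,
    Polynomial.revAt_le (Nat.zero_le N), Nat.sub_zero]

/-- proper fractions are regular at infinity -/
theorem regInf_frac (T : Tw p K M) (n d : Rx p) (hd : d ≠ 0) (hnd : n.natDegree ≤ d.natDegree) :
    algebraMap (Rx p) K n / algebraMap (Rx p) K d ∈ RegInf T := by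
  refine ⟨algebraMap (Rx p) (Oc p M) (Polynomial.reflect d.natDegree n),
    Polynomial.reflect d.natDegree d, ?_, ?_⟩
  · rw [trf_eval_reflect]
    exact Polynomial.leadingCoeff_ne_zero.2 hd
  · have h1 : T.e (algebraMap (Rx p) K d) ≠ 0 := by
      rw [Ne, map_eq_zero_iff _ T.e.injective]
      exact trf_rx_ne K hd
    rw [trf_coe_rx, ← trf_reflect T d _ le_rfl, ← trf_reflect T n _ hnd, map_div₀]
    field_simp

/-- polynomials which are regular at infinity are constant -/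
theorem regInf_poly (T : Tw p K M) (g : Rx p) (h : algebraMap (Rx p) K g ∈ RegInf T) :
    g.natDegree = 0 := by
  obtain ⟨a, s, hs, h⟩ := h
  by_contra hd
  have hg : g ≠ 0 := by
    rintro rfl
    exact hd Polynomial.natDegree_zero
  have hx := xk_ne_zero p M
  have h1 : (a : M) * xk p M ^ g.natDegree =
      algebraMap (Rx p) M (Polynomial.reflect g.natDegree g * s) := by
    rw [map_mul, ← trf_reflect T g _ le_rfl, ← h]
    ring
  have h2 : (a : M) = algebraMap (Fx p) M (algebraMap (Rx p) (Fx p)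
      (Polynomial.reflect g.natDegree g * s) / RatFunc.X ^ g.natDegree) := by
    rw [map_div₀, map_pow, ← IsScalarTower.algebraMap_apply, ← h1]
    rw [show algebraMap (Fx p) M RatFunc.X = xk p M from rfl,
      mul_div_cancel_right₀ _ (pow_ne_zero _ hx)]
  have h3 : IsIntegral (Rx p) (a : M) := a.2
  rw [h2] at h3
  have h4 := (isIntegral_algebraMap_iff (algebraMap (Fx p) M).injective).1 h3
  obtain ⟨r, hr⟩ := IsIntegrallyClosed.isIntegral_iff.1 h4
  have hX : (RatFunc.X : Fx p) ^ g.natDegree ≠ 0 := pow_ne_zero _ RatFunc.X_ne_zero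
  have h5 : algebraMap (Rx p) (Fx p) (r * Polynomial.X ^ g.natDegree) =
      algebraMap (Rx p) (Fx p) (Polynomial.reflect g.natDegree g * s) := by
    rw [map_mul (algebraMap (Rx p) (Fx p)) r, hr, map_pow, RatFunc.algebraMap_X,
      div_mul_cancel₀ _ hX]
  have h6 := congrArg (Polynomial.eval 0) (IsFractionRing.injective (Rx p) (Fx p) h5)
  rw [Polynomial.eval_mul, Polynomial.eval_mul, Polynomial.eval_pow, Polynomial.eval_X,
    zero_pow hd, mul_zero, trf_eval_reflect] at h6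
  exact (mul_ne_zero (Polynomial.leadingCoeff_ne_zero.2 hg) hs) h6.symm

theorem trf_pow_int (M : Type) [Field M] [Algebra (Rx p) M] {N : ℕ} (hN : 0 < N) {w : M}
    (hw : w ^ N = 1) : IsIntegral (Rx p) w := by
  refine ⟨Polynomial.X ^ N - 1, Polynomial.monic_X_pow_sub_C 1 hN.ne', ?_⟩
  rw [Polynomial.eval₂_sub, Polynomial.eval₂_X_pow, Polynomial.eval₂_one, hw, sub_self]

/-- roots of unity are regular at infinity -/
theorem regInf_root (T : Tw p K M) {N : ℕ} (hN : 0 < N) {ζ : K} (hζ : ζ ^ N = 1) :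
    ζ ∈ RegInf T := by
  refine ⟨⟨T.e ζ, trf_pow_int M hN (by rw [← map_pow, hζ, map_one])⟩, 1, by simp, by simp⟩

/-- rational functions split -/
theorem trf_fx_split (T : Tw p K M) (f : Fx p) : ∃ u r : K, algebraMap (Fx p) K f = u + r ∧
    IsIntegral (Rx p) u ∧ (∀ σ : Gl p K, σ u = u ∧ σ r = r) ∧ r ∈ RegInf T := by
  have hd : f.denom ≠ 0 := f.denom_ne_zero
  have hd' : algebraMap (Rx p) K f.denom ≠ 0 := trf_rx_ne K hd
  refine ⟨algebraMap (Rx p) K (f.num / f.denom),
    algebraMap (Rx p) K (f.num % f.denom) / algebraMap (Rx p) K f.denom, ?_,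
    isIntegral_algebraMap, fun σ => ?_, ?_⟩
  · have h1 : algebraMap (Rx p) K f.num = algebraMap (Rx p) K f.denom *
        algebraMap (Rx p) K (f.num / f.denom) + algebraMap (Rx p) K (f.num % f.denom) := by
      rw [← map_mul, ← map_add, EuclideanDomain.div_add_mod]
    have h2 : algebraMap (Fx p) K f = algebraMap (Rx p) K f.num / algebraMap (Rx p) K f.denom := by
      conv_lhs => rw [← RatFunc.num_div_denom f]
      rw [map_div₀, ← IsScalarTower.algebraMap_apply, ← IsScalarTower.algebraMap_apply]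
    rw [h2, h1]
    field_simp
  · have h1 : ∀ g : Rx p, σ (algebraMap (Rx p) K g) = algebraMap (Rx p) K g := by
      intro g
      rw [IsScalarTower.algebraMap_apply (Rx p) (Fx p) K]
      exact σ.commutes _
    rw [map_div₀, h1, h1, h1]
    exact ⟨rfl, rfl⟩
  · exact regInf_frac T _ _ hd (Polynomial.natDegree_le_natDegree
      (EuclideanDomain.mod_lt _ hd).le)

variable (p K M)

/-- an element fixed by the stabiliser of a root of unity is the sum of an integral element
and of an element which is regular at infinity, both fixed by that stabiliser -/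
theorem fix_split [FiniteDimensional (Fx p) K] [IsGalois (Fx p) K] (T : Tw p K M) (N : ℕ)
    (hN : 0 < N) (ζ : K) (hζ : ζ ^ N = 1) (z : K) (hz : ∀ σ : Gl p K, σ ζ = ζ → σ z = z) :
    ∃ (u r : K) (a : Oc p M) (s : Rx p), z = u + r ∧ IsIntegral (Rx p) u ∧
      (∀ σ : Gl p K, σ ζ = ζ → σ u = u ∧ σ r = r) ∧ s.eval 0 ≠ 0 ∧
      T.e r * algebraMap (Rx p) M s = (a : M) := by
  have h1 : z ∈ IntermediateField.adjoin (Fx p) {ζ} := by
    rw [← IsGalois.fixedField_fixingSubgroup (IntermediateField.adjoin (Fx p) {ζ}),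
      IntermediateField.mem_fixedField_iff]
    intro σ hσ
    apply hz
    rw [IntermediateField.mem_fixingSubgroup_iff] at hσ
    exact hσ ζ (IntermediateField.mem_adjoin_simple_self _ ζ)
  have h2 : z ∈ Algebra.adjoin (Fx p) {ζ} := by
    rw [← IntermediateField.adjoin_simple_toSubalgebra_of_isAlgebraic
      (Algebra.IsAlgebraic.isAlgebraic ζ)]
    exact h1
  rw [Algebra.adjoin_singleton_eq_range_aeval] at h2
  obtain ⟨q, hq⟩ := h2
  have key : ∀ q : Polynomial (Fx p), ∃ u r : K, Polynomial.aeval ζ q = u + r ∧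
      IsIntegral (Rx p) u ∧ (∀ σ : Gl p K, σ ζ = ζ → σ u = u ∧ σ r = r) ∧ r ∈ RegInf T := by
    intro q
    induction q using Polynomial.induction_on with
    | C a =>
      rw [Polynomial.aeval_C]
      obtain ⟨u, r, h3, h4, h5, h6⟩ := trf_fx_split T a
      exact ⟨u, r, h3, h4, fun σ _ => h5 σ, h6⟩
    | add f g hf hg =>
      obtain ⟨u, r, h3, h4, h5, h6⟩ := hf
      obtain ⟨u', r', h3', h4', h5', h6'⟩ := hg
      refine ⟨u + u', r + r', ?_, h4.add h4', fun σ hσ => ?_, (RegInf T).add_mem h6 h6'⟩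
      · rw [map_add, h3, h3']
        ring
      · rw [map_add, map_add, (h5 σ hσ).1, (h5 σ hσ).2, (h5' σ hσ).1, (h5' σ hσ).2]
        exact ⟨rfl, rfl⟩
    | monomial n a hn =>
      obtain ⟨u, r, h3, h4, h5, h6⟩ := hn
      refine ⟨u * ζ, r * ζ, ?_, h4.mul (trf_pow_int K hN hζ), fun σ hσ => ?_,
        (RegInf T).mul_mem h6 (regInf_root T hN hζ)⟩
      · rw [pow_succ, ← mul_assoc, map_mul, h3, Polynomial.aeval_X]
        ring
      · rw [map_mul, map_mul, (h5 σ hσ).1, (h5 σ hσ).2, hσ]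
        exact ⟨rfl, rfl⟩
  obtain ⟨u, r, h3, h4, h5, a, s, h6, h7⟩ := key q
  have hq' : Polynomial.aeval ζ q = z := hq
  exact ⟨u, r, a, s, hq'.symm.trans h3, h4, h5, h6, h7⟩

/-- elements algebraic over `F_p` -/
theorem trf_pow_of_alg (z : K) (G : Polynomial (ZMod p)) (hG : G ≠ 0)
    (h : Polynomial.eval₂ (cst p K) z G = 0) : ∃ n : ℕ, 0 < n ∧ z ^ p ^ n = z := by
  let _ : Algebra (ZMod p) K := (cst p K).toAlgebra
  have halg : IsAlgebraic (ZMod p) z := ⟨G, hG, h⟩
  have hfd : FiniteDimensional (ZMod p) (IntermediateField.adjoin (ZMod p) {z}) :=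
    IntermediateField.adjoin.finiteDimensional halg.isIntegral
  have hfin : Finite (IntermediateField.adjoin (ZMod p) {z}) := Module.finite_of_finite (ZMod p)
  have : Fintype (IntermediateField.adjoin (ZMod p) {z}) := Fintype.ofFinite _
  refine ⟨Module.finrank (ZMod p) (IntermediateField.adjoin (ZMod p) {z}),
    Module.finrank_pos, ?_⟩
  have h1 := FiniteField.pow_card (⟨z, IntermediateField.mem_adjoin_simple_self _ z⟩ :
    IntermediateField.adjoin (ZMod p) {z})
  rw [Module.card_eq_pow_finrank (K := ZMod p), ZMod.card] at h1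
  exact congrArg Subtype.val h1

/-- an integral element which is regular at infinity is constant -/
theorem const_of_reg [FiniteDimensional (Fx p) K] [IsGalois (Fx p) K] (T : Tw p K M) (z : K)
    (hz : IsIntegral (Rx p) z) (a : Oc p M) (s : Rx p) (hs : s.eval 0 ≠ 0)
    (h : T.e z * algebraMap (Rx p) M s = (a : M)) : ∃ n : ℕ, 0 < n ∧ z ^ p ^ n = z := by
  classical
  obtain ⟨S, hS⟩ : ∃ S : Subring K, S = RegInf T ⊓ (Oc p K).toSubring := ⟨_, rfl⟩
  have hzS : ∀ σ : Gl p K, σ z ∈ S := by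
    intro σ
    rw [hS]
    exact ⟨regInf_gl T ⟨a, s, hs, h⟩ σ, (act p K σ ⟨z, hz⟩).2⟩
  obtain ⟨F, hF⟩ : ∃ F : Polynomial K, F = ∏ σ : Gl p K, (Polynomial.X - Polynomial.C (σ z)) :=
    ⟨_, rfl⟩
  have hFS : ∀ n, F.coeff n ∈ S := by
    intro n
    have h1 : F = Polynomial.map S.subtype (∏ σ : Gl p K,
        (Polynomial.X - Polynomial.C (⟨σ z, hzS σ⟩ : S))) := by
      rw [hF, Polynomial.map_prod]
      refine Finset.prod_congr rfl fun σ _ => ?_
      rw [Polynomial.map_sub, Polynomial.map_X, Polynomial.map_C]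
      rfl
    rw [h1, Polynomial.coeff_map]
    exact Subtype.property _
  have hFg : ∀ τ : Gl p K, F.map (τ : K →+* K) = F := by
    intro τ
    rw [hF, Polynomial.map_prod]
    refine Fintype.prod_equiv (Equiv.mulLeft τ) _ _ fun σ => ?_
    rw [Polynomial.map_sub, Polynomial.map_X, Polynomial.map_C]
    rfl
  have hFc : ∀ n, ∃ c : ZMod p, cst p K c = F.coeff n := by
    intro n
    have h1 := hFS n
    rw [hS] at h1
    obtain ⟨g, hg⟩ := fixed_oc p K ⟨F.coeff n, h1.2⟩ (fun σ => by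
      apply Subtype.ext
      rw [act_coe]
      have h2 := congrArg (fun q : Polynomial K => q.coeff n) (hFg σ)
      rw [Polynomial.coeff_map] at h2
      exact h2)
    have hg' : F.coeff n = algebraMap (Rx p) K g := congrArg Subtype.val hg
    have h2 := regInf_poly T g (by rw [← hg']; exact h1.1)
    rw [Polynomial.eq_C_of_natDegree_eq_zero h2] at hg'
    exact ⟨_, hg'.symm⟩
  have hlift : F ∈ Polynomial.lifts (cst p K) := by
    rw [Polynomial.lifts_iff_coeff_lifts]
    intro n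
    exact hFc n
  rw [Polynomial.mem_lifts] at hlift
  obtain ⟨G, hG⟩ := hlift
  have hmonic : F.Monic := by
    rw [hF]
    exact Polynomial.monic_prod_of_monic _ _ fun σ _ => Polynomial.monic_X_sub_C _
  refine trf_pow_of_alg p K z G ?_ ?_
  · rintro rfl
    rw [Polynomial.map_zero] at hG
    exact hmonic.ne_zero hG.symm
  · rw [← Polynomial.eval_map, hG, hF, Polynomial.eval_prod]
    refine Finset.prod_eq_zero (Finset.mem_univ (1 : Gl p K)) ?_
    rw [Polynomial.eval_sub, Polynomial.eval_X, Polynomial.eval_C]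
    exact sub_self _

/-! ### roots of unity -/

theorem trf_isUnit_sub {A : Type} [CommRing A] [IsDomain A] {m : ℕ} (hm0 : 0 < m)
    (hm : IsUnit (m : A)) {a b : A} (ha : a ^ m = 1) (hb : b ^ m = 1) (hab : a ≠ b) :
    IsUnit (a - b) := by
  obtain ⟨ξ, hξ⟩ : ∃ ξ : A, ξ = a * b ^ (m - 1) := ⟨_, rfl⟩
  have hmul : b * ξ = a := by
    rw [hξ]
    have e1 : b * (a * b ^ (m - 1)) = a * b ^ (m - 1 + 1) := by
      rw [pow_succ]
      ring
    rw [e1, Nat.sub_add_cancel hm0, hb, mul_one]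
  have hξ1 : ξ ^ m = 1 := by
    rw [hξ, mul_pow, ha, one_mul, ← pow_mul, mul_comm, pow_mul, hb, one_pow]
  have hξne : ξ ≠ 1 := by
    intro h
    rw [h, mul_one] at hmul
    exact hab hmul.symm
  have e1 : a - b = -(b * (1 - ξ)) := by
    rw [← hmul]
    ring
  rw [e1]
  exact ((IsUnit.of_pow_eq_one hb hm0.ne').mul (isUnit_one_sub m hm ξ hξ1 hξne)).neg

theorem trf_pos {m : ℕ} (hm : m.Coprime p) : 0 < m := by
  rcases Nat.eq_zero_or_pos m with h | h
  · rw [h, Nat.coprime_zero_left] at hm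
    exact absurd hm (Fact.out : p.Prime).one_lt.ne'
  · exact h

/-- roots of unity congruent modulo a proper ideal are equal -/
theorem trf_root_eq {m : ℕ} (hm : m.Coprime p) (P : Ideal (Oc p M)) (hP : P ≠ ⊤) {a b : Oc p M}
    (ha : a ^ m = 1) (hb : b ^ m = 1) (hab : a - b ∈ P) : a = b := by
  by_contra hne
  exact hP (Ideal.eq_top_of_isUnit_mem _ hab
    (trf_isUnit_sub (trf_pos p hm) (natCast_isUnit p m hm _) ha hb hne))

/-- an automorphism which acts trivially modulo a place at infinity fixes `ζ` -/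
theorem inert_fix [FiniteDimensional (Fx p) K] [IsGalois (Fx p) K] (T : Tw p K M) (m : ℕ)
    (hm : m.Coprime p) (ζ : K) (hζ : IsPrimitiveRoot ζ m) (P : Ideal (Oc p M))
    (hP : P.IsMaximal) (σ : Gl p K) (h : ∀ s : Oc p M, act p M (T.b σ) s - s ∈ P) :
    σ ζ = ζ := by
  obtain ⟨z, hz⟩ : ∃ z : Oc p M, (z : M) = T.e ζ :=
    ⟨⟨T.e ζ, trf_pow_int M (trf_pos p hm) (by rw [← map_pow, hζ.pow_eq_one, map_one])⟩, rfl⟩
  have hz1 : z ^ m = 1 := by
    apply Subtype.ext
    push_cast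
    rw [hz, ← map_pow, hζ.pow_eq_one, map_one]
  have h1 := trf_root_eq p M hm P hP.ne_top (a := act p M (T.b σ) z) (b := z)
    (by rw [← map_pow, hz1, map_one]) hz1 (h z)
  have h2 : T.b σ (z : M) = (z : M) := congrArg (fun s : Oc p M => (s : M)) h1
  rw [hz, T.hb] at h2
  exact T.e.injective h2

/-- every automorphism is the product of one stabilising a given place at infinity and of one
fixing `ζ` -/
theorem stab_mul [FiniteDimensional (Fx p) K] [IsGalois (Fx p) K] [FiniteDimensional (Fx p) M]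
    [IsGalois (Fx p) M] (T : Tw p K M) (m : ℕ)
    (hm : m.Coprime p) (ζ : K) (hζ : IsPrimitiveRoot ζ m) (P : Ideal (Oc p M))
    (hP : P.IsMaximal) (hx : xo p M ∈ P) (σ : Gl p K) :
    ∃ τ : Gl p K, (∀ s : Oc p M, s ∈ P ↔ act p M (T.b τ) s ∈ P) ∧ (τ⁻¹ * σ) ζ = ζ := by
  obtain ⟨i, hi⟩ := cyc_conj p K m hm ζ hζ.pow_eq_one σ
  obtain ⟨δ, hδ⟩ := exists_frob p M P hP hx
  obtain ⟨z, hz⟩ : ∃ z : Oc p M, (z : M) = T.e ζ :=
    ⟨⟨T.e ζ, trf_pow_int M (trf_pos p hm) (by rw [← map_pow, hζ.pow_eq_one, map_one])⟩, rfl⟩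
  have hz1 : z ^ m = 1 := by
    apply Subtype.ext
    push_cast
    rw [hz, ← map_pow, hζ.pow_eq_one, map_one]
  have h1 : act p M δ z = z ^ p := trf_root_eq p M hm P hP.ne_top
    (by rw [← map_pow, hz1, map_one]) (by rw [← pow_mul, mul_comm, pow_mul, hz1, one_pow])
    (hδ.2.2 z)
  have h2 : ∀ i : ℕ, act p M (δ ^ i) z = z ^ p ^ i := by
    intro i
    induction i with
    | zero => rw [pow_zero, pow_zero, pow_one, act_one]
    | succ i ih => rw [pow_succ', act_mul, ih, map_pow, h1, ← pow_mul, ← pow_succ']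
  have h3 : ∀ (i : ℕ) (s : Oc p M), s ∈ P ↔ act p M (δ ^ i) s ∈ P := by
    intro i
    induction i with
    | zero => intro s; rw [pow_zero, act_one]
    | succ i ih => intro s; rw [pow_succ', act_mul, frob_mem p M P δ hδ, ← ih]
  refine ⟨T.b.symm (δ ^ i), fun s => ?_, ?_⟩
  · rw [MulEquiv.apply_symm_apply]
    exact h3 i s
  · have h4 : (T.b.symm (δ ^ i)) ζ = ζ ^ p ^ i := by
      apply T.e.injective
      rw [← T.hb, MulEquiv.apply_symm_apply, map_pow, ← hz]
      exact congrArg (fun s : Oc p M => (s : M)) (h2 i)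
    rw [AlgEquiv.mul_apply, hi, ← h4]
    exact (T.b.symm (δ ^ i)).symm_apply_apply ζ

end Pool.Agent.AB
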