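import Pool.Agent.Lib.MP_5de024_nt.C.KDefs

/-!
# Traces near `x = 0` (piece TrG)
-/

set_option autoImplicit false
set_option linter.unusedSectionVars false

namespace Pool.Agent.AB

open Pointwise in
/-- an automorphism which preserves the invariants of a finite group `N` and is trivial on them
modulo a prime is trivial modulo the prime up to an element of `N` -/
theorem trg_abs {B N : Type*} [CommRing B] [Group N] [Finite N] [MulSemiringAction N B]
    (P : Ideal B) [hP : P.IsPrime] (g : B ≃+* B)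
    (h1 : ∀ s : B, (∀ n : N, n • s = s) → ∀ n : N, n • g s = g s)
    (h2 : ∀ s : B, (∀ n : N, n • s = s) → ∀ n : N, n • g.symm s = g.symm s)
    (h3 : ∀ s : B, (∀ n : N, n • s = s) → g s - s ∈ P) :
    ∃ n : N, ∀ s : B, n • g s - s ∈ P := by
  let A := FixedPoints.subring B N
  have hA : ∀ a : A, ∀ n : N, n • (a : B) = a := fun a n => a.2 n
  have hinv : Algebra.IsInvariant A B N := ⟨fun b hb => ⟨⟨b, hb⟩, rfl⟩⟩
  let Q : Ideal B := P.comap g.symm.toRingHom
  have hQ : Q.IsPrime := Ideal.IsPrime.comap _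
  have hQm : ∀ s, s ∈ Q ↔ g.symm s ∈ P := fun s => Iff.rfl
  have hun : Q.under A = P.under A := by
    ext a
    have h4 := h3 _ (h2 _ (hA a))
    rw [RingEquiv.apply_symm_apply] at h4
    change g.symm (a : B) ∈ P ↔ (a : B) ∈ P
    constructor
    · intro h5
      have := P.add_mem h4 h5
      rwa [sub_add_cancel] at this
    · intro h5
      have := P.sub_mem h5 h4
      rwa [sub_sub_cancel] at this
  obtain ⟨n, hn⟩ := Algebra.IsInvariant.exists_smul_of_under_eq A B N Q P hun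
  let h : B ≃+* B := g.trans (MulSemiringAction.toRingEquiv N B n)
  have hh : ∀ s, h s = n • g s := fun s => rfl
  have hhP : ∀ s, h s ∈ P ↔ s ∈ P := by
    intro s
    rw [hh, hn, Ideal.smul_mem_pointwise_smul_iff, hQm, RingEquiv.symm_apply_apply]
    rw [← hn]
  have hmap : P = P.map (h : B →+* B) := by
    rw [Ideal.map_comap_of_equiv]
    ext s
    change s ∈ P ↔ h.symm s ∈ P
    rw [← hhP (h.symm s), RingEquiv.apply_symm_apply]
  let p := P.under A
  have hover : P.LiesOver p := ⟨rfl⟩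
  let f0 : (B ⧸ P) ≃+* (B ⧸ P) := Ideal.quotientEquiv P P h hmap
  have hf0 : ∀ s : B, f0 (Ideal.Quotient.mk P s) = Ideal.Quotient.mk P (h s) := fun s => rfl
  let f : (B ⧸ P) ≃ₐ[A ⧸ p] (B ⧸ P) := AlgEquiv.ofRingEquiv (f := f0) (by
    intro x
    obtain ⟨a, rfl⟩ := Ideal.Quotient.mk_surjective x
    change f0 (Ideal.Quotient.mk P (a : B)) = Ideal.Quotient.mk P (a : B)
    rw [hf0, Ideal.Quotient.eq, hh, h1 _ (hA a) n]
    exact h3 _ (hA a))
  obtain ⟨m, hm⟩ := Ideal.Quotient.stabilizerHom_surjective N p P f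
  refine ⟨(m : N)⁻¹ * n, fun s => ?_⟩
  have h5 : Ideal.Quotient.mk P ((m : N) • s) = Ideal.Quotient.mk P (h s) := by
    have := Ideal.Quotient.stabilizerHom_apply P p N m s
    rw [hm] at this
    exact this.symm
  rw [Ideal.Quotient.eq] at h5
  have h6 : (m : N) • P = P := m.2
  have h7 : (m : N)⁻¹ • P = P := inv_smul_eq_iff.2 h6.symm
  have h8 := Ideal.smul_mem_pointwise_smul (m : N)⁻¹ _ _ h5
  rw [h7, smul_sub, inv_smul_smul] at h8
  have h9 := P.neg_mem h8
  rwa [neg_sub, hh, ← mul_smul] at h9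


variable (p : ℕ) [Fact p.Prime] (M : Type) [Field M] [Algebra (Fx p) M] [Algebra (Rx p) M]
  [IsScalarTower (Rx p) (Fx p) M]

/-- if the automorphisms `τ ∈ H` acting trivially modulo some place over `x = 0` lie in `N`,
then two different classes of `H` modulo `N` differ on the `N`-invariants modulo every place
over `x = 0` -/
theorem tr_sep [FiniteDimensional (Fx p) M] [IsGalois (Fx p) M] (H N : Subgroup (Gl p M))
    (hNH : N ≤ H) (hin : ∀ P : Ideal (Oc p M), P.IsMaximal → xo p M ∈ P → ∀ τ ∈ H,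
      (∀ s : Oc p M, act p M τ s - s ∈ P) → τ ∈ N)
    (P : Ideal (Oc p M)) (hP : P.IsMaximal) (hx : xo p M ∈ P) (σ τ : Gl p M) (hσ : σ ∈ H)
    (hτ : τ ∈ H) (hστ : σ⁻¹ * τ ∉ N)
    (hnorm : ∀ h ∈ H, ∀ n ∈ N, h * n * h⁻¹ ∈ N) :
    ∃ s : Oc p M, (∀ n ∈ N, act p M n s = s) ∧ act p M σ s - act p M τ s ∉ P := by
  by_contra hcon
  push Not at hcon
  let _ : MulSemiringAction N (Oc p M) :=
    { smul := fun n s => act p M (n : Gl p M) s
      one_smul := fun s => act_one p M s
      mul_smul := fun a b s => act_mul p M a b s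
      smul_zero := fun a => map_zero _
      smul_add := fun a => map_add _
      smul_one := fun a => map_one _
      smul_mul := fun a => map_mul _ }
  have hsm : ∀ (n : N) (s : Oc p M), n • s = act p M (n : Gl p M) s := fun _ _ => rfl
  have hfin : Finite N := inferInstance
  have hg : σ⁻¹ * τ ∈ H := H.mul_mem (H.inv_mem hσ) hτ
  let P' : Ideal (Oc p M) := P.comap (act p M σ).toRingEquiv.toRingHom
  have hP'm : ∀ s, s ∈ P' ↔ act p M σ s ∈ P := fun s => Iff.rfl
  have hP' : P'.IsMaximal := Ideal.comap_isMaximal_of_equiv (act p M σ).toRingEquiv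
  have hP'p : P'.IsPrime := hP'.isPrime
  have hx' : xo p M ∈ P' := by
    rw [hP'm, act_xo]
    exact hx
  have hsymm : ∀ (h : Gl p M) (s : Oc p M), (act p M h).symm s = act p M h⁻¹ s := by
    intro h s
    rw [AlgEquiv.symm_apply_eq, ← act_mul, mul_inv_cancel, act_one]
  have hpres : ∀ h ∈ H, ∀ s : Oc p M, (∀ n : N, n • s = s) →
      ∀ n : N, n • act p M h s = act p M h s := by
    intro h hh s hs n
    have h1 : h⁻¹ * n * h ∈ N := by
      have := hnorm h⁻¹ (H.inv_mem hh) n n.2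
      rwa [inv_inv] at this
    have h2 := hs ⟨_, h1⟩
    rw [hsm] at h2 ⊢
    rw [← act_mul, show (n : Gl p M) * h = h * (h⁻¹ * n * h) by group, act_mul]
    exact congrArg _ h2
  obtain ⟨n, hn⟩ := trg_abs (N := N) P' (act p M (σ⁻¹ * τ)).toRingEquiv
    (fun s hs n => hpres _ hg s hs n)
    (fun s hs n => by
      change n • (act p M (σ⁻¹ * τ)).symm s = (act p M (σ⁻¹ * τ)).symm s
      rw [hsymm]
      exact hpres _ (H.inv_mem hg) s hs n)
    (fun s hs => by
      change act p M (σ⁻¹ * τ) s - s ∈ P'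
      rw [hP'm, map_sub, ← act_mul, mul_inv_cancel_left]
      have h1 := hcon s fun n hn => hs ⟨n, hn⟩
      have h2 := P.neg_mem h1
      rwa [neg_sub] at h2)
  have h1 : (n : Gl p M) * (σ⁻¹ * τ) ∈ N := by
    refine hin P' hP' hx' _ (H.mul_mem (hNH n.2) hg) fun s => ?_
    rw [act_mul]
    exact hn s
  have h2 := N.mul_mem (N.inv_mem n.2) h1
  rw [inv_mul_cancel_left] at h2
  exact hστ h2

/-- the invariants of a subgroup in the ring of integers -/
noncomputable def trgFix (H : Subgroup (Gl p M)) : Subalgebra (Rx p) (Oc p M) where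
  carrier := {s | ∀ h ∈ H, act p M h s = s}
  mul_mem' ha hb h hh := by rw [map_mul, ha h hh, hb h hh]
  add_mem' ha hb h hh := by rw [map_add, ha h hh, hb h hh]
  algebraMap_mem' r h _ := (act p M h).commutes r

theorem trg_mem_fix {H : Subgroup (Gl p M)} {s : Oc p M} :
    s ∈ trgFix p M H ↔ ∀ h ∈ H, act p M h s = s := Iff.rfl

theorem trg_conj (H N : Subgroup (Gl p M)) (hnorm : ∀ h ∈ H, ∀ n ∈ N, h * n * h⁻¹ ∈ N)
    {h : Gl p M} (hh : h ∈ H) {c : Oc p M} (hc : ∀ n ∈ N, act p M n c = c) :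
    ∀ n ∈ N, act p M n (act p M h c) = act p M h c := by
  intro n hn
  have h1 : h⁻¹ * n * h ∈ N := by
    have := hnorm h⁻¹ (H.inv_mem hh) n hn
    rwa [inv_inv] at this
  have h2 := hc _ h1
  rw [← act_mul, show n * h = h * (h⁻¹ * n * h) by group, act_mul, h2]

/-- the trace is invariant under `σ` -/
theorem trg_sum_inv (N : Subgroup (Gl p M)) (σ : Gl p M) (hσp : σ ^ p ∈ N) {c : Oc p M}
    (hc : ∀ n ∈ N, act p M n c = c) :
    act p M σ (∑ i ∈ Finset.range p, act p M (σ ^ i) c) =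
      ∑ i ∈ Finset.range p, act p M (σ ^ i) c := by
  rw [map_sum]
  have h1 : ∀ i ∈ Finset.range p, act p M σ (act p M (σ ^ i) c) = act p M (σ ^ (i + 1)) c := by
    intro i _
    rw [← act_mul, ← pow_succ']
  rw [Finset.sum_congr rfl h1]
  have h2 := Finset.sum_range_succ (fun i => act p M (σ ^ i) c) p
  have h3 := Finset.sum_range_succ' (fun i => act p M (σ ^ i) c) p
  rw [h2] at h3
  have h4 : act p M (σ ^ p) c = act p M (σ ^ 0) c := by
    rw [hc _ hσp, pow_zero, act_one]
  rw [h4] at h3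
  exact (add_right_cancel h3).symm

/-- the trace is invariant under `H` -/
theorem trg_sum_fix (H N : Subgroup (Gl p M)) (hnorm : ∀ h ∈ H, ∀ n ∈ N, h * n * h⁻¹ ∈ N)
    (σ : Gl p M) (hσ : σ ∈ H) (hσp : σ ^ p ∈ N) (hgen : ∀ h ∈ H, ∃ i : ℕ, h * σ ^ i ∈ N)
    {c : Oc p M} (hc : ∀ n ∈ N, act p M n c = c) :
    ∑ i ∈ Finset.range p, act p M (σ ^ i) c ∈ trgFix p M H := by
  rw [trg_mem_fix]
  intro h hh
  set t := ∑ i ∈ Finset.range p, act p M (σ ^ i) c with ht
  have h1 : act p M σ t = t := trg_sum_inv p M N σ hσp hc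
  have h2 : ∀ i : ℕ, act p M (σ ^ i) t = t := by
    intro i
    induction i with
    | zero => rw [pow_zero, act_one]
    | succ i ih => rw [pow_succ, act_mul, h1, ih]
  have h3 : ∀ n ∈ N, act p M n t = t := by
    intro n hn
    rw [ht, map_sum]
    refine Finset.sum_congr rfl fun i _ => ?_
    exact trg_conj p M H N hnorm (H.pow_mem hσ i) hc n hn
  obtain ⟨i, hi⟩ := hgen h hh
  have h4 := h3 _ hi
  rwa [act_mul, h2] at h4

/-- an `N`-invariant whose trace to `H` is a polynomial prime to `x` -/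
theorem tr_elt [FiniteDimensional (Fx p) M] [IsGalois (Fx p) M] (H N : Subgroup (Gl p M))
    (hNH : N ≤ H) (hin : ∀ P : Ideal (Oc p M), P.IsMaximal → xo p M ∈ P → ∀ τ ∈ H,
      (∀ s : Oc p M, act p M τ s - s ∈ P) → τ ∈ N)
    (hnorm : ∀ h ∈ H, ∀ n ∈ N, h * n * h⁻¹ ∈ N) (σ : Gl p M) (hσ : σ ∈ H) (hσN : σ ∉ N)
    (hσp : σ ^ p ∈ N) (hgen : ∀ h ∈ H, ∃ i : ℕ, h * σ ^ i ∈ N) :
    ∃ (c : Oc p M) (s : Rx p), s.eval 0 ≠ 0 ∧ (∀ n ∈ N, act p M n c = c) ∧
      ∑ i ∈ Finset.range p, act p M (σ ^ i) c = algebraMap (Rx p) (Oc p M) s := by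
  classical
  have hp : p.Prime := Fact.out
  -- the powers of `σ` are different modulo `N`
  have hpow : ∀ i j : ℕ, i < j → j < p → σ ^ (j - i) ∉ N := by
    intro i j hij hj hmem
    have hcop : Nat.Coprime (j - i) p := by
      rw [Nat.coprime_comm, hp.coprime_iff_not_dvd]
      intro hd
      have := Nat.le_of_dvd (by omega) hd
      omega
    have h1 := Nat.isCoprime_iff_coprime.2 hcop
    obtain ⟨a, b, hab⟩ := h1
    apply hσN
    have h2 : σ = (σ ^ (j - i)) ^ a * (σ ^ p) ^ b := by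
      rw [← zpow_natCast, ← zpow_natCast, ← zpow_mul, ← zpow_mul, ← zpow_add]
      have : ((j - i : ℕ) : ℤ) * a + (p : ℤ) * b = 1 := by rw [← hab]; ring
      rw [this, zpow_one]
    rw [h2]
    exact N.mul_mem (N.zpow_mem hmem a) (N.zpow_mem hσp b)
  -- the trace is not zero modulo the places over `x = 0`
  have hT : ∀ P : Ideal (Oc p M), P.IsMaximal → xo p M ∈ P → ∃ c : Oc p M,
      (∀ n ∈ N, act p M n c = c) ∧ ∑ i ∈ Finset.range p, act p M (σ ^ i) c ∉ P := by
    intro P hP hx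
    by_contra hcon
    push Not at hcon
    have hPp : P.IsPrime := hP.isPrime
    let φ : Fin p → (trgFix p M N →* (Oc p M ⧸ P)) := fun i =>
      ((Ideal.Quotient.mk P).toMonoidHom.comp
        (act p M (σ ^ (i : ℕ))).toAlgHom.toRingHom.toMonoidHom).comp
          (trgFix p M N).val.toRingHom.toMonoidHom
    have hφ : ∀ (i : Fin p) (s : trgFix p M N),
        φ i s = Ideal.Quotient.mk P (act p M (σ ^ (i : ℕ)) (s : Oc p M)) := fun _ _ => rfl
    have hne : ∀ i j : Fin p, (i : ℕ) < j → φ i ≠ φ j := by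
      intro i j hij heq
      obtain ⟨s, hs, hs'⟩ := tr_sep p M H N hNH hin P hP hx (σ ^ (i : ℕ)) (σ ^ (j : ℕ))
        (H.pow_mem hσ _) (H.pow_mem hσ _) (by
          have h1 : (σ ^ (i : ℕ))⁻¹ * σ ^ (j : ℕ) = σ ^ ((j : ℕ) - i) := by
            rw [inv_mul_eq_iff_eq_mul, ← pow_add]
            congr 1
            omega
          rw [h1]
          exact hpow i j hij j.2) hnorm
      apply hs'
      have h2 := DFunLike.congr_fun heq (⟨s, hs⟩ : trgFix p M N)
      rw [hφ, hφ, Ideal.Quotient.eq] at h2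
      exact h2
    have hinj : Function.Injective φ := by
      intro i j hij
      rcases lt_trichotomy (i : ℕ) j with h | h | h
      · exact absurd hij (hne i j h)
      · exact Fin.ext h
      · exact absurd hij.symm (hne j i h)
    have hli := (linearIndependent_monoidHom (trgFix p M N) (Oc p M ⧸ P)).comp φ hinj
    rw [Fintype.linearIndependent_iff] at hli
    have h0 := hli (fun _ => 1) (by
      funext s
      rw [Finset.sum_apply]
      simp only [Function.comp_apply, one_smul, Pi.zero_apply, hφ]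
      rw [← map_sum, Ideal.Quotient.eq_zero_iff_mem]
      have h1 := hcon s s.2
      rwa [Finset.sum_range] at h1) ⟨0, hp.pos⟩
    exact one_ne_zero h0
  -- the ideal of traces
  by_contra hcon
  push Not at hcon
  let T : Ideal (trgFix p M H) :=
    { carrier := {t | ∃ c : Oc p M, (∀ n ∈ N, act p M n c = c) ∧
        (t : Oc p M) = ∑ i ∈ Finset.range p, act p M (σ ^ i) c}
      zero_mem' := ⟨0, fun n _ => map_zero _, by simp⟩
      add_mem' := by
        rintro a b ⟨c, hc, hc'⟩ ⟨d, hd, hd'⟩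
        refine ⟨c + d, fun n hn => by rw [map_add, hc n hn, hd n hn], ?_⟩
        rw [Subalgebra.coe_add, hc', hd', ← Finset.sum_add_distrib]
        exact Finset.sum_congr rfl fun i _ => (map_add _ _ _).symm
      smul_mem' := by
        rintro r a ⟨c, hc, hc'⟩
        have hr : ∀ h ∈ H, act p M h (r : Oc p M) = r := r.2
        refine ⟨(r : Oc p M) * c, fun n hn => by rw [map_mul, hc n hn, hr n (hNH hn)], ?_⟩
        rw [smul_eq_mul, Subalgebra.coe_mul, hc', Finset.mul_sum]
        refine Finset.sum_congr rfl fun i _ => ?_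
        rw [map_mul, hr _ (H.pow_mem hσ i)] }
  have hTm : ∀ t : trgFix p M H, t ∈ T ↔ ∃ c : Oc p M, (∀ n ∈ N, act p M n c = c) ∧
        (t : Oc p M) = ∑ i ∈ Finset.range p, act p M (σ ^ i) c := fun t => Iff.rfl
  have hI1 : Algebra.IsIntegral (Rx p) (Oc p M) := inferInstance
  have hI2 : Algebra.IsIntegral (Rx p) (trgFix p M H) :=
    Algebra.IsIntegral.of_injective (trgFix p M H).val Subtype.val_injective
  have hI3 : Algebra.IsIntegral (trgFix p M H) (Oc p M) := Algebra.IsIntegral.tower_top (Rx p)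
  have hXmax : (Ideal.span {(Polynomial.X : Rx p)}).IsMaximal :=
    PrincipalIdealRing.isMaximal_of_irreducible Polynomial.irreducible_X
  have hXp : (Ideal.span {(Polynomial.X : Rx p)}).IsPrime := hXmax.isPrime
  have hTX : T.comap (algebraMap (Rx p) (trgFix p M H)) ≤ Ideal.span {(Polynomial.X : Rx p)} := by
    intro s hs
    rw [Ideal.mem_comap, hTm] at hs
    obtain ⟨c, hc, hc'⟩ := hs
    rw [Ideal.mem_span_singleton, Polynomial.X_dvd_iff, Polynomial.coeff_zero_eq_eval_zero]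
    by_contra hne
    exact hcon c s hne hc hc'.symm
  obtain ⟨Q, hTQ, hQ, hQX⟩ := Ideal.exists_ideal_over_prime_of_isIntegral (R := Rx p)
    (S := trgFix p M H) (Ideal.span {(Polynomial.X : Rx p)}) T hTX
  have hbot : (⊥ : Ideal (Oc p M)).comap (algebraMap (trgFix p M H) (Oc p M)) ≤ Q := by
    intro r hr
    rw [Ideal.mem_comap, Ideal.mem_bot] at hr
    have h1 : r = 0 := Subtype.ext hr
    rw [h1]
    exact Q.zero_mem
  obtain ⟨P, -, hP, hPQ⟩ := Ideal.exists_ideal_over_prime_of_isIntegral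
    (R := trgFix p M H) (S := Oc p M) Q ⊥ hbot
  have hPX : P.comap (algebraMap (Rx p) (Oc p M)) = Ideal.span {(Polynomial.X : Rx p)} := by
    rw [← hQX, ← hPQ, Ideal.comap_comap]
    rfl
  have hPmax : P.IsMaximal := Ideal.isMaximal_of_isIntegral_of_isMaximal_comap (R := Rx p) P (by
    rw [hPX]
    exact hXmax)
  have hxP : xo p M ∈ P := by
    have h1 : (Polynomial.X : Rx p) ∈ P.comap (algebraMap (Rx p) (Oc p M)) := by
      rw [hPX]
      exact Ideal.mem_span_singleton_self _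
    exact h1
  obtain ⟨c, hc, hc'⟩ := hT P hPmax hxP
  apply hc'
  have h1 : (⟨_, trg_sum_fix p M H N hnorm σ hσ hσp hgen hc⟩ : trgFix p M H) ∈ T := ⟨c, hc, rfl⟩
  have h2 := hTQ h1
  rw [← hPQ] at h2
  exact h2

/-- an Artin - Schreier generator which is regular near `x = 0` -/
theorem tr_loc [FiniteDimensional (Fx p) M] [IsGalois (Fx p) M] (H N : Subgroup (Gl p M))
    (hNH : N ≤ H) (hin : ∀ P : Ideal (Oc p M), P.IsMaximal → xo p M ∈ P → ∀ τ ∈ H,
      (∀ s : Oc p M, act p M τ s - s ∈ P) → τ ∈ N)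
    (hnorm : ∀ h ∈ H, ∀ n ∈ N, h * n * h⁻¹ ∈ N) (σ : Gl p M) (hσ : σ ∈ H) (hσN : σ ∉ N)
    (hσp : σ ^ p ∈ N) (hgen : ∀ h ∈ H, ∃ i : ℕ, h * σ ^ i ∈ N) :
    ∃ (y : M) (a : Oc p M) (s : Rx p), s.eval 0 ≠ 0 ∧
      y * algebraMap (Rx p) M s = (a : M) ∧ (∀ n ∈ N, n y = y) ∧ σ y = y + 1 := by
  obtain ⟨c, s, hs, hc, hcs⟩ := tr_elt p M H N hNH hin hnorm σ hσ hσN hσp hgen
  have hs0 : s ≠ 0 := by
    rintro rfl
    exact hs (by simp)
  let S : Oc p M := ∑ i ∈ Finset.range p, (i : Oc p M) * act p M (σ ^ i) c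
  have hS : S = ∑ i ∈ Finset.range p, (i : Oc p M) * act p M (σ ^ i) c := rfl
  have hpz : ((p : ℕ) : Oc p M) = 0 := by
    have h1 : ((p : ℕ) : Rx p) = 0 := CharP.cast_eq_zero (Rx p) p
    have h2 := congrArg (algebraMap (Rx p) (Oc p M)) h1
    rwa [map_natCast, map_zero] at h2
  have hσS : act p M σ S = S - algebraMap (Rx p) (Oc p M) s := by
    have h1 : act p M σ S = ∑ i ∈ Finset.range p, (i : Oc p M) * act p M (σ ^ (i + 1)) c := by
      rw [hS, map_sum]
      refine Finset.sum_congr rfl fun i _ => ?_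
      rw [map_mul, map_natCast, ← act_mul, ← pow_succ']
    have h2 := Finset.sum_range_succ (fun i => (i : Oc p M) * act p M (σ ^ i) c) p
    have h3 := Finset.sum_range_succ' (fun i => (i : Oc p M) * act p M (σ ^ i) c) p
    rw [h2, hpz, zero_mul, add_zero, Nat.cast_zero, zero_mul, add_zero] at h3
    have h4 := trg_sum_inv p M N σ hσp hc
    rw [map_sum, hcs] at h4
    have h5 : ∑ i ∈ Finset.range p, act p M (σ ^ (i + 1)) c = algebraMap (Rx p) (Oc p M) s := by
      rw [← h4]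
      refine Finset.sum_congr rfl fun i _ => ?_
      rw [← act_mul, ← pow_succ']
    rw [h1, ← h5, hS, h3, ← Finset.sum_sub_distrib]
    refine Finset.sum_congr rfl fun i _ => ?_
    push_cast
    ring
  have hsM : algebraMap (Rx p) M s ≠ 0 := by
    have h1 : algebraMap (Rx p) M s = algebraMap (Fx p) M (algebraMap (Rx p) (Fx p) s) :=
      IsScalarTower.algebraMap_apply _ _ _ _
    rw [h1, Ne, map_eq_zero]
    intro h2
    exact hs0 ((IsFractionRing.injective (Rx p) (Fx p)) (by rw [h2, map_zero]))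
  have hcomm : ∀ g : Gl p M, g (algebraMap (Rx p) M s) = algebraMap (Rx p) M s := by
    intro g
    rw [IsScalarTower.algebraMap_apply (Rx p) (Fx p) M]
    exact g.commutes _
  refine ⟨-(S : M) / algebraMap (Rx p) M s, -S, s, hs, ?_, fun n hn => ?_, ?_⟩
  · rw [div_mul_cancel₀ _ hsM]
    rfl
  · have h1 : act p M n S = S := by
      rw [hS, map_sum]
      refine Finset.sum_congr rfl fun i _ => ?_
      rw [map_mul, map_natCast, trg_conj p M H N hnorm (H.pow_mem hσ i) hc n hn]
    have h2 : n (S : M) = S := congrArg Subtype.val h1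
    rw [map_div₀, map_neg, hcomm, h2]
  · have h2 : σ (S : M) = S - algebraMap (Rx p) M s := congrArg Subtype.val hσS
    rw [map_div₀, map_neg, hcomm, h2]
    field_simp
    ring

end Pool.Agent.AB
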