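import Pool.Agent.Lib.MP_5de024_nt.C.TrF
import Pool.Agent.Lib.MP_5de024_nt.C.TrG

/-!
# Total ramification at infinity (piece TrI)
-/

set_option autoImplicit false
set_option linter.unusedSectionVars false

namespace Pool.Agent.AB

/-- a proper subgroup of a finite `p`-group is contained in a normal subgroup of index `p` -/
private theorem tri_max (p : ℕ) [Fact p.Prime] (Γ : Type) [Group Γ] [Finite Γ]
    (hΓ : IsPGroup p Γ) (I : Subgroup Γ) (hI : I ≠ ⊤) :
    ∃ (N : Subgroup Γ) (σ : Γ), I ≤ N ∧ N.Normal ∧ σ ∉ N ∧ σ ^ p ∈ N ∧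
      ∀ h : Γ, ∃ i : ℕ, h * σ ^ i ∈ N := by
  have hnil : Group.IsNilpotent Γ := hΓ.isNilpotent
  obtain h | ⟨N, hN, hIN⟩ := eq_top_or_exists_le_coatom I
  · exact absurd h hI
  have hnorm : N.Normal := Subgroup.NormalizerCondition.normal_of_coatom N
    Group.normalizerCondition_of_isNilpotent hN
  have hq : IsPGroup p (Γ ⧸ N) := hΓ.to_quotient N
  have hnt : Nontrivial (Γ ⧸ N) := by
    rw [QuotientGroup.nontrivial_iff]
    exact hN.1
  obtain ⟨n, hn0, hn⟩ := (IsPGroup.nontrivial_iff_card hq).1 hnt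
  have hdvd : p ∣ Nat.card (Γ ⧸ N) := by
    rw [hn]
    exact dvd_pow_self p hn0.ne'
  obtain ⟨g, hg⟩ := exists_prime_orderOf_dvd_card' (G := Γ ⧸ N) p hdvd
  obtain ⟨σ, rfl⟩ := QuotientGroup.mk_surjective g
  have hσN : σ ∉ N := by
    intro h
    rw [(QuotientGroup.eq_one_iff σ).2 h, orderOf_one] at hg
    exact (Fact.out : p.Prime).one_lt.ne hg
  have htop : (Subgroup.zpowers (σ : Γ ⧸ N)).comap (QuotientGroup.mk' N) = ⊤ := by
    refine hN.2 _ (lt_of_le_of_ne ?_ ?_)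
    · intro x hx
      rw [Subgroup.mem_comap, QuotientGroup.mk'_apply, (QuotientGroup.eq_one_iff x).2 hx]
      exact one_mem _
    · intro h
      apply hσN
      rw [h, Subgroup.mem_comap]
      exact Subgroup.mem_zpowers _
  refine ⟨N, σ, hIN, hnorm, hσN, ?_, fun h => ?_⟩
  · rw [← QuotientGroup.eq_one_iff, QuotientGroup.mk_pow, ← hg, pow_orderOf_eq_one]
  · have h1 : h⁻¹ ∈ (Subgroup.zpowers (σ : Γ ⧸ N)).comap (QuotientGroup.mk' N) := by
      rw [htop]
      trivial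
    rw [Subgroup.mem_comap, ← mem_powers_iff_mem_zpowers] at h1
    obtain ⟨i, hi⟩ := h1
    refine ⟨i, ?_⟩
    have h2 : ((σ : Γ ⧸ N)) ^ i = ((h⁻¹ : Γ) : Γ ⧸ N) := hi
    rw [← QuotientGroup.eq_one_iff, QuotientGroup.mk_mul, QuotientGroup.mk_pow, h2,
      ← QuotientGroup.mk_mul, mul_inv_cancel, QuotientGroup.mk_one]

section trans

variable (p : ℕ) [Fact p.Prime] (M : Type) [Field M] [Algebra (Fx p) M] [Algebra (Rx p) M]
  [IsScalarTower (Rx p) (Fx p) M]

private theorem tri_comm : SMulCommClass (Gl p M) (Rx p) M :=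
  ⟨fun σ r k => (σ.restrictScalars (Rx p)).toLinearEquiv.map_smul r k⟩

attribute [local instance] tri_comm

private theorem tri_smul (σ : Gl p M) (s : Oc p M) : σ • s = act p M σ s :=
  Subtype.ext rfl

private theorem tri_inv [FiniteDimensional (Fx p) M] [IsGalois (Fx p) M] :
    Algebra.IsInvariant (Rx p) (Oc p M) (Gl p M) := by
  refine ⟨fun b hb => ?_⟩
  obtain ⟨r, hr⟩ := fixed_oc p M b (fun σ => (tri_smul p M σ b).symm.trans (hb σ))
  exact ⟨r, hr.symm⟩

private theorem tri_under (q : Ideal (Oc p M))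
    (hq : q.IsPrime) (hx : xo p M ∈ q) : q.under (Rx p) = Ideal.span {(Polynomial.X : Rx p)} := by
  have h0 : (Ideal.span {(Polynomial.X : Rx p)}).IsMaximal :=
    PrincipalIdealRing.isMaximal_of_irreducible Polynomial.irreducible_X
  have h1 : Ideal.span {(Polynomial.X : Rx p)} ≤ q.under (Rx p) := by
    rw [Ideal.span_singleton_le_iff_mem]
    exact hx
  exact (h0.eq_of_le (Ideal.IsPrime.ne_top (Ideal.IsPrime.under (Rx p) q)) h1).symm

/-- the Galois group acts transitively on the places over `x = 0` -/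
private theorem tri_trans [FiniteDimensional (Fx p) M] [IsGalois (Fx p) M] (P P' : Ideal (Oc p M))
    (hP : P.IsMaximal) (hx : xo p M ∈ P) (hP' : P'.IsMaximal) (hx' : xo p M ∈ P') :
    ∃ g : Gl p M, ∀ s : Oc p M, s ∈ P' → act p M g s ∈ P := by
  have h1 := tri_inv p M
  have h2 := hP.isPrime
  have h3 := hP'.isPrime
  obtain ⟨g, hg⟩ := Algebra.IsInvariant.exists_smul_of_under_eq (Rx p) (Oc p M) (Gl p M) P' P
    (by rw [tri_under p M P h2 hx, tri_under p M P' h3 hx'])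
  refine ⟨g, fun s hs => ?_⟩
  rw [← tri_smul, hg]
  exact Ideal.smul_mem_pointwise_smul g s P' hs

end trans

variable (p : ℕ) [Fact p.Prime] (K : Type) [Field K] [Algebra (Fx p) K] [Algebra (Rx p) K]
  [IsScalarTower (Rx p) (Fx p) K] (M : Type) [Field M] [Algebra (Fx p) M] [Algebra (Rx p) M]
  [IsScalarTower (Rx p) (Fx p) M]

/-- the inertia subgroup, as a subgroup of `Gl p K` -/
private def triI (T : Tw p K M) (P : Ideal (Oc p M)) : Subgroup (Gl p K) where
  carrier := {σ | ∀ s : Oc p M, act p M (T.b σ) s - s ∈ P}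
  one_mem' := fun s => by
    rw [map_one, act_one, sub_self]
    exact P.zero_mem
  mul_mem' := fun {a b} ha hb s => by
    rw [map_mul, act_mul]
    have h1 := P.add_mem (ha (act p M (T.b b) s)) (hb s)
    rwa [sub_add_sub_cancel] at h1
  inv_mem' := fun {a} ha s => by
    have h1 := ha (act p M (T.b a⁻¹) s)
    rw [← act_mul, ← map_mul, mul_inv_cancel, map_one, act_one] at h1
    have h2 := P.neg_mem h1
    rwa [neg_sub] at h2

/-- the stabiliser of `ζ` -/
private def triG (ζ : K) : Subgroup (Gl p K) where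
  carrier := {σ | σ ζ = ζ}
  one_mem' := rfl
  mul_mem' := fun {a b} ha hb => by
    change (a * b) ζ = ζ
    rw [AlgEquiv.mul_apply]
    change b ζ = ζ at hb
    change a ζ = ζ at ha
    rw [hb, ha]
  inv_mem' := fun {a} ha => by
    change a⁻¹ ζ = ζ
    change a ζ = ζ at ha
    calc a⁻¹ ζ = a⁻¹ (a ζ) := by rw [ha]
      _ = (a⁻¹ * a) ζ := rfl
      _ = ζ := by rw [inv_mul_cancel]; rfl

/-- the automorphisms fixing `ζ` are in the inertia group of every place at infinity -/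
theorem inert_inf [FiniteDimensional (Fx p) K] [IsGalois (Fx p) K] [FiniteDimensional (Fx p) M]
    [IsGalois (Fx p) M] (hNI : NI p K) (T : Tw p K M) (m : ℕ) (hm : m.Coprime p) (ζ : K)
    (hζ : IsPrimitiveRoot ζ m) (hgeo : Geo p K ζ)
    (hpg : ∀ σ : Gl p K, σ ζ = ζ → ∃ n : ℕ, σ ^ p ^ n = 1) (P : Ideal (Oc p M))
    (hP : P.IsMaximal) (hx : xo p M ∈ P) (σ : Gl p K) (hσ : σ ζ = ζ) (s : Oc p M) :
    act p M (T.b σ) s - s ∈ P := by
  have hm0 : 0 < m := by
    rcases Nat.eq_zero_or_pos m with h | h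
    · rw [h, Nat.coprime_zero_left] at hm
      exact absurd hm (Fact.out : p.Prime).one_lt.ne'
    · exact h
  suffices hle : triG p K ζ ≤ triI p K M T P from hle hσ s
  by_contra hnot
  clear hσ s σ
  have hIG : triI p K M T P ≤ triG p K ζ := fun τ hτ =>
    inert_fix p K M T m hm ζ hζ P hP τ hτ
  have hI1 : (triI p K M T P).subgroupOf (triG p K ζ) ≠ ⊤ := by
    rw [Ne, Subgroup.subgroupOf_eq_top]
    exact hnot
  have hpG : IsPGroup p (triG p K ζ) := by
    intro σ
    obtain ⟨n, hn⟩ := hpg σ σ.2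
    refine ⟨n, Subtype.ext ?_⟩
    rw [Subgroup.coe_pow, hn, Subgroup.coe_one]
  -- the data in `Gl p K`
  set H : Subgroup (Gl p K) := triG p K ζ with hH
  obtain ⟨N0, σ0, hIN, hN0, hσN0, hσp0, hgen0⟩ := tri_max p H hpG _ hI1
  set N : Subgroup (Gl p K) := N0.map H.subtype with hN
  set σ : Gl p K := (σ0 : Gl p K) with hσdef
  have hmemN : ∀ τ : H, (τ : Gl p K) ∈ N ↔ τ ∈ N0 := by
    intro τ
    rw [hN, Subgroup.mem_map]
    constructor
    · rintro ⟨τ', h1, h2⟩
      have h3 : τ' = τ := Subtype.ext h2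
      rwa [← h3]
    · intro h
      exact ⟨τ, h, rfl⟩
  have hNH : N ≤ H := by
    rintro τ ⟨τ', -, rfl⟩
    exact τ'.2
  have hσ : σ ∈ H := σ0.2
  have hσN : σ ∉ N := fun h => hσN0 ((hmemN σ0).1 h)
  have hσp : σ ^ p ∈ N := by
    rw [hσdef, ← Subgroup.coe_pow, hmemN]
    exact hσp0
  have hnorm : ∀ h ∈ H, ∀ n ∈ N, h * n * h⁻¹ ∈ N := by
    rintro h hh n ⟨n', hn', rfl⟩
    have h1 := hN0.conj_mem n' hn' ⟨h, hh⟩
    rw [← hmemN, Subgroup.coe_mul, Subgroup.coe_mul, Subgroup.coe_inv] at h1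
    exact h1
  have hgen : ∀ h ∈ H, ∃ i : ℕ, h * σ ^ i ∈ N := by
    intro h hh
    obtain ⟨i, hi⟩ := hgen0 ⟨h, hh⟩
    refine ⟨i, ?_⟩
    rw [← hmemN, Subgroup.coe_mul, Subgroup.coe_pow] at hi
    exact hi
  have hIleN : triI p K M T P ≤ N := by
    intro τ hτ
    refine (hmemN ⟨τ, hIG hτ⟩).2 (hIN ?_)
    rw [Subgroup.mem_subgroupOf]
    exact hτ
  -- the integral generator
  obtain ⟨y, hyN, hyσ⟩ := tr_fin p K hNI H N hNH hnorm σ hσ hσN hσp hgen
  -- the generator regular at infinity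
  have hmap : ∀ (S : Subgroup (Gl p K)) (τ : Gl p K), T.b τ ∈ S.map T.b.toMonoidHom ↔ τ ∈ S := by
    intro S τ
    rw [Subgroup.mem_map]
    constructor
    · rintro ⟨τ', h1, h2⟩
      have h3 : τ' = τ := T.b.injective h2
      rwa [← h3]
    · intro h
      exact ⟨τ, h, rfl⟩
  obtain ⟨y2, a, s, hs, hya, hy2N, hy2σ⟩ := tr_loc p M (H.map T.b.toMonoidHom)
    (N.map T.b.toMonoidHom) (Subgroup.map_mono hNH) (by
      rintro P2 hP2 hx2 τ' ⟨τ, hτ, rfl⟩ htriv
      change T.b τ ∈ N.map T.b.toMonoidHom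
      rw [hmap]
      obtain ⟨g', hg'⟩ := tri_trans p M P P2 hP hx hP2 hx2
      obtain ⟨g, rfl⟩ := T.b.surjective g'
      obtain ⟨τ0, hτ0, hτ0ζ⟩ := stab_mul p K M T m hm ζ hζ P hP hx g
      set g1 : Gl p K := τ0⁻¹ * g with hg1
      have hg1H : g1 ∈ H := hτ0ζ
      have hg1P : ∀ s : Oc p M, s ∈ P2 → act p M (T.b g1) s ∈ P := by
        intro s hs
        rw [hτ0, ← act_mul, ← map_mul, hg1, mul_inv_cancel_left]
        exact hg' s hs
      have hconj : g1 * τ * g1⁻¹ ∈ triI p K M T P := by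
        intro s
        have h1 := hg1P _ (htriv (act p M (T.b g1⁻¹) s))
        have h2 : act p M (T.b g1) (act p M (T.b τ) (act p M (T.b g1⁻¹) s) -
            act p M (T.b g1⁻¹) s) = act p M (T.b (g1 * τ * g1⁻¹)) s - s := by
          rw [map_sub, ← act_mul, ← act_mul, ← act_mul, ← map_mul, ← map_mul, ← map_mul,
            mul_inv_cancel, map_one, act_one]
        rw [← h2]
        exact h1
      have h3 := hnorm g1⁻¹ (H.inv_mem hg1H) _ (hIleN hconj)
      rwa [inv_inv, mul_assoc, mul_assoc (g1 * τ), inv_mul_cancel, mul_one, ← mul_assoc,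
        inv_mul_cancel, one_mul] at h3)
    (by
      rintro h ⟨h', hh', rfl⟩ n ⟨n', hn', rfl⟩
      change T.b h' * T.b n' * (T.b h')⁻¹ ∈ N.map T.b.toMonoidHom
      rw [← map_mul, ← map_inv, ← map_mul, hmap]
      exact hnorm h' hh' n' hn')
    (T.b σ) ((hmap H σ).2 hσ) (fun h => hσN ((hmap N σ).1 h))
    (by rw [← map_pow, hmap]; exact hσp)
    (by
      rintro h ⟨h', hh', rfl⟩
      obtain ⟨i, hi⟩ := hgen h' hh'
      refine ⟨i, ?_⟩
      change T.b h' * (T.b σ) ^ i ∈ N.map T.b.toMonoidHom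
      rw [← map_pow, ← map_mul, hmap]
      exact hi)
  -- the difference
  set y3 : K := T.e.symm y2 with hy3
  have hey3 : T.e y3 = y2 := T.e.apply_symm_apply y2
  have hy3N : ∀ n ∈ N, n y3 = y3 := by
    intro n hn
    apply T.e.injective
    rw [← T.hb, hey3]
    exact hy2N _ ((hmap N n).2 hn)
  have hy3σ : σ y3 = y3 + 1 := by
    apply T.e.injective
    rw [← T.hb, hey3, hy2σ, map_add, map_one, hey3]
  set z0 : K := (y : K) - y3 with hz0
  have hz0N : ∀ n ∈ N, n z0 = z0 := by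
    intro n hn
    rw [hz0, map_sub, hyN n hn, hy3N n hn]
  have hz0σ : σ z0 = z0 := by
    rw [hz0, map_sub, hyσ, hy3σ]
    ring
  have hz0σi : ∀ i : ℕ, (σ ^ i) z0 = z0 := by
    intro i
    induction i with
    | zero => rw [pow_zero]; rfl
    | succ i ih => rw [pow_succ, AlgEquiv.mul_apply, hz0σ, ih]
  have hz0H : ∀ τ : Gl p K, τ ζ = ζ → τ z0 = z0 := by
    intro τ hτ
    obtain ⟨i, hi⟩ := hgen τ hτ
    have h1 := hz0N _ hi
    rwa [AlgEquiv.mul_apply, hz0σi] at h1
  obtain ⟨u, r, a', s', hz0u, hu, hur, hs', hra⟩ := fix_split p K M T m hm0 ζ hζ.pow_eq_one z0 hz0H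
  have hzz : (y : K) - u = r + y3 := by
    have h1 : (y : K) = z0 + y3 := by rw [hz0]; ring
    rw [h1, hz0u]
    ring
  have hreg : T.e ((y : K) - u) * algebraMap (Rx p) M (s * s') =
      ((a' * algebraMap (Rx p) (Oc p M) s + a * algebraMap (Rx p) (Oc p M) s' : Oc p M) : M) := by
    have h1 : ((a' * algebraMap (Rx p) (Oc p M) s + a * algebraMap (Rx p) (Oc p M) s' : Oc p M) : M)
        = (a' : M) * algebraMap (Rx p) M s + (a : M) * algebraMap (Rx p) M s' := rfl
    rw [h1, ← hra, ← hya, hzz, map_add, hey3, map_mul]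
    ring
  have hint : IsIntegral (Rx p) ((y : K) - u) := IsIntegral.sub y.2 hu
  have hss : (s * s').eval 0 ≠ 0 := by
    rw [Polynomial.eval_mul]
    exact mul_ne_zero hs hs'
  have hconst := const_of_reg p K M T _ hint _ _ hss hreg
  have hfix := hgeo _ hconst σ hσ
  rw [map_sub, hyσ, (hur σ hσ).1] at hfix
  have h1 : (1 : K) = 0 := by
    have h2 : (y : K) + 1 - u - ((y : K) - u) = 0 := by rw [hfix, sub_self]
    have h3 : (y : K) + 1 - u - ((y : K) - u) = 1 := by ring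
    rw [h3] at h2
    exact h2
  exact one_ne_zero h1

end Pool.Agent.AB
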